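import Pool.Agent.H953.Spd.Far

/-! The law of the dual configuration. -/

set_option autoImplicit false

namespace H953S

open H974 Finset

theorem dlaw : S_dlaw := by
  intro q S A
  have h1 := Pr_map (fun _ : Edg => 1 - q) dl.toEmbedding S A
  have h2 := Pr_compl (fun _ : Edg => q) S (fun F => A (F.map dl.toEmbedding))
  exact (h1.trans h2).symm

end H953S
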