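import Pool.Agent.H953.Spd.Far

/-!
The crossing of an annulus beyond the correlation length.
-/

set_option autoImplicit false
set_option maxHeartbeats 1000000

namespace H953S

open H974 Finset H12S H342P H984P H984H MeasureTheory

/-- Dual circuits block the crossing. -/
theorem ann_eps {p : ℝ} (h0 : 0 ≤ p) (h1 : p ≤ 1) {N r D : ℕ} (hN : 2 ≤ N) (hr : r + 1 ≤ N)
    (hD : 2 * N ≤ D) :
    Pr (fun _ => p) (blk (0, 0) D) (fun F => Crs 0 0 r D (↑F : Set Edg)) ≤ 20 * eps (1 - p) N := by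
  have hN' : (2:ℤ) ≤ N := by exact_mod_cast hN
  have ok := okq h0 h1
  obtain ⟨n, hn⟩ : ∃ n : ℤ, n = (N:ℤ) := ⟨_, rfl⟩
  rw [← hn] at hN'
  obtain ⟨S, hS⟩ : ∃ S, S = blk (0, 0) D := ⟨_, rfl⟩
  rw [← hS]
  have sub : ∀ a b c d : ℤ, -(2 * n) ≤ a → b ≤ 2 * n → -(2 * n) ≤ c → d ≤ 2 * n →
      RE a b c d ⊆ S := by
    intro a b c d ha hb hc hd
    rw [hS]
    unfold blk
    apply RE_subset <;> simp only <;> omega
  have e1 : Pr (fun _ => p) S (LRc (n - 1) (2 * n - 1) (-(2 * n - 1)) (2 * n - 1)) =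
      hh p n (4 * n - 2) := by
    rw [pr_LRc p (LRE_subset_RE.trans (sub _ _ _ _ (by omega) (by omega) (by omega) (by omega)))]
    congr 1 <;> ring
  have e2 : Pr (fun _ => p) S (LRc (-(2 * n - 1)) (-(n - 1)) (-(2 * n - 1)) (2 * n - 1)) =
      hh p n (4 * n - 2) := by
    rw [pr_LRc p (LRE_subset_RE.trans (sub _ _ _ _ (by omega) (by omega) (by omega) (by omega)))]
    congr 1 <;> ring
  have e3 : Pr (fun _ => p) S (TBc (-(2 * n - 1)) (2 * n - 1) (n - 1) (2 * n - 1)) =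
      hh p n (4 * n - 2) := by
    rw [pr_TBc p (TBE_subset_RE.trans (sub _ _ _ _ (by omega) (by omega) (by omega) (by omega)))]
    congr 1 <;> ring
  have e4 : Pr (fun _ => p) S (TBc (-(2 * n - 1)) (2 * n - 1) (-(2 * n - 1)) (-(n - 1))) =
      hh p n (4 * n - 2) := by
    rw [pr_TBc p (TBE_subset_RE.trans (sub _ _ _ _ (by omega) (by omega) (by omega) (by omega)))]
    congr 1 <;> ring
  have i1 : Pr (fun _ => p) S (fun F => Crs 0 0 r D (↑F : Set Edg)) ≤ Pr (fun _ => p) S (fun F =>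
      ((LRc (n - 1) (2 * n - 1) (-(2 * n - 1)) (2 * n - 1) F ∨
        LRc (-(2 * n - 1)) (-(n - 1)) (-(2 * n - 1)) (2 * n - 1) F)) ∨
      (TBc (-(2 * n - 1)) (2 * n - 1) (n - 1) (2 * n - 1) F ∨
        TBc (-(2 * n - 1)) (2 * n - 1) (-(2 * n - 1)) (-(n - 1)) F)) := by
    apply Pr_mono ok
    rintro F hF ⟨u, v, hu, hv, hrr⟩
    have hnb := not_blk_of_reach (F := F) (R1 := n - 1) (R2 := 2 * n - 1) (by omega)
      (u := u) (by
        unfold inR at hu ⊢
        omega)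
      (v := v) hrr (by omega)
    unfold Blk at hnb
    tauto
  have i2 := Pr_or_le ok S (fun F => LRc (n - 1) (2 * n - 1) (-(2 * n - 1)) (2 * n - 1) F ∨
        LRc (-(2 * n - 1)) (-(n - 1)) (-(2 * n - 1)) (2 * n - 1) F)
      (fun F => TBc (-(2 * n - 1)) (2 * n - 1) (n - 1) (2 * n - 1) F ∨
        TBc (-(2 * n - 1)) (2 * n - 1) (-(2 * n - 1)) (-(n - 1)) F)
  have i3 := Pr_or_le ok S (LRc (n - 1) (2 * n - 1) (-(2 * n - 1)) (2 * n - 1))
    (LRc (-(2 * n - 1)) (-(n - 1)) (-(2 * n - 1)) (2 * n - 1))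
  have i4 := Pr_or_le ok S (TBc (-(2 * n - 1)) (2 * n - 1) (n - 1) (2 * n - 1))
    (TBc (-(2 * n - 1)) (2 * n - 1) (-(2 * n - 1)) (-(n - 1)))
  rw [e1, e2] at i3
  rw [e3, e4] at i4
  have d1 := hh_dual (q := p) (w := n) (h := 4 * n - 2) (by omega) (by omega)
  have d2 : hh (1 - p) (4 * n) (n - 1) ≤ hh (1 - p) (4 * n - 2 + 1) (n - 1) :=
    hh_mono (by linarith) (by linarith) (by omega) (by omega) le_rfl
  have d3 := long_cross (p := 1 - p) (by linarith) (by linarith) hN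
  rw [← hn] at d3
  linarith

theorem ann_three_pow (j : ℕ) : 3 * j ≤ 2 * 2 ^ j := by
  induction j with
  | zero => norm_num
  | succ j ih =>
    rw [pow_succ]
    rcases Nat.eq_zero_or_pos j with h | h
    · subst h; norm_num
    · have : 2 ≤ 2 ^ j := by
        calc 2 = 2 ^ 1 := by norm_num
          _ ≤ 2 ^ j := Nat.pow_le_pow_right (by norm_num) h
      omega

/-- Far beyond the correlation length, around the origin. -/
theorem ann_far {p : ℝ} (h0 : 0 ≤ p) (h1 : p ≤ 1) {r D : ℕ} (hr : 1 ≤ r) (hrD : r ≤ D)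
    (he : eps (1 - p) (r + 1) ≤ 1/100) :
    Pr (fun _ => p) (blk (0, 0) D) (fun F => Crs 0 0 r D (↑F : Set Edg)) ≤
      512 * ((r:ℝ) / D) ^ 3 := by
  have ok := okq h0 h1
  have hr0 : (0:ℝ) < r := by exact_mod_cast hr
  have hD0 : (0:ℝ) < D := by exact_mod_cast (by omega : 0 < D)
  by_cases hc : D < 2 * (r + 1)
  · have h3 : D ≤ 4 * r := by omega
    have h4 : (D:ℝ) ≤ 4 * r := by exact_mod_cast h3
    have h5 : 1 ≤ 4 * ((r:ℝ) / D) := by
      rw [← mul_div_assoc, le_div_iff₀ hD0]; linarith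
    have h6 := one_le_pow₀ h5 (n := 3)
    have h7 : (4 * ((r:ℝ) / D)) ^ 3 = 64 * ((r:ℝ) / D) ^ 3 := by ring
    rw [h7] at h6
    have h8 : (0:ℝ) ≤ ((r:ℝ) / D) ^ 3 := by positivity
    refine (Pr_le_one ok _ _).trans ?_
    linarith
  · -- the dyadic scale
    obtain ⟨j, hj1, hj2⟩ : ∃ j : ℕ, 2 * (2 ^ j * (r + 1)) ≤ D ∧ D < 2 * (2 ^ (j + 1) * (r + 1)) := by
      have hex : ∃ j : ℕ, D < 2 * (2 ^ (j + 1) * (r + 1)) := by
        refine ⟨D, ?_⟩
        have h2 : D < 2 ^ D := Nat.lt_two_pow_self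
        have h3 : 2 ^ D ≤ 2 ^ (D + 1) := Nat.pow_le_pow_right (by norm_num) (by omega)
        nlinarith
      classical
      obtain ⟨j, hj, hmin⟩ : ∃ j, D < 2 * (2 ^ (j + 1) * (r + 1)) ∧
          ∀ i < j, ¬ D < 2 * (2 ^ (i + 1) * (r + 1)) :=
        ⟨Nat.find hex, Nat.find_spec hex, fun i hi => Nat.find_min hex hi⟩
      refine ⟨j, ?_, hj⟩
      rcases Nat.eq_zero_or_pos j with h | h
      · subst h
        rw [pow_zero, one_mul]
        omega
      · have := hmin (j - 1) (by omega)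
        rw [Nat.sub_add_cancel h] at this
        omega
    have hN2 : 2 ≤ 2 ^ j * (r + 1) := by
      calc 2 ≤ r + 1 := by omega
        _ ≤ 2 ^ j * (r + 1) := Nat.le_mul_of_pos_left _ (by positivity)
    have hrN : r + 1 ≤ 2 ^ j * (r + 1) := Nat.le_mul_of_pos_left _ (by positivity)
    have e1 := ann_eps h0 h1 hN2 hrN hj1
    have e2 := H31K.eps_pow2 (p := 1 - p) (by linarith) (by linarith) (by omega) he j
    have e3 : ((1:ℝ) / 4) ^ (2 ^ j) ≤ ((1:ℝ) / 2) ^ (3 * j) := by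
      have : ((1:ℝ) / 4) ^ (2 ^ j) = ((1:ℝ) / 2) ^ (2 * 2 ^ j) := by
        rw [pow_mul]; norm_num
      rw [this]
      exact pow_le_pow_of_le_one (by norm_num) (by norm_num) (ann_three_pow j)
    have e4 : ((1:ℝ) / 2) ^ j ≤ 8 * ((r:ℝ) / D) := by
      have h3 : (D:ℝ) ≤ 8 * (2 ^ j * r) := by
        have : D ≤ 8 * (2 ^ j * r) := by
          have h4 : 2 * (2 ^ (j + 1) * (r + 1)) ≤ 8 * (2 ^ j * r) := by
            rw [pow_succ]
            have : 2 ^ j * (r + 1) ≤ 2 ^ j * (2 * r) := Nat.mul_le_mul_left _ (by omega)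
            nlinarith
          omega
        exact_mod_cast this
      rw [← mul_div_assoc, le_div_iff₀ hD0, one_div, inv_pow, inv_mul_le_iff₀ (by positivity)]
      linarith
    have e5 : ((1:ℝ) / 2) ^ (3 * j) = (((1:ℝ) / 2) ^ j) ^ 3 := by
      rw [← pow_mul, mul_comm]
    have e6 := pow_le_pow_left₀ (by positivity) e4 3
    have e7 : (8 * ((r:ℝ) / D)) ^ 3 = 512 * ((r:ℝ) / D) ^ 3 := by ring
    have e8 : (0:ℝ) < ((1:ℝ) / 4) ^ (2 ^ j) := by positivity
    rw [e5] at e3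
    rw [e7] at e6
    linarith

/-- Translation of the crossing. -/
theorem ann_trl (q : ℝ) (u : Vtx) (r R : ℕ) :
    Pr (fun _ => q) (blk u R) (fun F => Crs u.1 u.2 r R (↑F : Set Edg)) =
      Pr (fun _ => q) (blk (0, 0) R) (fun F => Crs 0 0 r R (↑F : Set Edg)) := by
  have hb : blk u R = (trl u.1 u.2).mp (blk (0, 0) R) := by
    unfold blk
    rw [trl_RE]
    congr 1 <;> simp only <;> ring
  rw [hb, LSym.pr]
  apply Pr_congr
  intro F _
  constructor
  · rintro ⟨x, y, hx, hy, h⟩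
    refine ⟨(x.1 - u.1, x.2 - u.2), (y.1 - u.1, y.2 - u.2), ?_, ?_, ?_⟩
    · unfold inR at hx ⊢
      simp only
      omega
    · simp only
      omega
    · rw [← BS_reach_trl u.1 u.2]
      simpa using h
  · rintro ⟨x, y, hx, hy, h⟩
    refine ⟨(x.1 + u.1, x.2 + u.2), (y.1 + u.1, y.2 + u.2), ?_, ?_, ?_⟩
    · unfold inR at hx ⊢
      simp only
      omega
    · simp only
      omega
    · exact (BS_reach_trl u.1 u.2).2 h

theorem ann : S_ann := by
  obtain ⟨E, hE, hfar⟩ := Pool.Agent.W424.NC.farN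
  refine ⟨E, hE, ?_⟩
  intro q hq0 hq
  obtain ⟨N, hN2, hNE, hN1, heps⟩ := hfar q hq0 hq
  have ht : 0 < (1/2 - q) ^ (4/3 : ℝ) := Real.rpow_pos_of_pos (by linarith) _
  have hNr : (2:ℝ) ≤ N := by exact_mod_cast hN2
  have hc : ((N - 1 : ℕ) : ℝ) = (N:ℝ) - 1 := by
    rw [Nat.cast_sub (by omega)]; norm_num
  refine ⟨N - 1, by omega, ?_, ?_, ?_⟩
  · rw [hc]
    nlinarith
  · rw [hc]
    nlinarith
  · intro u R hR
    have ok := okq hq0 (by linarith : q ≤ 1)
    have h1 : Pr (fun _ => q) (blk u R \ blk u (N - 1))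
        (fun F => Crs u.1 u.2 (N - 1) R (↑F : Set Edg)) ≤
        Pr (fun _ => q) (blk u R) (fun F => Crs u.1 u.2 (N - 1) R (↑F : Set Edg)) := by
      apply Pr_mono_set ok Finset.sdiff_subset
      intro F G hFG _ hF
      exact BS_crs_mono (by exact_mod_cast hFG) hF
    rw [ann_trl] at h1
    refine h1.trans ?_
    apply ann_far hq0 (by linarith) (by omega) hR
    rwa [Nat.sub_add_cancel (by omega)]

end H953S
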