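import Pool.Agent.H953.Spd.Far
import Pool.Graph.R_seed8.H984R4.HN.One

/-!
Upper bound for the probabilities of the visits of a column (`S_up`).
-/

set_option autoImplicit false

namespace H953S

open H974 Finset H12S H342P H984P H984H MeasureTheory

namespace UpAux

/-! ### Numbers -/

theorem pow_step (n : ℕ) : (3/4 : ℝ) * ((n:ℝ) + 1) ^ (-(1/4) : ℝ) ≤
    ((n:ℝ) + 1) ^ (3/4 : ℝ) - (n:ℝ) ^ (3/4 : ℝ) := by
  have h1 : (0:ℝ) < (n:ℝ) + 1 := by positivity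
  have h0 : (0:ℝ) ≤ (n:ℝ) := by positivity
  have h2 : (n:ℝ) ^ (3/4 : ℝ) * ((n:ℝ) + 1) ^ (1/4 : ℝ) ≤ (3/4) * n + (1/4) * ((n:ℝ) + 1) :=
    Real.geom_mean_le_arith_mean2_weighted (by norm_num) (by norm_num) h0 h1.le (by norm_num)
  have h3 : ((n:ℝ) + 1) ^ (3/4 : ℝ) = ((n:ℝ) + 1) * ((n:ℝ) + 1) ^ (-(1/4) : ℝ) := by
    rw [← Real.rpow_one_add' h1.le (by norm_num)]
    norm_num
  have h4 : (n:ℝ) ^ (3/4 : ℝ) = (n:ℝ) ^ (3/4 : ℝ) * ((n:ℝ) + 1) ^ (1/4 : ℝ) *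
      ((n:ℝ) + 1) ^ (-(1/4) : ℝ) := by
    rw [mul_assoc, ← Real.rpow_add h1]
    norm_num
  have h5 : 0 < ((n:ℝ) + 1) ^ (-(1/4) : ℝ) := Real.rpow_pos_of_pos h1 _
  rw [h3, h4]
  nlinarith

theorem neg_pow_le {x y K : ℝ} (_ : 0 < x) (hy : 0 < y) (hK : 1 ≤ K) (h : y ≤ K * x) :
    x ^ (-(1/4) : ℝ) ≤ K * y ^ (-(1/4) : ℝ) := by
  have hK0 : 0 < K := by linarith
  have h1 : y / K ≤ x := by rw [div_le_iff₀ hK0]; linarith
  have h2 : x ^ (-(1/4) : ℝ) ≤ (y / K) ^ (-(1/4) : ℝ) :=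
    Real.rpow_le_rpow_of_nonpos (by positivity) h1 (by norm_num)
  refine h2.trans ?_
  rw [Real.div_rpow hy.le hK0.le, div_eq_mul_inv, mul_comm]
  refine mul_le_mul_of_nonneg_right ?_ (Real.rpow_nonneg hy.le _)
  rw [← Real.rpow_neg hK0.le, neg_neg]
  calc K ^ (1/4 : ℝ) ≤ K ^ (1 : ℝ) := Real.rpow_le_rpow_of_exponent_le hK (by norm_num)
    _ = K := Real.rpow_one K

theorem num {C β E : ℝ} (hC : 0 < C) (hβ : 0 < β) (hE : 1 ≤ E) : ∃ C' : ℝ, 1 ≤ C' ∧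
    ∀ (t : ℝ) (r n : ℕ), 0 < t → (r:ℝ) * t ^ (4/3 : ℝ) ≤ E → 1 ≤ n → n ≤ r →
    ∃ m : ℕ, m ≤ n ∧ (m = 0 → 1 ≤ C' * (n:ℝ) ^ (-(1/4) : ℝ)) ∧
      (1 ≤ m → t ≤ β * (m:ℝ) ^ (-(3/4) : ℝ) ∧
        C * (m:ℝ) ^ (-(1/4) : ℝ) ≤ C' * (n:ℝ) ^ (-(1/4) : ℝ)) := by
  set G : ℝ := E / β ^ (4/3 : ℝ) with hG
  have hβ' : 0 < β ^ (4/3 : ℝ) := Real.rpow_pos_of_pos hβ _
  have hG0 : 0 < G := by positivity
  refine ⟨(1 + C) * (2 * G + 1), by nlinarith, ?_⟩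
  intro t r n ht hr hn hnr
  have ht' : 0 < t ^ (4/3 : ℝ) := Real.rpow_pos_of_pos ht _
  set X : ℝ := (β / t) ^ (4/3 : ℝ) with hX
  have hX0 : 0 < X := Real.rpow_pos_of_pos (by positivity) _
  have hX1 : X * t ^ (4/3 : ℝ) = β ^ (4/3 : ℝ) := by
    rw [hX, Real.div_rpow hβ.le ht.le]; field_simp
  have hn0 : (0:ℝ) < n := by exact_mod_cast hn
  have hnG : (n:ℝ) ≤ G * X := by
    have h1 : (n:ℝ) * t ^ (4/3 : ℝ) ≤ E :=
      (mul_le_mul_of_nonneg_right (by exact_mod_cast hnr) ht'.le).trans hr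
    have h2 : G * X * t ^ (4/3 : ℝ) = E := by
      rw [mul_assoc, hX1, hG]; field_simp
    rw [← h2] at h1
    exact le_of_mul_le_mul_right h1 ht'
  have hnn : 0 < (n:ℝ) ^ (-(1/4) : ℝ) := Real.rpow_pos_of_pos hn0 _
  refine ⟨min ⌊X⌋₊ n, min_le_right _ _, ?_, ?_⟩
  · intro h0
    have h1 : ⌊X⌋₊ = 0 := by
      rcases min_choice ⌊X⌋₊ n with h | h <;> omega
    have h2 : X < 1 := Nat.floor_eq_zero.1 h1
    have h3 : (n:ℝ) ≤ (2 * G + 1) * 1 := by nlinarith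
    have h4 := neg_pow_le one_pos hn0 (by linarith : 1 ≤ 2 * G + 1) h3
    rw [Real.one_rpow] at h4
    have : (2 * G + 1) * (n:ℝ) ^ (-(1/4) : ℝ) ≤ (1 + C) * (2 * G + 1) * (n:ℝ) ^ (-(1/4) : ℝ) := by
      have : 0 < (2 * G + 1) * (n:ℝ) ^ (-(1/4) : ℝ) := by positivity
      nlinarith
    linarith
  · intro h1
    set m := min ⌊X⌋₊ n with hm
    have hmX : (m:ℝ) ≤ X := by
      have h2 : m ≤ ⌊X⌋₊ := min_le_left _ _
      exact (Nat.le_floor_iff hX0.le).1 h2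
    have hm0 : (0:ℝ) < m := by exact_mod_cast h1
    refine ⟨?_, ?_⟩
    · have h2 : (m:ℝ) ^ (3/4 : ℝ) ≤ β / t := by
        have h3 : (m:ℝ) ^ (3/4 : ℝ) ≤ X ^ (3/4 : ℝ) := Real.rpow_le_rpow hm0.le hmX (by norm_num)
        rw [hX, ← Real.rpow_mul (by positivity)] at h3
        norm_num at h3
        exact h3
      have h4 : 0 < (m:ℝ) ^ (3/4 : ℝ) := Real.rpow_pos_of_pos hm0 _
      rw [Real.rpow_neg hm0.le, ← div_eq_mul_inv, le_div_iff₀ h4]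
      rw [le_div_iff₀ ht] at h2
      linarith
    · have h2 : (n:ℝ) ≤ (2 * G + 1) * m := by
        rcases min_choice ⌊X⌋₊ n with h | h
        · have h3 : X < (m:ℝ) + 1 := by rw [hm, h]; exact Nat.lt_floor_add_one X
          have h4 : (1:ℝ) ≤ m := by exact_mod_cast h1
          nlinarith
        · have h3 : (m:ℝ) = n := by rw [hm, h]
          rw [h3]; nlinarith
      have h3 := neg_pow_le hm0 hn0 (by linarith : 1 ≤ 2 * G + 1) h2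
      have h4 : C * (m:ℝ) ^ (-(1/4) : ℝ) ≤ C * ((2 * G + 1) * (n:ℝ) ^ (-(1/4) : ℝ)) :=
        mul_le_mul_of_nonneg_left h3 hC.le
      have : 0 < (2 * G + 1) * (n:ℝ) ^ (-(1/4) : ℝ) := by positivity
      nlinarith

/-! ### Probabilities -/

theorem two_le {C : ℝ} {q : unitInterval} (hq : (q:ℝ) < 1/2) {B : ℝ} {m : ℕ}
    {β : ℝ}
    (h2 : ∀ q : ℝ, 0 ≤ q → q ≤ 1/2 → ∀ n : ℕ, 1 ≤ n →
      1/2 - q ≤ β * (n:ℝ) ^ (-(3/4) : ℝ) → ∀ u p : Vtx, Inc u p →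
      Pr (fun _ => q) (blk u n) (fun F => Two u p n (↑F : Set Edg)) ≤ C * (n:ℝ) ^ (-(1/4) : ℝ))
    (hm0 : m = 0 → 1 ≤ B) (hm1 : 1 ≤ m → 1/2 - (q:ℝ) ≤ β * (m:ℝ) ^ (-(3/4) : ℝ) ∧
        C * (m:ℝ) ^ (-(1/4) : ℝ) ≤ B) (u p : Vtx) (hu : Inc u p) :
    Pr (fun _ => (q:ℝ)) (blk u m) (fun F => Two u p m (↑F : Set Edg)) ≤ B := by
  rcases Nat.eq_zero_or_pos m with h | h
  · exact (Pr_le_one (fun _ => ⟨q.2.1, q.2.2⟩) _ _).trans (hm0 h)
  · obtain ⟨h3, h4⟩ := hm1 h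
    exact (h2 q q.2.1 hq.le m h h3 u p hu).trans h4

theorem op_inter {S T : Finset Edg} (h : T ⊆ S) (ω : Conf) : op T ω = op S ω ∩ T := by
  ext e
  rw [Finset.mem_inter, mem_op, mem_op]
  exact ⟨fun h1 => ⟨⟨h h1.1, h1.2⟩, h1.1⟩, fun h1 => ⟨h1.2, h1.1.2⟩⟩

/-- The dominating sequence. -/
noncomputable def sq (M : ℝ) (r y : ℕ) : ℝ :=
  if y ≤ r then M * (((y:ℝ) + 1) ^ (3/4 : ℝ) - (y:ℝ) ^ (3/4 : ℝ))
  else M * (r:ℝ) ^ (-(1/4) : ℝ) * (r:ℝ) ^ 2 * (1 / ((y:ℝ) - 1) - 1 / (y:ℝ))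

theorem sq_nonneg' {M : ℝ} (hM : 0 ≤ M) {r : ℕ} (hr : 1 ≤ r) (y : ℕ) : 0 ≤ sq M r y := by
  unfold sq
  split_ifs with h
  · refine mul_nonneg hM (sub_nonneg.2 ?_)
    exact Real.rpow_le_rpow (by positivity) (by linarith) (by norm_num)
  · have h1 : (1:ℝ) < y := by exact_mod_cast (by omega : 1 < y)
    refine mul_nonneg (by positivity) (sub_nonneg.2 ?_)
    exact one_div_le_one_div_of_le (by linarith) (by linarith)

theorem sq_head (M : ℝ) (r : ℕ) : ∑ y ∈ range (r + 1), sq M r y = M * ((r:ℝ) + 1) ^ (3/4 : ℝ) := by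
  have h1 : ∀ y ∈ range (r + 1), sq M r y =
      (fun k : ℕ => M * (k:ℝ) ^ (3/4 : ℝ)) (y + 1) - (fun k : ℕ => M * (k:ℝ) ^ (3/4 : ℝ)) y := by
    intro y hy
    rw [mem_range] at hy
    unfold sq
    rw [if_pos (by omega)]
    push_cast
    ring
  rw [sum_congr rfl h1, sum_range_sub (fun k : ℕ => M * (k:ℝ) ^ (3/4 : ℝ)) (r + 1)]
  push_cast
  rw [Real.zero_rpow (by norm_num)]
  ring

theorem sq_tail {M : ℝ} (hM : 0 ≤ M) {r : ℕ} (hr : 1 ≤ r) (n : ℕ) :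
    ∑ i ∈ range n, sq M r (i + (r + 1)) ≤ M * (r:ℝ) ^ (3/4 : ℝ) := by
  have hr0 : (0:ℝ) < r := by exact_mod_cast hr
  set L : ℝ := M * (r:ℝ) ^ (-(1/4) : ℝ) * (r:ℝ) ^ 2 with hL
  have hL0 : 0 ≤ L := by positivity
  have h1 : ∀ i ∈ range n, sq M r (i + (r + 1)) =
      (fun k : ℕ => -(L * (1 / ((k:ℝ) + r)))) (i + 1) - (fun k : ℕ => -(L * (1 / ((k:ℝ) + r)))) i := by
    intro i _
    unfold sq
    rw [if_neg (by omega)]
    push_cast
    rw [show (i:ℝ) + ((r:ℝ) + 1) - 1 = i + r by ring, show (i:ℝ) + ((r:ℝ) + 1) = i + 1 + r by ring]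
    ring
  rw [sum_congr rfl h1, sum_range_sub (fun k : ℕ => -(L * (1 / ((k:ℝ) + r)))) n]
  have h2 : 0 ≤ L * (1 / ((n:ℝ) + r)) := by positivity
  have h3 : L * (1 / (r:ℝ)) = M * (r:ℝ) ^ (3/4 : ℝ) := by
    rw [hL]
    have h4 : (r:ℝ) ^ (3/4 : ℝ) = (r:ℝ) * (r:ℝ) ^ (-(1/4) : ℝ) := by
      rw [← Real.rpow_one_add' hr0.le (by norm_num)]
      norm_num
    rw [h4]
    field_simp
  push_cast
  rw [zero_add, h3]
  linarith

theorem sq_sum {M : ℝ} (hM : 0 ≤ M) {r : ℕ} (hr : 1 ≤ r) :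
    Summable (sq M r) ∧ ∑' y, sq M r y ≤ 3 * M * (r:ℝ) ^ (3/4 : ℝ) := by
  have hr0 : (1:ℝ) ≤ r := by exact_mod_cast hr
  have h1 : Summable fun i => sq M r (i + (r + 1)) :=
    summable_of_sum_range_le (fun i => sq_nonneg' hM hr _) (sq_tail hM hr)
  have h2 : Summable (sq M r) := (summable_nat_add_iff (r + 1)).1 h1
  refine ⟨h2, ?_⟩
  rw [← h2.sum_add_tsum_nat_add (r + 1), sq_head]
  have h3 : ∑' i, sq M r (i + (r + 1)) ≤ M * (r:ℝ) ^ (3/4 : ℝ) :=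
    Real.tsum_le_of_sum_range_le (fun i => sq_nonneg' hM hr _) (sq_tail hM hr)
  have h4 : ((r:ℝ) + 1) ^ (3/4 : ℝ) ≤ 2 * (r:ℝ) ^ (3/4 : ℝ) := by
    calc ((r:ℝ) + 1) ^ (3/4 : ℝ) ≤ (2 * (r:ℝ)) ^ (3/4 : ℝ) :=
          Real.rpow_le_rpow (by positivity) (by linarith) (by norm_num)
      _ = 2 ^ (3/4 : ℝ) * (r:ℝ) ^ (3/4 : ℝ) := Real.mul_rpow (by norm_num) (by positivity)
      _ ≤ 2 * (r:ℝ) ^ (3/4 : ℝ) := by
          refine mul_le_mul_of_nonneg_right ?_ (by positivity)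
          calc (2:ℝ) ^ (3/4 : ℝ) ≤ (2:ℝ) ^ (1 : ℝ) :=
                Real.rpow_le_rpow_of_exponent_le (by norm_num) (by norm_num)
            _ = 2 := Real.rpow_one 2
  nlinarith

end UpAux

open UpAux

theorem up (h1 : S_vt) (h2 : S_twoup) (h3 : S_ann) : S_up := by
  obtain ⟨C, β, hC, hβ, htwo⟩ := h2
  obtain ⟨E, hE, hann⟩ := h3
  obtain ⟨C', hC', hnum⟩ := num hC hβ hE
  have hC0 : 0 < C' := by linarith
  refine ⟨3 * (1024 * C') * E, by positivity, fun q hq => ?_⟩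
  have ht : 0 < 1/2 - (q:ℝ) := by linarith
  have hok : Ok (fun _ : Edg => (q:ℝ)) := fun _ => ⟨q.2.1, q.2.2⟩
  obtain ⟨r, hr1, -, hrE, hcr⟩ := hann q q.2.1 hq
  have hr0 : (0:ℝ) < r := by exact_mod_cast hr1
  obtain ⟨hsum, hle⟩ := sq_sum (M := 1024 * C') (by positivity) hr1
  refine ⟨sq (1024 * C') r, sq_nonneg' (by positivity) hr1, hsum, hle.trans ?_, ?_⟩
  · -- the sum
    have h4 : (r:ℝ) ^ (3/4 : ℝ) * (1/2 - (q:ℝ)) ≤ E := by
      have h5 : ((r:ℝ) * (1/2 - (q:ℝ)) ^ (4/3 : ℝ)) ^ (3/4 : ℝ) ≤ E ^ (3/4 : ℝ) :=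
        Real.rpow_le_rpow (by positivity) hrE (by norm_num)
      rw [Real.mul_rpow hr0.le (by positivity), ← Real.rpow_mul ht.le] at h5
      norm_num at h5
      refine (le_of_eq ?_).trans (h5.trans ?_)
      · norm_num
      · calc E ^ (3/4 : ℝ) ≤ E ^ (1 : ℝ) := Real.rpow_le_rpow_of_exponent_le hE (by norm_num)
          _ = E := Real.rpow_one E
    rw [le_div_iff₀ ht]
    calc 3 * (1024 * C') * (r:ℝ) ^ (3/4 : ℝ) * (1/2 - (q:ℝ)) =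
        3 * (1024 * C') * ((r:ℝ) ^ (3/4 : ℝ) * (1/2 - (q:ℝ))) := by ring
      _ ≤ 3 * (1024 * C') * E := mul_le_mul_of_nonneg_left h4 (by positivity)
  · intro x y c
    set σ : St := ((x, (y:ℤ)), c) with hσ
    have hinc : Inc σ.1 (face σ) := one_inc σ
    by_cases hyr : y ≤ r
    · have hsq : sq (1024 * C') r y =
          1024 * C' * (((y:ℝ) + 1) ^ (3/4 : ℝ) - (y:ℝ) ^ (3/4 : ℝ)) := if_pos hyr
      have hst := pow_step y
      have hy1 : (0:ℝ) < (y:ℝ) + 1 := by positivity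
      by_cases hy : y ≤ 1
      · have h4 : (lw q).real {ω | Vis ω σ} ≤ 1 := measureReal_le_one
        have h5 : (y:ℝ) + 1 ≤ 2 * 1 := by
          have : (y:ℝ) ≤ 1 := by exact_mod_cast hy
          linarith
        have h6 := neg_pow_le one_pos hy1 (by norm_num : (1:ℝ) ≤ 2) h5
        rw [Real.one_rpow] at h6
        rw [hsq]
        nlinarith
      · push Not at hy
        obtain ⟨m, hmn, hm0, hm1⟩ := hnum (1/2 - (q:ℝ)) r (y - 1) ht hrE (by omega) (by omega)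
        have h4 : (lw q).real {ω | Vis ω σ} ≤ C' * ((y - 1 : ℕ):ℝ) ^ (-(1/4) : ℝ) := by
          refine le_trans ?_ (two_le hq htwo hm0 hm1 σ.1 (face σ) hinc)
          rw [← lw_fin]
          refine measureReal_mono (fun ω hω => ?_)
          exact (h1 ω σ hω).1 m (by show (m:ℤ) + 1 ≤ (y:ℤ); omega)
        have h5 : (y:ℝ) + 1 ≤ 3 * ((y - 1 : ℕ):ℝ) := by
          exact_mod_cast (by omega : y + 1 ≤ 3 * (y - 1))
        have h6 := neg_pow_le (by exact_mod_cast (by omega : 0 < y - 1) : (0:ℝ) < ((y - 1 : ℕ):ℝ)) hy1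
          (by norm_num : (1:ℝ) ≤ 3) h5
        rw [hsq]
        have h7 := mul_le_mul_of_nonneg_left h6 hC0.le
        have h8 := mul_le_mul_of_nonneg_left hst hC0.le
        have h9 : 0 ≤ C' * ((y:ℝ) + 1) ^ (-(1/4) : ℝ) := by positivity
        linarith
    · push Not at hyr
      have hsq : sq (1024 * C') r y = 1024 * C' * (r:ℝ) ^ (-(1/4) : ℝ) * (r:ℝ) ^ 2 *
          (1 / ((y:ℝ) - 1) - 1 / (y:ℝ)) := if_neg (by omega)
      obtain ⟨m, hmn, hm0, hm1⟩ := hnum (1/2 - (q:ℝ)) r r ht hrE hr1 le_rfl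
      obtain ⟨R, hR⟩ : ∃ R : ℕ, y = R + 1 := ⟨y - 1, by omega⟩
      have hrR : r ≤ R := by omega
      have hA := two_le hq htwo hm0 hm1 σ.1 (face σ) hinc
      have hB := hcr σ.1 R hrR
      have hsub1 : blk σ.1 m ⊆ blk σ.1 r := RE_subset (by omega) (by omega) (by omega) (by omega)
      have hsub2 : blk σ.1 r ⊆ blk σ.1 R := RE_subset (by omega) (by omega) (by omega) (by omega)
      have h4 : (lw q).real {ω | Vis ω σ} ≤ (C' * (r:ℝ) ^ (-(1/4) : ℝ)) * (512 * ((r:ℝ) / R) ^ 3) := by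
        have h5 : (lw q).real {ω | Vis ω σ} ≤ Pr (fun _ => (q:ℝ)) (blk σ.1 R)
            (fun F => Two σ.1 (face σ) m (↑(F ∩ blk σ.1 m) : Set Edg) ∧
              Crs σ.1.1 σ.1.2 r R (↑(F ∩ (blk σ.1 R \ blk σ.1 r)) : Set Edg)) := by
          rw [← lw_fin]
          refine measureReal_mono (fun ω hω => ?_)
          obtain ⟨h6, h7⟩ := h1 ω σ hω
          have h8 := h6 m (by show (m:ℤ) + 1 ≤ (y:ℤ); omega)
          have h9 := h7 r R hrR (by show (R:ℤ) + 1 ≤ (y:ℤ); omega)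
          rw [op_inter (hsub1.trans hsub2)] at h8
          rw [op_inter (S := blk σ.1 R) sdiff_subset] at h9
          exact ⟨h8, h9⟩
        refine h5.trans ?_
        rw [Pr_indep (S := blk σ.1 m) (T := blk σ.1 R \ blk σ.1 r) (hsub1.trans hsub2) sdiff_subset
          (disjoint_sdiff.mono_left hsub1)
          (fun F _ => by rw [inter_assoc, inter_self]) (fun F _ => by rw [inter_assoc, inter_self])]
        have h6 : Pr (fun _ => (q:ℝ)) (blk σ.1 R)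
            (fun F => Two σ.1 (face σ) m (↑(F ∩ blk σ.1 m) : Set Edg)) =
            Pr (fun _ => (q:ℝ)) (blk σ.1 m) (fun F => Two σ.1 (face σ) m (↑F : Set Edg)) := by
          rw [Pr_local (hsub1.trans hsub2) (fun F _ => by rw [inter_assoc, inter_self])]
          exact Pr_congr fun F hF => by rw [inter_eq_left.2 hF]
        have h7 : Pr (fun _ => (q:ℝ)) (blk σ.1 R)
            (fun F => Crs σ.1.1 σ.1.2 r R (↑(F ∩ (blk σ.1 R \ blk σ.1 r)) : Set Edg)) =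
            Pr (fun _ => (q:ℝ)) (blk σ.1 R \ blk σ.1 r)
              (fun F => Crs σ.1.1 σ.1.2 r R (↑F : Set Edg)) := by
          rw [Pr_local (S' := blk σ.1 R \ blk σ.1 r) sdiff_subset
            (fun F _ => by rw [inter_assoc, inter_self])]
          exact Pr_congr fun F hF => by rw [inter_eq_left.2 hF]
        rw [h6, h7]
        exact mul_le_mul hA hB (Pr_nonneg hok _ _) (by positivity)
      refine h4.trans ?_
      rw [hsq, hR]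
      have hR0 : (0:ℝ) < R := by exact_mod_cast (by omega : 0 < R)
      have hR1 : (1:ℝ) ≤ R := by exact_mod_cast (by omega : 1 ≤ R)
      have hrR' : (r:ℝ) / R ≤ 1 := by
        rw [div_le_one hR0]; exact_mod_cast hrR
      have hrR0 : 0 ≤ (r:ℝ) / R := by positivity
      have h5 : ((r:ℝ) / R) ^ 3 ≤ ((r:ℝ) / R) ^ 2 :=
        pow_le_pow_of_le_one hrR0 hrR' (by norm_num)
      have h6 : ((r:ℝ) / R) ^ 2 ≤ 2 * ((r:ℝ) ^ 2 * (1 / ((R:ℝ) + 1 - 1) - 1 / ((R:ℝ) + 1))) := by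
        have : 2 * ((r:ℝ) ^ 2 * (1 / ((R:ℝ) + 1 - 1) - 1 / ((R:ℝ) + 1))) =
            ((r:ℝ) / R) ^ 2 * (2 * R / (R + 1)) := by
          rw [add_sub_cancel_right]; field_simp; ring
        rw [this]
        refine le_mul_of_one_le_right (by positivity) ?_
        rw [le_div_iff₀ (by positivity)]
        linarith
      push_cast
      have h7 : 0 ≤ C' * (r:ℝ) ^ (-(1/4) : ℝ) := by positivity
      nlinarith [mul_le_mul_of_nonneg_left (h5.trans h6) h7]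

end H953S
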