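import Pool.Agent.H953.Spd.Far

/-!
A visit implies two arms and an open crossing of an annulus.
-/

set_option autoImplicit false

namespace H953S

open H974 Finset H12S H342P H984P H984H MeasureTheory

theorem VT_row {a b c d : ℤ} {e : Edg} (he : e ∈ RE a b c d) : c ≤ e.2.1 := by
  obtain ⟨x, y, t⟩ := e
  cases t
  · rw [mem_RE_false] at he
    exact he.2.2.1
  · rw [mem_RE_true] at he
    exact he.2.2.1

theorem VT_opn {ω : Conf} {e : Edg} (he : 1 ≤ e.2.1) : e ∈ H984H.opn ω ↔ ω e = true := by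
  unfold H984H.opn
  rw [Set.mem_ofPred_eq]
  constructor
  · rintro (⟨h, -⟩ | ⟨-, -, h⟩)
    · omega
    · exact h
  · intro h
    exact Or.inr ⟨by omega, by omega, h⟩

theorem VT_op {ω : Conf} {S : Finset Edg} (hS : ∀ e ∈ S, 1 ≤ e.2.1) :
    (↑(op S ω) : Set Edg) = H984H.opn ω ∩ ↑S := by
  ext e
  rw [Finset.mem_coe, mem_op, Set.mem_inter_iff, Finset.mem_coe]
  constructor
  · rintro ⟨h1, h2⟩
    exact ⟨(VT_opn (hS e h1)).mpr h2, h1⟩
  · rintro ⟨h1, h2⟩
    exact ⟨h2, (VT_opn (hS e h2)).mp h1⟩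

theorem VT_last {G : Set Edg} {a b c d : ℤ} {u v : Vtx} (hu : inR a b c d u) (h : Reach G u v) :
    ∃ x, inR a b c d x ∧ Reach (G \ ↑(RE a b c d)) x v := by
  induction h with
  | refl => exact ⟨u, hu, Reach.refl _ _⟩
  | @tail w w' _ hs ih =>
    obtain ⟨x, hx, hr⟩ := ih
    obtain ⟨e, he, hcase⟩ := hs
    by_cases hR : e ∈ RE a b c d
    · refine ⟨w', ?_, Reach.refl _ _⟩
      obtain ⟨x0, y0, t⟩ := e
      unfold inR
      cases t
      · rw [mem_RE_false] at hR
        simp only [src_mk, tgt_false] at hcase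
        rcases hcase with ⟨-, h4⟩ | ⟨h3, -⟩
        · rw [← h4]; simp only; omega
        · rw [← h3]; simp only; omega
      · rw [mem_RE_true] at hR
        simp only [src_mk, tgt_true] at hcase
        rcases hcase with ⟨-, h4⟩ | ⟨h3, -⟩
        · rw [← h4]; simp only; omega
        · rw [← h3]; simp only; omega
    · exact ⟨x, hx, hr.trans (Adj.reach ⟨e, ⟨he, hR⟩, hcase⟩)⟩

theorem vt (h : S_vis) : S_vt := by
  intro ω σ hσ
  obtain ⟨h1, h2, -⟩ := (h ω σ).mp hσ
  have hr : Reach (H984H.opn ω) σ.1 (0, 0) := h1.symm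
  have hd : DReach (H984H.opn ω)ᶜ (face σ) (0, 0) := h2.symm
  constructor
  · intro n hn
    rcases Nat.eq_zero_or_pos n with rfl | hpos
    · refine ⟨⟨σ.1, ?_, Reach.refl _ _⟩, face σ, ?_, DReach.refl _ _⟩
      · unfold Far
        left
        simp
      · unfold FarF inF
        push_cast
        omega
    · have hS : ∀ e ∈ blk σ.1 n, 1 ≤ e.2.1 := by
        intro e he
        have := VT_row he
        omega
      rw [VT_op hS]
      have hm : (0:ℤ) < (n:ℤ) := by exact_mod_cast hpos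
      refine (two_local hm (H984H.opn ω)).mp ⟨⟨(0, 0), ?_, hr⟩, (0, 0), ?_, hd⟩
      · unfold Far
        simp only
        omega
      · unfold FarF inF
        simp only
        omega
  · intro r R hrR hR
    have hr0 : (r:ℤ) ≤ R := by exact_mod_cast hrR
    have hS : ∀ e ∈ blk σ.1 R \ blk σ.1 r, 1 ≤ e.2.1 := by
      intro e he
      have := VT_row (Finset.mem_sdiff.mp he).1
      omega
    obtain ⟨w, -, hw2, hw3⟩ := first_exit (a := σ.1.1 - R) (b := σ.1.1 + R) (c := σ.1.2 - R)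
      (d := σ.1.2 + R) (by unfold inR; omega) hr (by simp only; omega)
    obtain ⟨x, hx, hxw⟩ := VT_last (a := σ.1.1 - r) (b := σ.1.1 + r) (c := σ.1.2 - r)
      (d := σ.1.2 + r) (by unfold inR; omega) hw3
    refine ⟨x, w, hx, by omega, hxw.mono ?_⟩
    rw [VT_op hS]
    rintro e ⟨⟨he1, he2⟩, he3⟩
    refine ⟨he1, ?_⟩
    rw [Finset.mem_coe, Finset.mem_sdiff]
    exact ⟨he2, he3⟩

end H953S
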