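import Pool.Agent.H953.Spd.Two

/-!
Duality for the pivotal edges.
-/

set_option autoImplicit false

namespace H953S

open H974 Finset H12S H342P H984P H984H Q291.EP Q291.NL Q291.AD

namespace DualT

theorem src_dl (e : Edg) : src (dl e) = dsrc e := by
  obtain ⟨x, y, _ | _⟩ := e <;> rfl

theorem tgt_dl (e : Edg) : tgt (dl e) = dtgt e := by
  obtain ⟨x, y, _ | _⟩ := e <;> simp

theorem dsrc_dl (e : Edg) : dsrc (dl e) = ((src e).1 - 1, (src e).2 - 1) := by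
  obtain ⟨x, y, _ | _⟩ := e <;> simp

theorem dtgt_dl (e : Edg) : dtgt (dl e) = ((tgt e).1 - 1, (tgt e).2 - 1) := by
  obtain ⟨x, y, _ | _⟩ := e <;> simp

theorem dl_dl_mem {a b c d : ℤ} {e : Edg} (h : e ∈ RE a b c d) :
    dl (dl e) ∈ RE (a - 1) (b - 1) (c - 1) (d - 1) := by
  obtain ⟨x, y, _ | _⟩ := e
  · simp only [RE, Finset.mem_filter, Finset.mem_product, Finset.mem_Icc, Finset.mem_univ,
      and_true, Bool.false_eq_true, if_false, dl_f, dl_t] at h ⊢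
    omega
  · simp only [RE, Finset.mem_filter, Finset.mem_product, Finset.mem_Icc, Finset.mem_univ,
      and_true, if_true, dl_f, dl_t] at h ⊢
    omega

/-- closed dual paths are open paths of the dual configuration -/
theorem dreach_reach {E E' : Set Edg} (h : ∀ e ∈ E, dl e ∈ E') {p g : Vtx} (hr : DReach E p g) :
    Reach E' p g := by
  refine Relation.ReflTransGen.mono ?_ _ _ hr
  rintro x y ⟨e, he, h1⟩
  exact ⟨dl e, h e he, by rw [src_dl, tgt_dl]; exact h1⟩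

theorem reach_dreach {E E' : Set Edg} (h : ∀ e ∈ E, ∃ e' ∈ E', dl e' = e) {p g : Vtx}
    (hr : Reach E p g) : DReach E' p g := by
  refine Relation.ReflTransGen.mono ?_ _ _ hr
  rintro x y ⟨e, he, h1⟩
  obtain ⟨e', he', rfl⟩ := h e he
  exact ⟨e', he', by rw [src_dl, tgt_dl] at h1; exact h1⟩

theorem reach_shift {E E' : Set Edg} (h : ∀ e ∈ E, dl e ∈ E') {u w : Vtx} (hr : Reach E u w) :
    DReach E' (u.1 - 1, u.2 - 1) (w.1 - 1, w.2 - 1) := by
  refine Relation.ReflTransGen.lift (fun v : Vtx => ((v.1 - 1, v.2 - 1) : Vtx)) ?_ u w hr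
  rintro x y ⟨e, he, h1⟩
  refine ⟨dl e, h e he, ?_⟩
  rw [dsrc_dl, dtgt_dl]
  rcases h1 with ⟨rfl, rfl⟩ | ⟨rfl, rfl⟩
  · exact Or.inl ⟨rfl, rfl⟩
  · exact Or.inr ⟨rfl, rfl⟩

/-- the dual configuration -/
noncomputable def ds (S H : Finset Edg) : Finset Edg := (S \ H).map dl.toEmbedding

theorem mem_ds {S H : Finset Edg} {e : Edg} : dl e ∈ ds S H ↔ e ∈ S ∧ e ∉ H := by
  unfold ds
  rw [Finset.mem_map]
  constructor
  · rintro ⟨e', h, h1⟩
    have h2 : dl e' = dl e := h1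
    rw [dl.injective h2] at h
    exact Finset.mem_sdiff.1 h
  · intro h
    exact ⟨e, Finset.mem_sdiff.2 h, rfl⟩

theorem mem_mp {T : Finset Edg} {e : Edg} : dl e ∈ T.map dl.toEmbedding ↔ e ∈ T :=
  Finset.mem_map' dl.toEmbedding

theorem dl_surj (e : Edg) : ∃ g, dl g = e := ⟨dl.symm e, dl.apply_symm_apply e⟩

theorem mix_ds {S T G F : Finset Edg} :
    mix (T.map dl.toEmbedding) (ds S G) (ds S F) = ds S (mix T G F) := by
  ext e
  obtain ⟨g, rfl⟩ := dl_surj e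
  rw [mem_mix, mem_mp, mem_ds, mem_ds, mem_ds, mem_mix]
  tauto

theorem adm_ds {S F D G : Finset Edg} (h : Adm F D G) :
    Adm (ds S F) (D.map dl.toEmbedding) (ds S G) := by
  intro e he
  obtain ⟨g, rfl⟩ := dl_surj e
  rw [mem_mp] at he
  rw [mem_ds, mem_ds, h g he]

theorem pC_pO {a b c d a' b' c' d' : ℤ} {I J : Vtx → Prop} {u p : Vtx} {f : Edg}
    {S H : Finset Edg} (hT : ∀ e, dl e ∈ RE a' b' c' d' → e ∈ S)
    (h : pC (RE a b c d) I (RE a' b' c' d') J u p f (↑H : Set Edg)) :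
    pO (RE a' b' c' d') J (RE (a - 1) (b - 1) (c - 1) (d - 1))
      (fun w => I (w.1 + 1, w.2 + 1)) p (u.1 - 1, u.2 - 1) (dl f) (↑(ds S H) : Set Edg) := by
  obtain ⟨⟨g, hg, h1⟩, h2, w, hw, h3⟩ := h
  refine ⟨⟨g, hg, dreach_reach ?_ h1⟩, ?_, (w.1 - 1, w.2 - 1), ?_, reach_shift ?_ h3⟩
  · rintro e ⟨he1, he2⟩
    refine ⟨?_, he1⟩
    by_cases hef : e = f
    · rw [hef]; exact Set.mem_insert _ _
    · right
      show dl e ∈ ds S H
      rw [mem_ds]
      exact ⟨hT e he1, fun h => he2 ⟨h, hef⟩⟩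
  · rintro ⟨g', hg', h4⟩
    apply h2
    refine ⟨g', hg', reach_dreach ?_ h4⟩
    rintro e ⟨⟨he1, he2⟩, he3⟩
    obtain ⟨g, rfl⟩ := dl_surj e
    have he1' : dl g ∈ ds S H := he1
    rw [mem_ds] at he1'
    refine ⟨g, ⟨he3, ?_⟩, rfl⟩
    rintro (h5 | h5)
    · exact he2 (congrArg dl h5)
    · exact he1'.2 h5
  · show I (w.1 - 1 + 1, w.2 - 1 + 1)
    rw [sub_add_cancel, sub_add_cancel]
    exact hw
  · rintro e ⟨⟨he1, he2⟩, he3⟩
    refine ⟨dl_dl_mem he3, ?_⟩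
    rintro (h5 | h5)
    · exact he2 (dl.injective h5)
    · have h6 : dl e ∈ ds S H := h5
      rw [mem_ds] at h6
      exact h6.2 he1

theorem na {x y : ℤ} (h1 : x ≤ y + 1) (h2 : y ≤ x + 1) : x.natAbs ≤ y.natAbs + 1 := by omega

theorem dist1 {u p : Vtx} (hup : Inc u p) (g : Edg) :
    D1 p (dl g) ≤ D1 u g + 1 ∧ D1 u g ≤ D1 p (dl g) + 1 := by
  obtain ⟨u1, u2⟩ := u
  obtain ⟨p1, p2⟩ := p
  obtain ⟨x, y, s⟩ := g
  obtain ⟨x', y', s', e⟩ : ∃ x' y' s', dl (x, y, s) = (x', y', s') := ⟨_, _, _, rfl⟩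
  have h1 : (x' = x ∨ x' = x - 1) ∧ (y' = y ∨ y' = y - 1) := by
    cases s
    · rw [dl_f, Prod.mk.injEq, Prod.mk.injEq] at e
      omega
    · rw [dl_t, Prod.mk.injEq, Prod.mk.injEq] at e
      omega
  obtain ⟨i1, i2⟩ : (p1 = u1 ∨ p1 = u1 - 1) ∧ (p2 = u2 ∨ p2 = u2 - 1) := hup
  rw [e]
  show max (x' - p1).natAbs (y' - p2).natAbs ≤ max (x - u1).natAbs (y - u2).natAbs + 1 ∧
    max (x - u1).natAbs (y - u2).natAbs ≤ max (x' - p1).natAbs (y' - p2).natAbs + 1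
  have a1 : (x' - p1).natAbs ≤ (x - u1).natAbs + 1 := na (by omega) (by omega)
  have a2 : (y' - p2).natAbs ≤ (y - u2).natAbs + 1 := na (by omega) (by omega)
  have a3 : (x - u1).natAbs ≤ (x' - p1).natAbs + 1 := na (by omega) (by omega)
  have a4 : (y - u2).natAbs ≤ (y' - p2).natAbs + 1 := na (by omega) (by omega)
  have b1 := le_max_left (x - u1).natAbs (y - u2).natAbs
  have b2 := le_max_right (x - u1).natAbs (y - u2).natAbs
  have b3 := le_max_left (x' - p1).natAbs (y' - p2).natAbs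
  have b4 := le_max_right (x' - p1).natAbs (y' - p2).natAbs
  exact ⟨max_le (by omega) (by omega), max_le (by omega) (by omega)⟩

theorem dist {u p : Vtx} (hup : Inc u p) {f g : Edg} (h : D1 u g ≤ D1 u f) :
    D1 p (dl g) ≤ D1 p (dl f) + 4 := by
  have h1 := (dist1 hup g).1
  have h2 := (dist1 hup f).2
  omega

end DualT

open DualT in
theorem dualT : S_dual := by
  intro τ u p a b c d a' b' c' d' I J S h0 h1 hup _ hT
  rw [P2_map, ← P2_compl τ S (fun F D => ∃ f ∈ S.map dl.toEmbedding,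
    PO (RE a' b' c' d') J (RE (a - 1) (b - 1) (c - 1) (d - 1))
      (fun w => I (w.1 + 1, w.2 + 1)) p (u.1 - 1, u.2 - 1) f (F.map dl.toEmbedding)
      (D.map dl.toEmbedding))]
  apply P2_mono h0 h1
  rintro F D hF hD ⟨f, hfS, hfD, G, T', hadm, hT', hpc⟩
  refine ⟨dl f, mem_mp.2 hfS, mem_mp.2 hfD, ds S G, T'.map dl.toEmbedding, adm_ds hadm, ?_, ?_⟩
  · intro g hg
    obtain ⟨g, rfl⟩ := dl_surj g
    rw [mem_mp] at hg
    exact dist hup (hT' g hg)
  · have h2 := pC_pO (S := S) hT hpc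
    rw [← mix_ds] at h2
    exact h2

end H953S
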