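import Pool.Agent.H953.Spd.Two
import Pool.Graph.R_seed8.H31R3.Kes.Decay

/-!
The probabilities of visits near the critical point: definitions and statements.

Library used: `LRc`, `TBc`, `hh`, `cross_meet`, `pr_LRc`, `pr_TBc`, `hh_mono` (`R_seed8/H974R2`:
`Cross`, `Circ`), `eps` (`Chain`), `eps_pow2` (`R_seed8/H31R3/Kes/Decay`), `longj`, `win_lower`
(`R_seed8/W424/NC/Win`), `farN` (`R_seed8/W424/NC/ArmUp`).
-/

set_option autoImplicit false

namespace H953S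

open H974 Finset H12S H342P H984P H984H MeasureTheory

/-- A visit implies two arms, and an open crossing of an annulus, around the vertex, at scales
smaller than the height. (`S_vis`: the vertex is joined with `(0, 0)` in `opn ω` and the face with
the face `(0, 0)` in the complement; in the boxes considered, of radius less than the height, the
edges of `opn ω` are the open edges of `ω`; `first_exit`, `two_local`.) -/
def S_vt : Prop := ∀ (ω : Conf) (σ : St), Vis ω σ →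
  (∀ n : ℕ, (n:ℤ) + 1 ≤ σ.1.2 → Two σ.1 (face σ) n (↑(op (blk σ.1 n) ω) : Set Edg)) ∧
  ∀ r R : ℕ, r ≤ R → (R:ℤ) + 1 ≤ σ.1.2 →
    Crs σ.1.1 σ.1.2 r R (↑(op (blk σ.1 R \ blk σ.1 r) ω) : Set Edg)

/-- The crossing of an annulus beyond the correlation length. -/
def S_ann : Prop := ∃ E : ℝ, 1 ≤ E ∧ ∀ q : ℝ, 0 ≤ q → q < 1/2 → ∃ r : ℕ, 1 ≤ r ∧
  1 / 2 ≤ (r:ℝ) * (1/2 - q) ^ (4/3 : ℝ) ∧ (r:ℝ) * (1/2 - q) ^ (4/3 : ℝ) ≤ E ∧
  ∀ (u : Vtx) (R : ℕ), r ≤ R →
    Pr (fun _ => q) (blk u R \ blk u r) (fun F => Crs u.1 u.2 r R (↑F : Set Edg)) ≤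
      512 * ((r:ℝ) / R) ^ 3

/-- The dual configuration. -/
noncomputable def dS (S F : Finset Edg) : Finset Edg := (S \ F).map dl.toEmbedding

/-- Open crossings which join the primal arm to the axis. -/
def EvI (x y : ℤ) (a : ℕ) (F : Finset Edg) : Prop :=
  LRc (x - 12 * a) (x + 12 * a) (y - 12 * a) (y - 4 * a) F ∧
    TBc (x - 12 * a) (x + 12 * a) 0 (y - 4 * a) F

/-- Crossings (of the dual configuration `H`) which join the dual arm to the right part of the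
axis. -/
def EvD (x y : ℤ) (a ρ K : ℕ) (H : Finset Edg) : Prop :=
  (LRc (x - 12 * a) (x + 12 * a) (y + 4 * a) (y + 12 * a) H ∧
    TBc (x - 12 * a) (x + 12 * a) (y + 4 * a) (2 * ρ) H) ∧
  (∀ k ≤ K, LRc (x - 4 ^ k * ρ) (x + 4 * (4 ^ k * ρ)) (4 ^ k * ρ) (2 * (4 ^ k * ρ)) H ∧
    TBc x (x + 4 * (4 ^ k * ρ)) (4 ^ k * ρ) (8 * (4 ^ k * ρ)) H) ∧
  TBc (x + 4 ^ K * ρ) (x + 4 * (4 ^ K * ρ)) 0 (2 * (4 ^ K * ρ)) H

/-- Gluing. Primal: the arm of `RA` meets the first crossing of `EvI`, which meets the second one,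
which ends on the axis at a point `(x', 0)` with `x' ≤ 0` (`cross_meet` in `R_seed8/H974R2/Circ.lean`).
Dual (in the dual configuration `H = dS S (op S ω)`; `dl e` for `e ∈ S`, `ω e = false`, at heights
`≥ 0` gives a dual step across an edge which is not in `opn ω`): the dual arm of `RA` meets the
first crossing, this one the second one, this one the crossing `LRc` for `k = 0`, this one the
`TBc` for `k = 0`, this one the `LRc` for `k = 1`, …, the `LRc` for `k = K` meets the last `TBc`, which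
ends at a face `(x', 0)` with `x' ≥ 0`, from which one goes across the closed edge of the axis to
`(x', -1)`, then to `(0, -1)` and to `(0, 0)`. -/
def S_glue : Prop := ∀ (ω : Conf) (x y : ℤ) (a ρ K : ℕ) (S : Finset Edg), 1 ≤ a → 30 * a ≤ y →
  y ≤ 60 * a → x + 12 * a ≤ 0 → 100 * a ≤ ρ → 0 ≤ x + 4 ^ K * ρ →
  (∀ e, dl e ∈ DR (x, y) a → e ∈ S) → RA (x, y) a (↑(op S ω) : Set Edg) →
  EvI x y a (op S ω) → EvD x y a ρ K (dS S (op S ω)) →
    Reach (opn ω) (0, 0) (x, y) ∧ DReach (opn ω)ᶜ (0, 0) (x, y)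

/-- Mixed Harris inequality (`mixed` of `Pool/Agent/H953/Mix.lean`: `RA = A ∧ B`, `A` the primal
arm, `B` the dual arm; `I = EvI` in `S1 = RE (x - 12 a) (x + 12 a) 0 (y - 4 a)`; `D F = EvD (dS S F)` in
`S2 = {e ∈ S | dl e` is in one of the rectangles of `EvD}`). -/
def S_mixE : Prop := ∀ (q : ℝ) (x y : ℤ) (a ρ K : ℕ) (S : Finset Edg), 0 ≤ q → q ≤ 1 → 1 ≤ a →
  30 * a ≤ y → y ≤ 60 * a → 100 * a ≤ ρ →
  RE (x - 9 * (4 ^ K * ρ)) (x + 9 * (4 ^ K * ρ)) (-1) (9 * (4 ^ K * ρ)) ⊆ S →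
  Pr (fun _ => q) S (fun F => RA (x, y) a (↑F : Set Edg)) *
    (Pr (fun _ => q) S (EvI x y a) * Pr (fun _ => q) S (fun F => EvD x y a ρ K (dS S F))) ≤
  Pr (fun _ => q) S (fun F => RA (x, y) a (↑F : Set Edg) ∧ EvI x y a F ∧
    EvD x y a ρ K (dS S F))

/-- Translation and locality of `RA`. -/
def S_ratr : Prop := ∀ (q : ℝ) (x y : ℤ) (a : ℕ) (S : Finset Edg), 1 ≤ a →
  RE (x - 13 * a) (x + 14 * a) (y - 13 * a) (y + 14 * a) ⊆ S →
  Pr (fun _ => q) S (fun F => RA (x, y) a (↑F : Set Edg)) =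
    Pr (fun _ => q) (RE (-(13 * a : ℕ)) (14 * a : ℕ) (-(13 * a : ℕ)) (14 * a : ℕ))
      (fun F => RA (0, 0) a (↑F : Set Edg))

/-- The probability of `EvI` (`win_lower`, Harris). -/
def S_pI : Prop := ∀ β : ℝ, 0 < β → ∃ c : ℝ, 0 < c ∧ ∀ (q : ℝ) (x y : ℤ) (a : ℕ) (S : Finset Edg),
  1/4 ≤ q → q ≤ 1/2 → 1 ≤ a → 1/2 - q ≤ β * (a:ℝ) ^ (-(3/4) : ℝ) → 30 * a ≤ y → y ≤ 60 * a →
  RE (x - 12 * a) (x + 12 * a) 0 y ⊆ S → c ≤ Pr (fun _ => q) S (EvI x y a)

/-- The law of the dual configuration. -/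
def S_dlaw : Prop := ∀ (q : ℝ) (S : Finset Edg) (A : Finset Edg → Prop),
  Pr (fun _ => q) S (fun F => A (dS S F)) = Pr (fun _ => 1 - q) (S.map dl.toEmbedding) A

/-- The probability of `EvD`: the first two crossings by `win_lower` at `1/2` (`hh` increases with
the parameter) and Harris; the others have failure probabilities at most `7 eps`, `11 eps`, `eps`
at the scales `4 ^ k ρ = 2 ^ (m + 2 k) N` (`longj`), with `eps (1 - q) (2 ^ i * N) ≤ (1/4) ^ (2 ^ i) / 25`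
(`eps_pow2`), so they all happen with probability at least `4/5` (union bound), and Harris. -/
def S_pD : Prop := ∀ B : ℕ, ∃ c : ℝ, 0 < c ∧ ∀ (q : ℝ) (x y : ℤ) (a ρ K N m : ℕ)
  (S : Finset Edg), 0 ≤ q → q ≤ 1/2 → 1 ≤ a → 30 * a ≤ y → y ≤ 60 * a → 100 * a ≤ ρ → ρ ≤ B * a →
  2 ≤ N → ρ = 2 ^ m * N → eps (1 - q) N ≤ 1/100 →
  RE (x - 8 * (4 ^ K * ρ)) (x + 8 * (4 ^ K * ρ)) 0 (8 * (4 ^ K * ρ)) ⊆ S →
  c ≤ Pr (fun _ => 1 - q) S (EvD x y a ρ K)

end H953S
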