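import Pool.Agent.H953.Spd.Fin
import Pool.Graph.R_seed8.H984R4.HN.Perc

/-!
Assembly of the theorem from the pieces.
-/

set_option autoImplicit false

namespace H953S

open H974 Finset H342P H984P H984H MeasureTheory ProbabilityTheory Filter Topology

/-! ### the shift -/

theorem sh_meas (n : ℤ) : Measurable (sh n) := by
  unfold sh
  exact measurable_pi_lambda _ fun e => measurable_pi_apply _

theorem sh_mp (q : unitInterval) (n : ℤ) : MeasurePreserving (sh n) (lw q) (lw q) := by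
  refine ⟨sh_meas n, ?_⟩
  unfold lw Q292.TVX.law
  have hi : Function.Injective (fun e : Edg => ((e.1 + n, e.2.1, e.2.2) : Edg)) := by
    rintro ⟨a, b, c⟩ ⟨a', b', c'⟩ h
    simp only [Prod.mk.injEq] at h
    obtain ⟨h1, h2, h3⟩ := h
    simp only [Prod.mk.injEq]
    exact ⟨by omega, h2, h3⟩
  exact Measure.map_infinitePi_infinitePi_of_inj
    (P := fun _ : Edg => bernoulliMeasure true false q) hi

theorem shS_shS (m n : ℤ) (σ : St) : shS m (shS n σ) = shS (m + n) σ := by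
  obtain ⟨⟨x, y⟩, c⟩ := σ
  simp only [shS, Prod.mk.injEq, and_true]
  ring

theorem shS_zero (σ : St) : shS 0 σ = σ := by
  obtain ⟨⟨x, y⟩, c⟩ := σ
  simp [shS]

theorem visN_iff {n : ℤ} {ω : Conf} {σ : St} : VisN n ω σ ↔ Vis (sh n ω) (shS (-n) σ) := by
  unfold VisN Vis pathN
  constructor
  · rintro ⟨k, hk⟩
    refine ⟨k, ?_⟩
    rw [← hk, shS_shS]
    simp [shS_zero]
  · rintro ⟨k, hk⟩
    refine ⟨k, ?_⟩
    rw [hk, shS_shS]
    simp [shS_zero]

theorem vis_meas (σ : St) : MeasurableSet {ω : Conf | Vis ω σ} := by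
  have : {ω : Conf | Vis ω σ} = ⋃ k : ℕ, {ω : Conf | path ω k = σ} := by
    ext ω
    simp only [Set.mem_ofPred_eq, Set.mem_iUnion, Vis]
  rw [this]
  exact MeasurableSet.iUnion fun k => Perc_meas_path k σ

theorem visN_meas (n : ℤ) (σ : St) : MeasurableSet {ω : Conf | VisN n ω σ} := by
  have : {ω : Conf | VisN n ω σ} = sh n ⁻¹' {ω : Conf | Vis ω (shS (-n) σ)} := by
    ext ω
    exact visN_iff
  rw [this]
  exact sh_meas n (vis_meas _)

theorem ev_meas (σ : St) : MeasurableSet {ω : Conf | EV ω σ} := by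
  have : {ω : Conf | EV ω σ} = ⋃ N : ℕ, ⋂ n : ℕ, ⋂ (_ : N ≤ n), {ω : Conf | VisN n ω σ} := by
    ext ω
    simp only [Set.mem_ofPred_eq, Set.mem_iUnion, Set.mem_iInter, EV]
  rw [this]
  exact MeasurableSet.iUnion fun N => MeasurableSet.iInter fun n =>
    MeasurableSet.iInter fun _ => visN_meas n σ

theorem visN_pr (q : unitInterval) (n : ℤ) (σ : St) :
    (lw q).real {ω | VisN n ω σ} = (lw q).real {ω | Vis ω (shS (-n) σ)} := by
  have : {ω : Conf | VisN n ω σ} = sh n ⁻¹' {ω : Conf | Vis ω (shS (-n) σ)} := by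
    ext ω
    exact visN_iff
  rw [this, measureReal_def, measureReal_def, (sh_mp q n).measure_preimage
    (vis_meas _).nullMeasurableSet]

theorem ind_meas {A : Conf → Prop} (h : MeasurableSet {ω | A ω}) :
    Measurable (fun ω => ind (A ω)) := by
  have : (fun ω => ind (A ω)) = Set.indicator {ω | A ω} (fun _ => (1:ℝ)) := by
    funext ω
    by_cases hA : A ω
    · rw [ind_of hA, Set.indicator_of_mem (show ω ∈ {ω | A ω} from hA)]
    · rw [ind_not_of hA, Set.indicator_of_notMem (show ω ∉ {ω | A ω} from hA)]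
  rw [this]
  exact measurable_const.indicator h

theorem ind_integral (q : unitInterval) {A : Conf → Prop} (h : MeasurableSet {ω | A ω}) :
    ∫ ω, ind (A ω) ∂(lw q) = (lw q).real {ω | A ω} := by
  have : (fun ω => ind (A ω)) = Set.indicator {ω | A ω} 1 := by
    funext ω
    by_cases hA : A ω
    · rw [ind_of hA, Set.indicator_of_mem (show ω ∈ {ω | A ω} from hA)]; rfl
    · rw [ind_not_of hA, Set.indicator_of_notMem (show ω ∉ {ω | A ω} from hA)]
  rw [this, integral_indicator_one h]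

theorem ind_le1 (P : Prop) : ind P ≤ 1 := by
  by_cases h : P
  · rw [ind_of h]
  · rw [ind_not_of h]; norm_num

theorem ind_ge0 (P : Prop) : 0 ≤ ind P := by
  by_cases h : P
  · rw [ind_of h]; norm_num
  · rw [ind_not_of h]

/-- The probabilities of the visits converge. -/
theorem ev_lim (h2 : S_stab2) (q : unitInterval) (hr : ∀ᵐ ω ∂(lw q), ∃ A : ℝ, Rad ω A)
    (hd : ∀ᵐ ω ∂(lw q), ∀ R : ℝ, ∃ b : ℤ, R ≤ b ∧ NA ω b) (σ : St) :
    Tendsto (fun n : ℕ => (lw q).real {ω | Vis ω (shS (-(n:ℤ)) σ)}) atTop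
      (𝓝 ((lw q).real {ω | EV ω σ})) := by
  have h : Tendsto (fun n : ℕ => ∫ ω, ind (VisN n ω σ) ∂(lw q)) atTop
      (𝓝 (∫ ω, ind (EV ω σ) ∂(lw q))) := by
    apply tendsto_integral_of_dominated_convergence (fun _ => (1:ℝ))
    · intro n
      exact (ind_meas (visN_meas n σ)).aestronglyMeasurable
    · exact integrable_const _
    · intro n
      refine Filter.Eventually.of_forall fun ω => ?_
      rw [Real.norm_eq_abs, abs_of_nonneg (ind_ge0 _)]
      exact ind_le1 _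
    · filter_upwards [hr, hd] with ω ⟨A, hA⟩ hb
      obtain ⟨N, hN⟩ := h2 ω A hA hb σ
      apply tendsto_const_nhds.congr'
      filter_upwards [Filter.eventually_ge_atTop N] with n hn
      have : EV ω σ ↔ VisN n ω σ := by
        constructor
        · rintro ⟨N', hN'⟩
          exact (hN n (max N N') hn (le_max_left _ _)).mpr (hN' _ (le_max_right _ _))
        · intro h
          exact ⟨N, fun m hm => (hN n m hn hm).mp h⟩
      by_cases h3 : EV ω σ
      · rw [ind_of h3, ind_of (this.mp h3)]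
      · rw [ind_not_of h3, ind_not_of (fun h4 => h3 (this.mpr h4))]
  rw [ind_integral q (ev_meas σ)] at h
  refine h.congr fun n => ?_
  rw [ind_integral q (visN_meas n σ), visN_pr]

theorem ev_le (h2 : S_stab2) (q : unitInterval) (hr : ∀ᵐ ω ∂(lw q), ∃ A : ℝ, Rad ω A)
    (hd : ∀ᵐ ω ∂(lw q), ∀ R : ℝ, ∃ b : ℤ, R ≤ b ∧ NA ω b) {a : ℕ → ℝ}
    (ha : ∀ (x : ℤ) (y : ℕ) (c : Q4), (lw q).real {ω | Vis ω ((x, (y:ℤ)), c)} ≤ a y)
    (y : ℕ) (c : Q4) : (lw q).real {ω | EV ω ((0, (y:ℤ)), c)} ≤ a y :=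
  le_of_tendsto (ev_lim h2 q hr hd _) (Filter.Eventually.of_forall fun n => ha _ y c)

theorem ev_ge (h2 : S_stab2) (q : unitInterval) (hr : ∀ᵐ ω ∂(lw q), ∃ A : ℝ, Rad ω A)
    (hd : ∀ᵐ ω ∂(lw q), ∀ R : ℝ, ∃ b : ℤ, R ≤ b ∧ NA ω b) {a : ℝ} {M : ℕ} {y : ℕ} {c : Q4}
    (ha : ∀ (x : ℤ), x ≤ -(M:ℤ) → a ≤ (lw q).real {ω | Vis ω ((x, (y:ℤ)), c)}) :
    a ≤ (lw q).real {ω | EV ω ((0, (y:ℤ)), c)} := by
  refine ge_of_tendsto (ev_lim h2 q hr hd _) ?_
  filter_upwards [Filter.eventually_ge_atTop M] with n hn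
  have : shS (-(n:ℤ)) ((0, (y:ℤ)), c) = ((-(n:ℤ), (y:ℤ)), c) := by simp [shS]
  rw [this]
  exact ha _ (by omega)

/-- The clusters are finite. -/
theorem rad_fin {ω : Conf} {A : ℝ} (h : Rad ω A) (x : ℤ) : {v | BC ω x v}.Finite := by
  obtain ⟨B, hB⟩ := exists_nat_ge (A + Real.sqrt |(x : ℝ)|)
  apply ((Set.finite_Icc (x - (B:ℤ)) (x + B)).prod (Set.finite_Icc (-(B:ℤ)) B)).subset
  intro v hv
  obtain ⟨h1, h2⟩ := h x v hv
  have h3 := abs_le.mp (h1.trans hB)
  have h4 := abs_le.mp (h2.trans hB)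
  refine ⟨⟨?_, ?_⟩, ⟨?_, ?_⟩⟩
  · have : (x:ℝ) - B ≤ v.1 := by linarith
    exact_mod_cast this
  · have : (v.1:ℝ) ≤ x + B := by linarith
    exact_mod_cast this
  · have := h4.1
    exact_mod_cast this
  · have := h4.2
    exact_mod_cast this

/-- Positivity. -/
theorem ev_pos (hS : S_sumN) (hN : S_napos) (q : unitInterval) (hq : (q:ℝ) < 1/2)
    (hr : ∀ᵐ ω ∂(lw q), ∃ A : ℝ, Rad ω A) : 0 < (lw q).real {ω | EV ω ((0, 0), .ne)} := by
  obtain ⟨h1, h2⟩ := hN q hq
  refine h2.trans_le ?_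
  rw [measureReal_def, measureReal_def]
  apply ENNReal.toReal_mono (measure_ne_top _ _)
  apply measure_mono_ae
  filter_upwards [hr] with ω ⟨A, hA⟩ hna
  show EV ω ((0, 0), .ne)
  refine ⟨1, fun n hn => ?_⟩
  obtain ⟨T, hT, -⟩ := hS ω 0 n (by omega) hna (fun x _ _ => rad_fin hA x)
  exact ⟨T, hT⟩

end H953S
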