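import Pool.Agent.H953.Spd.Asm
import Pool.Graph.R_seed8.H984R4.HN.Step

/-!
Assembly of the theorem from the pieces, continued.
-/

set_option autoImplicit false

namespace H953S

open H974 Finset H342P H984P H984H MeasureTheory ProbabilityTheory Filter Topology

theorem card_q4 : Fintype.card Q4 = 4 := rfl

theorem sum_a {a : ℕ → ℝ} (h0 : ∀ y, 0 ≤ a y) (ha : Summable a) :
    Summable (fun τ : ℕ × Q4 => a τ.1) ∧ ∑' τ : ℕ × Q4, a τ.1 = 4 * ∑' y, a y := by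
  have h1 : ∀ y : ℕ, ∑' _ : Q4, a y = 4 * a y := by
    intro y
    rw [tsum_fintype, Finset.sum_const, Finset.card_univ, card_q4, nsmul_eq_mul]
    norm_num
  have h2 : Summable (fun τ : ℕ × Q4 => a τ.1) := by
    rw [summable_prod_of_nonneg (fun τ => h0 τ.1)]
    refine ⟨fun x => Summable.of_finite, ?_⟩
    simp only [h1]
    exact ha.mul_left 4
  refine ⟨h2, ?_⟩
  rw [h2.tsum_prod]
  simp only [h1]
  exact tsum_mul_left

/-- The mean number of the states of a column which are visited. -/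
theorem mean_hasSum (q : unitInterval) {a : ℕ → ℝ} (h0 : ∀ y, 0 ≤ a y) (ha : Summable a)
    (hle : ∀ (y : ℕ) (c : Q4), (lw q).real {ω | EV ω ((0, (y:ℤ)), c)} ≤ a y) :
    HasSum (fun τ : ℕ × Q4 => (lw q).real {ω | EV ω ((0, (τ.1:ℤ)), τ.2)})
      (∫ ω, Y0 ω ∂(lw q)) := by
  have h1 : HasSum (fun τ : ℕ × Q4 => ∫ ω, ind (EV ω ((0, (τ.1:ℤ)), τ.2)) ∂(lw q))
      (∫ ω, ∑' τ : ℕ × Q4, ind (EV ω ((0, (τ.1:ℤ)), τ.2)) ∂(lw q)) := by
    apply hasSum_integral_of_summable_integral_norm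
    · intro τ
      exact (integrable_const (1:ℝ)).mono' (ind_meas (ev_meas _)).aestronglyMeasurable
        (Filter.Eventually.of_forall fun ω => by
          rw [Real.norm_eq_abs, abs_of_nonneg (ind_ge0 _)]
          exact ind_le1 _)
    · refine (sum_a h0 ha).1.of_nonneg_of_le (fun τ => ?_) (fun τ => ?_)
      · exact integral_nonneg fun ω => norm_nonneg _
      · have : (fun ω => ‖ind (EV ω ((0, (τ.1:ℤ)), τ.2))‖) =
            fun ω => ind (EV ω ((0, (τ.1:ℤ)), τ.2)) := by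
          funext ω
          rw [Real.norm_eq_abs, abs_of_nonneg (ind_ge0 _)]
        rw [this, ind_integral q (ev_meas _)]
        exact hle _ _
  simp only [ind_integral q (ev_meas _)] at h1
  exact h1

theorem gam_norm (ω : Conf) (k : ℕ) : ‖gam ω k‖ ≤ 1 + k := by
  induction k with
  | zero =>
    show ‖place ((0, 0), .ne)‖ ≤ _
    have h : ‖place ((0, 0), .ne)‖ ≤ |(place ((0, 0), .ne)).re| + |(place ((0, 0), .ne)).im| :=
      Complex.norm_le_abs_re_add_abs_im _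
    refine h.trans ?_
    unfold place
    norm_num
  | succ k ih =>
    have h := gam_step ω k
    rw [dist_comm, dist_eq_norm] at h
    have h2 : ‖gam ω (k + 1)‖ ≤ ‖gam ω (k + 1) - gam ω k‖ + ‖gam ω k‖ := by
      have := norm_add_le (gam ω (k + 1) - gam ω k) (gam ω k)
      rwa [sub_add_cancel] at this
    push_cast
    linarith

theorem lim_norm {ω : Conf} {v : ℝ} (hv : 0 ≤ v)
    (h : Tendsto (fun k : ℕ => gam ω k / k) atTop (𝓝 ((-v : ℝ) : ℂ))) : v ≤ 1 := by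
  have h1 : Tendsto (fun k : ℕ => ‖gam ω k / k‖) atTop (𝓝 ‖((-v : ℝ) : ℂ)‖) := h.norm
  have h2 : ‖((-v : ℝ) : ℂ)‖ = v := by
    rw [Complex.norm_real, Real.norm_eq_abs, abs_neg, abs_of_nonneg hv]
  rw [h2] at h1
  have h3 : Tendsto (fun k : ℕ => (1:ℝ) / k + 1) atTop (𝓝 (0 + 1)) :=
    (tendsto_one_div_atTop_nhds_zero_nat).add tendsto_const_nhds
  rw [zero_add] at h3
  refine le_of_tendsto_of_tendsto h1 h3 ?_
  filter_upwards [Filter.eventually_ge_atTop 1] with k hk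
  have hk0 : (0:ℝ) < k := by exact_mod_cast hk
  rw [norm_div, Complex.norm_natCast, div_le_iff₀ hk0]
  have := gam_norm ω k
  calc ‖gam ω k‖ ≤ 1 + k := this
    _ = (1 / k + 1) * k := by field_simp

/-- The theorem from the pieces. -/
theorem asm (hdet : S_det) (herg : S_erg) (hrad : S_rad) (hnp : S_napos) (hdns : S_dns)
    (hsum : S_sumN) (hst : S_stab2) (hup : S_up) (hlow : S_low) : S_goal := by
  obtain ⟨C, hC, hup⟩ := hup
  obtain ⟨c, δ, hc, hδ, hlow⟩ := hlow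
  refine ⟨1 / (4 * C), 1 / c ^ 2 + 1 / δ, by positivity, by positivity, ?_⟩
  intro q hq
  have hq' : 0 < 1/2 - (q:ℝ) := by linarith
  obtain ⟨a, ha0, ha, haC, hle⟩ := hup q hq
  have hr := hrad q hq
  have hd := hdns q hq
  have hd1 : ∀ᵐ ω ∂(lw q), ∀ R : ℝ, ∃ b : ℤ, R ≤ b ∧ NA ω b := hd.mono fun ω h => h.2
  have hevle := ev_le hst q hr hd1 hle
  have hsumD := mean_hasSum q ha0 ha hevle
  obtain ⟨D, hD⟩ : ∃ D, D = ∫ ω, Y0 ω ∂(lw q) := ⟨_, rfl⟩
  rw [← hD] at hsumD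
  have hpos := ev_pos hsum hnp q hq hr
  have hnn : ∀ τ : ℕ × Q4, 0 ≤ (lw q).real {ω | EV ω ((0, (τ.1:ℤ)), τ.2)} := fun _ =>
    measureReal_nonneg
  have hDpos : 0 < D := by
    have h1 := le_hasSum hsumD (0, Q4.ne) (fun τ _ => hnn τ)
    exact hpos.trans_le h1
  have hDup : D ≤ 4 * C / (1/2 - q) := by
    have h1 : D = ∑' τ : ℕ × Q4, (lw q).real {ω | EV ω ((0, (τ.1:ℤ)), τ.2)} :=
      hsumD.tsum_eq.symm
    have h2 : D ≤ ∑' τ : ℕ × Q4, a τ.1 := by
      rw [h1]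
      exact hsumD.summable.tsum_le_tsum (fun τ => hevle _ _) (sum_a ha0 ha).1
    rw [(sum_a ha0 ha).2] at h2
    calc D ≤ 4 * ∑' y, a y := h2
      _ ≤ 4 * (C / (1/2 - q)) := by linarith
      _ = _ := by ring
  have hint : Integrable Y0 (lw q) := by
    by_contra hn
    rw [integral_undef hn] at hD
    linarith
  refine ⟨1 / D, ?_, ?_, ?_⟩
  · rw [le_div_iff₀ hDpos]
    obtain ⟨s, hs⟩ : ∃ s : ℝ, s = 1/2 - (q:ℝ) := ⟨_, rfl⟩
    rw [← hs] at hDup hq' ⊢
    calc 1 / (4 * C) * s * D ≤ 1 / (4 * C) * s * (4 * C / s) :=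
          mul_le_mul_of_nonneg_left hDup (by positivity)
      _ = 1 := by field_simp
  · by_cases hqδ : 1/2 - δ < (q:ℝ)
    · obtain ⟨N, M, hN, hN2, hN3⟩ := hlow q hqδ hq
      have hN0 : (0:ℝ) < N := by exact_mod_cast hN
      have hge : ∀ y ∈ Finset.Icc N (2 * N), c * (N:ℝ) ^ (-(1/4) : ℝ) ≤
          (lw q).real {ω | EV ω ((0, (y:ℤ)), .ne)} := by
        intro y hy
        rw [Finset.mem_Icc] at hy
        exact ev_ge hst q hr hd1 (fun x hx => hN3 x y hx hy.1 hy.2)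
      have h1 : ∑ τ ∈ (Finset.Icc N (2 * N)).image (fun y => ((y, Q4.ne) : ℕ × Q4)),
          (lw q).real {ω | EV ω ((0, (τ.1:ℤ)), τ.2)} ≤ D :=
        sum_le_hasSum _ (fun τ _ => hnn τ) hsumD
      rw [Finset.sum_image (by
        intro y _ z _ h
        exact (Prod.mk.inj h).1)] at h1
      have h2 : ((Finset.Icc N (2 * N)).card : ℝ) * (c * (N:ℝ) ^ (-(1/4) : ℝ)) ≤ D := by
        rw [← nsmul_eq_mul, ← Finset.sum_const]
        exact (Finset.sum_le_sum hge).trans h1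
      rw [Nat.card_Icc] at h2
      have h3 : (N:ℝ) ≤ ((2 * N + 1 - N : ℕ) : ℝ) := by
        exact_mod_cast (by omega : N ≤ 2 * N + 1 - N)
      have h4 : c * (N:ℝ) ^ (3/4 : ℝ) ≤ D := by
        have e1 : (N:ℝ) ^ (3/4 : ℝ) = N * (N:ℝ) ^ (-(1/4) : ℝ) := by
          rw [← Real.rpow_one_add' hN0.le (by norm_num)]
          norm_num
        calc c * (N:ℝ) ^ (3/4 : ℝ) = N * (c * (N:ℝ) ^ (-(1/4) : ℝ)) := by rw [e1]; ring
          _ ≤ _ := mul_le_mul_of_nonneg_right h3 (by positivity)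
          _ ≤ D := h2
      have h5 : c ^ 2 / (1/2 - q) ≤ D := by
        calc c ^ 2 / (1/2 - (q:ℝ)) = c * (c / (1/2 - q)) := by ring
          _ ≤ c * (N:ℝ) ^ (3/4 : ℝ) := mul_le_mul_of_nonneg_left hN2 hc.le
          _ ≤ D := h4
      have h6 : 1 / D ≤ 1 / c ^ 2 * (1/2 - q) := by
        rw [div_le_iff₀ hDpos]
        obtain ⟨s, hs⟩ : ∃ s : ℝ, s = 1/2 - (q:ℝ) := ⟨_, rfl⟩
        rw [← hs] at h5 hq' ⊢
        calc (1:ℝ) = 1 / c ^ 2 * s * (c ^ 2 / s) := by field_simp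
          _ ≤ 1 / c ^ 2 * s * D := mul_le_mul_of_nonneg_left h5 (by positivity)
      have h7 : 0 ≤ 1 / δ * (1/2 - (q:ℝ)) := by positivity
      linarith [add_mul (1 / c ^ 2) (1 / δ) (1/2 - (q:ℝ))]
    · push Not at hqδ
      have he := herg q Y0 hint
      rw [← hD] at he
      obtain ⟨ω, h1, ⟨A, hA⟩, h2⟩ := (he.and (hr.and hd)).exists
      have h3 := hdet ω A D hA h2.1 hDpos h1
      have h4 := lim_norm (v := 1 / D) (by positivity) h3
      have h5 : 1 ≤ 1 / δ * (1/2 - (q:ℝ)) := by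
        rw [one_div, ← div_eq_inv_mul, le_div_iff₀ hδ]
        linarith
      have h7 : 0 ≤ 1 / c ^ 2 * (1/2 - (q:ℝ)) := by positivity
      linarith [add_mul (1 / c ^ 2) (1 / δ) (1/2 - (q:ℝ))]
  · have he := herg q Y0 hint
    rw [← hD] at he
    filter_upwards [he, hr, hd] with ω h1 ⟨A, hA⟩ h2
    have := hdet ω A D hA h2.1 hDpos h1
    exact this

end H953S
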