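import Pool.Agent.H953.Spd.Two

/-!
The bound for one edge near the boundary of the rectangle (B2, `S_bdry`), by helper294.
-/

set_option autoImplicit false
set_option maxHeartbeats 2000000

namespace H953S

open H974 Finset H12S H342P H984P H984H Q291.EP Q291.NL Q291.AD

theorem bd_D1 {u : Vtx} {f : Edg} {n : ℕ} :
    n ≤ D1 u f ↔ (n:ℤ) ≤ |f.1 - u.1| ∨ (n:ℤ) ≤ |f.2.1 - u.2| := by
  unfold D1
  rw [le_max_iff, le_abs, le_abs]
  omega

/-- Positions of the boxes. -/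
theorem bd_geo {u : Vtx} {f : Edg} {z : Vtx} {k t k1 t1 : ℕ}
    (hk1 : k1 = k / 16) (ht1 : t1 = min t k1) (hk : k < 2 * D1 u f + 16) (hk256 : 256 ≤ k)
    (zf : H984H.sd (src f) z ≤ t) (ze : (k:ℤ) ≤ H984H.sd u z) :
    Disjoint (blk u k1) (ebx f t1) ∧ f ∉ blk u k1 ∧ Disjoint (blk u k1) (bx z (k / 4)) ∧
      f ∈ bx z (2 * t + 2) ∧ ebx f t1 ⊆ bx z (2 * t + 2) := by
  obtain ⟨s, hs⟩ : ∃ s, s = D1 u f := ⟨_, rfl⟩
  have fz := bd_D1.mp (show s ≤ D1 u f by omega)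
  rw [← hs] at hk
  have hsrcf : src f = (f.1, f.2.1) := rfl
  rw [hsrcf] at zf
  unfold H984H.sd at zf ze
  simp only at zf ze
  rw [max_le_iff, abs_le, abs_le] at zf
  refine ⟨?_, ?_, ?_, ?_, ?_⟩
  · clear zf ze
    rw [Finset.disjoint_left]
    intro g h1 h2
    unfold blk at h1
    unfold ebx at h2
    have a1 := mem_co h1
    have a2 := mem_co h2
    clear h1 h2
    rw [le_abs, le_abs] at fz
    omega
  · clear zf ze
    intro h2
    unfold blk at h2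
    have a1 := mem_co h2
    clear h2
    rw [le_abs, le_abs] at fz
    omega
  · clear zf fz
    rw [Finset.disjoint_left]
    intro g h1 h2
    unfold blk at h1
    unfold Q291.EP.bx at h2
    have a1 := mem_co h1
    have a2 := mem_co h2
    clear h1 h2
    rw [le_max_iff, le_abs, le_abs] at ze
    omega
  · clear ze fz
    unfold Q291.EP.bx
    push_cast
    apply mem_of_co <;> omega
  · clear ze fz
    unfold ebx Q291.EP.bx
    push_cast
    exact RE_subset (by omega) (by omega) (by omega) (by omega)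

/-- The point of the boundary next to `f`. -/
theorem bd_z {u : Vtx} {f : Edg} {a b c d : ℤ} {k t : ℕ}
    (l1 : a ≤ u.1 - k) (u1 : u.1 + k ≤ b) (l2 : c ≤ u.2 - k) (u2 : u.2 + k ≤ d)
    (ht : a + t = f.1 ∨ f.1 + t = b ∨ c + t = f.2.1 ∨ f.2.1 + t = d) :
    ∃ (z : Vtx) (x y : Bool) (X : ℤ), H984H.sd (src f) z ≤ t ∧ (k:ℤ) ≤ H984H.sd u z ∧
      (∀ g ∈ RE a b c d, hpl x y X (src g) ∧ hpl x y X (tgt g)) ∧ |co x z - X| ≤ 1 := by
  have key : ∀ g ∈ RE a b c d, inR a b c d (src g) ∧ inR a b c d (tgt g) :=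
    fun g hg => ends_RE hg
  unfold inR at key
  have hsrcf : src f = (f.1, f.2.1) := rfl
  rw [hsrcf]
  unfold H984H.sd
  rcases ht with ht | ht | ht | ht
  · refine ⟨(a, f.2.1), true, false, a, ?_, ?_, fun g hg => ?_, ?_⟩
    · rw [max_le_iff, abs_le, abs_le]; simp only; omega
    · rw [le_max_iff, le_abs, le_abs]; simp only; omega
    · obtain ⟨a1, a2⟩ := key g hg
      exact ⟨a1.1.1, a2.1.1⟩
    · unfold co; simp
  · refine ⟨(b, f.2.1), true, true, b, ?_, ?_, fun g hg => ?_, ?_⟩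
    · rw [max_le_iff, abs_le, abs_le]; simp only; omega
    · rw [le_max_iff, le_abs, le_abs]; simp only; omega
    · obtain ⟨a1, a2⟩ := key g hg
      exact ⟨a1.1.2, a2.1.2⟩
    · unfold co; simp
  · refine ⟨(f.1, c), false, false, c, ?_, ?_, fun g hg => ?_, ?_⟩
    · rw [max_le_iff, abs_le, abs_le]; simp only; omega
    · rw [le_max_iff, le_abs, le_abs]; simp only; omega
    · obtain ⟨a1, a2⟩ := key g hg
      exact ⟨a1.2.1, a2.2.1⟩
    · unfold co; simp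
  · refine ⟨(f.1, d), false, true, d, ?_, ?_, fun g hg => ?_, ?_⟩
    · rw [max_le_iff, abs_le, abs_le]; simp only; omega
    · rw [le_max_iff, le_abs, le_abs]; simp only; omega
    · obtain ⟨a1, a2⟩ := key g hg
      exact ⟨a1.2.2, a2.2.2⟩
    · unfold co; simp

theorem sixteen14 : (16:ℝ) ^ (1/4 : ℝ) = 2 := by
  rw [show (16:ℝ) = (2:ℝ) ^ (4:ℝ) by norm_num, ← Real.rpow_mul (by norm_num)]
  norm_num

/-- The numerical estimate. -/
theorem bd_num {K K4 C c : ℝ} (hK : 1 ≤ K) (hK4 : 1 ≤ K4) (hC : 1 ≤ C) (hc : 16 ≤ c)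
    {t k k1 t1 : ℕ} (hk1 : k1 = k / 16) (ht1 : t1 = min t k1) (hk64 : 64 ≤ k)
    (htc : (t:ℝ) + 1 ≤ c * ((k1:ℝ) + 1)) :
    (K * ((k1:ℝ) + 1) ^ (-(1/4) : ℝ)) *
      ((if 1 ≤ t1 then K4 * ((t1:ℝ) + 1) ^ (-(5/4) : ℝ) else 1) *
      (if 2 * t + 2 ≤ k / 4 then
        C * (((2 * t + 2 : ℕ) : ℝ) / ((k / 4 : ℕ) : ℝ)) ^ (7/24 : ℝ) else 1)) ≤
      8 * (K4 * C * c ^ (5/4 : ℝ)) * K * (k:ℝ) ^ (-(13/24) : ℝ) *
        ((t:ℝ) + 1) ^ (-(23/24) : ℝ) := by
  have hk0 : (0:ℝ) < k := by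
    have : 0 < k := by omega
    exact_mod_cast this
  have htp : (0:ℝ) < (t:ℝ) + 1 := by positivity
  have hc0 : 0 < c := by linarith
  have hc1 : 1 ≤ c := by linarith
  have hcc : 1 ≤ c ^ (5/4 : ℝ) := Real.one_le_rpow hc1 (by norm_num)
  have f1 : ((k1:ℝ) + 1) ^ (-(1/4) : ℝ) ≤ 2 * (k:ℝ) ^ (-(1/4) : ℝ) := by
    have h3 : (k:ℝ) ≤ 16 * ((k1:ℝ) + 1) := by
      have : k ≤ 16 * (k1 + 1) := by omega
      exact_mod_cast this
    rw [← sixteen14]
    exact pow_mono_neg (by norm_num) (by norm_num) h3 hk0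
  have f2 : (if 1 ≤ t1 then K4 * ((t1:ℝ) + 1) ^ (-(5/4) : ℝ) else 1) ≤
      K4 * (c ^ (5/4 : ℝ) * ((t:ℝ) + 1) ^ (-(5/4) : ℝ)) := by
    split_ifs with h1
    · apply mul_le_mul_of_nonneg_left _ (by linarith)
      have h3 : (t:ℝ) + 1 ≤ c * ((t1:ℝ) + 1) := by
        rcases Nat.le_total t k1 with h | h
        · have e : t1 = t := by rw [ht1, min_eq_left h]
          rw [e]
          nlinarith
        · have e : t1 = k1 := by rw [ht1, min_eq_right h]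
          rw [e]
          exact htc
      exact pow_mono_neg hc1 (by norm_num) h3 htp
    · have h2 : t = 0 := by omega
      rw [h2]
      have e : ((0:ℕ):ℝ) + 1 = 1 := by norm_num
      rw [e, Real.one_rpow, mul_one]
      nlinarith
  have f3 : (if 2 * t + 2 ≤ k / 4 then
        C * (((2 * t + 2 : ℕ) : ℝ) / ((k / 4 : ℕ) : ℝ)) ^ (7/24 : ℝ) else 1) ≤
      C * (4 * (((t:ℝ) + 1) / k) ^ (7/24 : ℝ)) := by
    have hq : 0 ≤ ((t:ℝ) + 1) / k := by positivity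
    have h16 : (16 * (((t:ℝ) + 1) / k)) ^ (7/24 : ℝ) ≤ 4 * (((t:ℝ) + 1) / k) ^ (7/24 : ℝ) := by
      rw [Real.mul_rpow (by norm_num) hq]
      apply mul_le_mul_of_nonneg_right _ (by positivity)
      calc (16:ℝ) ^ (7/24 : ℝ) ≤ (16:ℝ) ^ (1/2 : ℝ) :=
            Real.rpow_le_rpow_of_exponent_le (by norm_num) (by norm_num)
        _ = 4 := by
            rw [← Real.sqrt_eq_rpow, show (16:ℝ) = 4 ^ 2 by norm_num, Real.sqrt_sq (by norm_num)]
    split_ifs with h1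
    · apply mul_le_mul_of_nonneg_left _ (by linarith)
      refine le_trans (Real.rpow_le_rpow (by positivity) ?_ (by norm_num)) h16
      have h2 : (k:ℝ) ≤ 8 * ((k / 4 : ℕ) : ℝ) := by
        have : k ≤ 8 * (k / 4) := by omega
        exact_mod_cast this
      have h3 : (0:ℝ) < ((k / 4 : ℕ) : ℝ) := by linarith
      rw [div_le_iff₀ h3]
      have e : 16 * (((t:ℝ) + 1) / k) * ((k / 4 : ℕ) : ℝ) =
          2 * ((t:ℝ) + 1) * (8 * ((k / 4 : ℕ) : ℝ) / k) := by ring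
      rw [e]
      have h4 : 1 ≤ 8 * ((k / 4 : ℕ) : ℝ) / k := by rw [le_div_iff₀ hk0]; linarith
      push_cast
      nlinarith
    · have h2 : (k:ℝ) ≤ 16 * ((t:ℝ) + 1) := by
        have : k ≤ 16 * (t + 1) := by omega
        exact_mod_cast this
      have h3 : 1 ≤ 16 * (((t:ℝ) + 1) / k) := by
        rw [← mul_div_assoc, le_div_iff₀ hk0]; linarith
      have h4 : 1 ≤ (16 * (((t:ℝ) + 1) / k)) ^ (7/24 : ℝ) := Real.one_le_rpow h3 (by norm_num)
      have h5 : (1:ℝ) ≤ 4 * (((t:ℝ) + 1) / k) ^ (7/24 : ℝ) := h4.trans h16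
      nlinarith
  have e1 : (k:ℝ) ^ (-(13/24) : ℝ) = (k:ℝ) ^ (-(1/4) : ℝ) * ((k:ℝ) ^ (7/24 : ℝ))⁻¹ := by
    rw [← Real.rpow_neg hk0.le, ← Real.rpow_add hk0]; norm_num
  have e2 : ((t:ℝ) + 1) ^ (-(23/24) : ℝ) =
      ((t:ℝ) + 1) ^ (-(5/4) : ℝ) * ((t:ℝ) + 1) ^ (7/24 : ℝ) := by
    rw [← Real.rpow_add htp]; norm_num
  have e3 : (((t:ℝ) + 1) / k) ^ (7/24 : ℝ) = ((t:ℝ) + 1) ^ (7/24 : ℝ) * ((k:ℝ) ^ (7/24 : ℝ))⁻¹ := by
    rw [Real.div_rpow htp.le hk0.le, div_eq_mul_inv]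
  have g2 : 0 ≤ (if 1 ≤ t1 then K4 * ((t1:ℝ) + 1) ^ (-(5/4) : ℝ) else 1) := by
    split_ifs <;> positivity
  have g3 : 0 ≤ (if 2 * t + 2 ≤ k / 4 then
        C * (((2 * t + 2 : ℕ) : ℝ) / ((k / 4 : ℕ) : ℝ)) ^ (7/24 : ℝ) else 1) := by
    split_ifs <;> positivity
  have hK0 : 0 ≤ K := by linarith
  refine (mul_le_mul (mul_le_mul_of_nonneg_left f1 hK0) (mul_le_mul f2 f3 g3 (by positivity))
    (mul_nonneg g2 g3) (by positivity)).trans (le_of_eq ?_)
  rw [e1, e2, e3]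
  ring

/-- B2. -/
theorem bdry (h1 : S_g1) (h2 : S_g2) (h4 : S_g4) : S_bdry := by
  intro K4 C3 ε Λ hK4 hC3 hε hSta
  obtain ⟨cc, hcc⟩ : ∃ cc : ℝ, cc = 16 * (Λ:ℝ) + 16 := ⟨_, rfl⟩
  have hcc16 : 16 ≤ cc := by
    have : (0:ℝ) ≤ Λ := Nat.cast_nonneg _
    rw [hcc]; linarith
  have hccp : 1 ≤ cc ^ (5/4 : ℝ) := Real.one_le_rpow (by linarith) (by norm_num)
  refine ⟨8 * (K4 * C3 * cc ^ (5/4 : ℝ)), ?_, ?_⟩
  · have e1 : 1 ≤ K4 * C3 := by nlinarith
    nlinarith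
  intro K τ k u p a b c d a' b' c' d' I J f S t hy hInc hR hR' hS hS' hf hk256 hk ha hb hc hd ht
  have t0 := hy.t0
  have t1' := hy.t1
  have hLk : (0:ℤ) ≤ Λ * k := by positivity
  obtain ⟨k1, hk1⟩ : ∃ k1, k1 = k / 16 := ⟨_, rfl⟩
  obtain ⟨t1, ht1⟩ : ∃ t1, t1 = min t k1 := ⟨_, rfl⟩
  have hk1k : k1 < k := by omega
  have ht1k : t1 < k := by omega
  have hk11 : 1 ≤ k1 := by omega
  have hDk : k1 ≤ D1 u f := by omega
  have htc : (t:ℝ) + 1 ≤ cc * ((k1:ℝ) + 1) := by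
    have e1 : 2 * (t:ℤ) ≤ Λ * k := by
      have := hR.w
      omega
    have e2 : (k:ℤ) ≤ 16 * ((k1:ℤ) + 1) := by omega
    have e3 : (Λ:ℤ) * k ≤ Λ * (16 * ((k1:ℤ) + 1)) := mul_le_mul_of_nonneg_left e2 (by positivity)
    have e4 : (t:ℤ) + 1 ≤ (16 * (Λ:ℤ) + 16) * ((k1:ℤ) + 1) := by nlinarith
    rw [hcc]
    exact_mod_cast e4
  obtain ⟨z, x, y, X, zf, ze, hhp, hX⟩ := bd_z hR.l1 hR.u1 hR.l2 hR.u2 ht
  obtain ⟨P, hP⟩ : ∃ P, P = RE a b c d := ⟨_, rfl⟩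
  rw [← hP] at hS hf hhp
  have hfS : f ∈ S := hS hf
  -- the crossing
  obtain ⟨W, hW⟩ : ∃ W : Finset Edg, W = if 2 * t + 2 ≤ k / 4 then
    bx z (k / 4) \ bx z (2 * t + 2) else ∅ := ⟨_, rfl⟩
  obtain ⟨Dc, hDc⟩ : ∃ Dc : Finset Edg → Finset Edg → Prop, Dc = fun F D : Finset Edg =>
    2 * t + 2 ≤ k / 4 → Cr z (2 * t + 2) (k / 4) (↑((F ∪ D) ∩ P) : Set Edg) := ⟨_, rfl⟩
  have hDloc : Loc2 S W Dc := by
    rw [hDc, hW]
    by_cases hc : 2 * t + 2 ≤ k / 4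
    · rw [if_pos hc]
      have h2 := union_loc (B := fun G : Finset Edg =>
        Cr z (2 * t + 2) (k / 4) (↑(G ∩ P) : Set Edg))
        (fun G => by
          rw [Finset.inter_right_comm]
          exact Cr_loc hc (G ∩ P)) S
      intro F D hF hD
      constructor
      · intro h3 h4
        exact (h2 F D hF hD).mp (h3 h4)
      · intro h3 h4
        exact (h2 F D hF hD).mpr (h3 h4)
    · exact true_loc _ _ (fun _ _ h3 => absurd h3 hc)
  have hDpr : P2 τ S Dc ≤ (if 2 * t + 2 ≤ k / 4 then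
        C3 * (((2 * t + 2 : ℕ) : ℝ) / ((k / 4 : ℕ) : ℝ)) ^ (7/24 : ℝ) else 1) := by
    split_ifs with hc
    · have c0 : P2 τ S Dc ≤ P2 τ S
          (fun F D => Cr z (2 * t + 2) (k / 4) (↑((F ∪ D) ∩ P) : Set Edg)) := by
        apply P2_mono t0 t1'
        intro F D _ _ h
        rw [hDc] at h
        exact h hc
      have c1 : P2 τ S (fun F D => Cr z (2 * t + 2) (k / 4) (↑((F ∪ D) ∩ P) : Set Edg)) =
          P2 τ P (fun F D => Cr z (2 * t + 2) (k / 4) (↑(F ∪ D) : Set Edg)) := by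
        rw [P2_local hS (union_loc (B := fun G : Finset Edg =>
          Cr z (2 * t + 2) (k / 4) (↑(G ∩ P) : Set Edg))
          (fun G => by rw [Finset.inter_assoc, Finset.inter_self]) S)]
        apply P2_congr
        intro F D hF hD
        rw [Finset.inter_eq_left.mpr (Finset.union_subset hF hD)]
      have c2 := cr_def hSta t0 t1' (T := P) hhp hX (n := k) hy.eta (r0 := 2 * t + 2)
        (R0 := k / 4) (by omega) hc (by omega)
      exact c0.trans (c1.le.trans c2)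
    · exact P2_le_one t0 t1' _ _
  have hX1 : blk u k1 ⊆ S := by
    refine Finset.Subset.trans ?_ hS
    rw [hP]
    unfold blk
    have := hR.l1
    have := hR.u1
    have := hR.l2
    have := hR.u2
    exact RE_subset (by omega) (by omega) (by omega) (by omega)
  have hX2 : ebx f t1 ⊆ S := by
    refine Finset.Subset.trans ?_ hS
    rw [hP]
    unfold ebx
    exact RE_subset (by omega) (by omega) (by omega) (by omega)
  obtain ⟨hd12, hfe1, hd1, hfz, hd2⟩ := bd_geo hk1 ht1 hk hk256 zf ze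
  have hW1 : Disjoint (blk u k1) W := by
    rw [hW]
    split_ifs
    · exact hd1.mono_right Finset.sdiff_subset
    · exact Finset.disjoint_empty_right _
  have hW2 : Disjoint (ebx f t1) W := by
    rw [hW]
    split_ifs
    · exact Finset.disjoint_sdiff.mono_left hd2
    · exact Finset.disjoint_empty_right _
  have hW3 : Disjoint ({f} : Finset Edg) W := by
    rw [Finset.disjoint_singleton_left, hW]
    split_ifs
    · rw [Finset.mem_sdiff]
      exact fun h => h.2 hfz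
    · exact Finset.notMem_empty _
  obtain ⟨A, hA⟩ : ∃ A, A = K * ((k1:ℝ) + 1) ^ (-(1/4) : ℝ) := ⟨_, rfl⟩
  have hA0 : 0 ≤ A := by
    rw [hA]
    have := hy.K1
    positivity
  obtain ⟨A', hA'⟩ : ∃ A', A' = (if 1 ≤ t1 then K4 * ((t1:ℝ) + 1) ^ (-(5/4) : ℝ) else 1) :=
    ⟨_, rfl⟩
  have hA'0 : 0 ≤ A' := by
    rw [hA']
    split_ifs
    · positivity
    · norm_num
  obtain ⟨A1, hA1⟩ : ∃ A1 : Finset Edg → Finset Edg → Prop,
    A1 = AA (fun G => Two u p k1 (↑G : Set Edg)) := ⟨_, rfl⟩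
  obtain ⟨B2, hB2⟩ : ∃ B2 : Finset Edg → Finset Edg → Prop, B2 = fun F D : Finset Edg =>
    1 ≤ t1 → A4D t1 f F D := ⟨_, rfl⟩
  have hl1 : Loc2 S (blk u k1) A1 := by
    rw [hA1]
    apply AA_loc
    intro G
    exact two_inter (by exact_mod_cast hk11) G (by unfold blk; exact Finset.Subset.refl _)
  have hA1pr : P2 τ S A1 ≤ A := by
    rw [P2_local hX1 hl1, hA1, hA]
    exact hy.q2 k1 hk1k u p hInc
  have hl2 : Loc2 S ((ebx f t1).erase f) B2 := by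
    rw [hB2]
    intro F D hF hD
    have h2 := A4D_loc t1 f S F D hF hD
    constructor
    · intro h3 h4; exact h2.mp (h3 h4)
    · intro h3 h4; exact h2.mpr (h3 h4)
  have hl3 := mem_loc f S
  have hPP : P2 τ S (PO (RE a b c d) I (RE a' b' c' d') J u p f) ≤ P2 τ S (fun F D => A1 F D ∧
      (B2 F D ∧ (f ∈ D ∧ Dc F D))) := by
    apply P2_mono t0 t1'
    rintro F D _ _ ⟨hfD, G, T, hG, -, hpO⟩
    refine ⟨?_, ?_, hfD, ?_⟩
    · rw [hA1]
      exact ⟨mix T G F, hG.mix T, h2 Λ k u p a b c d a' b' c' d' I J f _ k1 hInc hR hR' hk1k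
        hfe1 hpO⟩
    · rw [hB2]
      intro ht1'
      refine ⟨mix T G F, hG.mix T, h1 Λ k u p a b c d I _ J f _ t1 hR ht1' ?_ ?_ ?_ ?_ ?_ hpO⟩
      · omega
      · omega
      · omega
      · omega
      · omega
    · rw [hDc]
      intro hcc'
      have h3 := h4 (RE a b c d) I (RE a' b' c' d') J u p z f _ (2 * t + 2) (k / 4)
        (by push_cast; omega) (by omega) hpO
      refine h3.mono ?_
      rw [Finset.coe_inter, ← hP]
      exact Set.inter_subset_inter_left _ (by exact_mod_cast (hG.mix T).le)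
  have hs2 : Disjoint ((ebx f t1).erase f) ({f} ∪ W) := by
    rw [Finset.disjoint_union_right]
    exact ⟨Finset.disjoint_singleton_right.mpr (Finset.notMem_erase _ _),
      hW2.mono_left (Finset.erase_subset _ _)⟩
  have hs1 : Disjoint (blk u k1) ((ebx f t1).erase f ∪ ({f} ∪ W)) := by
    rw [Finset.disjoint_union_right, Finset.disjoint_union_right]
    exact ⟨hd12.mono_right (Finset.erase_subset _ _), Finset.disjoint_singleton_right.mpr hfe1, hW1⟩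
  have b1 := P2_two t0 t1' hs1 hl1 (hl2.and (hl3.and hDloc)) (a := A) hA1pr
  have b2 := P2_two t0 t1' hs2 hl2 (hl3.and hDloc) (a := A') (by
    rw [hA', hB2]
    split_ifs with ht1'
    · exact (P2_mono t0 t1' (fun F D _ _ h => h ht1')).trans ((hy.q4 t1 ht1k).big hX2)
    · exact P2_le_one t0 t1' _ _)
  have b3 := P2_two t0 t1' hW3 hl3 hDloc (a := τ) (P2_mem τ hfS).le
  calc P2 τ S (PO (RE a b c d) I (RE a' b' c' d') J u p f)
      ≤ A * P2 τ S (fun F D => B2 F D ∧ (f ∈ D ∧ Dc F D)) := hPP.trans b1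
    _ ≤ A * (A' * P2 τ S (fun F D => f ∈ D ∧ Dc F D)) :=
        mul_le_mul_of_nonneg_left b2 hA0
    _ ≤ A * (A' * (τ * P2 τ S Dc)) := by gcongr
    _ ≤ A * (A' * (τ * (if 2 * t + 2 ≤ k / 4 then
        C3 * (((2 * t + 2 : ℕ) : ℝ) / ((k / 4 : ℕ) : ℝ)) ^ (7/24 : ℝ) else 1))) := by gcongr
    _ = τ * (A * (A' * (if 2 * t + 2 ≤ k / 4 then
        C3 * (((2 * t + 2 : ℕ) : ℝ) / ((k / 4 : ℕ) : ℝ)) ^ (7/24 : ℝ) else 1))) := by ring
    _ ≤ _ := by
        apply mul_le_mul_of_nonneg_left _ t0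
        rw [hA, hA']
        exact bd_num hy.K1 hK4 hC3 hcc16 hk1 ht1 (by omega) htc

end H953S
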