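import Pool.Agent.H953.Spd.Two

/-!
The bound for one edge, far from the boundary.
-/

set_option autoImplicit false
set_option maxHeartbeats 2000000

namespace H953S

open H974 Finset H12S H342P H984P H984H Q291.EP Q291.NL Q291.AD

theorem bulk_D1_le {u : Vtx} {f : Edg} {n : ℕ} :
    D1 u f ≤ n ↔ |f.1 - u.1| ≤ n ∧ |f.2.1 - u.2| ≤ n := by
  unfold D1
  rw [max_le_iff, abs_le, abs_le]
  omega

theorem bulk_D1_ge {u : Vtx} {f : Edg} {n : ℕ} :
    n ≤ D1 u f ↔ (n:ℤ) ≤ |f.1 - u.1| ∨ (n:ℤ) ≤ |f.2.1 - u.2| := by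
  unfold D1
  rw [le_max_iff, le_abs, le_abs]
  omega

theorem bulk_neg {x y c p : ℝ} (hx : 0 < x) (hy : 0 < y) (hc : 0 < c) (hp : 0 ≤ p)
    (h : y ≤ c * x) : x ^ (-p) ≤ c ^ p * y ^ (-p) := by
  have h1 : y ^ p ≤ c ^ p * x ^ p := by
    rw [← Real.mul_rpow hc.le hx.le]
    exact Real.rpow_le_rpow hy.le h hp
  rw [Real.rpow_neg hx.le, Real.rpow_neg hy.le]
  have hx' := Real.rpow_pos_of_pos hx p
  have hy' := Real.rpow_pos_of_pos hy p
  rw [← one_div, ← div_eq_mul_inv, div_le_div_iff₀ hx' hy', one_mul]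
  exact h1

theorem bulk_16a : (16:ℝ) ^ (1/4 : ℝ) = 2 := by
  have h : (16:ℝ) = (2:ℝ) ^ (4:ℝ) := by norm_num
  rw [h, ← Real.rpow_mul (by norm_num)]
  norm_num

theorem bulk_16b : (16:ℝ) ^ (5/4 : ℝ) = 32 := by
  have h : (16:ℝ) = (2:ℝ) ^ (4:ℝ) := by norm_num
  rw [h, ← Real.rpow_mul (by norm_num)]
  norm_num

theorem bulk_64 : (64:ℝ) ^ (3/2 : ℝ) = 512 := by
  have h : (64:ℝ) = (2:ℝ) ^ (6:ℝ) := by norm_num
  rw [h, ← Real.rpow_mul (by norm_num)]
  norm_num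

/-- The factor of the annulus. -/
theorem bulk_ann {s k : ℕ} (h : 2 * s + 16 ≤ k) :
    (((2 * s + 6 + 1 : ℕ) : ℝ) / ((k - 1 : ℕ) : ℝ)) ^ (1/4 : ℝ) ≤
      2 * (((s:ℝ) + 1) ^ (1/4 : ℝ) * (k:ℝ) ^ (-(1/4) : ℝ)) := by
  have hs : (0:ℝ) < (s:ℝ) + 1 := by positivity
  have hk : (0:ℝ) < k := by
    have : 0 < k := by omega
    exact_mod_cast this
  have hk1 : (0:ℝ) < ((k - 1 : ℕ) : ℝ) := by
    have : 0 < k - 1 := by omega
    exact_mod_cast this
  have e1 : ((k - 1 : ℕ) : ℝ) = (k:ℝ) - 1 := by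
    rw [Nat.cast_sub (by omega)]
    norm_num
  have hk16 : (16:ℝ) ≤ k := by
    have : 16 ≤ k := by omega
    exact_mod_cast this
  have h1 : ((2 * s + 6 + 1 : ℕ) : ℝ) / ((k - 1 : ℕ) : ℝ) ≤ 16 * (((s:ℝ) + 1) / k) := by
    rw [← mul_div_assoc, div_le_div_iff₀ hk1 hk, e1]
    push_cast
    nlinarith
  calc (((2 * s + 6 + 1 : ℕ) : ℝ) / ((k - 1 : ℕ) : ℝ)) ^ (1/4 : ℝ)
      ≤ (16 * (((s:ℝ) + 1) / k)) ^ (1/4 : ℝ) :=
        Real.rpow_le_rpow (by positivity) h1 (by norm_num)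
    _ = 2 * (((s:ℝ) + 1) ^ (1/4 : ℝ) * (k:ℝ) ^ (-(1/4) : ℝ)) := by
        rw [Real.mul_rpow (by norm_num) (by positivity), bulk_16a, Real.div_rpow hs.le hk.le,
          Real.rpow_neg hk.le, div_eq_mul_inv]

/-- The two arms for some states of the defects. -/
theorem bulk_two_loc (u p : Vtx) {m : ℕ} (hm : 0 < m) (S : Finset Edg) :
    Loc2 S (blk u m) (AA (fun G => Two u p m (↑G : Set Edg))) := by
  apply AA_loc
  intro G
  exact two_inter (by exact_mod_cast hm) G (Finset.Subset.refl _)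

theorem bulk (h1 : S_g1) (h2 : S_g2) (h3 : S_g3) : S_bulk := by
  intro K4 C2 hK4 hC2 hA
  refine ⟨1024 * C2 * K4 + 1, by nlinarith, ?_⟩
  intro ε K τ Λ k u p a b c d a' b' c' d' I J f S hy hup hR hR' hS hS' hf hk
  obtain ⟨t0, t1, K1, q4, q2, -⟩ := hy
  obtain ⟨s, hs⟩ : ∃ s, s = D1 u f := ⟨_, rfl⟩
  rw [← hs] at hk ⊢
  obtain ⟨fx, fy⟩ := bulk_D1_le.mp (show D1 u f ≤ s by omega)
  have fz := bulk_D1_ge.mp (show s ≤ D1 u f by omega)
  have afx := abs_le.mp fx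
  have afy := abs_le.mp fy
  have l1 := hR.l1
  have u1 := hR.u1
  have l2 := hR.l2
  have u2 := hR.u2
  have hfS : f ∈ S := hS hf
  obtain ⟨r, hr⟩ : ∃ r, r = 2 * s + 6 := ⟨_, rfl⟩
  have hfb : f ∈ blk u r := by
    unfold blk
    apply mem_of_co <;> omega
  have hkp : (0:ℝ) < k := by
    have : 0 < k := by omega
    exact_mod_cast this
  have hsp : (0:ℝ) < (s:ℝ) + 1 := by positivity
  -- the annulus
  obtain ⟨X, hX⟩ : ∃ X, X = S \ blk u r := ⟨_, rfl⟩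
  have hXS : X ⊆ S := by rw [hX]; exact Finset.sdiff_subset
  have hann : P2 τ S (fun F _ => two_An X u (r + 1) (k - 1) F) ≤
      C2 * (2 * (((s:ℝ) + 1) ^ (1/4 : ℝ) * (k:ℝ) ^ (-(1/4) : ℝ))) := by
    rw [P2_open]
    refine (two_pr hA hXS u (r := r + 1) (R := k - 1) (by omega) (by omega)).trans ?_
    rw [hr]
    exact mul_le_mul_of_nonneg_left (bulk_ann hk) hC2.le
  have hfann : ∀ F D : Finset Edg, PO (RE a b c d) I (RE a' b' c' d') J u p f F D →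
      two_An X u (r + 1) (k - 1) F := by
    rintro F D ⟨-, G, T', -, hT, hP⟩
    rw [hX]
    refine h3 Λ k u p a b c d a' b' c' d' I J f F (mix T' G F) S r hup hR hR' hS hS' ?_ hfb
      (by omega) hP
    intro e he
    have heT : e ∉ T' := by
      intro h
      apply he
      have h4 := bulk_D1_le.mp ((hT e h).trans (show D1 u f + 4 ≤ s + 4 by omega))
      rw [abs_le, abs_le] at h4
      unfold blk
      apply mem_of_co <;> push_cast at h4 ⊢ <;> omega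
    rw [mem_mix]
    tauto
  have hlann : Loc2 S X (fun F _ : Finset Edg => two_An X u (r + 1) (k - 1) F) :=
    open_loc (fun G => two_loc X u (r + 1) (k - 1) G) _
  have hl3 := mem_loc f S
  have hs3 : Disjoint ({f} : Finset Edg) X := by
    rw [Finset.disjoint_singleton_left, hX, Finset.mem_sdiff]
    exact fun h => h.2 hfb
  have b3 := P2_two t0 t1 hs3 hl3 hlann (a := τ) (P2_mem τ hfS).le
  have key3 : P2 τ S (fun F D => f ∈ D ∧ two_An X u (r + 1) (k - 1) F) ≤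
      τ * (C2 * (2 * (((s:ℝ) + 1) ^ (1/4 : ℝ) * (k:ℝ) ^ (-(1/4) : ℝ)))) :=
    b3.trans (mul_le_mul_of_nonneg_left hann t0)
  have hk4 : 0 < (k:ℝ) ^ (-(1/4) : ℝ) := Real.rpow_pos_of_pos hkp _
  have hs14 : 0 < ((s:ℝ) + 1) ^ (1/4 : ℝ) := Real.rpow_pos_of_pos hsp _
  have hs54 : 0 < ((s:ℝ) + 1) ^ (-(5/4) : ℝ) := Real.rpow_pos_of_pos hsp _
  by_cases h64 : 64 ≤ s
  · obtain ⟨s1, hs1⟩ : ∃ s1, s1 = s / 16 := ⟨_, rfl⟩
    have hs11 : 1 ≤ s1 := by omega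
    have hs1k : s1 < k := by omega
    have hX1 : blk u s1 ⊆ S := by
      refine Finset.Subset.trans ?_ hS
      unfold blk
      exact RE_subset (by omega) (by omega) (by omega) (by omega)
    have hX2 : ebx f s1 ⊆ S := by
      refine Finset.Subset.trans ?_ hS
      unfold ebx
      exact RE_subset (by omega) (by omega) (by omega) (by omega)
    have hd12 : Disjoint (blk u s1) (ebx f s1) := by
      rw [Finset.disjoint_left]
      intro g h1 h2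
      unfold blk at h1
      unfold ebx at h2
      have a1 := mem_co h1
      have a2 := mem_co h2
      rw [le_abs, le_abs] at fz
      omega
    have hfe1 : f ∉ blk u s1 := by
      intro h2
      unfold blk at h2
      have a1 := mem_co h2
      rw [le_abs, le_abs] at fz
      omega
    have hb1 : blk u s1 ⊆ blk u r := by
      unfold blk
      exact RE_subset (by omega) (by omega) (by omega) (by omega)
    have hb2 : ebx f s1 ⊆ blk u r := by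
      unfold ebx blk
      exact RE_subset (by omega) (by omega) (by omega) (by omega)
    obtain ⟨A, hAe⟩ : ∃ A, A = K * ((s1:ℝ) + 1) ^ (-(1/4) : ℝ) := ⟨_, rfl⟩
    obtain ⟨A', hAe'⟩ : ∃ A', A' = K4 * ((s1:ℝ) + 1) ^ (-(5/4) : ℝ) := ⟨_, rfl⟩
    have hs1p : (0:ℝ) < (s1:ℝ) + 1 := by positivity
    have hA0 : 0 ≤ A := by
      rw [hAe]
      positivity
    have hA0' : 0 ≤ A' := by
      rw [hAe']
      positivity
    have hl1 := bulk_two_loc u p (m := s1) hs11 S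
    have hl2 := A4D_loc s1 f S
    have hP : P2 τ S (PO (RE a b c d) I (RE a' b' c' d') J u p f) ≤
        P2 τ S (fun F D => AA (fun G => Two u p s1 (↑G : Set Edg)) F D ∧
        (A4D s1 f F D ∧ (f ∈ D ∧ two_An X u (r + 1) (k - 1) F))) := by
      apply P2_mono t0 t1
      intro F D _ _ h
      have h' := h
      obtain ⟨hfD, G, T', hG, -, hP⟩ := h
      refine ⟨⟨mix T' G F, hG.mix T', ?_⟩, ⟨mix T' G F, hG.mix T', ?_⟩, hfD, hfann F D h'⟩
      · exact h2 Λ k u p a b c d a' b' c' d' I J f _ s1 hup hR hR' hs1k hfe1 hP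
      · exact h1 Λ k u p a b c d I (RE a' b' c' d') J f _ s1 hR hs11 (by omega) (by omega)
          (by omega) (by omega) (by omega) hP
    have hs2 : Disjoint ((ebx f s1).erase f) ({f} ∪ X) := by
      rw [Finset.disjoint_union_right]
      refine ⟨Finset.disjoint_singleton_right.mpr (Finset.notMem_erase _ _), ?_⟩
      rw [hX]
      exact (Finset.disjoint_sdiff.mono_left hb2).mono_left (Finset.erase_subset _ _)
    have hs1' : Disjoint (blk u s1) ((ebx f s1).erase f ∪ ({f} ∪ X)) := by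
      rw [Finset.disjoint_union_right, Finset.disjoint_union_right]
      refine ⟨hd12.mono_right (Finset.erase_subset _ _),
        Finset.disjoint_singleton_right.mpr hfe1, ?_⟩
      rw [hX]
      exact Finset.disjoint_sdiff.mono_left hb1
    have b1 := P2_two t0 t1 hs1' hl1 (hl2.and (hl3.and hlann)) (a := A) (by
      rw [hAe, P2_local hX1 hl1]
      exact q2 s1 hs1k u p hup)
    have b2 := P2_two t0 t1 hs2 hl2 (hl3.and hlann) (a := A')
      (by rw [hAe']; exact (q4 s1 hs1k).big hX2)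
    have n0 : ((s:ℝ) + 1) ≤ 16 * ((s1:ℝ) + 1) := by
      have : s + 1 ≤ 16 * (s1 + 1) := by omega
      exact_mod_cast this
    have n1 : A ≤ K * (2 * ((s:ℝ) + 1) ^ (-(1/4) : ℝ)) := by
      rw [hAe]
      apply mul_le_mul_of_nonneg_left _ (by linarith)
      have := bulk_neg (p := 1/4) hs1p hsp (by norm_num) (by norm_num) n0
      rwa [bulk_16a] at this
    have n2 : A' ≤ K4 * (32 * ((s:ℝ) + 1) ^ (-(5/4) : ℝ)) := by
      rw [hAe']
      apply mul_le_mul_of_nonneg_left _ (by linarith)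
      have := bulk_neg (p := 5/4) hs1p hsp (by norm_num) (by norm_num) n0
      rwa [bulk_16b] at this
    have e14 : ((s:ℝ) + 1) ^ (-(1/4) : ℝ) * ((s:ℝ) + 1) ^ (1/4 : ℝ) = 1 := by
      rw [← Real.rpow_add hsp]
      norm_num
    have hs14' : 0 < ((s:ℝ) + 1) ^ (-(1/4) : ℝ) := Real.rpow_pos_of_pos hsp _
    calc P2 τ S (PO (RE a b c d) I (RE a' b' c' d') J u p f)
        ≤ A * P2 τ S (fun F D => A4D s1 f F D ∧ (f ∈ D ∧ two_An X u (r + 1) (k - 1) F)) :=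
          hP.trans b1
      _ ≤ A * (A' * P2 τ S (fun F D => f ∈ D ∧ two_An X u (r + 1) (k - 1) F)) :=
          mul_le_mul_of_nonneg_left b2 hA0
      _ ≤ A * (A' * (τ * (C2 * (2 * (((s:ℝ) + 1) ^ (1/4 : ℝ) * (k:ℝ) ^ (-(1/4) : ℝ)))))) := by
          gcongr
      _ ≤ (K * (2 * ((s:ℝ) + 1) ^ (-(1/4) : ℝ))) * ((K4 * (32 * ((s:ℝ) + 1) ^ (-(5/4) : ℝ))) *
          (τ * (C2 * (2 * (((s:ℝ) + 1) ^ (1/4 : ℝ) * (k:ℝ) ^ (-(1/4) : ℝ)))))) := by
          gcongr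
      _ = (((s:ℝ) + 1) ^ (-(1/4) : ℝ) * ((s:ℝ) + 1) ^ (1/4 : ℝ)) *
          (τ * (128 * C2 * K4 * K * ((s:ℝ) + 1) ^ (-(5/4) : ℝ) * (k:ℝ) ^ (-(1/4) : ℝ))) := by
          ring
      _ = τ * (128 * C2 * K4 * K * ((s:ℝ) + 1) ^ (-(5/4) : ℝ) * (k:ℝ) ^ (-(1/4) : ℝ)) := by
          rw [e14, one_mul]
      _ ≤ τ * ((1024 * C2 * K4 + 1) * K * ((s:ℝ) + 1) ^ (-(5/4) : ℝ) *
          (k:ℝ) ^ (-(1/4) : ℝ)) := by
          have hCK : 0 ≤ C2 * K4 := by positivity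
          gcongr
          nlinarith
  · have hs64 : (s:ℝ) + 1 ≤ 64 := by
      have : s + 1 ≤ 64 := by omega
      exact_mod_cast this
    have e14 : ((s:ℝ) + 1) ^ (1/4 : ℝ) ≤ 512 * ((s:ℝ) + 1) ^ (-(5/4) : ℝ) := by
      have e1 : ((s:ℝ) + 1) ^ (1/4 : ℝ) =
          ((s:ℝ) + 1) ^ (3/2 : ℝ) * ((s:ℝ) + 1) ^ (-(5/4) : ℝ) := by
        rw [← Real.rpow_add hsp]
        norm_num
      rw [e1, ← bulk_64]
      exact mul_le_mul_of_nonneg_right (Real.rpow_le_rpow hsp.le hs64 (by norm_num)) hs54.le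
    have hP : P2 τ S (PO (RE a b c d) I (RE a' b' c' d') J u p f) ≤
        P2 τ S (fun F D => f ∈ D ∧ two_An X u (r + 1) (k - 1) F) :=
      P2_mono t0 t1 (fun F D _ _ h => ⟨h.1, hfann F D h⟩)
    calc P2 τ S (PO (RE a b c d) I (RE a' b' c' d') J u p f)
        ≤ τ * (C2 * (2 * (((s:ℝ) + 1) ^ (1/4 : ℝ) * (k:ℝ) ^ (-(1/4) : ℝ)))) := hP.trans key3
      _ ≤ τ * (C2 * (2 * ((512 * ((s:ℝ) + 1) ^ (-(5/4) : ℝ)) * (k:ℝ) ^ (-(1/4) : ℝ)))) := by
          gcongr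
      _ = τ * ((1024 * C2) * 1 * 1 * ((s:ℝ) + 1) ^ (-(5/4) : ℝ) * (k:ℝ) ^ (-(1/4) : ℝ)) := by
          ring
      _ ≤ τ * ((1024 * C2) * K4 * K * ((s:ℝ) + 1) ^ (-(5/4) : ℝ) * (k:ℝ) ^ (-(1/4) : ℝ)) := by
          gcongr
      _ ≤ τ * ((1024 * C2 * K4 + 1) * K * ((s:ℝ) + 1) ^ (-(5/4) : ℝ) *
          (k:ℝ) ^ (-(1/4) : ℝ)) := by
          gcongr
          linarith

end H953S
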