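import Pool.Agent.H953.Spd.Two

/-!
The defects change the two-arm event with small probability (helper997).
-/

set_option autoImplicit false

namespace H953S

open H974 Finset H12S H342P H984P H984H Q291.EP Q291.NL Q291.AD

theorem chg_dlmem {a b c d : ℤ} {g : Edg} (h : dl (dl g) ∈ RE (a - 1) (b - 1) (c - 1) (d - 1)) :
    g ∈ RE a b c d := by
  obtain ⟨x, y, _ | _⟩ := g
  · simp only [dl_f, dl_t, mem_RE_false] at h ⊢
    omega
  · simp only [dl_f, dl_t, mem_RE_true] at h ⊢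
    omega

theorem chg (h0 : S_tog) (h1 : S_sumO) (h2 : S_dual) : S_chg := by
  intro K4 C2 C3 ε Λ hK4 hC2 hC3 hε hAn hSta
  obtain ⟨M, hM1, hM⟩ := h1 K4 C2 C3 ε Λ hK4 hC2 hC3 hε hAn hSta
  refine ⟨2 * M, by linarith, ?_⟩
  intro K τ k u p a b c d a' b' c' d' I J S hy hinc hR hR' hS hS' hk
  have hstep : P2 τ S (ChT (RE a b c d) I (RE a' b' c' d') J u p) ≤
      P2 τ S (fun F D => (∃ f ∈ S, PO (RE a b c d) I (RE a' b' c' d') J u p f F D) ∨
        (∃ f ∈ S, PC (RE a b c d) I (RE a' b' c' d') J u p f F D)) := by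
    apply P2_mono hy.t0 hy.t1
    rintro F D hF hD ⟨G, hG, hne⟩
    obtain ⟨f, hfD, T, hT, hfT, -, hTo, hP⟩ := pivot hF hD hG (D1 u)
      (fun G : Finset Edg => TA (RE a b c d) I (RE a' b' c' d') J u p (↑G : Set Edg))
      (fun h => hne (iff_of_eq h))
    have hP' : ¬ (TA (RE a b c d) I (RE a' b' c' d') J u p (insert f (↑(mix T G F) : Set Edg)) ↔
        TA (RE a b c d) I (RE a' b' c' d') J u p ((↑(mix T G F) : Set Edg) \ {f})) := by
      rw [← Finset.coe_insert, ← Finset.coe_erase]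
      exact fun h => hP (propext h)
    rcases h0 _ _ _ _ _ _ _ _ hP' with h | h
    · exact Or.inl ⟨f, hD hfD, hfD, G, T, hG, fun g hg => (hTo g hg).trans (Nat.le_add_right _ _),
        h⟩
    · exact Or.inr ⟨f, hD hfD, hfD, G, T, hG, hTo, h⟩
  refine hstep.trans ((P2_or hy.t0 hy.t1 _ _ _).trans ?_)
  have b1 := hM K τ k u p a b c d a' b' c' d' I J S hy hinc hR hR' hS hS' hk
  have hd := h2 τ u p a b c d a' b' c' d' I J S hy.t0 hy.t1 hinc hS hS'
  have hinc' : Inc p ((u.1 - 1, u.2 - 1) : Vtx) := by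
    obtain ⟨i1, i2⟩ := hinc
    refine ⟨?_, ?_⟩
    · show u.1 - 1 = p.1 ∨ u.1 - 1 = p.1 - 1
      omega
    · show u.2 - 1 = p.2 ∨ u.2 - 1 = p.2 - 1
      omega
  have hRs : Rg Λ k ((u.1 - 1, u.2 - 1) : Vtx) (a - 1) (b - 1) (c - 1) (d - 1)
      (fun w => I (w.1 + 1, w.2 + 1)) := by
    refine ⟨?_, ?_, ?_, ?_, ?_, ?_, ?_⟩
    · have := hR.l1
      show a - 1 ≤ u.1 - 1 - k
      omega
    · have := hR.u1
      show u.1 - 1 + k ≤ b - 1
      omega
    · have := hR.l2
      show c - 1 ≤ u.2 - 1 - k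
      omega
    · have := hR.u2
      show u.2 - 1 + k ≤ d - 1
      omega
    · have := hR.w
      have e : b - 1 - (a - 1) = b - a := by ring
      rw [e]; exact this
    · have := hR.h
      have e : d - 1 - (c - 1) = d - c := by ring
      rw [e]; exact this
    · intro w hw
      have := hR.tg _ hw
      simp only at this
      omega
  have hSd : RE a' b' c' d' ⊆ S.map dl.toEmbedding := by
    intro e he
    rw [Finset.mem_map]
    refine ⟨dl.symm e, hS' _ ?_, ?_⟩
    · rw [Equiv.apply_symm_apply]; exact he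
    · exact Equiv.apply_symm_apply _ _
  have hSd' : ∀ e, dl e ∈ RE (a - 1) (b - 1) (c - 1) (d - 1) → e ∈ S.map dl.toEmbedding := by
    intro e he
    rw [Finset.mem_map]
    refine ⟨dl.symm e, hS (chg_dlmem ?_), Equiv.apply_symm_apply _ _⟩
    rw [Equiv.apply_symm_apply]; exact he
  have b2 := hM K τ k p (u.1 - 1, u.2 - 1) a' b' c' d' (a - 1) (b - 1) (c - 1) (d - 1) J
    (fun w => I (w.1 + 1, w.2 + 1)) (S.map dl.toEmbedding) hy hinc' hR' hRs hSd hSd' hk
  have b3 := hd.trans b2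
  linarith

end H953S
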