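import Pool.Graph.R_seed8.H984R4.HN.Ret
import Pool.Graph.R_pool_sql_team_seeded_3997aac3.Q292.TVX.Meas

/-!
Speed of the exploration path of subcritical percolation in the half-plane: definitions, and the
statements of the pieces of the proof.

Conventions: `Edg`, `Vtx`, `src`, `tgt`, `Reach`, `DReach`, `dsrc`, `dtgt` (`H974`), states `St`,
`face`, `nxt`, `orb` (`H984P`), `Conf`, `opn`, `step`, `path`, `gam`, `Ret_O` (`H984H`),
`law` (`Q292.TVX`).
-/

set_option autoImplicit false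

namespace H953S

open H974 Finset H342P H984P H984H MeasureTheory ProbabilityTheory Filter Topology

/-- Homogeneous percolation with parameter `q`. -/
noncomputable def lw (q : unitInterval) : Measure Conf := Q292.TVX.law (fun _ => q)

/-- The shifted configuration: its column `x` is the column `x + n` of `ω`. -/
def sh (n : ℤ) (ω : Conf) : Conf := fun e => ω (e.1 + n, e.2.1, e.2.2)

/-- The shifted state. -/
def shS (n : ℤ) (σ : St) : St := ((σ.1.1 + n, σ.1.2), σ.2)

/-- The edge `[b, b + 1]` of the real axis. -/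
def ax (b : ℤ) : Edg := (b, 0, true)

/-- Corners below the non-positive half-axis. -/
def Und (σ : St) : Prop := σ.1.2 = 0 ∧ σ.1.1 ≤ 0 ∧ (σ.2 = .sw ∨ σ.2 = .se)

/-- The path visits the state. -/
def Vis (ω : Conf) (σ : St) : Prop := ∃ k, path ω k = σ

/-- The path of the configuration with the axis open to the left of `n` and closed to the right
of `n` (it starts at `(n, 0)`). -/
noncomputable def pathN (n : ℤ) (ω : Conf) (k : ℕ) : St := shS n (path (sh n ω) k)

/-- This path visits the state. -/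
def VisN (n : ℤ) (ω : Conf) (σ : St) : Prop := ∃ k, pathN n ω k = σ

/-- The state is visited by the paths started far to the right. -/
def EV (ω : Conf) (σ : St) : Prop := ∃ N : ℕ, ∀ n : ℕ, N ≤ n → VisN n ω σ

/-- `v` is connected to `(x, 0)` off the axis. -/
def BC (ω : Conf) (x : ℤ) (v : Vtx) : Prop := Reach (Ret_O ω) (x, 0) v

/-- No open path off the axis passes over the edge `[b, b + 1]`. -/
def NA (ω : Conf) (b : ℤ) : Prop := ∀ x y : ℤ, x ≤ b → b < y → ¬ BC ω x (y, 0)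

/-- The shifted vertex. -/
def shV (n : ℤ) (v : Vtx) : Vtx := (v.1 + n, v.2)

theorem reach_sh_aux {ω : Conf} {n : ℤ} {u v : Vtx} (h : Reach (Ret_O (sh n ω)) u v) :
    Reach (Ret_O ω) (shV n u) (shV n v) := by
  refine Relation.ReflTransGen.lift (shV n) ?_ u v h
  rintro a b ⟨⟨x, y, d⟩, he, hab⟩
  refine ⟨(x + n, y, d), he, ?_⟩
  rcases hab with ⟨rfl, rfl⟩ | ⟨rfl, rfl⟩
  · left
    cases d <;> simp [src, tgt, shV] <;> ring
  · right
    cases d <;> simp [src, tgt, shV] <;> ring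

theorem sh_sh (m n : ℤ) (ω : Conf) : sh m (sh n ω) = sh (m + n) ω := by
  funext e
  simp only [sh]
  congr 2
  ring

theorem sh_zero (ω : Conf) : sh 0 ω = ω := by
  funext e
  simp [sh]

theorem reach_sh {ω : Conf} {n : ℤ} {u v : Vtx} :
    Reach (Ret_O (sh n ω)) u v ↔ Reach (Ret_O ω) (shV n u) (shV n v) := by
  refine ⟨reach_sh_aux, fun h => ?_⟩
  have h1 : ω = sh (-n) (sh n ω) := by rw [sh_sh]; simp [sh_zero]
  rw [h1] at h
  have h2 := reach_sh_aux h
  have h3 : ∀ w : Vtx, shV (-n) (shV n w) = w := fun w => by simp [shV]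
  rwa [h3, h3] at h2

theorem bc_sh {ω : Conf} {n x : ℤ} {v : Vtx} : BC (sh n ω) x v ↔ BC ω (x + n) (shV n v) :=
  reach_sh

theorem na_sh {ω : Conf} {n b : ℤ} : NA (sh n ω) b ↔ NA ω (b + n) := by
  unfold NA
  simp only [bc_sh, shV]
  constructor
  · intro h x y hx hy hr
    refine h (x - n) (y - n) (by omega) (by omega) ?_
    rwa [sub_add_cancel, sub_add_cancel]
  · intro h x y hx hy
    exact h _ _ (by omega) (by omega)

/-- Bound for the sizes of the clusters of the points of the axis. -/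
def Rad (ω : Conf) (A : ℝ) : Prop := ∀ (x : ℤ) (v : Vtx), BC ω x v →
  |(v.1 : ℝ) - x| ≤ A + Real.sqrt |(x : ℝ)| ∧ |(v.2 : ℝ)| ≤ A + Real.sqrt |(x : ℝ)|

/-- The edges `b` with `NA ω b` are not too sparse on the negative half-axis. -/
def Dns (ω : Conf) : Prop := ∀ ε : ℝ, 0 < ε → ∃ M : ℕ, ∀ m : ℕ, M ≤ m →
  ∃ b : ℤ, b < 0 ∧ -((1 + ε) * m) ≤ (b : ℝ) ∧ (b : ℝ) ≤ -(m : ℝ) ∧ NA ω b

/-- The states of a column visited by the paths which come from far to the right, counted. -/
noncomputable def Y0 (ω : Conf) : ℝ := ∑' τ : ℕ × Q4, ind (EV ω ((0, (τ.1 : ℤ)), τ.2))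

/-! ### Part B: deterministic facts about the path -/

/-- B1: the visited states. Take `A` = the set of all states `σ` such that `σ` is `path ω k` for
some `k`, or `Und σ`. It is invariant under `nxt (opn ω)` (`nxt_step`, `step_nxt`: `step` and `nxt`
are inverse to each other; the states before the first one are, in this order, `((0,0),se)`,
`((0,0),sw)`, `((-1,0),se)`, `((-1,0),sw)`, …, i.e. exactly the states with `Und`), so
`H984P.pot_of_inv` gives potentials `hv`, `hf` mod 2 with `hv σ.1 + hf (face σ) = b2 (σ ∈ A)`,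
constant along open edges, resp. across closed edges. -/
def S_vis : Prop := ∀ (ω : Conf) (σ : St), Vis ω σ ↔
  Reach (opn ω) (0, 0) σ.1 ∧ DReach (opn ω)ᶜ (0, 0) (face σ) ∧ ¬ Und σ

/-- B3: the path traverses the edge `ax b` exactly once. (By `S_vis` the state `((b,0),ne)` is
`path ω T`. The only step from one side of `ax b` to the other which the path can make is the one
from `((b+1,0),nw)` to `((b,0),ne)`: the step from `((b,0),se)` to `((b+1,0),sw)` starts at a state
with `Und`, which is not visited, by `S_vis`. By `path_inj` the step to `((b,0),ne)` is made only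
once. The start `(0,0)` is joined with `(b+1,0)` by the axis.) -/
def S_order : Prop := ∀ (ω : Conf) (b : ℤ), b < 0 → DReach (opn ω)ᶜ (0, 0) (b, 0) →
  ∃ T : ℕ, path ω T = ((b, 0), .ne) ∧
    (∀ k < T, Reach (opn ω \ {ax b}) (b + 1, 0) (path ω k).1) ∧
    ∀ k, T ≤ k → Reach (opn ω \ {ax b}) (b, 0) (path ω k).1

/-- B4: an edge of the axis under no open path is traversed, if the clusters between it and the
origin are finite (the path visits infinitely many vertices and has to leave these clusters). -/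
def S_na : Prop := ∀ (ω : Conf) (b : ℤ), b < 0 → NA ω b →
  (∀ x : ℤ, b < x → x ≤ 0 → {v | BC ω x v}.Finite) → Vis ω ((b, 0), .ne)

/-- B5: the two sides of such an edge (an induction along the path: a vertex of the axis in a
cluster `BC ω x` with `x ≤ b` has abscissa at most `b`, by `NA`). -/
def S_sides : Prop := ∀ (ω : Conf) (b : ℤ), b < 0 → NA ω b → ∀ v : Vtx,
  (Reach (opn ω \ {ax b}) (b, 0) v ↔ ∃ x ≤ b, BC ω x v) ∧
  (Reach (opn ω \ {ax b}) (b + 1, 0) v ↔ ∃ x, b < x ∧ x ≤ 0 ∧ BC ω x v)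

/-- B6: the summary of B1-B5. (`face ((b,0),ne) = (b,0)`.) -/
def S_sum : Prop := ∀ (ω : Conf) (b : ℤ), b < 0 → NA ω b →
  (∀ x : ℤ, b < x → x ≤ 0 → {v | BC ω x v}.Finite) →
  ∃ T : ℕ, path ω T = ((b, 0), .ne) ∧
    (∀ k < T, ∃ x, b < x ∧ x ≤ 0 ∧ BC ω x (path ω k).1) ∧
    ∀ k, T ≤ k → ∃ x ≤ b, BC ω x (path ω k).1

/-- B6': the same for the path which starts at `(n, 0)` (translate `S_sum`; `NA (sh n ω) b` is
`NA ω (b + n)`, and so on). -/
def S_sumN : Prop := ∀ (ω : Conf) (b n : ℤ), b < n → NA ω b →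
  (∀ x : ℤ, b < x → x ≤ n → {v | BC ω x v}.Finite) →
  ∃ T : ℕ, pathN n ω T = ((b, 0), .ne) ∧
    (∀ k < T, ∃ x, b < x ∧ x ≤ n ∧ BC ω x (pathN n ω k).1) ∧
    ∀ k, T ≤ k → ∃ x ≤ b, BC ω x (pathN n ω k).1

/-- B7: the paths started at different points merge (by `S_sumN` the vertices of both paths after
the times `T`, `T'` are in clusters of points `x ≤ b`, which do not contain points `(x, 0)` with
`x > b`; the edges at these vertices have the same state for both paths, apart from `ax b` seen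
from the left, which is open for both; use `step_congr`). -/
def S_merge : Prop := ∀ (ω : Conf) (b n m : ℤ), b < n → b < m → NA ω b →
  (∀ x : ℤ, b < x → x ≤ max n m → {v | BC ω x v}.Finite) → ∀ T T' : ℕ,
  pathN n ω T = ((b, 0), .ne) → pathN m ω T' = ((b, 0), .ne) →
    ∀ i : ℕ, pathN n ω (T + i) = pathN m ω (T' + i)

/-- B8: far to the left all the paths visit the same states. (Let `NA ω b`, `b < 0`. For `J` large
the clusters of the points `x > b` do not meet the columns `≤ -J`, by `Rad`. So a state there can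
only be visited after the passage through `ax b`; use `S_sumN` and `S_merge`.) -/
def S_stab : Prop := ∀ (ω : Conf) (A : ℝ), Rad ω A → (∃ b : ℤ, b < 0 ∧ NA ω b) →
  ∃ J : ℕ, ∀ σ : St, σ.1.1 ≤ -(J:ℤ) → ∀ n : ℕ, (VisN n ω σ ↔ Vis ω σ)

/-- B9: the visits of a state stabilise (the same with `b` far to the right of the state). -/
def S_stab2 : Prop := ∀ (ω : Conf) (A : ℝ), Rad ω A → (∀ R : ℝ, ∃ b : ℤ, R ≤ b ∧ NA ω b) →
  ∀ σ : St, ∃ N : ℕ, ∀ n m : ℕ, N ≤ n → N ≤ m → (VisN n ω σ ↔ VisN m ω σ)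

/-- The number of the visited states with abscissa at least `-m`. -/
noncomputable def cnt (ω : Conf) (m : ℝ) : ℕ := {σ : St | Vis ω σ ∧ -m ≤ (σ.1.1 : ℝ)}.ncard

/-- B10: time and place. Let `m = -(path ω k).1.1`. By `Dns` there is `b` with `NA ω b` in
`[-(1 + ε) m, -(1 + ε / 2) m]`; for large `m`, by `Rad`, the clusters of the points `x ≤ b` do not
reach the column `-m`; so by `S_sum` the passage time `T` of `b` is larger than `k`; the states
`path ω 0, …, path ω T` are different (`path_inj`) and (by `Rad`) have abscissa at least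
`-(1 + ε) m`, up to changing `ε`. This gives `k ≤ cnt`. Similarly with `b` in
`[-(1 - ε/2) m, -(1 - ε) m]` the passage time `T` is at most `k` and all the visited states with
abscissa at least `-(1 - ε) m` are visited before `T`, up to changing `ε`. The finiteness is
proved in the same way. The abscissa tends to `-∞` by `S_sum` and `Rad`, applied to any `b`. -/
def S_time : Prop := ∀ (ω : Conf) (A : ℝ), Rad ω A → Dns ω →
  (∀ m : ℝ, {σ : St | Vis ω σ ∧ -m ≤ (σ.1.1 : ℝ)}.Finite) ∧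
  ∀ ε : ℝ, 0 < ε → ε < 1 → ∀ R : ℝ, ∃ K : ℕ, ∀ k : ℕ, K ≤ k →
    (path ω k).1.1 < 0 ∧ R ≤ -((path ω k).1.1 : ℝ) ∧
    (cnt ω ((1 - ε) * -((path ω k).1.1 : ℝ)) : ℝ) ≤ k ∧
    (k : ℝ) ≤ cnt ω ((1 + ε) * -((path ω k).1.1 : ℝ)) ∧
    |((path ω k).1.2 : ℝ)| ≤ ε * -((path ω k).1.1 : ℝ)

/-- B11: the speed, deterministically, from `S_stab` and `S_time`. (By `S_stab`, for `j ≥ J` the
number `Y0 (sh (-j) ω)` is the number of the visited states in the column `-j`, because
`VisN n (sh (-j) ω) σ ↔ VisN (n - j) ω (shS (-j) σ)`; so `cnt ω m / m → D`, and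
`k / -(path ω k).1.1 → D` by `S_time`.) -/
def S_det : Prop := ∀ (ω : Conf) (A D : ℝ), Rad ω A → Dns ω → 0 < D →
  Tendsto (fun m : ℕ => (∑ j ∈ range m, Y0 (sh (-(j:ℤ)) ω)) / m) atTop (𝓝 D) →
  Tendsto (fun k : ℕ => gam ω k / k) atTop (𝓝 (((-(1 / D) : ℝ) : ℂ)))

/-! ### Part C: the ergodic theorem -/

/-- C: the pointwise ergodic theorem for the shift (`birkhoff` in
`R_pool_sql_team_39128cda/Lib/helper9_/Birkhoff.lean` and the mixing of the shift). -/
def S_erg : Prop := ∀ (q : unitInterval) (f : Conf → ℝ), Integrable f (lw q) →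
  ∀ᵐ ω ∂(lw q), Tendsto (fun m : ℕ => (∑ j ∈ range m, f (sh (-(j:ℤ)) ω)) / m) atTop
    (𝓝 (∫ ω, f ω ∂(lw q)))

/-! ### Part D: probability, for a fixed parameter -/

/-- D1: the clusters of the points of the axis are small. -/
def S_rad : Prop := ∀ q : unitInterval, (q:ℝ) < 1/2 → ∀ᵐ ω ∂(lw q), ∃ A : ℝ, Rad ω A

/-- D2: the edge `[0, 1]` is under no open path with positive probability. -/
def S_napos : Prop := ∀ q : unitInterval, (q:ℝ) < 1/2 →
  MeasurableSet {ω : Conf | NA ω 0} ∧ 0 < (lw q).real {ω | NA ω 0}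

/-- D3: from the ergodic theorem and D2. -/
def S_dns : Prop := ∀ q : unitInterval, (q:ℝ) < 1/2 →
  ∀ᵐ ω ∂(lw q), Dns ω ∧ ∀ R : ℝ, ∃ b : ℤ, R ≤ b ∧ NA ω b

/-! ### Part E: probability, near the critical point -/

/-- E1: upper bound for the probability of a visit, summed over a column. -/
def S_up : Prop := ∃ C : ℝ, 0 < C ∧ ∀ q : unitInterval, (q:ℝ) < 1/2 → ∃ a : ℕ → ℝ,
  (∀ y, 0 ≤ a y) ∧ Summable a ∧ ∑' y, a y ≤ C / (1/2 - q) ∧
  ∀ (x : ℤ) (y : ℕ) (c : Q4), (lw q).real {ω | Vis ω ((x, (y:ℤ)), c)} ≤ a y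

/-- E2: lower bound at the heights of the order of the correlation length. -/
def S_low : Prop := ∃ c δ : ℝ, 0 < c ∧ 0 < δ ∧ ∀ q : unitInterval, 1/2 - δ < (q:ℝ) →
  (q:ℝ) < 1/2 → ∃ N M : ℕ, 1 ≤ N ∧ c / (1/2 - (q:ℝ)) ≤ (N:ℝ) ^ (3/4 : ℝ) ∧
  ∀ (x : ℤ) (y : ℕ), x ≤ -(M:ℤ) → N ≤ y → y ≤ 2 * N →
    c * (N:ℝ) ^ (-(1/4) : ℝ) ≤ (lw q).real {ω | Vis ω ((x, (y:ℤ)), .ne)}

/-! ### The theorem -/

/-- The theorem. -/
def S_goal : Prop := ∃ c C : ℝ, 0 < c ∧ 0 < C ∧ ∀ q : unitInterval, (q:ℝ) < 1/2 → ∃ v : ℝ,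
  c * (1/2 - q) ≤ v ∧ v ≤ C * (1/2 - q) ∧
    ∀ᵐ ω ∂(lw q), Tendsto (fun k : ℕ => gam ω k / k) atTop (𝓝 ((-v : ℝ) : ℂ))

end H953S
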