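import Pool.Agent.H953.Spd.Defs

/-!
Speed of the exploration path: the deterministic part, from the stability of the visits and the
relation of time and place.
-/

set_option autoImplicit false

namespace H953S

open H974 Finset H342P H984P H984H MeasureTheory ProbabilityTheory Filter Topology

theorem det_pathN (ω : Conf) (n j : ℤ) (k : ℕ) :
    pathN (n - j) ω k = shS (-j) (pathN n (sh (-j) ω) k) := by
  have h : n + -j = n - j := by ring
  simp only [pathN, sh_sh, h, shS]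
  refine Prod.ext (Prod.ext ?_ rfl) rfl
  simp only
  ring

theorem det_shS_inj {n : ℤ} {σ τ : St} (h : shS n σ = shS n τ) : σ = τ := by
  obtain ⟨⟨a, b⟩, c⟩ := σ
  obtain ⟨⟨a', b'⟩, c'⟩ := τ
  simp only [shS, Prod.mk.injEq] at h ⊢
  obtain ⟨⟨h1, h2⟩, h3⟩ := h
  exact ⟨⟨by omega, h2⟩, h3⟩

theorem det_visN (ω : Conf) (n j : ℤ) (σ : St) :
    VisN n (sh (-j) ω) σ ↔ VisN (n - j) ω (shS (-j) σ) := by
  unfold VisN
  constructor
  · rintro ⟨k, hk⟩
    exact ⟨k, by rw [det_pathN, hk]⟩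
  · rintro ⟨k, hk⟩
    refine ⟨k, ?_⟩
    rw [det_pathN] at hk
    exact det_shS_inj hk

theorem det_EV {ω : Conf} {J : ℕ}
    (hJ : ∀ σ : St, σ.1.1 ≤ -(J:ℤ) → ∀ n : ℕ, (VisN n ω σ ↔ Vis ω σ))
    {j : ℕ} (hj : J ≤ j) (y : ℤ) (c : Q4) :
    EV (sh (-(j:ℤ)) ω) ((0, y), c) ↔ Vis ω ((-(j:ℤ), y), c) := by
  have key : ∀ n : ℕ, j ≤ n →
      (VisN n (sh (-(j:ℤ)) ω) ((0, y), c) ↔ Vis ω ((-(j:ℤ), y), c)) := by
    intro n hn
    rw [det_visN]
    have h1 : shS (-(j:ℤ)) (((0, y), c) : St) = ((-(j:ℤ), y), c) := by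
      simp [shS]
    have h2 : ((n:ℤ) - (j:ℤ)) = ((n - j : ℕ) : ℤ) := by omega
    rw [h1, h2]
    refine hJ _ ?_ _
    simp only
    omega
  constructor
  · rintro ⟨N, hN⟩
    exact (key (max N j) (le_max_right _ _)).mp (hN _ (le_max_left _ _))
  · intro h
    exact ⟨j, fun n hn => (key n hn).mpr h⟩

/-- The number of the visited states in the column `-j`. -/
noncomputable def det_col (ω : Conf) (j : ℕ) : ℕ := {σ : St | Vis ω σ ∧ σ.1.1 = -(j:ℤ)}.ncard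

theorem det_Y0 {ω : Conf} {J : ℕ}
    (hJ : ∀ σ : St, σ.1.1 ≤ -(J:ℤ) → ∀ n : ℕ, (VisN n ω σ ↔ Vis ω σ))
    (hF : ∀ m : ℝ, {σ : St | Vis ω σ ∧ -m ≤ (σ.1.1 : ℝ)}.Finite)
    {j : ℕ} (hj : J ≤ j) : Y0 (sh (-(j:ℤ)) ω) = det_col ω j := by
  classical
  set f : ℕ × Q4 → St := fun τ => ((-(j:ℤ), (τ.1 : ℤ)), τ.2) with hf
  have hfi : Function.Injective f := by
    rintro ⟨a, b⟩ ⟨a', b'⟩ h
    simp only [hf, Prod.mk.injEq] at h
    obtain ⟨⟨-, h1⟩, h2⟩ := h
    simp only [Prod.mk.injEq]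
    exact ⟨by exact_mod_cast h1, h2⟩
  set C : Set (ℕ × Q4) := {τ | Vis ω (f τ)} with hC
  have himg : f '' C = {σ : St | Vis ω σ ∧ σ.1.1 = -(j:ℤ)} := by
    ext σ
    simp only [Set.mem_image, Set.mem_setOf_eq, hC]
    constructor
    · rintro ⟨τ, h1, h2⟩
      rw [← h2]
      exact ⟨h1, rfl⟩
    · rintro ⟨⟨k, hk⟩, h2⟩
      have h3 := path_nonneg ω k
      rw [hk] at h3
      refine ⟨(σ.1.2.toNat, σ.2), ?_, ?_⟩
      · refine ⟨k, ?_⟩
        rw [hk]
        simp only [hf]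
        refine Prod.ext (Prod.ext h2 ?_) rfl
        simp only
        omega
      · simp only [hf]
        refine Prod.ext (Prod.ext h2.symm ?_) rfl
        simp only
        omega
  have hfin : {σ : St | Vis ω σ ∧ σ.1.1 = -(j:ℤ)}.Finite := by
    refine (hF j).subset ?_
    rintro σ ⟨h1, h2⟩
    refine ⟨h1, ?_⟩
    rw [h2]
    push_cast
    exact le_rfl
  have hCfin : C.Finite := by
    have h : (f '' C).Finite := by rw [himg]; exact hfin
    exact h.of_finite_image hfi.injOn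
  have hY : Y0 (sh (-(j:ℤ)) ω) = ∑' τ : ℕ × Q4, ind (τ ∈ C) := by
    unfold Y0
    refine tsum_congr fun τ => ?_
    exact ind_congr (det_EV hJ hj _ _)
  rw [hY, tsum_eq_sum (s := hCfin.toFinset) (fun τ hτ => ind_not_of (by
    intro h
    exact hτ (hCfin.mem_toFinset.mpr h)))]
  rw [Finset.sum_congr rfl (fun τ hτ => ind_of (hCfin.mem_toFinset.mp hτ))]
  rw [Finset.sum_const, nsmul_eq_mul, mul_one, det_col, ← himg,
    Set.ncard_image_of_injective C hfi, Set.ncard_eq_toFinset_card C hCfin]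

theorem det_cnt_succ {ω : Conf}
    (hF : ∀ m : ℝ, {σ : St | Vis ω σ ∧ -m ≤ (σ.1.1 : ℝ)}.Finite) (m : ℕ) :
    cnt ω ((m + 1 : ℕ) : ℝ) = cnt ω (m : ℝ) + det_col ω (m + 1) := by
  unfold cnt det_col
  rw [← Set.ncard_union_eq ?_ (hF _) ?_]
  · congr 1
    ext σ
    simp only [Set.mem_setOf_eq, Set.mem_union]
    have e1 : (-((m + 1 : ℕ) : ℝ) ≤ (σ.1.1 : ℝ)) ↔ -((m + 1 : ℕ) : ℤ) ≤ σ.1.1 := by
      rw [← Int.cast_natCast (m + 1), ← Int.cast_neg, Int.cast_le]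
    have e2 : (-(m : ℝ) ≤ (σ.1.1 : ℝ)) ↔ -(m : ℤ) ≤ σ.1.1 := by
      rw [← Int.cast_natCast m, ← Int.cast_neg, Int.cast_le]
    rw [e1, e2]
    constructor
    · rintro ⟨h1, h2⟩
      by_cases h3 : -(m:ℤ) ≤ σ.1.1
      · exact Or.inl ⟨h1, h3⟩
      · exact Or.inr ⟨h1, by omega⟩
    · rintro (⟨h1, h2⟩ | ⟨h1, h2⟩)
      · exact ⟨h1, by omega⟩
      · exact ⟨h1, by omega⟩
  · rw [Set.disjoint_left]
    rintro σ ⟨h1, h2⟩ ⟨h3, h4⟩
    rw [h4] at h2
    push_cast at h2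
    linarith
  · refine (hF ((m + 1 : ℕ) : ℝ)).subset ?_
    rintro σ ⟨h1, h2⟩
    refine ⟨h1, ?_⟩
    rw [h2]
    push_cast
    exact le_rfl

theorem det_cnt_floor {ω : Conf} {x : ℝ} (hx : 0 ≤ x) : cnt ω x = cnt ω (⌊x⌋₊ : ℝ) := by
  unfold cnt
  congr 1
  ext σ
  simp only [Set.mem_setOf_eq]
  have e2 : (-(⌊x⌋₊ : ℝ) ≤ (σ.1.1 : ℝ)) ↔ -((⌊x⌋₊ : ℕ) : ℤ) ≤ σ.1.1 := by
    rw [← Int.cast_natCast (⌊x⌋₊), ← Int.cast_neg, Int.cast_le]
  rw [e2]
  have e3 : (-x ≤ (σ.1.1 : ℝ)) ↔ -((⌊x⌋₊ : ℕ) : ℤ) ≤ σ.1.1 := by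
    rw [Int.natCast_floor_eq_floor hx]
    constructor
    · intro h
      have : (-σ.1.1) ≤ ⌊x⌋ := by
        rw [Int.le_floor]
        push_cast
        linarith
      omega
    · intro h
      have : (-σ.1.1) ≤ ⌊x⌋ := by omega
      rw [Int.le_floor] at this
      push_cast at this
      linarith
  rw [e3]

theorem det_cnt_lim {ω : Conf} {D : ℝ} {J : ℕ}
    (hJ : ∀ σ : St, σ.1.1 ≤ -(J:ℤ) → ∀ n : ℕ, (VisN n ω σ ↔ Vis ω σ))
    (hF : ∀ m : ℝ, {σ : St | Vis ω σ ∧ -m ≤ (σ.1.1 : ℝ)}.Finite)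
    (hD : Tendsto (fun m : ℕ => (∑ j ∈ range m, Y0 (sh (-(j:ℤ)) ω)) / m) atTop (𝓝 D)) :
    Tendsto (fun x : ℝ => (cnt ω x : ℝ) / x) atTop (𝓝 D) := by
  set S : ℕ → ℝ := fun m => ∑ j ∈ range m, Y0 (sh (-(j:ℤ)) ω) with hS
  -- the constant
  have h1 : ∀ i : ℕ, (cnt ω ((J + i : ℕ) : ℝ) : ℝ) - S (J + i + 1) =
      (cnt ω (J : ℝ) : ℝ) - S (J + 1) := by
    intro i
    induction i with
    | zero => simp
    | succ i ih =>
      have e1 : (cnt ω ((J + (i + 1) : ℕ) : ℝ) : ℝ) =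
          cnt ω ((J + i : ℕ) : ℝ) + det_col ω (J + i + 1) := by
        have := det_cnt_succ hF (J + i)
        exact_mod_cast this
      have e2 : S (J + (i + 1) + 1) = S (J + i + 1) + Y0 (sh (-((J + i + 1 : ℕ):ℤ)) ω) := by
        simp only [hS]
        rw [← add_assoc, Finset.sum_range_succ]
      rw [e1, e2, det_Y0 hJ hF (by omega : J ≤ J + i + 1), ← ih]
      ring
  set c0 : ℝ := (cnt ω (J : ℝ) : ℝ) - S (J + 1) with hc0
  have h2 : ∀ m : ℕ, J ≤ m → (cnt ω (m : ℝ) : ℝ) = c0 + S (m + 1) := by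
    intro m hm
    obtain ⟨i, rfl⟩ := Nat.exists_eq_add_of_le hm
    have := h1 i
    linarith
  -- natural numbers
  have h3 : Tendsto (fun m : ℕ => (cnt ω (m : ℝ) : ℝ) / m) atTop (𝓝 D) := by
    have a1 : Tendsto (fun m : ℕ => S (m + 1) / ((m + 1 : ℕ) : ℝ)) atTop (𝓝 D) :=
      hD.comp (tendsto_add_atTop_nat 1)
    have a2 : Tendsto (fun m : ℕ => c0 / (m:ℝ)) atTop (𝓝 0) :=
      tendsto_const_div_atTop_nhds_zero_nat c0
    have a3 : Tendsto (fun m : ℕ => (1:ℝ) / (m:ℝ)) atTop (𝓝 0) :=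
      tendsto_const_div_atTop_nhds_zero_nat 1
    have a4 : Tendsto (fun m : ℕ => c0 / (m:ℝ) + (S (m + 1) / ((m + 1 : ℕ) : ℝ)) *
        (1 + 1 / (m:ℝ))) atTop (𝓝 (0 + D * (1 + 0))) :=
      a2.add (a1.mul (tendsto_const_nhds.add a3))
    rw [zero_add, add_zero, mul_one] at a4
    refine a4.congr' ?_
    filter_upwards [eventually_ge_atTop (max J 1)] with m hm
    rw [h2 m (le_trans (le_max_left _ _) hm)]
    have hm1 : 1 ≤ m := le_trans (le_max_right _ _) hm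
    have hm' : (0:ℝ) < m := by exact_mod_cast hm1
    push_cast
    field_simp
  -- real numbers
  have h4 : Tendsto (fun x : ℝ => ((cnt ω ((⌊x⌋₊ : ℕ) : ℝ) : ℝ) / ((⌊x⌋₊ : ℕ) : ℝ)) *
      (((⌊x⌋₊ : ℕ) : ℝ) / x)) atTop (𝓝 (D * 1)) :=
    (h3.comp tendsto_nat_floor_atTop).mul tendsto_nat_floor_div_atTop
  rw [mul_one] at h4
  refine h4.congr' ?_
  filter_upwards [eventually_ge_atTop (1:ℝ)] with x hx
  have hfl : 1 ≤ ⌊x⌋₊ := by
    rw [Nat.one_le_floor_iff]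
    exact hx
  have hfl' : (0:ℝ) < (⌊x⌋₊ : ℕ) := by exact_mod_cast hfl
  have hx' : 0 < x := by linarith
  rw [det_cnt_floor hx'.le]
  field_simp

theorem det_place_re (σ : St) : |(place σ).re - σ.1.1| ≤ 1 / 4 := by
  obtain ⟨⟨a, b⟩, c⟩ := σ
  cases c <;> simp only [place] <;> (rw [abs_le]; constructor <;> linarith)

theorem det_place_im (σ : St) : |(place σ).im - σ.1.2| ≤ 1 / 4 := by
  obtain ⟨⟨a, b⟩, c⟩ := σ
  cases c <;> simp only [place] <;> (rw [abs_le]; constructor <;> linarith)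

/-- B11. -/
theorem det (h1 : S_stab) (h2 : S_time) : S_det := by
  intro ω A D hR hDn hD0 hD
  obtain ⟨M, hM⟩ := hDn 1 one_pos
  obtain ⟨b, hb, -, -, hb4⟩ := hM M le_rfl
  obtain ⟨J, hJ⟩ := h1 ω A hR ⟨b, hb, hb4⟩
  obtain ⟨hF, hT⟩ := h2 ω A hR hDn
  have hL := det_cnt_lim hJ hF hD
  set mk : ℕ → ℝ := fun k => -((path ω k).1.1 : ℝ) with hmk
  have hmt : Tendsto mk atTop atTop := by
    rw [tendsto_atTop]
    intro R
    obtain ⟨K, hK⟩ := hT (1/2) (by norm_num) (by norm_num) R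
    filter_upwards [eventually_ge_atTop K] with k hk
    exact (hK k hk).2.1
  have hpos : ∀ᶠ k in atTop, 0 < mk k := hmt.eventually_gt_atTop 0
  -- time over place
  have hup : ∀ ε : ℝ, 0 < ε → ε < 1 → ∀ᶠ k : ℕ in atTop, (k:ℝ) / mk k ≤ (1 + ε) * D + ε := by
    intro ε h0 h1'
    obtain ⟨K, hK⟩ := hT ε h0 h1' 0
    have a1 : Tendsto (fun k => (1 + ε) * mk k) atTop atTop :=
      hmt.const_mul_atTop (by linarith)
    have a2 := (hL.comp a1).const_mul (1 + ε)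
    have a3 : ∀ᶠ k : ℕ in atTop, (1 + ε) * ((fun x : ℝ => (cnt ω x : ℝ) / x) ∘
        (fun k => (1 + ε) * mk k)) k < (1 + ε) * D + ε :=
      a2.eventually_lt_const (by linarith)
    filter_upwards [a3, eventually_ge_atTop K, hpos] with k b1 b2 b3
    have b4 := (hK k b2).2.2.2.1
    simp only [Function.comp_apply] at b1
    have b5 : (1 + ε) * ((cnt ω ((1 + ε) * mk k) : ℝ) / ((1 + ε) * mk k)) =
        (cnt ω ((1 + ε) * mk k) : ℝ) / mk k := by
      have : (0:ℝ) < 1 + ε := by linarith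
      field_simp
    rw [b5] at b1
    refine le_trans ?_ b1.le
    exact div_le_div_of_nonneg_right b4 b3.le
  have hlo : ∀ ε : ℝ, 0 < ε → ε < 1 → ∀ᶠ k : ℕ in atTop, (1 - ε) * D - ε ≤ (k:ℝ) / mk k := by
    intro ε h0 h1'
    obtain ⟨K, hK⟩ := hT ε h0 h1' 0
    have a1 : Tendsto (fun k => (1 - ε) * mk k) atTop atTop :=
      hmt.const_mul_atTop (by linarith)
    have a2 := (hL.comp a1).const_mul (1 - ε)
    have a3 : ∀ᶠ k : ℕ in atTop, (1 - ε) * D - ε < (1 - ε) * ((fun x : ℝ => (cnt ω x : ℝ) / x) ∘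
        (fun k => (1 - ε) * mk k)) k :=
      a2.eventually_const_lt (by linarith)
    filter_upwards [a3, eventually_ge_atTop K, hpos] with k b1 b2 b3
    have b4 := (hK k b2).2.2.1
    simp only [Function.comp_apply] at b1
    have b5 : (1 - ε) * ((cnt ω ((1 - ε) * mk k) : ℝ) / ((1 - ε) * mk k)) =
        (cnt ω ((1 - ε) * mk k) : ℝ) / mk k := by
      have : (0:ℝ) < 1 - ε := by linarith
      field_simp
    rw [b5] at b1
    refine le_trans b1.le ?_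
    exact div_le_div_of_nonneg_right b4 b3.le
  have hq : Tendsto (fun k : ℕ => (k:ℝ) / mk k) atTop (𝓝 D) := by
    rw [Metric.tendsto_nhds]
    intro η hη
    set ε : ℝ := min (1/2) (η / (2 * (D + 1))) with hε
    have hD1 : 0 < D + 1 := by linarith
    have e0 : 0 < ε := lt_min (by norm_num) (by positivity)
    have e1 : ε < 1 := lt_of_le_of_lt (min_le_left _ _) (by norm_num)
    have e2 : ε * (D + 1) ≤ η / 2 := by
      have : ε ≤ η / (2 * (D + 1)) := min_le_right _ _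
      calc ε * (D + 1) ≤ η / (2 * (D + 1)) * (D + 1) :=
            mul_le_mul_of_nonneg_right this hD1.le
        _ = η / 2 := by field_simp
    filter_upwards [hup ε e0 e1, hlo ε e0 e1] with k b1 b2
    rw [Real.dist_eq, abs_lt]
    constructor <;> nlinarith
  have hr : Tendsto (fun k : ℕ => mk k / (k:ℝ)) atTop (𝓝 D⁻¹) := by
    have := hq.inv₀ hD0.ne'
    refine this.congr fun k => ?_
    rw [inv_div]
  have hinv : Tendsto (fun k : ℕ => (1/4 : ℝ) / (k:ℝ)) atTop (𝓝 0) :=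
    tendsto_const_div_atTop_nhds_zero_nat _
  -- real parts
  have hre : Tendsto (fun k : ℕ => (gam ω k).re / (k:ℝ)) atTop (𝓝 (-(1 / D))) := by
    have a1 : Tendsto (fun k : ℕ => ((gam ω k).re + mk k) / (k:ℝ)) atTop (𝓝 0) := by
      refine squeeze_zero_norm (fun k => ?_) hinv
      rw [Real.norm_eq_abs, abs_div, Nat.abs_cast]
      refine div_le_div_of_nonneg_right ?_ (Nat.cast_nonneg k)
      have := det_place_re (path ω k)
      simp only [hmk, gam]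
      rwa [← sub_eq_add_neg]
    have a2 := a1.sub hr
    rw [zero_sub, ← one_div] at a2
    refine a2.congr fun k => ?_
    ring
  -- imaginary parts
  have him : Tendsto (fun k : ℕ => (gam ω k).im / (k:ℝ)) atTop (𝓝 0) := by
    have a1 : Tendsto (fun k : ℕ => ((gam ω k).im - ((path ω k).1.2 : ℝ)) / (k:ℝ)) atTop
        (𝓝 0) := by
      refine squeeze_zero_norm (fun k => ?_) hinv
      rw [Real.norm_eq_abs, abs_div, Nat.abs_cast]
      exact div_le_div_of_nonneg_right (det_place_im (path ω k)) (Nat.cast_nonneg k)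
    have a2 : Tendsto (fun k : ℕ => ((path ω k).1.2 : ℝ) / (k:ℝ)) atTop (𝓝 0) := by
      rw [Metric.tendsto_nhds]
      intro η hη
      have hDi : 0 < D⁻¹ := inv_pos.mpr hD0
      set ε : ℝ := min (1/2) (η / (2 * (D⁻¹ + 1))) with hε
      have hD1 : 0 < D⁻¹ + 1 := by linarith
      have e0 : 0 < ε := lt_min (by norm_num) (by positivity)
      have e1 : ε < 1 := lt_of_le_of_lt (min_le_left _ _) (by norm_num)
      have e2 : ε * (D⁻¹ + 1) ≤ η / 2 := by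
        have : ε ≤ η / (2 * (D⁻¹ + 1)) := min_le_right _ _
        calc ε * (D⁻¹ + 1) ≤ η / (2 * (D⁻¹ + 1)) * (D⁻¹ + 1) :=
              mul_le_mul_of_nonneg_right this hD1.le
          _ = η / 2 := by field_simp
      obtain ⟨K, hK⟩ := hT ε e0 e1 0
      have b0 : ∀ᶠ k : ℕ in atTop, mk k / (k:ℝ) < D⁻¹ + 1 :=
        hr.eventually_lt_const (by linarith)
      filter_upwards [b0, eventually_ge_atTop K] with k b1 b2
      have b3 := (hK k b2).2.2.2.2
      rw [dist_zero_right, Real.norm_eq_abs, abs_div, Nat.abs_cast]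
      calc |((path ω k).1.2 : ℝ)| / (k:ℝ) ≤ (ε * mk k) / (k:ℝ) :=
            div_le_div_of_nonneg_right b3 (Nat.cast_nonneg k)
        _ = ε * (mk k / (k:ℝ)) := by ring
        _ ≤ ε * (D⁻¹ + 1) := mul_le_mul_of_nonneg_left b1.le e0.le
        _ ≤ η / 2 := e2
        _ < η := by linarith
    have a3 := a1.add a2
    rw [add_zero] at a3
    refine a3.congr fun k => ?_
    ring
  -- together
  have hc : Tendsto (fun k : ℕ => (((gam ω k).re / (k:ℝ) : ℝ) : ℂ) +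
      (((gam ω k).im / (k:ℝ) : ℝ) : ℂ) * Complex.I) atTop
      (𝓝 (((-(1 / D) : ℝ) : ℂ) + ((0 : ℝ) : ℂ) * Complex.I)) :=
    ((Complex.continuous_ofReal.tendsto _).comp hre).add
      (((Complex.continuous_ofReal.tendsto _).comp him).mul_const _)
  rw [Complex.ofReal_zero, zero_mul, add_zero] at hc
  refine hc.congr fun k => ?_
  push_cast
  rw [div_mul_eq_mul_div, ← add_div, Complex.re_add_im]

end H953S
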