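import Pool.Agent.H953.Spd.Defs

/-!
Density of the edges of the axis which are under no open path (`S_dns`).
-/

set_option autoImplicit false

namespace H953S

open H974 Finset H342P H984P H984H MeasureTheory ProbabilityTheory Filter Topology

namespace DnsAux

/-- Counting lemma: the indices of a set with a positive density are not too sparse. -/
theorem count {c : ℕ → ℝ} {a : ℕ → Prop} {p : ℝ} (hp : 0 < p)
    (hc : ∀ m, ¬ a m → c (m + 1) = c m)
    (h : Tendsto (fun m : ℕ => c m / m) atTop (𝓝 p)) (ε : ℝ) (hε : 0 < ε) :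
    ∃ M : ℕ, ∀ m : ℕ, M ≤ m → 0 < m ∧ ∃ j : ℕ, m ≤ j ∧ (j : ℝ) ≤ (1 + ε) * m ∧ a j := by
  set δ : ℝ := p * ε / (2 + ε) with hδd
  have h2 : (0 : ℝ) < 2 + ε := by linarith
  have hδ : 0 < δ := by positivity
  have hδe : δ * (2 + ε) = p * ε := by rw [hδd]; field_simp
  have hδp : δ < p := by nlinarith
  rw [Metric.tendsto_atTop] at h
  obtain ⟨M0, hM0⟩ := h δ hδ
  refine ⟨M0 + 1, fun m hm => ⟨by omega, ?_⟩⟩
  by_contra hcon
  push Not at hcon
  have hm0 : (0 : ℝ) < m := by exact_mod_cast (by omega : 0 < m)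
  set m' : ℕ := ⌊(1 + ε) * m⌋₊ + 1 with hm'd
  have hm'1 : (1 + ε) * m < m' := by
    rw [hm'd]; push_cast; exact Nat.lt_floor_add_one _
  have hmm' : m ≤ m' := by
    have : (m : ℝ) < m' := by nlinarith
    exact_mod_cast this.le
  have hceq : ∀ k : ℕ, m + k ≤ m' → c (m + k) = c m := by
    intro k
    induction k with
    | zero => intro _; rfl
    | succ k ih =>
      intro hk
      rw [← ih (by omega), ← add_assoc]
      refine hc _ (hcon (m + k) (by omega) ?_)
      have h3 : m + k ≤ ⌊(1 + ε) * m⌋₊ := by omega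
      exact (Nat.le_floor_iff (by positivity)).1 h3
  have hcm : c m' = c m := by
    have := hceq (m' - m) (by omega)
    rwa [Nat.add_sub_cancel' hmm'] at this
  have h3 := hM0 m (by omega)
  have h4 := hM0 m' (by omega)
  rw [Real.dist_eq, abs_lt] at h3 h4
  have hm'0 : (0 : ℝ) < m' := lt_of_lt_of_le hm0 (by exact_mod_cast hmm')
  have h5 : c m < (p + δ) * m := by
    have : c m / m < p + δ := by linarith [h3.2]
    rwa [div_lt_iff₀ hm0] at this
  have h6 : (p - δ) * m' < c m' := by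
    have : p - δ < c m' / m' := by linarith [h4.1]
    rwa [lt_div_iff₀ hm'0] at this
  rw [hcm] at h6
  have h7 : (p - δ) * ((1 + ε) * m) ≤ (p - δ) * m' :=
    mul_le_mul_of_nonneg_left hm'1.le (by linarith)
  have h8 : (p + δ) * m = (p - δ) * ((1 + ε) * m) := by
    have : p + δ = (p - δ) * (1 + ε) := by linear_combination hδe
    rw [this]; ring
  linarith

/-- the shift of the edges -/
def shE (n : ℤ) : Edg ≃ Edg where
  toFun e := (e.1 + n, e.2.1, e.2.2)
  invFun e := (e.1 - n, e.2.1, e.2.2)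
  left_inv e := by simp
  right_inv e := by simp

theorem mp_sh (q : unitInterval) (n : ℤ) : MeasurePreserving (sh n) (lw q) (lw q) := by
  refine ⟨measurable_pi_lambda _ fun e => measurable_pi_apply _, ?_⟩
  exact Measure.map_infinitePi_infinitePi_of_inj
    (P := fun _ : Edg => bernoulliMeasure true false q) (shE n).injective

instance (q : unitInterval) : IsProbabilityMeasure (lw q) := by unfold lw; infer_instance

end DnsAux

open DnsAux in
theorem dns (h1 : S_erg) (h2 : S_napos) : S_dns := by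
  classical
  intro q hq
  obtain ⟨hS, hpos⟩ := h2 q hq
  set S : Set Conf := {ω : Conf | NA ω 0} with hSd
  set p0 : ℝ := (lw q).real S with hp0
  have hint : Integrable (S.indicator fun _ => (1 : ℝ)) (lw q) :=
    (integrable_const (1 : ℝ)).indicator hS
  have hval : ∫ ω, S.indicator (fun _ => (1 : ℝ)) ω ∂(lw q) = p0 := by
    rw [integral_indicator_const _ hS, smul_eq_mul, mul_one]
  have herg := h1 q _ hint
  rw [hval] at herg
  have hleft : ∀ᵐ ω ∂(lw q), Dns ω := by
    filter_upwards [herg] with ω hω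
    intro ε hε
    obtain ⟨M, hM⟩ := count (a := fun j : ℕ => NA ω (-(j : ℤ))) hpos (fun m hm => by
      rw [sum_range_succ, Set.indicator_of_notMem, add_zero]
      intro hmem
      have : NA (sh (-(m : ℤ)) ω) 0 := hmem
      rw [na_sh, zero_add] at this
      exact hm this) hω ε hε
    refine ⟨M, fun m hm => ?_⟩
    obtain ⟨hm0, j, hj1, hj2, hj3⟩ := hM m hm
    refine ⟨-(j : ℤ), by omega, ?_, ?_, hj3⟩
    · push_cast
      linarith
    · push_cast
      have : (m : ℝ) ≤ j := by exact_mod_cast hj1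
      linarith
  -- the right side
  let A : ℤ → Set Conf := fun R => {ω | ∃ b : ℤ, R ≤ b ∧ NA ω b}
  have hNAm : ∀ b : ℤ, MeasurableSet {ω : Conf | NA ω b} := by
    intro b
    have : {ω : Conf | NA ω b} = sh b ⁻¹' S := by
      ext ω
      show NA ω b ↔ NA (sh b ω) 0
      rw [na_sh, zero_add]
    rw [this]
    exact (mp_sh q b).measurable hS
  have hAm : ∀ R, MeasurableSet (A R) := by
    intro R
    have : A R = ⋃ b : ℤ, ⋃ _ : R ≤ b, {ω : Conf | NA ω b} := by
      ext ω
      simp [A]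
    rw [this]
    exact MeasurableSet.iUnion fun b => MeasurableSet.iUnion fun _ => hNAm b
  have hAsh : ∀ R, A R = sh R ⁻¹' (A 0) := by
    intro R
    ext ω
    show (∃ b : ℤ, R ≤ b ∧ NA ω b) ↔ ∃ b : ℤ, 0 ≤ b ∧ NA (sh R ω) b
    constructor
    · rintro ⟨b, hb, hN⟩
      refine ⟨b - R, by omega, ?_⟩
      rw [na_sh, sub_add_cancel]
      exact hN
    · rintro ⟨b, hb, hN⟩
      rw [na_sh] at hN
      exact ⟨b + R, by omega, hN⟩
  have hAμ : ∀ R, lw q (A R) = lw q (A 0) := by
    intro R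
    rw [hAsh R]
    exact (mp_sh q R).measure_preimage (hAm 0).nullMeasurableSet
  have hmono : Monotone fun n : ℕ => A (-(n : ℤ)) := by
    intro m n hmn ω hω
    obtain ⟨b, hb, hN⟩ := hω
    exact ⟨b, by omega, hN⟩
  have hU : lw q (⋃ n : ℕ, A (-(n : ℤ))) = 1 := by
    rw [← measure_univ (μ := lw q)]
    refine measure_congr ?_
    rw [ae_eq_univ]
    have : ∀ᵐ ω ∂(lw q), ω ∈ ⋃ n : ℕ, A (-(n : ℤ)) := by
      filter_upwards [hleft] with ω hω
      obtain ⟨M, hM⟩ := hω 1 one_pos
      obtain ⟨b, -, -, -, hN⟩ := hM M le_rfl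
      rw [Set.mem_iUnion]
      exact ⟨b.natAbs, b, by omega, hN⟩
    exact this
  have hA0 : lw q (A 0) = 1 := by
    rw [hmono.measure_iUnion] at hU
    simp only [hAμ] at hU
    rwa [ciSup_const] at hU
  have hright : ∀ᵐ ω ∂(lw q), ∀ R : ℤ, ω ∈ A R := by
    rw [ae_all_iff]
    intro R
    have h3 : lw q (A R)ᶜ = 0 := (prob_compl_eq_zero_iff (hAm R)).2 ((hAμ R).trans hA0)
    exact h3
  filter_upwards [hleft, hright] with ω hω1 hω2
  refine ⟨hω1, fun R => ?_⟩
  obtain ⟨b, hb, hN⟩ := hω2 ⌈R⌉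
  exact ⟨b, (Int.le_ceil R).trans (by exact_mod_cast hb), hN⟩

end H953S
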