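import Pool.Agent.H953.Spd.Defs
import Pool.Graph.R_seed8.Y560.BE.Erg
import Pool.Graph.R_pool_sql_team_39128cda.Lib.helper9_.Birkhoff

/-!
The pointwise ergodic theorem for the horizontal shift.
-/

set_option autoImplicit false

namespace H953S

open H974 Finset H342P H984P H984H MeasureTheory ProbabilityTheory Filter Topology

namespace ErgAux

/-- the permutation of the edges -/
def sg : Edg ≃ Edg where
  toFun e := (e.1 - 1, e.2)
  invFun e := (e.1 + 1, e.2)
  left_inv e := by simp
  right_inv e := by simp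

theorem sg_iter (n : ℕ) (e : Edg) : sg^[n] e = (e.1 - n, e.2) := by
  induction n with
  | zero => simp
  | succ n ih =>
    rw [Function.iterate_succ_apply', ih]
    show ((e.1 - (n:ℤ) - 1, e.2) : Edg) = _
    rw [Nat.cast_succ, sub_sub]

theorem cm_iter_eq (j : ℕ) (ω : Conf) :
    (Pool.Agent.Y560.BE.cm (Z := Bool) sg)^[j] ω = sh (-(j:ℤ)) ω := by
  rw [Pool.Agent.Y560.BE.cm_iter]
  funext e
  rw [sg_iter]
  show ω (e.1 - (j:ℤ), e.2) = ω (e.1 + -(j:ℤ), e.2.1, e.2.2)
  rw [sub_eq_add_neg]

theorem erg_sg (q : unitInterval) :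
    Ergodic (Pool.Agent.Y560.BE.cm (Z := Bool) sg) (lw q) := by
  refine Pool.Agent.Y560.BE.erg_cm (bernoulliMeasure true false q) sg ?_
  refine Pool.Agent.Y560.BE.move_off sg ?_
  intro i n h
  rw [sg_iter] at h
  have h1 : i.1 - ((n + 1 : ℕ) : ℤ) = i.1 := congrArg Prod.fst h
  push_cast at h1
  omega

end ErgAux

open ErgAux

theorem erg : S_erg := by
  intro q f hf
  have : IsProbabilityMeasure (lw q) := by unfold lw; infer_instance
  have he := erg_sg q
  have hb := Pool.Agent.Lib.helper9.Birkhoff.birkhoff he.toMeasurePreserving hf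
  have hs : Measurable[MeasurableSpace.invariants (Pool.Agent.Y560.BE.cm (Z := Bool) sg)]
      ((lw q)[f | MeasurableSpace.invariants (Pool.Agent.Y560.BE.cm (Z := Bool) sg)]) :=
    stronglyMeasurable_condExp.measurable
  have hinv := MeasurableSpace.comp_eq_of_measurable_invariants hs
  have hle := MeasurableSpace.invariants_le (Pool.Agent.Y560.BE.cm (Z := Bool) sg)
  obtain ⟨c, hc⟩ := he.toPreErgodic.ae_eq_const_of_ae_eq_comp (hs.mono hle le_rfl) hinv
  have hc1 : c = ∫ ω, f ω ∂(lw q) := by
    rw [← integral_condExp hle, integral_congr_ae hc]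
    simp
  filter_upwards [hb, hc] with ω h1 h2
  rw [h2, Function.const_apply, hc1] at h1
  refine h1.congr fun m => ?_
  rw [birkhoffAverage, birkhoffSum, smul_eq_mul, div_eq_inv_mul]
  congr 1
  exact Finset.sum_congr rfl fun j _ => by rw [cm_iter_eq]

end H953S
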