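import Pool.Agent.H953.Spd.Defs

/-!
Events of finitely many edges.
-/

set_option autoImplicit false

namespace H953S

open H974 Finset H342P H984P H984H MeasureTheory ProbabilityTheory Filter Topology

instance (q : unitInterval) : IsProbabilityMeasure (lw q) := by unfold lw; infer_instance

open Classical in
/-- The open edges of `ω` in a finite set. -/
noncomputable def op (S : Finset Edg) (ω : Conf) : Finset Edg := S.filter (fun e => ω e = true)

theorem mem_op {S : Finset Edg} {ω : Conf} {e : Edg} : e ∈ op S ω ↔ e ∈ S ∧ ω e = true := by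
  classical
  unfold op
  rw [Finset.mem_filter]

theorem op_sub (S : Finset Edg) (ω : Conf) : op S ω ⊆ S := fun _ h => (mem_op.1 h).1

theorem op_pi {S T : Finset Edg} (hT : T ⊆ S) :
    {ω : Conf | op S ω = T} = Set.pi (↑S : Set Edg) (fun g => {b : Bool | b = true ↔ g ∈ T}) := by
  ext ω
  rw [Set.mem_pi]
  constructor
  · intro h g hg
    have h' : op S ω = T := h
    show ω g = true ↔ g ∈ T
    rw [← h', mem_op]
    exact ⟨fun h => ⟨hg, h⟩, fun h => h.2⟩
  · intro h
    show op S ω = T
    ext e
    rw [mem_op]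
    constructor
    · rintro ⟨he, hω⟩
      exact (h e he).mp hω
    · intro he
      exact ⟨hT he, (h e (hT he)).mpr he⟩

theorem meas_op (S T : Finset Edg) : MeasurableSet {ω : Conf | op S ω = T} := by
  by_cases hT : T ⊆ S
  · rw [op_pi hT]
    exact MeasurableSet.pi (Finset.countable_toSet _) (fun _ _ => MeasurableSet.of_discrete)
  · have : {ω : Conf | op S ω = T} = ∅ := by
      ext ω
      simp only [Set.mem_empty_iff_false, iff_false]
      intro h
      have h' : op S ω = T := h
      exact hT (h' ▸ op_sub S ω)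
    rw [this]
    exact MeasurableSet.empty

theorem meas_ev (S : Finset Edg) (A : Finset Edg → Prop) : MeasurableSet {ω : Conf | A (op S ω)} := by
  classical
  have h1 : {ω : Conf | A (op S ω)} =
      ⋃ T ∈ S.powerset.filter A, {ω : Conf | op S ω = T} := by
    ext ω
    simp only [Set.mem_ofPred_eq, Set.mem_iUnion, Finset.mem_filter, Finset.mem_powerset,
      exists_prop]
    exact ⟨fun h => ⟨_, ⟨op_sub S ω, h⟩, rfl⟩, fun ⟨T, h2, h3⟩ => by rw [h3]; exact h2.2⟩
  rw [h1]
  exact MeasurableSet.biUnion (Finset.countable_toSet _) fun T _ => meas_op S T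

/-- Events of finitely many edges. -/
theorem lw_fin (q : unitInterval) (S : Finset Edg) (A : Finset Edg → Prop) :
    (lw q).real {ω | A (op S ω)} = Pr (fun _ => (q : ℝ)) S A := by
  classical
  have h1 : {ω : Conf | A (op S ω)} =
      ⋃ T ∈ S.powerset.filter A, {ω : Conf | op S ω = T} := by
    ext ω
    simp only [Set.mem_ofPred_eq, Set.mem_iUnion, Finset.mem_filter, Finset.mem_powerset,
      exists_prop]
    exact ⟨fun h => ⟨_, ⟨op_sub S ω, h⟩, rfl⟩, fun ⟨T, h2, h3⟩ => by rw [h3]; exact h2.2⟩
  have hp : ∀ T : Finset Edg, T ⊆ S → (lw q).real {ω : Conf | op S ω = T} =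
      (∏ e ∈ T, (q : ℝ)) * ∏ e ∈ S \ T, (1 - (q : ℝ)) := by
    intro T hT
    unfold lw Q292.TVX.law
    rw [measureReal_def, op_pi hT]
    rw [Measure.infinitePi_pi _ (fun _ _ => MeasurableSet.of_discrete), ENNReal.toReal_prod]
    have h1 : ∀ e ∈ S, (bernoulliMeasure true false q
        {b : Bool | b = true ↔ e ∈ T}).toReal = if e ∈ T then (q : ℝ) else 1 - (q : ℝ) :=
      fun e _ => Q292.TVX.bern_iff q (e ∈ T)
    rw [Finset.prod_congr rfl h1]
    have h2 : S = T ∪ (S \ T) := by
      rw [Finset.union_sdiff_of_subset hT]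
    conv_lhs => rw [h2]
    rw [Finset.prod_union Finset.disjoint_sdiff]
    congr 1
    · exact Finset.prod_congr rfl fun e he => by rw [if_pos he]
    · exact Finset.prod_congr rfl fun e he => by rw [if_neg (Finset.mem_sdiff.mp he).2]
  rw [h1, measureReal_biUnion_finset]
  · unfold Pr Ex
    rw [Finset.sum_filter]
    refine Finset.sum_congr rfl fun T hT => ?_
    rw [Finset.mem_powerset] at hT
    beta_reduce
    by_cases hA : A T
    · rw [if_pos hA, ind_of hA, mul_one, hp T hT]
    · rw [if_neg hA, ind_not_of hA, mul_zero]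
  · intro T _ T' _ hne
    rw [Function.onFun, Set.disjoint_left]
    intro ω h2 h3
    exact hne (h2.symm.trans h3)
  · intro T _
    exact meas_op S T

end H953S
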