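import Pool.Agent.H953.Spd.Two

/-!
Geometry of the pivotal edges: four arms around the edge, two arms around the vertex, an open path
between them.
-/

set_option autoImplicit false

namespace H953S

open H974 Finset H12S H342P H984P H984H Q291.EP Q291.NL Q291.AD

theorem ga_ins {f : Edg} {P : Finset Edg} (hf : f ∈ P) (G : Set Edg) :
    insert f G ∩ (↑P : Set Edg) = insert f (G ∩ ↑P) := by
  ext x
  simp only [Set.mem_inter_iff, Set.mem_insert_iff, Finset.mem_coe]
  constructor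
  · rintro ⟨h1 | h1, h2⟩
    · exact Or.inl h1
    · exact Or.inr ⟨h1, h2⟩
  · rintro (rfl | ⟨h1, h2⟩)
    · exact ⟨Or.inl rfl, hf⟩
    · exact ⟨Or.inr h1, h2⟩

theorem ga_del (f : Edg) (P : Finset Edg) (G : Set Edg) :
    (G \ {f}) ∩ (↑P : Set Edg) = (G ∩ ↑P) \ {f} := by
  ext x
  simp only [Set.mem_inter_iff, Set.mem_sdiff, Set.mem_singleton_iff, Finset.mem_coe]
  tauto

theorem ga_notMem {f : Edg} {P : Finset Edg} (hf : f ∉ P) (G : Set Edg) :
    insert f G ∩ (↑P : Set Edg) = G ∩ ↑P := by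
  ext x
  simp only [Set.mem_inter_iff, Set.mem_insert_iff, Finset.mem_coe]
  constructor
  · rintro ⟨rfl | h1, h2⟩
    · exact absurd h2 hf
    · exact ⟨h1, h2⟩
  · rintro ⟨h1, h2⟩
    exact ⟨Or.inr h1, h2⟩

theorem ga_del_notMem {f : Edg} {P : Finset Edg} (hf : f ∉ P) (G : Set Edg) :
    (G \ {f}) ∩ (↑P : Set Edg) = G ∩ ↑P := by
  ext x
  simp only [Set.mem_inter_iff, Set.mem_sdiff, Set.mem_singleton_iff, Finset.mem_coe]
  constructor
  · rintro ⟨⟨h1, _⟩, h2⟩
    exact ⟨h1, h2⟩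
  · rintro ⟨h1, h2⟩
    refine ⟨⟨h1, ?_⟩, h2⟩
    rintro rfl
    exact hf h2

/-- A pivotal edge lies in `P`, and it is pivotal for the connection in `P`. -/
theorem ga_pv {P : Finset Edg} {I : Vtx → Prop} {T : Finset Edg} {J : Vtx → Prop} {u p : Vtx}
    {f : Edg} {G : Set Edg} (h : pO P I T J u p f G) :
    f ∈ P ∧ Pv {u} {w | I w} f (G ∩ ↑P) := by
  obtain ⟨⟨w, hw, h1⟩, h2, -⟩ := h
  have hf : f ∈ P := by
    by_contra hf
    apply h2
    refine ⟨w, hw, ?_⟩
    rw [ga_del_notMem hf]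
    rw [ga_notMem hf] at h1
    exact h1
  refine ⟨hf, ⟨u, rfl, w, hw, ?_⟩, ?_⟩
  · rw [ga_ins hf] at h1
    exact h1
  · rintro ⟨u', hu', v, hv, hr⟩
    rw [Set.mem_singleton_iff] at hu'
    subst hu'
    apply h2
    refine ⟨v, hv, ?_⟩
    rw [ga_del]
    exact hr

theorem g1 : S_g1 := by
  intro Λ k u p a b c d I T J f G s hR hs h1 h2 h3 h4 h5 h
  obtain ⟨-, hP⟩ := ga_pv h
  have hA : A4e s f (G ∩ ↑(RE a b c d)) := by
    apply loc_a4 (I := {u}) (J := {w | I w}) (mem_ebx hs) _ hP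
    intro v hv
    rcases hv with hv | hv
    · rw [Set.mem_singleton_iff] at hv
      subst hv
      unfold D1 at h5
      rintro ⟨a1, a2, a3, a4⟩
      rcases le_max_iff.1 h5 with h6 | h6
      · omega
      · omega
    · have h6 := hR.tg v hv
      rintro ⟨a1, a2, a3, a4⟩
      rcases h6 with h6 | h6 | h6 | h6 <;> omega
  apply (A4e_local _).mp hA
  have hsub : ebx f s ⊆ RE a b c d := RE_subset h1 h2 h3 h4
  ext x
  simp only [Set.mem_inter_iff, Finset.mem_coe]
  constructor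
  · rintro ⟨⟨a1, -⟩, a3⟩
    exact ⟨a1, a3⟩
  · rintro ⟨a1, a3⟩
    exact ⟨⟨a1, hsub a3⟩, a3⟩

theorem g2 : S_g2 := by
  intro Λ k u p a b c d a' b' c' d' I J f G s hup hR hR' hsk hf h
  rcases Nat.eq_zero_or_pos s with hs | hs
  · subst hs
    refine ⟨⟨u, ?_, Reach.refl _ _⟩, p, ?_, DReach.refl _ _⟩
    · unfold Far
      left
      push_cast
      omega
    · unfold FarF inF
      rintro ⟨⟨a1, a2⟩, -⟩
      push_cast at a1 a2
      omega
  · obtain ⟨⟨w, hw, h1⟩, -, g, hg, h2⟩ := h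
    have hT : Two u p (s : ℤ) (insert f G) := by
      refine ⟨⟨w, ?_, h1.mono Set.inter_subset_left⟩, g, ?_, h2.mono ?_⟩
      · have h3 := hR.tg w hw
        have l1 := hR.l1
        have l2 := hR.l2
        have u1 := hR.u1
        have u2 := hR.u2
        unfold Far
        rcases h3 with h3 | h3 | h3 | h3
        · left; omega
        · right; left; omega
        · right; right; left; omega
        · right; right; right; omega
      · have h3 := hR'.tg g hg
        have l1 := hR'.l1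
        have l2 := hR'.l2
        have u1 := hR'.u1
        have u2 := hR'.u2
        obtain ⟨i1, i2⟩ := hup
        unfold FarF inF
        rintro ⟨⟨a1, a2⟩, a3, a4⟩
        rcases h3 with h3 | h3 | h3 | h3
        · rcases i1 with i1 | i1 <;> omega
        · rcases i1 with i1 | i1 <;> omega
        · rcases i2 with i2 | i2 <;> omega
        · rcases i2 with i2 | i2 <;> omega
      · rintro x ⟨-, hx⟩
        exact hx
    have hs' : (0 : ℤ) < s := by exact_mod_cast hs
    rw [two_local hs'] at hT ⊢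
    have e1 : insert f G ∩ (↑(RE (u.1 - s) (u.1 + s) (u.2 - s) (u.2 + s)) : Set Edg) =
        G ∩ ↑(RE (u.1 - s) (u.1 + s) (u.2 - s) (u.2 + s)) := ga_notMem hf G
    rw [e1] at hT
    exact hT

theorem g4 : S_g4 := by
  intro P I T J u p z f G r R h1 h2 h
  obtain ⟨-, ⟨u', hu', v, hv, huv⟩, hn⟩ := ga_pv h
  rw [Set.mem_singleton_iff] at hu'
  subst hu'
  have hno : ¬ Reach ((G ∩ ↑P) \ {f}) u' v := fun h => hn ⟨u', rfl, v, hv, h⟩
  have hfd : H984N.sd (tgt f) (src f) ≤ 1 := by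
    obtain ⟨x, y, _ | _⟩ := f
    · unfold H984N.sd; simp
    · unfold H984N.sd; simp
  have h1' : H984N.sd (src f) z + 1 ≤ r := h1
  have hx : ∃ x, (x = src f ∨ x = tgt f) ∧ Reach ((G ∩ ↑P) \ {f}) u' x := by
    rcases H12S.reach_insert huv with h3 | ⟨h3, _⟩ | ⟨h3, _⟩
    · exact absurd h3 hno
    · exact ⟨_, Or.inl rfl, h3⟩
    · exact ⟨_, Or.inr rfl, h3⟩
  obtain ⟨x, hx1, hx2⟩ := hx
  rw [cr_iff]
  refine ⟨x, u', ?_, h2, (hx2.symm).mono ?_⟩
  · rcases hx1 with rfl | rfl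
    · linarith
    · have := H984N.det_sd_tri (tgt f) (src f) z
      linarith
  · rintro y ⟨h3, -⟩
    exact h3

/-- Four arms around a pivotal edge; two arms around the vertex; an open path near a pivotal
edge. -/
theorem ga : S_g1 ∧ S_g2 ∧ S_g4 := ⟨g1, g2, g4⟩

end H953S
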