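import Pool.Agent.H953.Spd.Two

/-!
G3: two arms in the annulus from the pivotality.
-/

set_option autoImplicit false

namespace H953S

open H974 Finset H12S H342P H984P H984H Q291.EP Q291.NL Q291.AD

/-- Last exit of an open path from a set of vertices. -/
theorem GB_exit {G E : Set Edg} {B : Set Vtx} (hE : ∀ e ∈ E, src e ∈ B ∧ tgt e ∈ B) {u w : Vtx}
    (hu : u ∈ B) (h : Reach G u w) : ∃ x ∈ B, Reach (G \ E) x w := by
  induction h with
  | refl => exact ⟨u, hu, Reach.refl _ _⟩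
  | @tail y z _ hs ih =>
    obtain ⟨x, hx, hr⟩ := ih
    obtain ⟨e, he, hc⟩ := hs
    by_cases h1 : e ∈ E
    · refine ⟨z, ?_, Reach.refl _ _⟩
      rcases hc with ⟨-, h2⟩ | ⟨h2, -⟩
      · rw [← h2]; exact (hE e h1).2
      · rw [← h2]; exact (hE e h1).1
    · exact ⟨x, hx, hr.trans (Adj.reach ⟨e, ⟨he, h1⟩, hc⟩)⟩

/-- Last exit of a dual path from a set of faces. -/
theorem GB_dexit {G E : Set Edg} {B : Set Vtx} (hE : ∀ e ∈ E, dsrc e ∈ B ∧ dtgt e ∈ B) {u w : Vtx}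
    (hu : u ∈ B) (h : DReach G u w) : ∃ x ∈ B, DReach (G \ E) x w := by
  induction h with
  | refl => exact ⟨u, hu, DReach.refl _ _⟩
  | @tail y z _ hs ih =>
    obtain ⟨x, hx, hr⟩ := ih
    obtain ⟨e, he, hc⟩ := hs
    by_cases h1 : e ∈ E
    · refine ⟨z, ?_, DReach.refl _ _⟩
      rcases hc with ⟨-, h2⟩ | ⟨h2, -⟩
      · rw [← h2]; exact (hE e h1).2
      · rw [← h2]; exact (hE e h1).1
    · exact ⟨x, hx, hr.trans (DAdj.reach ⟨e, ⟨he, h1⟩, hc⟩)⟩

theorem GB_blk {u : Vtx} {r : ℕ} {e : Edg} (h : e ∈ blk u r) :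
    (inR (u.1 - r) (u.1 + r) (u.2 - r) (u.2 + r) (src e) ∧
      inR (u.1 - r) (u.1 + r) (u.2 - r) (u.2 + r) (tgt e)) ∧
    (inR (u.1 - (r + 1 : ℕ)) (u.1 + (r + 1 : ℕ)) (u.2 - (r + 1 : ℕ)) (u.2 + (r + 1 : ℕ)) (dsrc e) ∧
      inR (u.1 - (r + 1 : ℕ)) (u.1 + (r + 1 : ℕ)) (u.2 - (r + 1 : ℕ)) (u.2 + (r + 1 : ℕ))
        (dtgt e)) := by
  obtain ⟨x, y, _ | _⟩ := e
  · unfold blk at h
    rw [mem_RE_false] at h
    simp only [src_mk, tgt_false, dsrc_false, dtgt_mk, inR]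
    push_cast
    omega
  · unfold blk at h
    rw [mem_RE_true] at h
    simp only [src_mk, tgt_true, dsrc_true, dtgt_mk, inR]
    push_cast
    omega

/-- **G3**: two arms in the annulus; they are arms of the unperturbed configuration. -/
theorem gb : S_g3 := by
  intro Λ k u p a b c d a' b' c' d' I J f F G S r hinc hR hR' hS hS' hGF hf hrk hp
  obtain ⟨⟨w, hw, h1⟩, -, ⟨g, hg, h2⟩⟩ := hp
  obtain ⟨hi1, hi2⟩ := hinc
  have hk : ((k - 1 : ℕ) : ℤ) = (k : ℤ) - 1 := by omega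
  constructor
  · obtain ⟨x, hx, hr⟩ := GB_exit (E := (↑(blk u r) : Set Edg))
      (B := {v | inR (u.1 - r) (u.1 + r) (u.2 - r) (u.2 + r) v})
      (fun e he => (GB_blk (Finset.mem_coe.1 he)).1) (u := u)
      (show inR _ _ _ _ u by unfold inR; omega) h1
    have hx' : inR (u.1 - r) (u.1 + r) (u.2 - r) (u.2 + r) x := hx
    refine ⟨x, w, ?_, ?_, hr.mono ?_⟩
    · unfold inR at hx' ⊢
      push_cast
      omega
    · have q1 := hR.tg w hw
      have q2 := hR.l1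
      have q3 := hR.u1
      have q4 := hR.l2
      have q5 := hR.u2
      rw [hk]
      omega
    · rintro e ⟨⟨he1, he2⟩, he3⟩
      rw [Finset.mem_coe] at he2 he3
      have hef : e ≠ f := by
        rintro rfl
        exact he3 hf
      have heG : e ∈ G := by
        rcases he1 with he1 | he1
        · exact absurd he1 hef
        · exact he1
      rw [Finset.mem_coe, Finset.mem_inter, Finset.mem_sdiff]
      exact ⟨(hGF e he3).1 heG, hS he2, he3⟩
  · obtain ⟨x, hx, hr⟩ := GB_dexit (E := (↑(blk u r) : Set Edg))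
      (B := {v | inR (u.1 - (r + 1 : ℕ)) (u.1 + (r + 1 : ℕ)) (u.2 - (r + 1 : ℕ))
        (u.2 + (r + 1 : ℕ)) v})
      (fun e he => (GB_blk (Finset.mem_coe.1 he)).2) (u := p)
      (show inR _ _ _ _ p by unfold inR; push_cast; omega) h2
    refine ⟨x, g, hx, ?_, hr.mono ?_⟩
    · have q1 := hR'.tg g hg
      have q2 := hR'.l1
      have q3 := hR'.u1
      have q4 := hR'.l2
      have q5 := hR'.u2
      rw [hk]
      omega
    · rintro e ⟨⟨he1, he2⟩, he3⟩
      rw [Finset.mem_coe] at he3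
      have heG : e ∉ G := fun h => he2 (Or.inr h)
      rw [Finset.mem_coe, Finset.mem_sdiff, Finset.mem_sdiff]
      exact ⟨⟨hS' e he1, he3⟩, fun h => heG ((hGF e he3).2 h)⟩

end H953S
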