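import Pool.Agent.H953.Spd.Far
import Pool.Graph.R_seed8.H974R2.Circ

/-!
Gluing of crossings (`S_glue`).
-/

set_option autoImplicit false

namespace H953S

open H974 Finset H12S H342P H984P H984H MeasureTheory

namespace GlueAux

theorem inter_sub {F : Set Edg} {a b c d a' b' c' d' : ℤ} (h1 : a' ≤ a) (h2 : b ≤ b')
    (h3 : c' ≤ c) (h4 : d ≤ d') :
    F ∩ ↑(RE a b c d) ⊆ F ∩ ↑(RE a' b' c' d') :=
  Set.inter_subset_inter_right _ (by exact_mod_cast RE_subset h1 h2 h3 h4)

theorem lr_re {F : Finset Edg} {a b c d : ℤ} (h : LRc a b c d F) :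
    ∃ y y' : ℤ, Reach (↑F ∩ ↑(RE a b c d)) (a, y) (b, y') := by
  obtain ⟨y, y', -, -, h3⟩ := h
  exact ⟨y, y', h3.mono (Set.inter_subset_inter_right _ (by exact_mod_cast LRE_subset_RE))⟩

theorem tb_re {F : Finset Edg} {a b c d : ℤ} (h : TBc a b c d F) :
    ∃ x x' : ℤ, (a ≤ x ∧ x ≤ b) ∧ Reach (↑F ∩ ↑(RE a b c d)) (x, c) (x', d) := by
  obtain ⟨x, x', h1, -, h3⟩ := h
  exact ⟨x, x', h1, h3.mono (Set.inter_subset_inter_right _ (by exact_mod_cast TBE_subset_RE))⟩

theorem axis_open (ω : Conf) (n : ℕ) : Reach (opn ω) (0, 0) (-(n:ℤ), 0) := by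
  induction n with
  | zero => exact Reach.refl _ _
  | succ n ih =>
    refine ih.trans (Adj.reach ⟨(-((n + 1 : ℕ) : ℤ), 0, true), ?_, Or.inr ⟨?_, ?_⟩⟩)
    · left
      refine ⟨rfl, rfl, ?_⟩
      show -((n + 1 : ℕ) : ℤ) < 0
      omega
    · rfl
    · rw [tgt_true]
      congr 1
      push_cast
      ring

theorem below (ω : Conf) (n : ℕ) : DReach (opn ω)ᶜ (0, -1) ((n:ℤ), -1) := by
  induction n with
  | zero => exact DReach.refl _ _
  | succ n ih =>
    refine ih.trans (DAdj.reach ⟨(((n + 1 : ℕ) : ℤ), -1, false), ?_, Or.inl ⟨?_, ?_⟩⟩)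
    · rintro (⟨h, -⟩ | ⟨h, -⟩)
      · simp at h
      · simp at h
    · rw [dsrc_false]
      congr 1
      push_cast
      ring
    · rfl

theorem axis_closed (ω : Conf) (s : ℤ) (hs : 0 ≤ s) : DReach (opn ω)ᶜ (s, -1) (s, 0) := by
  refine DAdj.reach ⟨(s, 0, true), ?_, Or.inl ⟨?_, ?_⟩⟩
  · rintro (⟨-, -, h⟩ | ⟨-, h, -⟩)
    · have : s < 0 := h
      omega
    · exact h ⟨rfl, rfl⟩
  · rfl
  · rfl

end GlueAux

open GlueAux

theorem glueT : S_glue := by
  intro ω x y a ρ K S ha hy1 hy2 hx hρ hK hDR hRA hI hD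
  obtain ⟨⟨w, hw, hw1⟩, g, hg, hg1⟩ := hRA
  constructor
  · -- primal
    obtain ⟨hI1, hI2⟩ := hI
    obtain ⟨t, t', h1⟩ := lr_re hI1
    obtain ⟨s, s', hs, h2⟩ := tb_re hI2
    have m1 : Reach (↑(op S ω) ∩ ↑(RE (x - 12 * a) (x + 12 * a) (y - 12 * a) (y + 3 * a)))
        (x - 12 * a, t) w :=
      cross_meet le_rfl (by omega) le_rfl le_rfl (by omega) (by omega) h1 le_rfl le_rfl
        (u' := w) (v' := (x, y)) hw1.symm (by simp only at hw; omega) (by simp only; omega)
    have m2 : Reach (↑(op S ω) ∩ ↑(RE (x - 12 * a) (x + 12 * a) 0 (y - 4 * a)))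
        (x - 12 * a, t) (s, 0) :=
      cross_meet le_rfl (by omega) le_rfl (by omega) (by omega) le_rfl h1 le_rfl le_rfl
        (u' := (s, 0)) (v' := (s', y - 4 * a)) h2 (by simp only; omega) (by simp only; omega)
    have m3 : Reach (↑(op S ω) ∩ ↑(RE (x - 12 * a) (x + 12 * a) 0 (y + 3 * a))) (s, 0) (x, y) := by
      refine (m2.mono (inter_sub le_rfl le_rfl le_rfl (by omega))).symm.trans ?_
      refine (m1.mono (inter_sub le_rfl le_rfl (by omega) le_rfl)).trans ?_
      exact hw1.symm.mono (inter_sub le_rfl le_rfl (by simp only; omega) le_rfl)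
    have m4 : (↑(op S ω) ∩ ↑(RE (x - 12 * a) (x + 12 * a) 0 (y + 3 * a)) : Set Edg) ⊆ opn ω := by
      rintro ⟨x', y', b⟩ ⟨he1, he2⟩
      rw [mem_coe, mem_op] at he1
      rw [mem_coe] at he2
      cases b
      · rw [mem_RE_false] at he2
        right
        refine ⟨he2.2.2.1, ?_, he1.2⟩
        rintro ⟨-, h⟩
        exact Bool.noConfusion h
      · rw [mem_RE_true] at he2
        rcases eq_or_ne y' 0 with h | h
        · left
          refine ⟨h, rfl, ?_⟩
          show x' < 0
          omega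
        · right
          exact ⟨he2.2.2.1, fun h' => h h'.1, he1.2⟩
    refine Reach.trans ?_ (m3.mono m4)
    have h5 : (s, (0:ℤ)) = (-((-s).toNat : ℤ), 0) := by
      rw [Int.toNat_of_nonneg (by omega), neg_neg]
    rw [h5]
    exact axis_open ω _
  · -- dual
    obtain ⟨⟨hD1, hD2⟩, hD3, hD4⟩ := hD
    set H : Finset Edg := dS S (op S ω) with hH
    have hg2 : Reach (↑H ∩ ↑(RE (x - 12 * a) (x + 12 * a) (y - 3 * a) (y + 12 * a))) (x, y) g := by
      rw [← reach_dl] at hg1
      refine hg1.mono ?_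
      rintro _ ⟨e, ⟨he1, he2⟩, rfl⟩
      refine ⟨?_, he1⟩
      rw [hH, mem_coe, dS, mem_map]
      exact ⟨e, mem_sdiff.2 ⟨hDR e he1, he2⟩, rfl⟩
    obtain ⟨t1, t1', h1⟩ := lr_re hD1
    obtain ⟨s2, s2', -, h2⟩ := tb_re hD2
    have hU : ∀ {a b c d : ℤ}, 0 ≤ c → (↑H ∩ ↑(RE a b c d) : Set Edg) ⊆ {t | t ∈ H ∧ 0 ≤ t.2.1} := by
      rintro a b c d hc ⟨x', y', b'⟩ ⟨he1, he2⟩
      refine ⟨he1, ?_⟩
      rw [mem_coe] at he2
      show 0 ≤ y'
      cases b'
      · rw [mem_RE_false] at he2; omega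
      · rw [mem_RE_true] at he2; omega
    set U : Set Edg := {t | t ∈ H ∧ 0 ≤ t.2.1} with hUd
    have m1 : Reach U (x - 12 * a, t1) (x, y) := by
      refine Reach.mono (hU ?_) (cross_meet le_rfl (by omega) le_rfl (by omega) (by omega) le_rfl h1 le_rfl le_rfl
        (u' := (x, y)) (v' := g) hg2 (by simp only; omega) (by simp only at hg; omega))
      exact by omega
    have m2 : Reach U (x - 12 * a, t1) (s2, y + 4 * a) := by
      refine Reach.mono (hU ?_) (cross_meet le_rfl (by omega) le_rfl le_rfl (by omega) (by omega) h1 le_rfl le_rfl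
        (u' := (s2, y + 4 * a)) (v' := (s2', 2 * ρ)) h2 (by simp only; omega) (by simp only; omega))
      exact by omega
    -- the chain
    have hpow : ∀ k : ℕ, (0:ℤ) < 4 ^ k * ρ := fun k => by
      have : (0:ℤ) < ρ := by omega
      positivity
    have chain : ∀ k ≤ K, ∀ t t' : ℤ,
        Reach (↑H ∩ ↑(RE (x - 4 ^ k * ρ) (x + 4 * (4 ^ k * ρ)) (4 ^ k * ρ) (2 * (4 ^ k * ρ))))
          (x - 4 ^ k * ρ, t) (x + 4 * (4 ^ k * ρ), t') → Reach U (x, y) (x - 4 ^ k * ρ, t) := by
      intro k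
      induction k with
      | zero =>
        intro _ t t' h
        rw [pow_zero, one_mul] at h ⊢
        have m3 : Reach U (x - ρ, t) (s2, y + 4 * a) := by
          refine Reach.mono (hU ?_) (cross_meet (a := x - 12 * a) (b := x + 12 * a) (by omega) (by omega) (by omega)
            (by omega) (by omega) le_rfl h (by simp only; omega) (by simp only; omega)
            (u' := (s2, y + 4 * a)) (v' := (s2', 2 * ρ)) h2 (by simp only; omega) le_rfl)
          exact by omega
        exact (m1.symm.trans m2).trans m3.symm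
      | succ k ih =>
        intro hk t t' h
        obtain ⟨h3, h4⟩ := hD3 k (by omega)
        obtain ⟨u, u', h5⟩ := lr_re h3
        obtain ⟨s, s', -, h6⟩ := tb_re h4
        have h7 := ih (by omega) u u' h5
        have hR := hpow k
        have e1 : (4:ℤ) ^ (k + 1) * ρ = 4 * (4 ^ k * ρ) := by ring
        rw [e1] at h ⊢
        set R : ℤ := 4 ^ k * ρ with hRd
        have m3 : Reach U (x - R, u) (s, R) := by
          refine Reach.mono (hU ?_) (cross_meet (a := x) (b := x + 4 * R) (by omega) (by omega) le_rfl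
            le_rfl (by omega) (by omega) h5 (by simp only; omega) le_rfl
            (u' := (s, R)) (v' := (s', 8 * R)) h6 le_rfl (by simp only; omega))
          exact hR.le
        have m4 : Reach U (x - 4 * R, t) (s, R) := by
          refine Reach.mono (hU ?_) (cross_meet (a := x) (b := x + 4 * R) (by omega) (by omega) (by omega)
            (by omega) (by omega) (by omega) h (by simp only; omega) (by simp only; omega)
            (u' := (s, R)) (v' := (s', 8 * R)) h6 (by simp only; omega) (by simp only; omega))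
          exact hR.le
        exact (h7.trans m3).trans m4.symm
    obtain ⟨h3, -⟩ := hD3 K le_rfl
    obtain ⟨u, u', h5⟩ := lr_re h3
    obtain ⟨s, s', hs, h6⟩ := tb_re hD4
    have h7 := chain K le_rfl u u' h5
    have hR := hpow K
    set R : ℤ := 4 ^ K * ρ with hRd
    have m5 : Reach U (x - R, u) (s, 0) := by
      refine Reach.mono (hU ?_) (cross_meet (a := x + R) (b := x + 4 * R) (by omega) (by omega) le_rfl
        hR.le (by omega) le_rfl h5 (by simp only; omega) le_rfl
        (u' := (s, 0)) (v' := (s', 2 * R)) h6 hR.le le_rfl)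
      exact le_rfl
    have m6 : DReach (opn ω)ᶜ (x, y) (s, 0) := by
      rw [← reach_dl]
      refine (h7.trans m5).mono ?_
      rintro t ⟨ht1, ht2⟩
      rw [hH, dS, mem_map] at ht1
      obtain ⟨e, he, rfl⟩ := ht1
      refine ⟨e, ?_, rfl⟩
      rw [mem_sdiff, mem_op] at he
      rintro (⟨h1, h2, -⟩ | ⟨-, -, h⟩)
      · obtain ⟨x', y', b⟩ := e
        simp only at h1 h2
        subst h1 h2
        have : (0:ℤ) ≤ 0 - 1 := ht2
        omega
      · exact he.2 ⟨he.1, h⟩
    have hs0 : 0 ≤ s := by omega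
    have m7 : DReach (opn ω)ᶜ (0, 0) (s, 0) := by
      refine (axis_closed ω 0 le_rfl).symm.trans (DReach.trans ?_ (axis_closed ω s hs0))
      have h8 := below ω s.toNat
      rwa [Int.toNat_of_nonneg hs0] at h8
    exact m7.trans m6.symm

end H953S
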