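import Pool.Agent.H953.Spd.Far
import Pool.Graph.R_seed8.W424.NC.ArmUp

/-!
Lower bound for the visits at the heights of the order of the correlation length
(written by helper97).
-/

set_option autoImplicit false

namespace H953S

open H974 Finset H12S H342P H984P H984H MeasureTheory

namespace LowL

/-- the geometry of the large rectangle -/
theorem geo {x y W : ℤ} {a : ℕ} (ha : 1 ≤ a) (hy : 30 * (a:ℤ) ≤ y) (hy' : y ≤ 60 * a)
    (hW : 100 * (a:ℤ) ≤ W) :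
    (∀ e, dl e ∈ DR (x, y) a → e ∈ RE (x - 9 * W) (x + 9 * W) (-1) (9 * W)) ∧
    RE (x - 13 * a) (x + 14 * a) (y - 13 * a) (y + 14 * a) ⊆
      RE (x - 9 * W) (x + 9 * W) (-1) (9 * W) ∧
    RE (x - 12 * a) (x + 12 * a) 0 y ⊆ RE (x - 9 * W) (x + 9 * W) (-1) (9 * W) ∧
    RE (x - 8 * W) (x + 8 * W) 0 (8 * W) ⊆
      (RE (x - 9 * W) (x + 9 * W) (-1) (9 * W)).map dl.toEmbedding := by
  have ha' : (1:ℤ) ≤ a := by exact_mod_cast ha
  refine ⟨?_, ?_, ?_, ?_⟩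
  · rintro ⟨X, Y, _ | _⟩ h
    · have h1 : ((X - 1, Y, true) : Edg) ∈ RE (x - 12 * a) (x + 12 * a) (y - 3 * a) (y + 12 * a) := h
      rw [mem_RE_true] at h1
      rw [mem_RE_false]
      omega
    · have h1 : ((X, Y - 1, false) : Edg) ∈
        RE (x - 12 * a) (x + 12 * a) (y - 3 * a) (y + 12 * a) := h
      rw [mem_RE_false] at h1
      rw [mem_RE_true]
      omega
  · rintro ⟨X, Y, _ | _⟩ h
    · rw [mem_RE_false] at h ⊢
      omega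
    · rw [mem_RE_true] at h ⊢
      omega
  · rintro ⟨X, Y, _ | _⟩ h
    · rw [mem_RE_false] at h ⊢
      omega
    · rw [mem_RE_true] at h ⊢
      omega
  · rintro ⟨X, Y, _ | _⟩ h
    · rw [mem_RE_false] at h
      refine Finset.mem_map.2 ⟨(X, Y + 1, true), ?_, ?_⟩
      · rw [mem_RE_true]
        omega
      · show (X, Y + 1 - 1, false) = (X, Y, false)
        rw [add_sub_cancel_right]
    · rw [mem_RE_true] at h
      refine Finset.mem_map.2 ⟨(X + 1, Y, false), ?_, ?_⟩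
      · rw [mem_RE_false]
        omega
      · show (X + 1 - 1, Y, true) = (X, Y, true)
        rw [add_sub_cancel_right]

/-- the minimal scale -/
theorem exists_scale (a N1 B : ℕ) (ha : 1 ≤ a) (hN : 2 ≤ N1) (hB : 200 ≤ B) (hNB : N1 ≤ B * a) :
    ∃ m : ℕ, 100 * a ≤ 2 ^ m * N1 ∧ 2 ^ m * N1 ≤ B * a := by
  classical
  have hex : ∃ m : ℕ, 100 * a ≤ 2 ^ m * N1 := by
    refine ⟨100 * a, ?_⟩
    have h1 : 100 * a < 2 ^ (100 * a) := Nat.lt_two_pow_self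
    nlinarith
  refine ⟨Nat.find hex, Nat.find_spec hex, ?_⟩
  rcases Nat.eq_zero_or_pos (Nat.find hex) with h0 | h0
  · rw [h0, pow_zero, one_mul]
    exact hNB
  · have h1 := Nat.find_min hex (m := Nat.find hex - 1) (by omega)
    have h2 : 2 ^ Nat.find hex = 2 * 2 ^ (Nat.find hex - 1) := by
      rw [← pow_succ']
      congr 1
      omega
    rw [h2]
    push Not at h1
    calc 2 * 2 ^ (Nat.find hex - 1) * N1 = 2 * (2 ^ (Nat.find hex - 1) * N1) := by ring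
      _ ≤ 2 * (100 * a) := Nat.mul_le_mul_left 2 h1.le
      _ = 200 * a := by ring
      _ ≤ B * a := Nat.mul_le_mul_right a hB

/-- the choice of the scale `a` -/
theorem exists_a {β : ℝ} (hβ : 0 < β) (a0 : ℕ) : ∃ δ : ℝ, 0 < δ ∧ δ ≤ 1/4 ∧ ∀ s : ℝ, 0 < s → s < δ →
    ∃ a : ℕ, a0 ≤ a ∧ 1 ≤ a ∧ s ≤ β * (a:ℝ) ^ (-(3/4) : ℝ) ∧ β / (2 * s) ≤ (a:ℝ) ^ (3/4 : ℝ) ∧
      ∀ E : ℝ, 0 ≤ E → ∀ N1 : ℝ, N1 * s ^ (4/3 : ℝ) ≤ E →
        N1 ≤ (2 * E / β ^ (4/3 : ℝ)) * a := by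
  refine ⟨min (1/4) (β / ((a0:ℝ) + 2) ^ (3/4 : ℝ)), by positivity, min_le_left _ _, ?_⟩
  intro s hs hsδ
  have hsβ : s < β / ((a0:ℝ) + 2) ^ (3/4 : ℝ) := hsδ.trans_le (min_le_right _ _)
  have ha2 : (0:ℝ) < (a0:ℝ) + 2 := by positivity
  obtain ⟨z, hz⟩ : ∃ z : ℝ, z = (β / s) ^ (4/3 : ℝ) := ⟨_, rfl⟩
  have hz1 : (a0:ℝ) + 2 ≤ z := by
    have h1 : ((a0:ℝ) + 2) ^ (3/4 : ℝ) ≤ β / s := by
      rw [lt_div_iff₀ (by positivity)] at hsβ
      rw [le_div_iff₀ hs]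
      linarith
    calc (a0:ℝ) + 2 = (((a0:ℝ) + 2) ^ (3/4 : ℝ)) ^ (4/3 : ℝ) := by
          rw [← Real.rpow_mul ha2.le]
          norm_num
      _ ≤ z := by
          rw [hz]
          exact Real.rpow_le_rpow (by positivity) h1 (by norm_num)
  have hz0 : 0 < z := by
    have : (0:ℝ) ≤ a0 := Nat.cast_nonneg _
    linarith
  have hfl := Nat.floor_le hz0.le
  have hlt := Nat.lt_floor_add_one z
  have ha0 : (a0:ℝ) + 1 < (⌊z⌋₊:ℝ) + 1 := by linarith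
  have ha0' : a0 < ⌊z⌋₊ := by
    have : ((a0:ℕ):ℝ) < ((⌊z⌋₊:ℕ):ℝ) := by linarith
    exact_mod_cast this
  have hapos : (1:ℝ) ≤ ⌊z⌋₊ := by
    have : 1 ≤ ⌊z⌋₊ := by omega
    exact_mod_cast this
  have hap : (0:ℝ) < ⌊z⌋₊ := by linarith
  have hhalf : z / 2 ≤ ⌊z⌋₊ := by
    have : (2:ℝ) ≤ z := by
      have : (0:ℝ) ≤ a0 := Nat.cast_nonneg _
      linarith
    linarith
  have hbs : (0:ℝ) < β / s := by positivity
  have hz34 : z ^ (3/4 : ℝ) = β / s := by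
    rw [hz, ← Real.rpow_mul hbs.le]
    norm_num
  refine ⟨⌊z⌋₊, ha0'.le, by omega, ?_, ?_, ?_⟩
  · rw [Real.rpow_neg hap.le, ← div_eq_mul_inv, le_div_iff₀ (by positivity)]
    have h1 : (⌊z⌋₊:ℝ) ^ (3/4 : ℝ) ≤ β / s := by
      rw [← hz34]
      exact Real.rpow_le_rpow hap.le hfl (by norm_num)
    calc s * (⌊z⌋₊:ℝ) ^ (3/4 : ℝ) ≤ s * (β / s) := mul_le_mul_of_nonneg_left h1 hs.le
      _ = β := by field_simp
  · have h1 : (z / 2) ^ (3/4 : ℝ) ≤ (⌊z⌋₊:ℝ) ^ (3/4 : ℝ) :=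
      Real.rpow_le_rpow (by positivity) hhalf (by norm_num)
    refine le_trans ?_ h1
    rw [Real.div_rpow hz0.le (by norm_num), hz34]
    have h2 : (2:ℝ) ^ (3/4 : ℝ) ≤ 2 := by
      calc (2:ℝ) ^ (3/4 : ℝ) ≤ 2 ^ (1:ℝ) := Real.rpow_le_rpow_of_exponent_le (by norm_num) (by norm_num)
        _ = 2 := Real.rpow_one 2
    rw [le_div_iff₀ (by positivity)]
    calc β / (2 * s) * (2:ℝ) ^ (3/4 : ℝ) ≤ β / (2 * s) * 2 :=
          mul_le_mul_of_nonneg_left h2 (by positivity)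
      _ = β / s := by field_simp
  · intro E hE N1 hN1
    have hs43 : 0 < s ^ (4/3 : ℝ) := by positivity
    have h1 : N1 ≤ E / s ^ (4/3 : ℝ) := by rwa [le_div_iff₀ hs43]
    have h2 : z = β ^ (4/3 : ℝ) / s ^ (4/3 : ℝ) := by
      rw [hz, Real.div_rpow hβ.le hs.le]
    have hβ43 : 0 < β ^ (4/3 : ℝ) := by positivity
    have h3 : E / s ^ (4/3 : ℝ) = (2 * E / β ^ (4/3 : ℝ)) * (z / 2) := by
      rw [h2]
      field_simp
    rw [h3] at h1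
    exact h1.trans (mul_le_mul_of_nonneg_left hhalf (by positivity))

end LowL

open LowL

/-- **The lower bound.** -/
theorem low (h1 : S_vis) (h2 : S_glue) (h3 : S_mixE) (h4 : S_ratr) (h5 : S_pI) (h6 : S_dlaw)
    (h7 : S_pD) (h8 : S_twolow) : S_low := by
  obtain ⟨c0, β, a0, hc0, hβ, ha0, hlow⟩ := h8
  obtain ⟨E, hE, hfar⟩ := Pool.Agent.W424.NC.farN
  obtain ⟨δ, hδ, hδ4, hscale⟩ := exists_a hβ a0
  obtain ⟨cI, hcI, hpI⟩ := h5 β hβ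
  obtain ⟨B, hB⟩ : ∃ B : ℕ, B = max 200 ⌈2 * E / β ^ (4/3 : ℝ)⌉₊ := ⟨_, rfl⟩
  obtain ⟨cD, hcD, hpD⟩ := h7 B
  obtain ⟨c, hc⟩ : ∃ c : ℝ, c = min (c0 * (cI * cD)) (β / 2) := ⟨_, rfl⟩
  have hcpos : 0 < c := by
    rw [hc]
    positivity
  refine ⟨c, δ, hcpos, hδ, ?_⟩
  intro q hq1 hq2
  have hq0 : (0:ℝ) ≤ q := q.2.1
  have hs0 : 0 < 1/2 - (q:ℝ) := by linarith
  have hsδ : 1/2 - (q:ℝ) < δ := by linarith
  obtain ⟨a, haa, ha1, hs, has, haE⟩ := hscale (1/2 - (q:ℝ)) hs0 hsδ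
  obtain ⟨N1, hN2, hNE, -, heps⟩ := hfar q hq0 hq2
  have hN1B : N1 ≤ B * a := by
    have h9 := haE E (by linarith) N1 hNE
    have h10 : 2 * E / β ^ (4/3 : ℝ) ≤ (B:ℝ) := by
      refine (Nat.le_ceil _).trans ?_
      rw [hB]
      exact_mod_cast le_max_right _ _
    have h11 : (N1:ℝ) ≤ (B:ℝ) * a :=
      h9.trans (mul_le_mul_of_nonneg_right h10 (Nat.cast_nonneg a))
    exact_mod_cast h11
  obtain ⟨m, hm1, hm2⟩ := exists_scale a N1 B ha1 hN2 (by rw [hB]; exact le_max_left _ _) hN1B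
  obtain ⟨ρ, hρ⟩ : ∃ ρ : ℕ, ρ = 2 ^ m * N1 := ⟨_, rfl⟩
  rw [← hρ] at hm1 hm2
  have hap : (0:ℝ) < a := by exact_mod_cast ha1
  refine ⟨30 * a, 12 * a, by omega, ?_, ?_⟩
  · have h9 : (a:ℝ) ^ (3/4 : ℝ) ≤ ((30 * a : ℕ) : ℝ) ^ (3/4 : ℝ) := by
      refine Real.rpow_le_rpow hap.le ?_ (by norm_num)
      push_cast
      linarith
    refine le_trans ?_ (has.trans h9)
    have h10 : c ≤ β / 2 := by
      rw [hc]
      exact min_le_right _ _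
    calc c / (1/2 - (q:ℝ)) ≤ (β / 2) / (1/2 - (q:ℝ)) := by gcongr
      _ = β / (2 * (1/2 - (q:ℝ))) := by
          rw [div_div]
  · intro x y hx hy1 hy2
    have hyZ1 : 30 * (a:ℤ) ≤ (y:ℤ) := by exact_mod_cast hy1
    have hyZ2 : (y:ℤ) ≤ 60 * (a:ℤ) := by
      have : (y:ℤ) ≤ 2 * (30 * (a:ℤ)) := by exact_mod_cast hy2
      linarith
    have hx' : x + 12 * (a:ℤ) ≤ 0 := by
      push_cast at hx
      linarith
    have hρ100 : 100 * (a:ℤ) ≤ (ρ:ℤ) := by exact_mod_cast hm1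
    have haZ : (1:ℤ) ≤ a := by exact_mod_cast ha1
    obtain ⟨K, hK⟩ : ∃ K : ℕ, K = x.natAbs := ⟨_, rfl⟩
    have h4K : (x.natAbs : ℤ) ≤ 4 ^ K := by
      rw [hK]
      have h9 : x.natAbs < 4 ^ x.natAbs := Nat.lt_pow_self (by norm_num)
      exact_mod_cast h9.le
    have h4K1 : (1:ℤ) ≤ 4 ^ K := one_le_pow₀ (by norm_num)
    have hxK : 0 ≤ x + 4 ^ K * (ρ:ℤ) := by
      have h9 : (4:ℤ) ^ K * 1 ≤ 4 ^ K * (ρ:ℤ) :=
        mul_le_mul_of_nonneg_left (by linarith) (by positivity)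
      omega
    have hW : 100 * (a:ℤ) ≤ 4 ^ K * (ρ:ℤ) := by
      have h9 : 1 * (ρ:ℤ) ≤ 4 ^ K * (ρ:ℤ) := mul_le_mul_of_nonneg_right h4K1 (by linarith)
      linarith
    obtain ⟨g1, g2, g3, g4⟩ := geo (x := x) ha1 hyZ1 hyZ2 hW
    set S : Finset Edg := RE (x - 9 * (4 ^ K * (ρ:ℤ))) (x + 9 * (4 ^ K * (ρ:ℤ))) (-1)
      (9 * (4 ^ K * (ρ:ℤ))) with hS
    have hmix := h3 (q:ℝ) x y a ρ K S hq0 (by linarith) ha1 (by exact_mod_cast hyZ1)
      (by exact_mod_cast hyZ2) hm1 (Finset.Subset.refl _)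
    have hRA := hlow (q:ℝ) hq0 hq2.le a haa hs
    rw [← h4 (q:ℝ) x y a S ha1 g2] at hRA
    have hI := hpI (q:ℝ) x y a S (by linarith) hq2.le ha1 hs (by exact_mod_cast hyZ1)
      (by exact_mod_cast hyZ2) g3
    have hD := hpD (q:ℝ) x y a ρ K N1 m (S.map dl.toEmbedding) hq0 hq2.le ha1
      (by exact_mod_cast hyZ1) (by exact_mod_cast hyZ2) hm1 hm2 hN2 hρ heps g4
    rw [← h6 (q:ℝ) S (EvD x y a ρ K)] at hD
    have hfin := lw_fin q S (fun F => RA (x, (y:ℤ)) a (↑F : Set Edg) ∧ EvI x y a F ∧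
      EvD x y a ρ K (dS S F))
    have hsub : {ω : Conf | RA (x, (y:ℤ)) a (↑(op S ω) : Set Edg) ∧ EvI x y a (op S ω) ∧
        EvD x y a ρ K (dS S (op S ω))} ⊆ {ω : Conf | Vis ω ((x, (y:ℤ)), .ne)} := by
      rintro ω ⟨e1, e2, e3⟩
      obtain ⟨r1, r2⟩ := h2 ω x y a ρ K S ha1 (by exact_mod_cast hyZ1) (by exact_mod_cast hyZ2)
        hx' hm1 hxK g1 e1 e2 e3
      refine (h1 ω ((x, (y:ℤ)), .ne)).2 ⟨r1, r2, ?_⟩
      rintro ⟨u1, -, -⟩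
      have : (y:ℤ) = 0 := u1
      linarith
    have hle : (lw q).real {ω : Conf | RA (x, (y:ℤ)) a (↑(op S ω) : Set Edg) ∧
        EvI x y a (op S ω) ∧ EvD x y a ρ K (dS S (op S ω))} ≤
        (lw q).real {ω : Conf | Vis ω ((x, (y:ℤ)), .ne)} :=
      measureReal_mono hsub
    refine le_trans ?_ hle
    rw [hfin]
    refine le_trans ?_ hmix
    have hNa : (((30 * a : ℕ)) : ℝ) ^ (-(1/4) : ℝ) ≤ (a:ℝ) ^ (-(1/4) : ℝ) := by
      refine Real.rpow_le_rpow_of_nonpos hap ?_ (by norm_num)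
      push_cast
      linarith
    have hcle : c ≤ c0 * (cI * cD) := by
      rw [hc]
      exact min_le_left _ _
    have hapow : 0 < (a:ℝ) ^ (-(1/4) : ℝ) := by positivity
    calc c * (((30 * a : ℕ)) : ℝ) ^ (-(1/4) : ℝ) ≤ (c0 * (cI * cD)) * (a:ℝ) ^ (-(1/4) : ℝ) :=
          mul_le_mul hcle hNa (by positivity) (by positivity)
      _ = (c0 * (a:ℝ) ^ (-(1/4) : ℝ)) * (cI * cD) := by ring
      _ ≤ _ := by
          refine mul_le_mul hRA (mul_le_mul hI hD hcD.le (hcI.le.trans hI)) (by positivity)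
            (le_trans (by positivity) hRA)

end H953S
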