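import Pool.Agent.H953.Spd.Defs

/-!
B7: the paths started at different points merge.
-/

set_option autoImplicit false

namespace H953S

open H974 Finset H342P H984P H984H MeasureTheory ProbabilityTheory Filter Topology

/-- The open edges, with the axis open to the left of `n` and closed to the right of `n`. -/
def Mrg_O (n : ℤ) (ω : Conf) : Set Edg :=
  {e | (e.2.1 = 0 ∧ e.2.2 = true ∧ e.1 < n) ∨
    (0 ≤ e.2.1 ∧ ¬ (e.2.1 = 0 ∧ e.2.2 = true) ∧ ω e = true)}

theorem Mrg_mem {n : ℤ} {ω : Conf} {x x' y : ℤ} {d : Bool} (hx : x' = x + n) :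
    (x', y, d) ∈ Mrg_O n ω ↔ ((x, y, d) : Edg) ∈ opn (sh n ω) := by
  subst hx
  simp only [Mrg_O, opn, sh, Set.mem_ofPred_eq]
  constructor
  · rintro (⟨h1, h2, h3⟩ | h)
    · exact Or.inl ⟨h1, h2, by omega⟩
    · exact Or.inr h
  · rintro (⟨h1, h2, h3⟩ | h)
    · exact Or.inl ⟨h1, h2, by omega⟩
    · exact Or.inr h

theorem Mrg_step (n : ℤ) (ω : Conf) (σ : St) :
    shS n (step (opn (sh n ω)) σ) = step (Mrg_O n ω) (shS n σ) := by
  obtain ⟨⟨x, y⟩, q⟩ := σ
  cases q
  · have e := Mrg_mem (n := n) (ω := ω) (x := x) (x' := x + n) (y := y) (d := false) rfl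
    by_cases h : ((x, y, false) : Edg) ∈ opn (sh n ω)
    · simp [step, shS, h, e.2 h]
    · simp [step, shS, h, mt e.1 h]
  · have e := Mrg_mem (n := n) (ω := ω) (x := x - 1) (x' := x + n - 1) (y := y) (d := true)
      (by ring)
    by_cases h : ((x - 1, y, true) : Edg) ∈ opn (sh n ω)
    · simp [step, shS, h, e.2 h]
      ring
    · simp [step, shS, h, mt e.1 h]
  · have e := Mrg_mem (n := n) (ω := ω) (x := x) (x' := x + n) (y := y - 1) (d := false) rfl
    by_cases h : ((x, y - 1, false) : Edg) ∈ opn (sh n ω)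
    · simp [step, shS, h, e.2 h]
    · simp [step, shS, h, mt e.1 h]
  · have e := Mrg_mem (n := n) (ω := ω) (x := x) (x' := x + n) (y := y) (d := true) rfl
    by_cases h : ((x, y, true) : Edg) ∈ opn (sh n ω)
    · simp [step, shS, h, e.2 h]
      ring
    · simp [step, shS, h, mt e.1 h]

theorem pathN_succ (n : ℤ) (ω : Conf) (k : ℕ) :
    pathN n ω (k + 1) = step (Mrg_O n ω) (pathN n ω k) :=
  Mrg_step n ω (path (sh n ω) k)

theorem Mrg_shS_inj {n : ℤ} {σ τ : St} (h : shS n σ = shS n τ) : σ = τ := by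
  obtain ⟨⟨x, y⟩, q⟩ := σ
  obtain ⟨⟨x', y'⟩, q'⟩ := τ
  simp only [shS, Prod.mk.injEq] at h
  obtain ⟨⟨h1, h2⟩, h3⟩ := h
  have h4 : x = x' := by omega
  rw [h4, h2, h3]

theorem pathN_inj (n : ℤ) (ω : Conf) {i j : ℕ} (h : pathN n ω i = pathN n ω j) : i = j := by
  by_contra hij
  exact path_inj (sh n ω) hij (Mrg_shS_inj h)

theorem Mrg_far (h : S_sumN) {ω : Conf} {b n : ℤ} (hb : b < n) (hN : NA ω b)
    (hf : ∀ x : ℤ, b < x → x ≤ n → {v | BC ω x v}.Finite) {T : ℕ}
    (hT : pathN n ω T = ((b, 0), .ne)) (k : ℕ) (hk : T ≤ k) :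
    ∃ x ≤ b, BC ω x (pathN n ω k).1 := by
  obtain ⟨T0, h0, -, h2⟩ := h ω b n hb hN hf
  have : T0 = T := pathN_inj n ω (h0.trans hT.symm)
  subst this
  exact h2 k hk

/-- The edges at a vertex of a cluster of a point to the left of `b` have the same state. -/
theorem Mrg_edges {ω : Conf} {b n m : ℤ} (hn : b < n) (hm : b < m) (hN : NA ω b) {x : ℤ}
    (hx : x ≤ b) {v : Vtx} (hv : BC ω x v) (e : Edg) (he : src e = v ∨ tgt e = v) :
    e ∈ Mrg_O n ω ↔ e ∈ Mrg_O m ω := by
  obtain ⟨a, y, d⟩ := e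
  have key : y = 0 → d = true → a ≤ b := by
    intro hy hd
    subst hy hd
    by_contra hab
    rcases he with he | he
    · have h1 : v = (a, 0) := he.symm
      rw [h1] at hv
      exact hN x a hx (by omega) hv
    · have h1 : v = (a + 1, 0) := he.symm
      rw [h1] at hv
      exact hN x (a + 1) hx (by omega) hv
  simp only [Mrg_O, Set.mem_ofPred_eq]
  constructor
  · rintro (⟨h1, h2, h3⟩ | h)
    · have := key h1 h2
      exact Or.inl ⟨h1, h2, by omega⟩
    · exact Or.inr h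
  · rintro (⟨h1, h2, h3⟩ | h)
    · have := key h1 h2
      exact Or.inl ⟨h1, h2, by omega⟩
    · exact Or.inr h

theorem merge (h : S_sumN) : S_merge := by
  intro ω b n m hbn hbm hN hfin T T' hT hT' i
  induction i with
  | zero => rw [Nat.add_zero, Nat.add_zero, hT, hT']
  | succ i ih =>
    rw [← Nat.add_assoc, ← Nat.add_assoc, pathN_succ, pathN_succ, ← ih]
    obtain ⟨x, hx, hv⟩ := Mrg_far h hbn hN
      (fun x h1 h2 => hfin x h1 (h2.trans (le_max_left _ _))) hT (T + i) (by omega)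
    exact step_congr fun e he => Mrg_edges hbn hbm hN hx hv e he

end H953S
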