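import Pool.Agent.H953.Spd.Far
import Pool.Agent.H953.Mix

/-!
The mixed Harris inequality for `RA`, `EvI`, `EvD`.
-/

set_option autoImplicit false

namespace H953S

open H974 Finset H12S H342P H984P H984H MeasureTheory

namespace MixE

theorem RE_sub {a b c d a' b' c' d' : ℤ} (h1 : a' ≤ a) (h2 : b ≤ b') (h3 : c' ≤ c) (h4 : d ≤ d') :
    RE a b c d ⊆ RE a' b' c' d' := by
  rintro ⟨x, y, _ | _⟩ h
  · rw [mem_RE_false] at h ⊢
    omega
  · rw [mem_RE_true] at h ⊢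
    omega

/-- the region of `EvD` -/
noncomputable def Tr (x y : ℤ) (a ρ K : ℕ) : Finset Edg :=
  RE (x - 4 * (4 ^ K * ρ)) (x + 4 * (4 ^ K * ρ)) (y + 4 * a) (8 * (4 ^ K * ρ)) ∪
    RE (x + 4 ^ K * ρ) (x + 4 * (4 ^ K * ρ)) 0 (2 * (4 ^ K * ρ))

theorem pw {ρ K k : ℕ} (hk : k ≤ K) : ((4:ℤ) ^ k * ρ) ≤ 4 ^ K * ρ := by
  apply mul_le_mul_of_nonneg_right _ (by positivity)
  exact pow_le_pow_right₀ (by norm_num) hk

theorem pw0 {ρ k : ℕ} : (ρ:ℤ) ≤ 4 ^ k * ρ := by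
  have h := pw (ρ := ρ) (K := k) (k := 0) (Nat.zero_le _)
  simpa using h

theorem EvD_local {x y : ℤ} {a ρ K : ℕ} (hy2 : y ≤ 60 * a) (hρ : 100 * a ≤ ρ)
    (_hy0 : 30 * a ≤ y) (H : Finset Edg) : EvD x y a ρ K H ↔ EvD x y a ρ K (H ∩ Tr x y a ρ K) := by
  have hK := pw0 (ρ := ρ) (k := K)
  have hρ' : (100 * a : ℤ) ≤ ρ := by exact_mod_cast hρ
  have t1 : ∀ a' b' c' d' : ℤ, x - 4 * (4 ^ K * ρ) ≤ a' → b' ≤ x + 4 * (4 ^ K * ρ) →
      y + 4 * a ≤ c' → d' ≤ 8 * (4 ^ K * ρ) → RE a' b' c' d' ⊆ Tr x y a ρ K := by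
    intro a' b' c' d' h1 h2 h3 h4
    exact (RE_sub h1 h2 h3 h4).trans Finset.subset_union_left
  unfold EvD
  refine and_congr (and_congr ?_ ?_) (and_congr ?_ ?_)
  · exact LRc_local (LRE_subset_RE.trans (t1 _ _ _ _ (by omega) (by omega) (by omega) (by omega)))
  · exact TBc_local (TBE_subset_RE.trans (t1 _ _ _ _ (by omega) (by omega) (by omega) (by omega)))
  · refine forall_congr' fun k => forall_congr' fun hk => ?_
    have h1 := pw (ρ := ρ) hk
    have h2 := pw0 (ρ := ρ) (k := k)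
    generalize (4:ℤ) ^ k * ρ = e at *
    refine and_congr ?_ ?_
    · exact LRc_local (LRE_subset_RE.trans (t1 _ _ _ _ (by omega) (by omega) (by omega)
        (by omega)))
    · exact TBc_local (TBE_subset_RE.trans (t1 _ _ _ _ (by omega) (by omega) (by omega)
        (by omega)))
  · exact TBc_local (TBE_subset_RE.trans Finset.subset_union_right)

theorem EvD_mono {x y : ℤ} {a ρ K : ℕ} {H H' : Finset Edg} (h : H ⊆ H')
    (hH : EvD x y a ρ K H) : EvD x y a ρ K H' := by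
  obtain ⟨⟨h1, h2⟩, h3, h4⟩ := hH
  exact ⟨⟨h1.mono h, h2.mono h⟩, fun k hk => ⟨(h3 k hk).1.mono h, (h3 k hk).2.mono h⟩, h4.mono h⟩

theorem mem_dS {S F : Finset Edg} {g : Edg} : g ∈ dS S F ↔ ∃ e, (e ∈ S ∧ e ∉ F) ∧ dl e = g := by
  unfold dS
  rw [Finset.mem_map]
  constructor
  · rintro ⟨e, he, h⟩
    exact ⟨e, Finset.mem_sdiff.1 he, h⟩
  · rintro ⟨e, he, h⟩
    exact ⟨e, Finset.mem_sdiff.2 he, h⟩

end MixE

open MixE in
theorem mixE : S_mixE := by
  classical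
  intro q x y a ρ K S hq0 hq1 ha hy1 hy2 hρ hS
  have hK := pw0 (ρ := ρ) (k := K)
  have hρ' : (100 * a : ℤ) ≤ ρ := by exact_mod_cast hρ
  have ha' : (1:ℤ) ≤ a := by exact_mod_cast ha
  obtain ⟨S1, hS1⟩ : ∃ S1, S1 = RE (x - 12 * a) (x + 12 * a) 0 (y - 4 * a) := ⟨_, rfl⟩
  obtain ⟨S2, hS2⟩ : ∃ S2, S2 = S.filter (fun e => dl e ∈ Tr x y a ρ K) := ⟨_, rfl⟩
  obtain ⟨S0, hS0⟩ : ∃ S0, S0 = S \ (S1 ∪ S2) := ⟨_, rfl⟩
  have s1 : S1 ⊆ S := by
    rw [hS1]
    exact (RE_sub (by omega) (by omega) (by omega) (by omega)).trans hS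
  have s2 : S2 ⊆ S := by
    rw [hS2]
    exact Finset.filter_subset _ _
  have hU : S0 ∪ (S1 ∪ S2) = S := by
    rw [hS0]
    exact Finset.sdiff_union_of_subset (Finset.union_subset s1 s2)
  -- edges of `S2`
  have m2 : ∀ e ∈ S2, (y + 4 * a ≤ e.2.1) ∨ (x + 12 * a < e.1) := by
    intro e he
    rw [hS2, Finset.mem_filter] at he
    obtain ⟨-, h⟩ := he
    unfold Tr at h
    rw [Finset.mem_union] at h
    obtain ⟨ex, ey, _ | _⟩ := e
    · rw [dl_f, mem_RE_true, mem_RE_true] at h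
      simp only
      omega
    · rw [dl_t, mem_RE_false, mem_RE_false] at h
      simp only
      omega
  have m1 : ∀ e ∈ RE (x - 12 * a) (x + 12 * a) 0 (y + 3 * a), e ∉ S2 := by
    intro e he h
    have h2 := m2 e h
    obtain ⟨ex, ey, _ | _⟩ := e
    · rw [mem_RE_false] at he
      simp only at h2
      omega
    · rw [mem_RE_true] at he
      simp only at h2
      omega
  have d12 : Disjoint S1 S2 := by
    rw [Finset.disjoint_left]
    intro e he
    apply m1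
    rw [hS1] at he
    exact RE_sub le_rfl le_rfl le_rfl (by omega) he
  have d01 : Disjoint S0 S1 := by
    rw [hS0]
    exact Finset.disjoint_of_subset_right Finset.subset_union_left Finset.sdiff_disjoint
  have d02 : Disjoint S0 S2 := by
    rw [hS0]
    exact Finset.disjoint_of_subset_right Finset.subset_union_right Finset.sdiff_disjoint
  -- the primal arm
  have hPR : PR (x, y) a ⊆ S0 ∪ S1 := by
    intro e he
    unfold PR at he
    simp only at he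
    have h1 : e ∈ S := hS (RE_sub (by omega) (by omega) (by omega) (by omega) he)
    have h2 : e ∉ S2 := m1 e (RE_sub (by omega) (by omega) (by omega) (by omega) he)
    rw [← hU, Finset.mem_union, Finset.mem_union] at h1
    rw [Finset.mem_union]
    rcases h1 with h | h | h
    · exact Or.inl h
    · exact Or.inr h
    · exact absurd h h2
  -- the dual arm
  have hDR : ∀ e, dl e ∈ DR (x, y) a → e ∈ S0 ∪ S2 := by
    intro e he
    have h1 : e ∈ S ∧ e ∉ S1 := by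
      rw [hS1]
      unfold DR at he
      simp only at he
      obtain ⟨ex, ey, _ | _⟩ := e
      · rw [dl_f, mem_RE_true] at he
        refine ⟨hS ?_, ?_⟩
        · rw [mem_RE_false]
          omega
        · rw [mem_RE_false]
          omega
      · rw [dl_t, mem_RE_false] at he
        refine ⟨hS ?_, ?_⟩
        · rw [mem_RE_true]
          omega
        · rw [mem_RE_true]
          omega
    obtain ⟨h1, h2⟩ := h1
    rw [← hU, Finset.mem_union, Finset.mem_union] at h1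
    rw [Finset.mem_union]
    rcases h1 with h | h | h
    · exact Or.inl h
    · exact absurd h h2
    · exact Or.inr h
  obtain ⟨A, hA⟩ : ∃ A : Finset Edg → Prop, A = fun F : Finset Edg => ∃ w : Vtx, w.2 = y - 12 * a ∧
    Reach ((↑F : Set Edg) ∩ ↑(PR (x, y) a)) (x, y) w := ⟨_, rfl⟩
  obtain ⟨B, hB⟩ : ∃ B : Finset Edg → Prop, B = fun F : Finset Edg => ∃ g : Vtx, g.2 = y + 12 * a ∧
    DReach (dE (DR (x, y) a) \ (↑F : Set Edg)) (x, y) g := ⟨_, rfl⟩
  have hRA : ∀ F : Finset Edg, RA (x, y) a (↑F : Set Edg) ↔ A F ∧ B F := by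
    intro F
    rw [hA, hB]
    exact Iff.rfl
  have lA : ∀ F, A F ↔ A (F ∩ (S0 ∪ S1)) := by
    intro F
    rw [hA]
    simp only
    rw [coe_inter_eq hPR]
  have lB : ∀ F, B F ↔ B (F ∩ (S0 ∪ S2)) := by
    intro F
    rw [hB]
    simp only
    have e : dE (DR (x, y) a) \ (↑(F ∩ (S0 ∪ S2)) : Set Edg) = dE (DR (x, y) a) \ (↑F : Set Edg) := by
      ext g
      rw [Set.mem_sdiff, Set.mem_sdiff, Finset.mem_coe, Finset.mem_coe, Finset.mem_inter]
      constructor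
      · rintro ⟨h1, h2⟩
        exact ⟨h1, fun h3 => h2 ⟨h3, hDR g h1⟩⟩
      · rintro ⟨h1, h2⟩
        exact ⟨h1, fun h3 => h2 h3.1⟩
    rw [e]
  have lI : ∀ F, EvI x y a F ↔ EvI x y a (F ∩ S1) := by
    intro F
    unfold EvI
    rw [hS1]
    refine and_congr ?_ ?_
    · exact LRc_local (LRE_subset_RE.trans (RE_sub le_rfl le_rfl (by omega) le_rfl))
    · exact TBc_local TBE_subset_RE
  have lD : ∀ F, EvD x y a ρ K (dS S F) ↔ EvD x y a ρ K (dS S (F ∩ S2)) := by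
    intro F
    rw [EvD_local hy2 hρ hy1, EvD_local hy2 hρ hy1 (dS S (F ∩ S2))]
    have e : dS S F ∩ Tr x y a ρ K = dS S (F ∩ S2) ∩ Tr x y a ρ K := by
      ext g
      rw [Finset.mem_inter, Finset.mem_inter, MixE.mem_dS, MixE.mem_dS]
      constructor
      · rintro ⟨⟨e, ⟨h1, h2⟩, h3⟩, h4⟩
        exact ⟨⟨e, ⟨h1, fun h5 => h2 (Finset.mem_inter.1 h5).1⟩, h3⟩, h4⟩
      · rintro ⟨⟨e, ⟨h1, h2⟩, h3⟩, h4⟩
        refine ⟨⟨e, ⟨h1, fun h5 => h2 (Finset.mem_inter.2 ⟨h5, ?_⟩)⟩, h3⟩, h4⟩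
        rw [hS2, Finset.mem_filter]
        exact ⟨h1, h3 ▸ h4⟩
    rw [e]
  have mA : ∀ F G, F ⊆ G → A F → A G := by
    intro F G h hF
    rw [hA] at hF ⊢
    obtain ⟨w, h1, h2⟩ := hF
    exact ⟨w, h1, h2.mono (Set.inter_subset_inter_left _ (by exact_mod_cast h))⟩
  have mB : ∀ F G, F ⊆ G → B G → B F := by
    intro F G h hG
    rw [hB] at hG ⊢
    obtain ⟨w, h1, h2⟩ := hG
    refine ⟨w, h1, h2.mono ?_⟩
    intro g hg
    exact ⟨hg.1, fun h3 => hg.2 (Finset.mem_coe.2 (h (Finset.mem_coe.1 h3)))⟩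
  have mI : ∀ F G, F ⊆ G → EvI x y a F → EvI x y a G := fun F G h hF =>
    ⟨hF.1.mono h, hF.2.mono h⟩
  have mD : ∀ F G, F ⊆ G → EvD x y a ρ K (dS S G) → EvD x y a ρ K (dS S F) := by
    intro F G h hG
    refine EvD_mono ?_ hG
    intro g hg
    rw [MixE.mem_dS] at hg ⊢
    obtain ⟨e, ⟨h1, h2⟩, h3⟩ := hg
    exact ⟨e, ⟨h1, fun h4 => h2 (h h4)⟩, h3⟩
  have main := Pool.Agent.H953.mixed (okq hq0 hq1) d01 d02 d12 lA lB lI lD mA mB mI mD
  rw [hU] at main
  have e1 : Pr (fun _ => q) S (fun F => RA (x, y) a (↑F : Set Edg)) =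
      Pr (fun _ => q) S (fun F => A F ∧ B F) := Pr_congr fun F _ => hRA F
  have e2 : Pr (fun _ => q) S (EvI x y a) = Pr (fun _ => q) S1 (EvI x y a) :=
    Pr_local s1 fun F _ => lI F
  have e3 : Pr (fun _ => q) S (fun F => EvD x y a ρ K (dS S F)) =
      Pr (fun _ => q) S2 (fun F => EvD x y a ρ K (dS S F)) :=
    Pr_local s2 fun F _ => lD F
  have e4 : Pr (fun _ => q) S (fun F => RA (x, y) a (↑F : Set Edg) ∧ EvI x y a F ∧
      EvD x y a ρ K (dS S F)) = Pr (fun _ => q) S (fun F => (A F ∧ B F) ∧ (EvI x y a F ∧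
      EvD x y a ρ K (dS S F))) := Pr_congr fun F _ => and_congr_left' (hRA F)
  rw [e1, e2, e3, e4]
  exact main

end H953S
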