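import Pool.Agent.H953.Spd.Defs

/-! B4 (by helper734): an edge of the axis under no open path is traversed. -/

set_option autoImplicit false

namespace H953S

open H974 Finset H342P H984P H984H MeasureTheory ProbabilityTheory Filter Topology

/-- the axis between `b + 1` and the origin -/
theorem na_axis (ω : Conf) (b : ℤ) (hb : b < 0) : Reach (opn ω \ {ax b}) (b + 1, 0) (0, 0) := by
  have key : ∀ n : ℕ, ∀ x : ℤ, b < x → x + n = 0 → Reach (opn ω \ {ax b}) (x, 0) (0, 0) := by
    intro n
    induction n with
    | zero =>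
      intro x _ hx
      have h0 : x = 0 := by omega
      rw [h0]
      exact Reach.refl _ _
    | succ n ih =>
      intro x hbx hx
      have h1 := ih (x + 1) (by omega) (by push_cast at hx; omega)
      have h2 : Adj (opn ω \ {ax b}) (x, 0) (x + 1, 0) := by
        refine ⟨(x, 0, true), ⟨Or.inl ⟨rfl, rfl, ?_⟩, ?_⟩, Or.inl ⟨rfl, rfl⟩⟩
        · show x < 0
          push_cast at hx
          omega
        · intro h
          have h3 : ((x, 0, true) : Edg) = (b, 0, true) := h
          rw [Prod.mk.injEq] at h3
          omega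
      exact Reach.trans (Adj.reach h2) h1
  exact key (-(b + 1)).toNat (b + 1) (by omega) (by omega)

/-- One step: the same vertex, an open edge different from `ax b`, or one of the two crossings of
the edge `ax b`. -/
theorem na_step (ω : Conf) (b : ℤ) (σ : St) :
    (step (opn ω) σ).1 = σ.1 ∨ Adj (opn ω \ {ax b}) σ.1 (step (opn ω) σ).1 ∨
      step (opn ω) σ = ((b, 0), .ne) ∨ σ.1 = (b, 0) := by
  obtain ⟨⟨x, y⟩, q⟩ := σ
  cases q
  · by_cases h : ((x, y, false) : Edg) ∈ opn ω
    · right; left
      have h1 : step (opn ω) ((x, y), .ne) = ((x, y + 1), .se) := by simp [step, h]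
      rw [h1]
      exact ⟨(x, y, false), ⟨h, fun h2 => by
        have h3 : ((x, y, false) : Edg) = (b, 0, true) := h2
        simp at h3⟩, Or.inl ⟨rfl, rfl⟩⟩
    · left
      simp [step, h]
  · by_cases h : ((x - 1, y, true) : Edg) ∈ opn ω
    · have h1 : step (opn ω) ((x, y), .nw) = ((x - 1, y), .ne) := by simp [step, h]
      by_cases h2 : ((x - 1, y, true) : Edg) = ax b
      · right; right; left
        have h3 : ((x - 1, y, true) : Edg) = (b, 0, true) := h2
        rw [Prod.mk.injEq, Prod.mk.injEq] at h3
        rw [h1, h3.1, h3.2.1]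
      · right; left
        rw [h1]
        exact ⟨(x - 1, y, true), ⟨h, h2⟩, Or.inr ⟨rfl, by simp⟩⟩
    · left
      simp [step, h]
  · by_cases h : ((x, y - 1, false) : Edg) ∈ opn ω
    · right; left
      have h1 : step (opn ω) ((x, y), .sw) = ((x, y - 1), .nw) := by simp [step, h]
      rw [h1]
      exact ⟨(x, y - 1, false), ⟨h, fun h2 => by
        have h3 : ((x, y - 1, false) : Edg) = (b, 0, true) := h2
        simp at h3⟩, Or.inr ⟨rfl, by simp⟩⟩
    · left
      simp [step, h]
  · by_cases h : ((x, y, true) : Edg) ∈ opn ω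
    · have h1 : step (opn ω) ((x, y), .se) = ((x + 1, y), .sw) := by simp [step, h]
      by_cases h2 : ((x, y, true) : Edg) = ax b
      · right; right; right
        have h3 : ((x, y, true) : Edg) = (b, 0, true) := h2
        rw [Prod.mk.injEq, Prod.mk.injEq] at h3
        show ((x, y) : Vtx) = (b, 0)
        rw [h3.1, h3.2.1]
      · right; left
        rw [h1]
        exact ⟨(x, y, true), ⟨h, h2⟩, Or.inl ⟨rfl, rfl⟩⟩
    · left
      simp [step, h]

theorem na (h : S_sides) : S_na := by
  intro ω b hb hna hfin
  by_contra hvis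
  -- all the visited vertices are on the right of the edge
  have key : ∀ k, Reach (opn ω \ {ax b}) (b + 1, 0) (path ω k).1 := by
    intro k
    induction k with
    | zero => exact na_axis ω b hb
    | succ k ih =>
      rw [path_succ]
      rcases na_step ω b (path ω k) with h1 | h1 | h1 | h1
      · rw [h1]
        exact ih
      · exact ih.trans h1.reach
      · exact absurd ⟨k + 1, h1⟩ hvis
      · exfalso
        rw [h1] at ih
        obtain ⟨x, hx1, -, hx2⟩ := ((h ω b hb hna (b, 0)).2).1 ih
        exact hna b x le_rfl hx1 (Reach.symm hx2)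
  have hsub : ∀ k, path ω k ∈ (⋃ x ∈ Set.Ioc b 0, {v | BC ω x v}) ×ˢ (Set.univ : Set Q4) := by
    intro k
    obtain ⟨x, hx1, hx0, hx2⟩ := ((h ω b hb hna (path ω k).1).2).1 (key k)
    refine ⟨?_, Set.mem_univ _⟩
    exact Set.mem_biUnion (Set.mem_Ioc.2 ⟨hx1, hx0⟩) hx2
  have hF : ((⋃ x ∈ Set.Ioc b 0, {v | BC ω x v}) ×ˢ (Set.univ : Set Q4)).Finite := by
    refine Set.Finite.prod ?_ Set.finite_univ
    exact (Set.finite_Ioc b 0).biUnion fun x hx => hfin x hx.1 hx.2
  have hinj : Function.Injective (path ω) := by
    intro i j hij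
    by_contra hne
    exact path_inj ω hne hij
  exact Set.infinite_range_of_injective hinj (hF.subset (Set.range_subset_iff.2 hsub))

end H953S
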