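import Pool.Agent.H953.Spd.Fin
import Pool.Graph.R_seed8.W424.NC.ArmUp

/-!
The edge `[0, 1]` is under no open path with positive probability.
-/

set_option autoImplicit false

namespace H953S

open H974 Finset H342P H984P H984H MeasureTheory ProbabilityTheory Filter Topology

namespace NaPos

/-- the edges of `F` in the upper half-plane off the axis -/
def off (F : Finset Edg) : Set Edg := {e | e ∈ F ∧ 0 ≤ e.2.1 ∧ ¬ (e.2.1 = 0 ∧ e.2.2 = true)}

theorem off_mono {F G : Finset Edg} (h : F ⊆ G) : off F ⊆ off G := fun _ he => ⟨h he.1, he.2⟩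

theorem op_mono {S T : Finset Edg} (h : S ⊆ T) (ω : Conf) : op S ω ⊆ op T ω := by
  intro e he
  rw [mem_op] at he ⊢
  exact ⟨h he.1, he.2⟩

theorem off_op_sub (S : Finset Edg) (ω : Conf) : off (op S ω) ⊆ Ret_O ω :=
  fun _ he => ⟨he.2.1, he.2.2, (mem_op.1 he.1).2⟩

theorem mem_boxE_large (e : Edg) : ∃ n : ℕ, e ∈ boxE n := by
  obtain ⟨x, y, d⟩ := e
  refine ⟨x.natAbs + y.natAbs + 1, ?_⟩
  unfold boxE
  cases d
  · rw [mem_RE_false]
    omega
  · rw [mem_RE_true]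
    omega

theorem reach_box {ω : Conf} {u v : Vtx} (h : Reach (Ret_O ω) u v) :
    ∃ n : ℕ, Reach (off (op (boxE n) ω)) u v := by
  induction h with
  | refl => exact ⟨0, Reach.refl _ _⟩
  | @tail w w' _ hs ih =>
    obtain ⟨n, hn⟩ := ih
    obtain ⟨e, he, hc⟩ := hs
    obtain ⟨m, hm⟩ := mem_boxE_large e
    refine ⟨max n m, (hn.mono (off_mono (op_mono (boxE_mono (le_max_left _ _)) ω))).trans
      (Adj.reach ⟨e, ?_, hc⟩)⟩
    exact ⟨mem_op.2 ⟨boxE_mono (le_max_right _ _) hm, he.2.2⟩, he.1, he.2.1⟩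

theorem reach_iff_box {ω : Conf} {u v : Vtx} :
    Reach (Ret_O ω) u v ↔ ∃ n : ℕ, Reach (off (op (boxE n) ω)) u v :=
  ⟨reach_box, fun ⟨_, h⟩ => h.mono (off_op_sub _ _)⟩

/-- a path over the edge `[0, 1]` -/
def Ov (F : Finset Edg) : Prop := ∃ x y : ℤ, x ≤ 0 ∧ 0 < y ∧ Reach (off F) (x, 0) (y, 0)

/-- such a path with an end far away -/
def Far (K : ℕ) (F : Finset Edg) : Prop := ∃ x y : ℤ, x ≤ 0 ∧ 0 < y ∧ (x ≤ -(K:ℤ) ∨ (K:ℤ) < y) ∧
  Reach (off F) (x, 0) (y, 0)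

theorem Ov_mono {F G : Finset Edg} (h : F ⊆ G) (hF : Ov F) : Ov G := by
  obtain ⟨x, y, h1, h2, h3⟩ := hF
  exact ⟨x, y, h1, h2, h3.mono (off_mono h)⟩

theorem Far_mono {K : ℕ} {F G : Finset Edg} (h : F ⊆ G) (hF : Far K F) : Far K G := by
  obtain ⟨x, y, h1, h2, h4, h3⟩ := hF
  exact ⟨x, y, h1, h2, h4, h3.mono (off_mono h)⟩

theorem na_iff (ω : Conf) : NA ω 0 ↔ ∀ n : ℕ, ¬ Ov (op (boxE n) ω) := by
  unfold NA BC
  constructor
  · rintro h n ⟨x, y, hx, hy, hr⟩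
    exact h x y hx hy (hr.mono (off_op_sub _ _))
  · intro h x y hx hy hr
    obtain ⟨n, hn⟩ := reach_box hr
    exact h n ⟨x, y, hx, hy, hn⟩

theorem na_eq : {ω : Conf | NA ω 0} = ⋂ n : ℕ, {ω : Conf | ¬ Ov (op (boxE n) ω)} := by
  ext ω
  rw [Set.mem_iInter]
  exact na_iff ω

theorem meas_na : MeasurableSet {ω : Conf | NA ω 0} := by
  rw [na_eq]
  exact MeasurableSet.iInter fun n => meas_ev (boxE n) (fun F => ¬ Ov F)

/-- union bound -/
theorem Pr_ex_le {ι : Type} {p : Edg → ℝ} (hp : Ok p) (S : Finset Edg) (s : Finset ι)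
    (A : Finset Edg → Prop) (B : ι → Finset Edg → Prop)
    (h : ∀ F, F ⊆ S → A F → ∃ i ∈ s, B i F) : Pr p S A ≤ ∑ i ∈ s, Pr p S (B i) := by
  unfold Pr
  rw [← Ex_sum]
  apply Ex_mono hp
  intro F hF
  by_cases hA : A F
  · obtain ⟨i, hi, hB⟩ := h F hF hA
    rw [ind_of hA]
    calc (1:ℝ) = ind (B i F) := (ind_of hB).symm
      _ ≤ ∑ i ∈ s, ind (B i F) := Finset.single_le_sum (f := fun i => ind (B i F))
          (fun i _ => ind_nonneg _) hi
  · rw [ind_not_of hA]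
    exact Finset.sum_nonneg fun i _ => ind_nonneg _

/-- the arm event at `(c, 0)` -/
def ArmC (c : ℤ) (m : ℕ) (F : Finset Edg) : Prop :=
  ∃ w : Vtx, (inR (c - m) (c + m) (-m) m w ∧ (w.1 = c - m ∨ w.1 = c + m ∨ w.2 = -m ∨ w.2 = m)) ∧
    Reach (↑F ∩ ↑(RE (c - m) (c + m) (-m) m)) (c, 0) w

theorem ArmC_incr (S : Finset Edg) (c : ℤ) (m : ℕ) : IncrE S (ArmC c m) := by
  rintro F G h _ ⟨w, h1, h2⟩
  exact ⟨w, h1, h2.mono (Set.inter_subset_inter_left _ (by exact_mod_cast h))⟩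

theorem pr_armC {q : ℝ} (h0 : 0 ≤ q) (h1 : q ≤ 1) (S : Finset Edg) (c : ℤ) (m : ℕ) :
    Pr (fun _ => q) S (ArmC c m) ≤ arm q m := by
  classical
  have ok := okq h0 h1
  set B : Finset Edg := RE (c - m) (c + m) (-m) m with hB
  have e1 : Pr (fun _ => q) S (ArmC c m) ≤ Pr (fun _ => q) (S ∪ B) (ArmC c m) :=
    Pr_mono_set ok Finset.subset_union_left (ArmC_incr _ _ _)
  have e2 : Pr (fun _ => q) (S ∪ B) (ArmC c m) = Pr (fun _ => q) B (ArmC c m) := by
    apply Pr_local Finset.subset_union_right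
    intro F _
    unfold ArmC
    have h3 : ((↑(F ∩ B) : Set Edg) ∩ ↑B) = ↑F ∩ ↑B := by
      rw [Finset.coe_inter, Set.inter_assoc, Set.inter_self]
    rw [← hB, h3]
  have e3 : B = (trl c 0).mp (boxE m) := by
    unfold boxE
    rw [trl_RE, hB]
    congr 1 <;> ring
  have e4 : Pr (fun _ => q) B (ArmC c m) ≤ arm q m := by
    rw [e3, LSym.pr]
    unfold arm
    apply Pr_mono ok
    rintro F _ ⟨w, hw, hr⟩
    have himg : ((↑((trl c 0).mp F) : Set Edg) ∩ ↑(RE (c - m) (c + m) (-m) m)) =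
        (trl c 0).φ '' (↑F ∩ ↑(boxE m)) := by
      rw [← hB, e3, ← Finset.coe_inter, ← LSym.mp_inter, LSym.coe_mp, Finset.coe_inter]
    rw [himg] at hr
    have e5 : ((c, 0) : Vtx) = (trl c 0).ψ (0, 0) := by rw [trl_ψ]; simp
    have e6 : w = (trl c 0).ψ (w.1 - c, w.2) := by rw [trl_ψ]; simp
    rw [e5, e6, LSym.reach_iff] at hr
    refine ⟨(w.1 - c, w.2), ?_, hr⟩
    obtain ⟨⟨⟨a1, a2⟩, a3, a4⟩, a5⟩ := hw
    unfold onB inR
    simp only
    omega
  exact e1.trans (e2.le.trans e4)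

/-- exponential decay -/
theorem arm_exp {q : ℝ} (h0 : 0 ≤ q) (h1 : q < 1/2) : ∃ N : ℕ, 2 ≤ N ∧ ∀ n : ℕ,
    arm q n ≤ Real.exp 1 * Real.exp (-(n / (4 * N))) := by
  obtain ⟨E, -, hE⟩ := Pool.Agent.W424.NC.farN
  obtain ⟨N, hN, -, -, he⟩ := hE q h0 h1
  have hN0 : (0:ℝ) < N := by
    have : 0 < N := by omega
    exact_mod_cast this
  refine ⟨N, hN, fun n => ?_⟩
  have hq1 : q ≤ 1 := by linarith
  by_cases hn : n < 2 * N
  · have h2 : (n:ℝ) / (4 * N) ≤ 1 := by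
      rw [div_le_one (by positivity)]
      have : (n:ℝ) < 2 * N := by exact_mod_cast hn
      linarith
    rw [← Real.exp_add]
    calc arm q n ≤ 1 := arm_le_one h0 hq1 n
      _ ≤ _ := Real.one_le_exp (by linarith)
  · push Not at hn
    have hm : 1 ≤ n / (2 * N) := (Nat.one_le_div_iff (by omega)).2 hn
    obtain ⟨j, hj⟩ : ∃ j : ℕ, j = Nat.log 2 (n / (2 * N)) := ⟨_, rfl⟩
    have hj1 : 2 ^ j ≤ n / (2 * N) := by
      rw [hj]
      exact Nat.pow_log_le_self 2 (by omega)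
    have hj2 : n / (2 * N) < 2 ^ (j + 1) := by
      rw [hj]
      exact Nat.lt_pow_succ_log_self (by norm_num) _
    have h3 : 2 * (2 ^ j * N) ≤ n := by
      calc 2 * (2 ^ j * N) = 2 ^ j * (2 * N) := by ring
        _ ≤ n / (2 * N) * (2 * N) := Nat.mul_le_mul_right _ hj1
        _ ≤ n := Nat.div_mul_le_self _ _
    have h4 : n < 2 ^ (j + 1) * (2 * N) := (Nat.div_lt_iff_lt_mul (by omega)).1 hj2
    have h5 : (n:ℝ) / (4 * N) ≤ (2:ℝ) ^ j := by
      rw [div_le_iff₀ (by positivity)]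
      have h6 : (n:ℝ) < (2:ℝ) ^ (j + 1) * (2 * N) := by exact_mod_cast h4
      rw [pow_succ] at h6
      nlinarith
    calc arm q n ≤ arm q (2 * (2 ^ j * N)) := arm_anti h0 hq1 h3
      _ ≤ (1/4) ^ (2 ^ j) := H31K.arm_decay_far h0 hq1 hN he j
      _ ≤ Real.exp (-(n / (4 * N))) := Pool.Agent.W424.NC.quarter_pow_le h5
      _ ≤ _ := by
        have h7 : (1:ℝ) ≤ Real.exp 1 := Real.one_le_exp (by norm_num)
        have h8 := Real.exp_pos (-((n:ℝ) / (4 * N)))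
        nlinarith

theorem arm_summable {q : ℝ} (h0 : 0 ≤ q) (h1 : q < 1/2) : Summable (fun n : ℕ => arm q n) := by
  obtain ⟨N, hN, h⟩ := arm_exp h0 h1
  have hN0 : (0:ℝ) < N := by
    have : 0 < N := by omega
    exact_mod_cast this
  have hr : Summable (fun n : ℕ => Real.exp 1 * Real.exp (-((n:ℝ) / (4 * N)))) := by
    apply Summable.mul_left
    have h2 : (fun n : ℕ => Real.exp (-((n:ℝ) / (4 * N)))) =
        fun n : ℕ => (Real.exp (-(1 / (4 * N)))) ^ n := by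
      funext n
      rw [← Real.exp_nat_mul]
      congr 1
      ring
    rw [h2]
    apply summable_geometric_of_lt_one (Real.exp_pos _).le
    rw [Real.exp_lt_one_iff]
    have : (0:ℝ) < 1 / (4 * N) := by positivity
    linarith
  exact Summable.of_nonneg_of_le (fun n => arm_nonneg h0 (by linarith) n) h hr

theorem tail {q : ℝ} (h0 : 0 ≤ q) (h1 : q < 1/2) : ∃ K : ℕ, 1 ≤ K ∧ ∀ n : ℕ,
    ∑ m ∈ Finset.Icc K n, (arm q m + arm q m) ≤ 1/2 := by
  classical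
  have hs := (arm_summable h0 h1).add (arm_summable h0 h1)
  obtain ⟨s, hs⟩ := summable_iff_vanishing_norm.1 hs (1/2) (by norm_num)
  refine ⟨s.sup id + 1, by omega, fun n => ?_⟩
  have h2 := hs (Finset.Icc (s.sup id + 1) n) (by
    rw [Finset.disjoint_left]
    intro m hm hms
    have h3 : m ≤ s.sup id := Finset.le_sup (f := id) hms
    rw [Finset.mem_Icc] at hm
    omega)
  exact ((le_abs_self _).trans h2.le)

theorem reach_ne {G : Set Edg} {n : ℕ} (hG : ∀ e ∈ G, e ∈ boxE n) {u v : Vtx} (h : Reach G u v)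
    (hne : u ≠ v) : inR (-n) n (-n) n u := by
  obtain ⟨w, e, he, hc⟩ := Ret_first h hne
  have h1 := hG e he
  obtain ⟨x, y, _ | _⟩ := e
  · unfold boxE at h1
    rw [mem_RE_false] at h1
    simp only [src_mk, tgt_false] at hc
    rcases hc with ⟨h2, h3⟩ | ⟨h2, h3⟩
    · rw [← h2]; unfold inR; simp only; omega
    · rw [← h3]; unfold inR; simp only; omega
  · unfold boxE at h1
    rw [mem_RE_true] at h1
    simp only [src_mk, tgt_true] at hc
    rcases hc with ⟨h2, h3⟩ | ⟨h2, h3⟩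
    · rw [← h2]; unfold inR; simp only; omega
    · rw [← h3]; unfold inR; simp only; omega

/-- a long path makes an arm -/
theorem armC_of_reach {F : Finset Edg} {c : ℤ} {m : ℕ} {v : Vtx} (h : Reach (off F) (c, 0) v)
    (hv : v.1 ≤ c - m ∨ c + m ≤ v.1) : ArmC c m F := by
  obtain ⟨w, k1, k2, k3⟩ := first_exit (G := off F) (a := c - m) (b := c + m) (c := -m) (d := m)
    (u := (c, 0)) (v := v) (by unfold inR; simp) h (by omega)
  refine ⟨w, ⟨k1, k2⟩, k3.mono ?_⟩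
  rintro e ⟨h1, h2⟩
  exact ⟨h1.1, h2⟩

theorem pr_far {q : ℝ} (h0 : 0 ≤ q) (h1 : q ≤ 1) (K n : ℕ) :
    Pr (fun _ => q) (boxE n) (Far K) ≤ ∑ m ∈ Finset.Icc K n, (arm q m + arm q m) := by
  classical
  have ok := okq h0 h1
  have e1 := Pr_ex_le ok (boxE n) (Finset.Icc K n) (Far K)
    (fun m F => ArmC (-(m:ℤ)) m F ∨ ArmC m m F) (by
      rintro F hF ⟨x, y, hx, hy, hxy, hr⟩
      have hne : ((x, 0) : Vtx) ≠ (y, 0) := by
        intro h
        rw [Prod.mk.injEq] at h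
        omega
      have hG : ∀ e ∈ off F, e ∈ boxE n := fun e he => hF he.1
      have hx2 := reach_ne hG hr hne
      have hy2 := reach_ne hG hr.symm hne.symm
      obtain ⟨⟨hx3, -⟩, -⟩ := hx2
      obtain ⟨⟨-, hy3⟩, -⟩ := hy2
      simp only at hx3 hy3
      rcases hxy with h | h
      · obtain ⟨m, hm⟩ : ∃ m : ℕ, x = -(m:ℤ) := ⟨x.natAbs, by omega⟩
        refine ⟨m, Finset.mem_Icc.2 ⟨by omega, by omega⟩, Or.inl ?_⟩
        subst hm
        exact armC_of_reach hr (Or.inr (by simp only; omega))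
      · obtain ⟨m, hm⟩ : ∃ m : ℕ, y = (m:ℤ) := ⟨y.natAbs, by omega⟩
        refine ⟨m, Finset.mem_Icc.2 ⟨by omega, by omega⟩, Or.inr ?_⟩
        subst hm
        exact armC_of_reach hr.symm (Or.inl (by simp only; omega)))
  refine e1.trans (Finset.sum_le_sum fun m _ => ?_)
  exact (Pr_or_le ok _ _ _).trans (add_le_add (pr_armC h0 h1 _ _ _) (pr_armC h0 h1 _ _ _))

/-- the window -/
noncomputable def Wd (K : ℕ) : Finset Edg := (Finset.Icc (-(K:ℤ)) K).image fun x => ((x, 0, false) : Edg)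

theorem mem_Wd {K : ℕ} {x : ℤ} (h1 : -(K:ℤ) ≤ x) (h2 : x ≤ K) : ((x, 0, false) : Edg) ∈ Wd K :=
  Finset.mem_image.2 ⟨x, Finset.mem_Icc.2 ⟨h1, h2⟩, rfl⟩

/-- the window is closed -/
def Cl (K : ℕ) (F : Finset Edg) : Prop := ∀ e ∈ Wd K, e ∉ F

theorem not_ov {K : ℕ} {F : Finset Edg} (h1 : ¬ Far K F) (h2 : Cl K F) : ¬ Ov F := by
  rintro ⟨x, y, hx, hy, hr⟩
  by_cases hxy : x ≤ -(K:ℤ) ∨ (K:ℤ) < y
  · exact h1 ⟨x, y, hx, hy, hxy, hr⟩
  · push Not at hxy
    obtain ⟨w, e, he, hc⟩ := Ret_first hr (by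
      intro h
      rw [Prod.mk.injEq] at h
      omega)
    obtain ⟨h3, h4, h5⟩ := he
    obtain ⟨a, b, _ | _⟩ := e
    · simp only at h4 h5
      simp only [src_mk, tgt_false, Prod.mk.injEq] at hc
      rcases hc with ⟨⟨rfl, rfl⟩, -⟩ | ⟨-, ⟨rfl, h6⟩⟩
      · exact h2 _ (mem_Wd (by omega) (by omega)) h3
      · omega
    · simp only at h4 h5
      simp only [src_mk, tgt_true, Prod.mk.injEq] at hc
      rcases hc with ⟨⟨rfl, rfl⟩, -⟩ | ⟨-, ⟨h6, rfl⟩⟩
      · exact h5 ⟨rfl, trivial⟩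
      · exact h5 ⟨rfl, trivial⟩

theorem Wd_sub {K n : ℕ} (h : K < n) : Wd K ⊆ boxE n := by
  intro e he
  obtain ⟨x, hx, rfl⟩ := Finset.mem_image.1 he
  rw [Finset.mem_Icc] at hx
  unfold boxE
  rw [mem_RE_false]
  omega

theorem pr_cl {q : ℝ} {K n : ℕ} (h : K < n) :
    Pr (fun _ => q) (boxE n) (Cl K) = Pr (fun _ => q) (Wd K) (Cl K) := by
  apply Pr_local (Wd_sub h)
  intro F _
  unfold Cl
  refine forall₂_congr fun e he => ?_
  rw [Finset.mem_inter]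
  tauto

theorem pr_cl_pos {q : ℝ} (h0 : 0 ≤ q) (h1 : q < 1) (K : ℕ) :
    0 < Pr (fun _ => q) (Wd K) (Cl K) := by
  classical
  unfold Pr Ex
  have h2 : ∀ F ∈ (Wd K).powerset, 0 ≤ (∏ e ∈ F, q) * (∏ e ∈ Wd K \ F, (1 - q)) *
      ind (Cl K F) := by
    intro F _
    exact mul_nonneg (mul_nonneg (Finset.prod_nonneg fun _ _ => h0)
      (Finset.prod_nonneg fun _ _ => by linarith)) (ind_nonneg _)
  refine lt_of_lt_of_le ?_ (Finset.single_le_sum h2 (Finset.empty_mem_powerset _))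
  rw [ind_of (show Cl K ∅ from fun e _ => Finset.notMem_empty e), Finset.prod_empty, one_mul,
    mul_one]
  exact Finset.prod_pos fun _ _ => by linarith

theorem pr_not_ov {q : ℝ} (h0 : 0 ≤ q) (h1 : q ≤ 1) {K n : ℕ} (h : K < n)
    (hK : ∑ m ∈ Finset.Icc K n, (arm q m + arm q m) ≤ 1/2) :
    Pr (fun _ => q) (Wd K) (Cl K) / 2 ≤ Pr (fun _ => q) (boxE n) (fun F => ¬ Ov F) := by
  classical
  have ok := okq h0 h1
  have e1 := Pr_harris_decr ok (S := boxE n) (A := Far K) (B := Cl K)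
    (fun F G hFG _ hF => Far_mono hFG hF) (by
      intro F G hFG _ hF hG
      exact hF fun e he heF => hG e he (hFG heF))
  have e2 : Pr (fun _ => q) (boxE n) (Cl K) ≤
      Pr (fun _ => q) (boxE n) (fun F => Far K F ∧ Cl K F) +
      Pr (fun _ => q) (boxE n) (fun F => ¬ Ov F) := by
    refine le_trans (Pr_mono ok (B := fun F => (Far K F ∧ Cl K F) ∨ ¬ Ov F) ?_) (Pr_or_le ok _ _ _)
    intro F _ hF
    by_cases hf : Far K F
    · exact Or.inl ⟨hf, hF⟩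
    · exact Or.inr (not_ov hf hF)
  have e3 := (pr_far h0 h1 K n).trans hK
  have e4 := Pr_nonneg ok (boxE n) (Cl K)
  rw [← pr_cl h]
  nlinarith

end NaPos

open NaPos in
/-- **D2.** -/
theorem napos : S_napos := by
  classical
  intro q hq
  refine ⟨meas_na, ?_⟩
  have h0 : (0:ℝ) ≤ q := q.2.1
  have h1 : (q:ℝ) ≤ 1 := q.2.2
  obtain ⟨K, -, hK⟩ := tail h0 hq
  set c : ℝ := Pr (fun _ => (q:ℝ)) (Wd K) (Cl K) / 2 with hc
  have hc0 : 0 < c := by
    have := pr_cl_pos h0 (show (q:ℝ) < 1 by linarith) K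
    rw [hc]
    linarith
  have hlb : ∀ n : ℕ, K < n → c ≤ (lw q).real {ω : Conf | ¬ Ov (op (boxE n) ω)} := by
    intro n hn
    rw [lw_fin q (boxE n) (fun F => ¬ Ov F)]
    exact pr_not_ov h0 h1 hn (hK n)
  have hanti : Antitone (fun n : ℕ => {ω : Conf | ¬ Ov (op (boxE n) ω)}) := by
    intro n m hnm ω hω hov
    exact hω (Ov_mono (op_mono (boxE_mono hnm) ω) hov)
  have hlim := tendsto_measure_iInter_atTop (μ := lw q)
    (s := fun n : ℕ => {ω : Conf | ¬ Ov (op (boxE n) ω)})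
    (fun n => (meas_ev (boxE n) (fun F => ¬ Ov F)).nullMeasurableSet) hanti
    ⟨0, measure_ne_top _ _⟩
  rw [← na_eq] at hlim
  have hge : ENNReal.ofReal c ≤ (lw q) {ω : Conf | NA ω 0} := by
    refine ge_of_tendsto hlim ?_
    filter_upwards [eventually_gt_atTop K] with n hn
    exact ENNReal.ofReal_le_of_le_toReal (hlb n hn)
  rw [measureReal_def]
  exact hc0.trans_le ((ENNReal.ofReal_le_iff_le_toReal (measure_ne_top _ _)).1 hge)

end H953S
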