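import Pool.Agent.H953.Spd.Defs
import Pool.Graph.R_seed8.H984R4.HN.Couple

/-!
B3: the path traverses the edge `ax b` exactly once.
-/

set_option autoImplicit false

namespace H953S

open H974 Finset H342P H984P H984H MeasureTheory ProbabilityTheory Filter Topology

/-- Edges of the axis which are open, apart from `ax b`. -/
theorem order_axis (ω : Conf) (b i : ℤ) (h1 : i < 0) (h2 : i ≠ b) :
    ((i, 0, true) : Edg) ∈ opn ω \ {ax b} := by
  refine ⟨Or.inl ⟨rfl, rfl, h1⟩, ?_⟩
  intro h
  rw [Set.mem_singleton_iff, ax, Prod.mk.injEq] at h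
  exact h2 h.1

/-- One step of the path does not cross the edge `ax b`, or it crosses it in one of two ways. -/
theorem order_step (G : Set Edg) (b : ℤ) (σ : St) (h1 : step G σ ≠ ((b, 0), .ne))
    (h2 : σ ≠ ((b, 0), .se)) : Reach (G \ {ax b}) σ.1 (step G σ).1 := by
  obtain ⟨⟨x, y⟩, q⟩ := σ
  cases q
  · by_cases h : ((x, y, false) : Edg) ∈ G
    · have h3 : step G ((x, y), .ne) = ((x, y + 1), .se) := by simp [step, h]
      rw [h3]
      refine Adj.reach ⟨(x, y, false), ⟨h, ?_⟩, Or.inl ⟨rfl, by simp⟩⟩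
      intro h4
      rw [Set.mem_singleton_iff, ax] at h4
      simp at h4
    · have h3 : step G ((x, y), .ne) = ((x, y), .nw) := by simp [step, h]
      rw [h3]
      exact Reach.refl _ _
  · by_cases h : ((x - 1, y, true) : Edg) ∈ G
    · have h3 : step G ((x, y), .nw) = ((x - 1, y), .ne) := by simp [step, h]
      rw [h3] at h1 ⊢
      refine Adj.reach ⟨(x - 1, y, true), ⟨h, ?_⟩, Or.inr ⟨rfl, by simp⟩⟩
      intro h4
      rw [Set.mem_singleton_iff, ax, Prod.mk.injEq, Prod.mk.injEq] at h4
      apply h1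
      rw [h4.1, h4.2.1]
    · have h3 : step G ((x, y), .nw) = ((x, y), .sw) := by simp [step, h]
      rw [h3]
      exact Reach.refl _ _
  · by_cases h : ((x, y - 1, false) : Edg) ∈ G
    · have h3 : step G ((x, y), .sw) = ((x, y - 1), .nw) := by simp [step, h]
      rw [h3]
      refine Adj.reach ⟨(x, y - 1, false), ⟨h, ?_⟩, Or.inr ⟨rfl, by simp⟩⟩
      intro h4
      rw [Set.mem_singleton_iff, ax] at h4
      simp at h4
    · have h3 : step G ((x, y), .sw) = ((x, y), .se) := by simp [step, h]
      rw [h3]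
      exact Reach.refl _ _
  · by_cases h : ((x, y, true) : Edg) ∈ G
    · have h3 : step G ((x, y), .se) = ((x + 1, y), .sw) := by simp [step, h]
      rw [h3]
      refine Adj.reach ⟨(x, y, true), ⟨h, ?_⟩, Or.inl ⟨rfl, by simp⟩⟩
      intro h4
      rw [Set.mem_singleton_iff, ax, Prod.mk.injEq, Prod.mk.injEq] at h4
      apply h2
      rw [h4.1, h4.2.1]
    · have h3 : step G ((x, y), .se) = ((x, y), .ne) := by simp [step, h]
      rw [h3]
      exact Reach.refl _ _

theorem order (h : S_vis) : S_order := by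
  intro ω b hb hd
  have hv : Vis ω ((b, 0), .ne) := by
    rw [h]
    refine ⟨?_, hd, ?_⟩
    · exact (Ret_row' hb.le fun i _ h2 => Or.inl ⟨rfl, rfl, h2⟩).symm
    · rintro ⟨-, -, h1 | h1⟩ <;> exact Q4.noConfusion h1
  obtain ⟨T, hT⟩ := hv
  have hse : ∀ k, path ω k ≠ ((b, 0), .se) := by
    intro k hk
    have h1 : Vis ω ((b, 0), .se) := ⟨k, hk⟩
    rw [h] at h1
    exact h1.2.2 ⟨rfl, hb.le, Or.inr rfl⟩
  have hst : ∀ k, k + 1 ≠ T →
      Reach (opn ω \ {ax b}) (path ω k).1 (path ω (k + 1)).1 := by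
    intro k hk
    rw [path_succ]
    refine order_step _ _ _ ?_ (hse k)
    rw [← path_succ, ← hT]
    exact path_inj ω hk
  refine ⟨T, hT, ?_, ?_⟩
  · intro k
    induction k with
    | zero =>
      intro _
      exact Ret_row' (by omega) fun i h1 h2 => order_axis ω b i h2 (by omega)
    | succ k ih =>
      intro hk
      exact (ih (by omega)).trans (hst k (by omega))
  · intro k hk
    induction k, hk using Nat.le_induction with
    | base => rw [hT]; exact Reach.refl _ _
    | succ k hk ih => exact ih.trans (hst k (by omega))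

end H953S
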