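import Pool.Agent.H953.Spd.Far
import Pool.Graph.R_seed8.W424.NC.Win

set_option autoImplicit false

namespace H953S

open H974 Finset H12S H342P H984P H984H MeasureTheory

namespace PDaux

theorem four_pow_ge (k : ℕ) : 1 + 3 * k ≤ 4 ^ k := by
  induction k with
  | zero => simp
  | succ k ih => rw [pow_succ]; omega

theorem eps_le {p : ℝ} (h0 : 0 ≤ p) (h1 : p ≤ 1) {N : ℕ} (hN : 2 ≤ N) (he : eps p N ≤ 1/100)
    (m k : ℕ) : eps p (4 ^ k * (2 ^ m * N)) ≤ 1/100 * (1/64) ^ k := by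
  have e1 : 4 ^ k * (2 ^ m * N) = 2 ^ (m + 2 * k) * N := by
    rw [pow_add, pow_mul]
    norm_num
    ring
  rw [e1]
  have h2 := H31K.eps_pow2 h0 h1 hN he (m + 2 * k)
  have h3 : ((1:ℝ)/4) ^ (2 ^ (m + 2 * k)) ≤ (1/4) ^ (1 + 3 * k) := by
    apply pow_le_pow_of_le_one (by norm_num) (by norm_num)
    calc 1 + 3 * k ≤ 4 ^ k := four_pow_ge k
      _ = 2 ^ (2 * k) := by rw [pow_mul]; norm_num
      _ ≤ 2 ^ (m + 2 * k) := Nat.pow_le_pow_right (by norm_num) (by omega)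
  have h4 : ((1:ℝ)/4) ^ (1 + 3 * k) = 1/4 * (1/64) ^ k := by
    rw [pow_add, pow_mul]
    norm_num
  rw [h4] at h3
  linarith

/-- Union bound over the scales. -/
theorem chain {p : Edg → ℝ} (hp : Ok p) (S : Finset Edg) (A B : ℕ → Finset Edg → Prop)
    (K : ℕ) (hA : ∀ k < K, 1 - 7 * (1/100 * (1/64) ^ k) ≤ Pr p S (A k))
    (hB : ∀ k < K, 1 - 11 * (1/100 * (1/64) ^ k) ≤ Pr p S (B k)) :
    1 - 128/700 * (1 - (1/64) ^ K) ≤ Pr p S (fun F => ∀ k < K, A k F ∧ B k F) := by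
  induction K with
  | zero =>
    rw [Pr_true (p := p) S (A := fun F => ∀ k < 0, A k F ∧ B k F)
      (fun F _ k hk => absurd hk (by omega))]
    norm_num
  | succ K ih =>
    have h1 := ih (fun k hk => hA k (by omega)) (fun k hk => hB k (by omega))
    have h2 := hA K (by omega)
    have h3 := hB K (by omega)
    have i1 := Pr_and_ge hp S (A K) (B K)
    have i2 := Pr_and_ge hp S (fun F => ∀ k < K, A k F ∧ B k F) (fun F => A K F ∧ B K F)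
    have i3 : Pr p S (fun F => (∀ k < K, A k F ∧ B k F) ∧ (A K F ∧ B K F)) ≤
        Pr p S (fun F => ∀ k < K + 1, A k F ∧ B k F) := by
      apply Pr_mono hp
      rintro F _ ⟨g1, g2⟩ k hk
      rcases Nat.lt_succ_iff_lt_or_eq.mp hk with h | h
      · exact g1 k h
      · rw [h]; exact g2
    have e1 : ((1:ℝ)/64) ^ (K + 1) = (1/64) ^ K * (1/64) := pow_succ _ _
    rw [e1]
    linarith

theorem incr_L (S : Finset Edg) (a b c d : ℤ) : IncrE S (LRc a b c d) :=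
  fun _ _ h _ hF => hF.mono h

theorem incr_T (S : Finset Edg) (a b c d : ℤ) : IncrE S (TBc a b c d) :=
  fun _ _ h _ hF => hF.mono h

theorem incr_and {S : Finset Edg} {A B : Finset Edg → Prop} (hA : IncrE S A) (hB : IncrE S B) :
    IncrE S (fun F => A F ∧ B F) :=
  fun F G h1 h2 hF => ⟨hA F G h1 h2 hF.1, hB F G h1 h2 hF.2⟩

end PDaux

open PDaux

theorem pD : S_pD := by
  intro B
  obtain ⟨c, C, hc, hC, hwin⟩ := Pool.Agent.W424.NC.win_lower 3 (by norm_num)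
  obtain ⟨c', C', hc', hC', hwin'⟩ := Pool.Agent.W424.NC.win_lower (B + 1) (by omega)
  refine ⟨c * c' * (4/5), by positivity, ?_⟩
  intro q x y a ρ K N m S hq0 hq ha hy1 hy2 hρ hρB hN hρN heps hS
  obtain ⟨p, hp⟩ : ∃ p : ℝ, p = 1 - q := ⟨_, rfl⟩
  rw [← hp] at heps ⊢
  have hp0 : 0 ≤ p := by linarith
  have hp1 : p ≤ 1 := by linarith
  have hph : 1/2 ≤ p := by linarith
  have ok := okq hp0 hp1
  have hz : ((1:ℝ)/2 - 1/2) ^ (4/3 : ℝ) = 0 := by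
    rw [sub_self]; exact Real.zero_rpow (by norm_num)
  have haZ : (1:ℤ) ≤ a := by exact_mod_cast ha
  have hρZ : 100 * (a:ℤ) ≤ ρ := by exact_mod_cast hρ
  have hρBZ : (ρ:ℤ) ≤ B * a := by exact_mod_cast hρB
  -- the scales
  have hsc : ∀ k ≤ K, (ρ:ℤ) ≤ 4 ^ k * ρ ∧ (4:ℤ) ^ k * ρ ≤ 4 ^ K * ρ := by
    intro k hk
    constructor
    · have : (1:ℤ) ≤ 4 ^ k := one_le_pow₀ (by norm_num)
      nlinarith
    · have : (4:ℤ) ^ k ≤ 4 ^ K := pow_le_pow_right₀ (by norm_num) hk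
      exact mul_le_mul_of_nonneg_right this (by positivity)
  have hR := (hsc K le_rfl).1
  -- all rectangles are in `S`
  have sub : ∀ l r b t : ℤ, x - 8 * (4 ^ K * ρ) ≤ l → r ≤ x + 8 * (4 ^ K * ρ) → 0 ≤ b →
      t ≤ 8 * (4 ^ K * ρ) → RE l r b t ⊆ S := fun l r b t h1 h2 h3 h4 =>
    (RE_subset h1 h2 h3 h4).trans hS
  -- first crossing
  have P1 : c ≤ Pr (fun _ => p) S (LRc (x - 12 * a) (x + 12 * a) (y + 4 * a) (y + 12 * a)) := by
    rw [pr_LRc p (LRE_subset_RE.trans (sub _ _ _ _ (by omega) (by omega) (by omega) (by omega)))]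
    have h1 := hwin (1/2) (by norm_num) le_rfl (24 * a) (8 * a) (by omega) (by omega) (by omega)
      (by omega)
    rw [hz, mul_zero, mul_zero, neg_zero, Real.exp_zero, mul_one] at h1
    have h2 := hh_mono_param (p := 1/2) (q := p) (by norm_num) hph hp1 ((24 * a : ℕ) : ℤ)
      ((8 * a : ℕ) : ℤ)
    have e1 : x + 12 * (a:ℤ) - (x - 12 * a) = ((24 * a : ℕ) : ℤ) := by push_cast; ring
    have e2 : y + 12 * (a:ℤ) - (y + 4 * a) = ((8 * a : ℕ) : ℤ) := by push_cast; ring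
    rw [e1, e2]
    exact h1.trans h2
  -- second crossing
  have P2 : c' ≤ Pr (fun _ => p) S (TBc (x - 12 * a) (x + 12 * a) (y + 4 * a) (2 * ρ)) := by
    rw [pr_TBc p (TBE_subset_RE.trans (sub _ _ _ _ (by omega) (by omega) (by omega) (by omega)))]
    obtain ⟨w, hw⟩ : ∃ w : ℕ, (w:ℤ) = 2 * ρ - (y + 4 * a) :=
      ⟨(2 * (ρ:ℤ) - (y + 4 * a)).toNat, Int.toNat_of_nonneg (by omega)⟩
    have hw1 : 136 * a ≤ w := by omega
    have hw2 : (w:ℤ) ≤ 2 * (B * a) := by omega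
    have hw3 : w ≤ 2 * (B * a) := by exact_mod_cast hw2
    have h1 := hwin' (1/2) (by norm_num) le_rfl w (24 * a) (by omega) (by omega)
      (by nlinarith) (by nlinarith)
    rw [hz, mul_zero, mul_zero, neg_zero, Real.exp_zero, mul_one] at h1
    have h2 := hh_mono_param (p := 1/2) (q := p) (by norm_num) hph hp1 ((w : ℕ) : ℤ)
      ((24 * a : ℕ) : ℤ)
    have e1 : x + 12 * (a:ℤ) - (x - 12 * a) = ((24 * a : ℕ) : ℤ) := by push_cast; ring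
    rw [e1, ← hw]
    exact h1.trans h2
  -- the bound for the scales
  have hE : ∀ k ≤ K, eps p (4 ^ k * ρ) ≤ 1/100 * (1/64) ^ k := by
    intro k _
    rw [hρN]
    exact eps_le hp0 hp1 hN heps m k
  have h2s : ∀ k, 2 ≤ 4 ^ k * ρ := by
    intro k
    have h1 : 1 ≤ 4 ^ k := Nat.one_le_pow _ _ (by norm_num)
    have h2 : 2 ≤ ρ := by omega
    nlinarith
  have hlong : ∀ k ≤ K, ∀ (j : ℕ) (w h : ℤ), 0 < w → w ≤ (j + 2) * (4 ^ k * ρ) →
      4 ^ k * ρ - 1 ≤ h → 1 - (2 * (j:ℝ) + 1) * (1/100 * (1/64) ^ k) ≤ hh p w h := by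
    intro k hk j w h hw0 hw hh'
    have h1 := Pool.Agent.W424.NC.longj hp0 hp1 (h2s k) j
    have h2 := hh_mono hp0 hp1 (w := ((j:ℤ) + 2) * ((4 ^ k * ρ : ℕ) : ℤ)) (w' := w)
      (h := ((4 ^ k * ρ : ℕ) : ℤ) - 1) (h' := h) hw0 (by push_cast; exact hw)
      (by push_cast; exact hh')
    have h3 := mul_le_mul_of_nonneg_left (hE k hk) (show (0:ℝ) ≤ 2 * (j:ℝ) + 1 by positivity)
    linarith
  have PL : ∀ k < K + 1, 1 - 7 * (1/100 * (1/64) ^ k) ≤ Pr (fun _ => p) S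
      (LRc (x - 4 ^ k * ρ) (x + 4 * (4 ^ k * ρ)) (4 ^ k * ρ) (2 * (4 ^ k * ρ))) := by
    intro k hk
    obtain ⟨s1, s2⟩ := hsc k (by omega)
    rw [pr_LRc p (LRE_subset_RE.trans (sub _ _ _ _ (by omega) (by omega) (by omega) (by omega)))]
    have h1 := hlong k (by omega) 3 (x + 4 * (4 ^ k * ρ) - (x - 4 ^ k * ρ))
      (2 * (4 ^ k * ρ) - 4 ^ k * ρ) (by omega) (by push_cast; omega) (by omega)
    have e1 : (2 * ((3:ℕ):ℝ) + 1) = 7 := by norm_num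
    rw [e1] at h1
    exact h1
  have PT : ∀ k < K + 1, 1 - 11 * (1/100 * (1/64) ^ k) ≤ Pr (fun _ => p) S
      (TBc x (x + 4 * (4 ^ k * ρ)) (4 ^ k * ρ) (8 * (4 ^ k * ρ))) := by
    intro k hk
    obtain ⟨s1, s2⟩ := hsc k (by omega)
    rw [pr_TBc p (TBE_subset_RE.trans (sub _ _ _ _ (by omega) (by omega) (by omega) (by omega)))]
    have h1 := hlong k (by omega) 5 (8 * (4 ^ k * ρ) - 4 ^ k * ρ)
      (x + 4 * (4 ^ k * ρ) - x) (by omega) (by push_cast; omega) (by omega)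
    have e1 : (2 * ((5:ℕ):ℝ) + 1) = 11 := by norm_num
    rw [e1] at h1
    exact h1
  have P5 : 1 - 1/100 ≤ Pr (fun _ => p) S
      (TBc (x + 4 ^ K * ρ) (x + 4 * (4 ^ K * ρ)) 0 (2 * (4 ^ K * ρ))) := by
    rw [pr_TBc p (TBE_subset_RE.trans (sub _ _ _ _ (by omega) (by omega) (by omega) (by omega)))]
    have h1 := hlong K le_rfl 0 (2 * (4 ^ K * ρ) - 0)
      (x + 4 * (4 ^ K * ρ) - (x + 4 ^ K * ρ)) (by omega) (by push_cast; omega) (by omega)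
    have e1 : (2 * ((0:ℕ):ℝ) + 1) = 1 := by norm_num
    rw [e1] at h1
    have h2 : ((1:ℝ)/64) ^ K ≤ 1 := pow_le_one₀ (by norm_num) (by norm_num)
    linarith
  have PC := chain ok S
    (fun k => LRc (x - 4 ^ k * ρ) (x + 4 * (4 ^ k * ρ)) (4 ^ k * ρ) (2 * (4 ^ k * ρ)))
    (fun k => TBc x (x + 4 * (4 ^ k * ρ)) (4 ^ k * ρ) (8 * (4 ^ k * ρ))) (K + 1) PL PT
  have hpos : (0:ℝ) ≤ (1/64) ^ (K + 1) := by positivity
  -- the events
  obtain ⟨A1, hA1⟩ : ∃ A1 : Finset Edg → Prop, A1 =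
    LRc (x - 12 * a) (x + 12 * a) (y + 4 * a) (y + 12 * a) := ⟨_, rfl⟩
  obtain ⟨A2, hA2⟩ : ∃ A2 : Finset Edg → Prop, A2 =
    TBc (x - 12 * a) (x + 12 * a) (y + 4 * a) (2 * ρ) := ⟨_, rfl⟩
  obtain ⟨A3, hA3⟩ : ∃ A3 : Finset Edg → Prop, A3 = fun F => ∀ k < K + 1,
    LRc (x - 4 ^ k * ρ) (x + 4 * (4 ^ k * ρ)) (4 ^ k * ρ) (2 * (4 ^ k * ρ)) F ∧
    TBc x (x + 4 * (4 ^ k * ρ)) (4 ^ k * ρ) (8 * (4 ^ k * ρ)) F := ⟨_, rfl⟩
  obtain ⟨A4, hA4⟩ : ∃ A4 : Finset Edg → Prop, A4 =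
    TBc (x + 4 ^ K * ρ) (x + 4 * (4 ^ K * ρ)) 0 (2 * (4 ^ K * ρ)) := ⟨_, rfl⟩
  rw [← hA1] at P1
  rw [← hA2] at P2
  rw [← hA4] at P5
  have PC' : 1 - 128/700 * (1 - (1/64) ^ (K + 1)) ≤ Pr (fun _ => p) S A3 := by
    rw [hA3]; exact PC
  have I1 : IncrE S A1 := by rw [hA1]; exact incr_L _ _ _ _ _
  have I2 : IncrE S A2 := by rw [hA2]; exact incr_T _ _ _ _ _
  have I4 : IncrE S A4 := by rw [hA4]; exact incr_T _ _ _ _ _
  have I3 : IncrE S A3 := by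
    rw [hA3]
    intro F G h1 h2 hF k hk
    exact ⟨(hF k hk).1.mono h1, (hF k hk).2.mono h1⟩
  have i1 := Pr_and_ge ok S A3 A4
  have P34 : 4/5 ≤ Pr (fun _ => p) S (fun F => A3 F ∧ A4 F) := by linarith
  have P12 : c * c' ≤ Pr (fun _ => p) S (fun F => A1 F ∧ A2 F) :=
    (mul_le_mul P1 P2 hc'.le (Pr_nonneg ok _ _)).trans (Pr_harris ok I1 I2)
  have P14 : c * c' * (4/5) ≤ Pr (fun _ => p) S
      (fun F => (A1 F ∧ A2 F) ∧ (A3 F ∧ A4 F)) :=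
    (mul_le_mul P12 P34 (by norm_num) (Pr_nonneg ok _ _)).trans
      (Pr_harris ok (incr_and I1 I2) (incr_and I3 I4))
  refine P14.trans (Pr_mono ok ?_)
  rintro F _ ⟨⟨g1, g2⟩, g3, g4⟩
  rw [hA1] at g1
  rw [hA2] at g2
  rw [hA3] at g3
  rw [hA4] at g4
  exact ⟨⟨g1, g2⟩, fun k hk => g3 k (by omega), g4⟩

end H953S
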