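import Pool.Agent.H953.Spd.Far
import Pool.Graph.R_seed8.W424.NC.Win

/-! PI (by helper734): lower bound for the primal connecting event. -/

set_option autoImplicit false

namespace H953S

open H974 Finset H12S H342P H984P H984H MeasureTheory

/-- the correlation length term -/
theorem pI_pow {β s : ℝ} {a : ℕ} (hs0 : 0 ≤ s) (ha : 1 ≤ a)
    (hs : s ≤ β * (a : ℝ) ^ (-(3/4) : ℝ)) (hβ : 0 < β) :
    (a : ℝ) * s ^ (4/3 : ℝ) ≤ β ^ (4/3 : ℝ) := by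
  have ha0 : (0 : ℝ) < a := by exact_mod_cast ha
  have h1 : s ^ (4/3 : ℝ) ≤ (β * (a : ℝ) ^ (-(3/4) : ℝ)) ^ (4/3 : ℝ) :=
    Real.rpow_le_rpow hs0 hs (by norm_num)
  have h2 : (β * (a : ℝ) ^ (-(3/4) : ℝ)) ^ (4/3 : ℝ) = β ^ (4/3 : ℝ) * (a : ℝ)⁻¹ := by
    rw [Real.mul_rpow hβ.le (by positivity), ← Real.rpow_mul ha0.le]
    have e : (-(3/4) : ℝ) * (4/3) = -1 := by norm_num
    rw [e, Real.rpow_neg_one]
  calc (a : ℝ) * s ^ (4/3 : ℝ) ≤ (a : ℝ) * (β ^ (4/3 : ℝ) * (a : ℝ)⁻¹) := by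
        rw [← h2]
        exact mul_le_mul_of_nonneg_left h1 ha0.le
    _ = β ^ (4/3 : ℝ) := by field_simp

theorem pI : S_pI := by
  intro β hβ
  obtain ⟨c, C, hc, hC, hw⟩ := Pool.Agent.W424.NC.win_lower 3 (by norm_num)
  obtain ⟨t, ht⟩ : ∃ t : ℝ, t = c * Real.exp (-(C * (56 * β ^ (4/3 : ℝ)))) := ⟨_, rfl⟩
  have ht0 : 0 < t := by rw [ht]; positivity
  refine ⟨t * t, by positivity, ?_⟩
  intro q x y a S hq hq1 ha hs hy hy' hS
  have h0 : 0 ≤ q := by linarith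
  have h1 : q ≤ 1 := by linarith
  have ok := okq h0 h1
  have hpow := pI_pow (s := 1/2 - q) (by linarith) ha hs hβ
  obtain ⟨H, hH⟩ : ∃ H : ℝ, H = (1/2 - q) ^ (4/3 : ℝ) := ⟨_, rfl⟩
  have hH0 : 0 ≤ H := by
    rw [hH]
    have : 0 ≤ 1/2 - q := by linarith
    positivity
  rw [← hH] at hpow
  obtain ⟨Y, rfl⟩ : ∃ Y : ℕ, y = (Y : ℤ) := ⟨y.toNat, by omega⟩
  have hYa : 30 * a ≤ Y := by omega
  have hYb : Y ≤ 60 * a := by omega
  -- the first crossing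
  have s1 : LRE (x - 12 * a) (x + 12 * a) ((Y : ℤ) - 12 * a) ((Y : ℤ) - 4 * a) ⊆ S :=
    LRE_subset_RE.trans ((RE_subset le_rfl le_rfl (by omega) (by omega)).trans hS)
  have s2 : TBE (x - 12 * a) (x + 12 * a) 0 ((Y : ℤ) - 4 * a) ⊆ S :=
    TBE_subset_RE.trans ((RE_subset le_rfl le_rfl le_rfl (by omega)).trans hS)
  have p1 : t ≤ Pr (fun _ => q) S (LRc (x - 12 * a) (x + 12 * a) ((Y : ℤ) - 12 * a)
      ((Y : ℤ) - 4 * a)) := by
    rw [pr_LRc q s1]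
    have e1 : (x + 12 * a) - (x - 12 * a) = ((24 * a : ℕ) : ℤ) := by push_cast; ring
    have e2 : ((Y : ℤ) - 4 * a) - ((Y : ℤ) - 12 * a) = ((8 * a : ℕ) : ℤ) := by push_cast; ring
    rw [e1, e2]
    refine le_trans ?_ (hw q hq hq1 (24 * a) (8 * a) (by omega) (by omega) (by omega) (by omega))
    rw [ht, ← hH]
    apply mul_le_mul_of_nonneg_left _ hc.le
    apply Real.exp_le_exp.mpr
    have h2 : ((24 * a : ℕ) : ℝ) * H ≤ 56 * β ^ (4/3 : ℝ) := by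
      push_cast
      have h3 : 0 ≤ (a : ℝ) * H := by positivity
      linarith
    have h3 := mul_le_mul_of_nonneg_left h2 hC.le
    linarith
  have p2 : t ≤ Pr (fun _ => q) S (TBc (x - 12 * a) (x + 12 * a) 0 ((Y : ℤ) - 4 * a)) := by
    rw [pr_TBc q s2]
    have e1 : (x + 12 * a) - (x - 12 * a) = ((24 * a : ℕ) : ℤ) := by push_cast; ring
    have e2 : ((Y : ℤ) - 4 * a) - 0 = ((Y - 4 * a : ℕ) : ℤ) := by omega
    rw [e1, e2]
    refine le_trans ?_ (hw q hq hq1 (Y - 4 * a) (24 * a) (by omega) (by omega) (by omega)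
      (by omega))
    rw [ht, ← hH]
    apply mul_le_mul_of_nonneg_left _ hc.le
    apply Real.exp_le_exp.mpr
    have h2 : ((Y - 4 * a : ℕ) : ℝ) * H ≤ 56 * β ^ (4/3 : ℝ) := by
      have h4 : ((Y - 4 * a : ℕ) : ℝ) ≤ 56 * a := by
        have : Y - 4 * a ≤ 56 * a := by omega
        exact_mod_cast this
      calc ((Y - 4 * a : ℕ) : ℝ) * H ≤ 56 * a * H := mul_le_mul_of_nonneg_right h4 hH0
        _ = 56 * (a * H) := by ring
        _ ≤ _ := mul_le_mul_of_nonneg_left hpow (by norm_num)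
    have h3 := mul_le_mul_of_nonneg_left h2 hC.le
    linarith
  have hh := Pr_harris ok (LRc_incr S (x - 12 * a) (x + 12 * a) ((Y : ℤ) - 12 * a)
      ((Y : ℤ) - 4 * a)) (TBc_incr S (x - 12 * a) (x + 12 * a) 0 ((Y : ℤ) - 4 * a))
  refine le_trans ?_ hh
  exact mul_le_mul p1 p2 ht0.le (ht0.le.trans p1)

end H953S
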