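import Pool.Agent.H953.Spd.Far
import Pool.Graph.R_seed8.H984R3.Per.Second

/-!
Translation and locality of the separated two-arm event (`S_ratr`).
-/

set_option autoImplicit false

namespace H953S

open H974 Finset H12S H342P H984P H984H MeasureTheory

namespace RaTrAux

theorem ra_trl' {v : Vtx} {s t : ℤ} {a : ℕ} {F : Finset Edg} (h : RA v a (↑F : Set Edg)) :
    RA (v.1 + s, v.2 + t) a (↑((trl s t).mp F) : Set Edg) := by
  obtain ⟨⟨w, hw, h1⟩, g, hg, h2⟩ := h
  have h3 := (trl s t).reach h1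
  have h4 := dreach_trl (s := s) (t := t) h2
  have e0 : (trl s t).ψ v = (v.1 + s, v.2 + t) := rfl
  rw [e0] at h3 h4
  refine ⟨⟨_, ?_, h3.mono ?_⟩, _, ?_, h4.mono ?_⟩
  · obtain ⟨x, y⟩ := w
    simp only [trl_ψ] at hw ⊢
    omega
  · rintro _ ⟨e, ⟨he1, he2⟩, rfl⟩
    refine ⟨?_, ?_⟩
    · rw [LSym.coe_mp]; exact Set.mem_image_of_mem _ he1
    · rw [Finset.mem_coe] at he2 ⊢
      obtain ⟨x, y, b⟩ := e
      unfold PR at he2 ⊢
      rw [trl_φ]
      cases b
      · rw [mem_RE_false] at he2 ⊢; simp only at he2 ⊢; omega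
      · rw [mem_RE_true] at he2 ⊢; simp only at he2 ⊢; omega
  · obtain ⟨x, y⟩ := g
    simp only [trl_ψ] at hg ⊢
    omega
  · rintro _ ⟨e, ⟨he1, he2⟩, rfl⟩
    refine ⟨?_, ?_⟩
    · obtain ⟨x, y, b⟩ := e
      simp only [dE, DR, Set.mem_ofPred_eq, trl_φ] at he1 ⊢
      cases b
      · rw [dl_f, mem_RE_true] at he1 ⊢; omega
      · rw [dl_t, mem_RE_false] at he1 ⊢; omega
    · rw [LSym.coe_mp]
      rintro ⟨e', he', h⟩
      exact he2 ((trl s t).φ.injective h ▸ he')

theorem mp_mp (s t : ℤ) (F : Finset Edg) : (trl (-s) (-t)).mp ((trl s t).mp F) = F := by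
  ext ⟨x, y, b⟩
  simp [LSym.mem_mp]

theorem ra_trl_iff {x y : ℤ} {a : ℕ} {F : Finset Edg} :
    RA (x, y) a (↑((trl x y).mp F) : Set Edg) ↔ RA (0, 0) a (↑F : Set Edg) := by
  constructor
  · intro h
    have := ra_trl' (s := -x) (t := -y) h
    rw [mp_mp] at this
    simpa using this
  · intro h
    have := ra_trl' (s := x) (t := y) h
    simpa using this

end RaTrAux

open RaTrAux

theorem ratr : S_ratr := by
  intro q x y a S ha hS
  have h0 : BA (0, 0) a ⊆ RE (-(13 * a : ℕ)) (14 * a : ℕ) (-(13 * a : ℕ)) (14 * a : ℕ) := by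
    unfold BA
    rintro ⟨x, y, b⟩ he
    cases b
    · rw [mem_RE_false] at he ⊢; simp only at he; omega
    · rw [mem_RE_true] at he ⊢; simp only at he; omega
  have h1 : BA (x, y) a ⊆ S := by
    refine subset_trans ?_ hS
    unfold BA
    rintro ⟨x', y', b⟩ he
    cases b
    · rw [mem_RE_false] at he ⊢; simp only at he; omega
    · rw [mem_RE_true] at he ⊢; simp only at he; omega
  rw [pr_ra_local h1, pr_ra_local h0]
  have h2 : BA (x, y) a = (trl x y).mp (BA (0, 0) a) := by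
    unfold BA
    rw [trl_RE]
    congr 1 <;> simp only <;> ring
  rw [h2, LSym.pr]
  exact Pr_congr fun F _ => ra_trl_iff

end H953S
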