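import Pool.Agent.H953.Spd.Defs
import Pool.Agent.H953.Spd.Fin
import Pool.Graph.R_seed8.W424.NC.ArmUp

/-!
The clusters of the points of the axis are small.
-/

set_option autoImplicit false

namespace H953S

open H974 Finset H342P H984P H984H MeasureTheory ProbabilityTheory Filter Topology

/-- The percolation is invariant under the shift. -/
theorem radP_sh (q : unitInterval) (n : ℤ) : (lw q).map (sh n) = lw q := by
  have hinj : Function.Injective (fun e : Edg => ((e.1 + n, e.2.1, e.2.2) : Edg)) := by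
    rintro ⟨a, b, c⟩ ⟨a', b', c'⟩ h
    simp only [Prod.mk.injEq] at h
    obtain ⟨h1, h2, h3⟩ := h
    have h4 : a = a' := by omega
    rw [h4, h2, h3]
  have h := Measure.map_infinitePi_infinitePi_of_inj
    (P := fun _ : Edg => bernoulliMeasure true false q) hinj
  unfold lw Q292.TVX.law
  exact h

theorem radP_meas (n : ℤ) : Measurable (sh n) := by
  rw [measurable_pi_iff]
  intro e
  exact measurable_pi_apply _

/-- The cluster of `(x, 0)` leaves the box of radius `n`. -/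
def radE (x : ℤ) (n : ℕ) : Set Conf :=
  {ω | ∃ v : Vtx, BC ω x v ∧ ((n : ℤ) < |v.1 - x| ∨ (n : ℤ) < |v.2|)}

theorem radP_zero (n : ℕ) : radE 0 n ⊆ {ω | Arm n (op (boxE n) ω)} := by
  rintro ω ⟨v, hv, hn⟩
  have hu : inR (-(n : ℤ)) n (-(n : ℤ)) n ((0, 0) : Vtx) := by
    unfold inR
    refine ⟨⟨?_, ?_⟩, ⟨?_, ?_⟩⟩ <;> simp
  have hv' : v.1 ≤ -(n : ℤ) ∨ (n : ℤ) ≤ v.1 ∨ v.2 ≤ -(n : ℤ) ∨ (n : ℤ) ≤ v.2 := by
    rw [sub_zero, lt_abs, lt_abs] at hn
    omega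
  obtain ⟨w, k1, k2, k3⟩ := first_exit hu hv hv'
  refine ⟨w, ⟨k1, k2⟩, k3.mono ?_⟩
  rintro e ⟨h1, h2⟩
  have h3 : e ∈ boxE n := h2
  exact ⟨mem_op.2 ⟨h3, h1.2.2⟩, h3⟩

theorem radP_le (q : unitInterval) (x : ℤ) (n : ℕ) :
    lw q (radE x n) ≤ ENNReal.ofReal (arm q n) := by
  have h1 : radE x n ⊆ (sh x) ⁻¹' {ω | Arm n (op (boxE n) ω)} := by
    rintro ω ⟨v, hv, hn⟩
    apply radP_zero n
    refine ⟨(v.1 - x, v.2), ?_, ?_⟩
    · rw [bc_sh]
      have h2 : shV x (v.1 - x, v.2) = v := by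
        unfold shV
        simp
      rw [h2, zero_add]
      exact hv
    · rw [sub_zero]
      exact hn
  have h2 : MeasurableSet {ω : Conf | Arm n (op (boxE n) ω)} := meas_ev (boxE n) (Arm n)
  calc lw q (radE x n) ≤ lw q ((sh x) ⁻¹' {ω | Arm n (op (boxE n) ω)}) := measure_mono h1
    _ = (lw q).map (sh x) {ω | Arm n (op (boxE n) ω)} := by
      rw [Measure.map_apply (radP_meas x) h2]
    _ = lw q {ω | Arm n (op (boxE n) ω)} := by rw [radP_sh]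
    _ = ENNReal.ofReal ((lw q).real {ω | Arm n (op (boxE n) ω)}) := by
      rw [ofReal_measureReal]
    _ = ENNReal.ofReal (arm q n) := by
      rw [lw_fin q (boxE n) (Arm n)]
      rfl

/-- Exponential decay of the radius. -/
theorem radP_decay (q : unitInterval) (hq : (q : ℝ) < 1 / 2) :
    ∃ a C : ℝ, 0 < a ∧ 0 < C ∧ ∀ n : ℕ, 1 ≤ n → arm q n ≤ C * Real.exp (-(a * n)) := by
  obtain ⟨c, C, hc, hC, h⟩ := Pool.Agent.W424.NC.arm_upper
  have hs : 0 < (1 / 2 - (q : ℝ)) ^ (4 / 3 : ℝ) := Real.rpow_pos_of_pos (by linarith) _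
  refine ⟨c * (1 / 2 - (q : ℝ)) ^ (4 / 3 : ℝ), C, mul_pos hc hs, hC, fun n hn => ?_⟩
  have h1 := h q q.2.1 hq.le n hn
  have hn1 : (1 : ℝ) ≤ n := by exact_mod_cast hn
  have h2 : (n : ℝ) ^ (-(5 / 48) : ℝ) ≤ 1 :=
    Real.rpow_le_one_of_one_le_of_nonpos hn1 (by norm_num)
  have h3 : 0 < Real.exp (-(c * (n * (1 / 2 - (q : ℝ)) ^ (4 / 3 : ℝ)))) := Real.exp_pos _
  calc arm q n ≤ C * (n : ℝ) ^ (-(5 / 48) : ℝ) *
        Real.exp (-(c * (n * (1 / 2 - (q : ℝ)) ^ (4 / 3 : ℝ)))) := h1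
    _ ≤ C * 1 * Real.exp (-(c * (n * (1 / 2 - (q : ℝ)) ^ (4 / 3 : ℝ)))) := by
      apply mul_le_mul_of_nonneg_right _ h3.le
      exact mul_le_mul_of_nonneg_left h2 hC.le
    _ = C * Real.exp (-(c * (1 / 2 - (q : ℝ)) ^ (4 / 3 : ℝ) * n)) := by
      rw [mul_one]
      congr 2
      ring

theorem radP_fin (q : unitInterval) (hq : (q : ℝ) < 1 / 2) (x : ℤ) :
    ∀ᵐ ω ∂(lw q), ∃ n : ℕ, ω ∉ radE x n := by
  obtain ⟨a, C, ha, hC, h⟩ := radP_decay q hq
  rw [ae_iff]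
  have h1 : {ω : Conf | ¬ ∃ n : ℕ, ω ∉ radE x n} = ⋂ n : ℕ, radE x n := by
    ext ω
    simp only [not_exists, not_not, Set.mem_iInter]
    rfl
  rw [h1]
  have h2 : ∀ n : ℕ, lw q (⋂ n : ℕ, radE x n) ≤
      ENNReal.ofReal (C * Real.exp (-(a * ((n + 1 : ℕ) : ℝ)))) := by
    intro n
    refine (measure_mono (Set.iInter_subset _ (n + 1))).trans ((radP_le q x (n + 1)).trans ?_)
    exact ENNReal.ofReal_le_ofReal (h (n + 1) (by omega))
  have h3 : Tendsto (fun n : ℕ => ENNReal.ofReal (C * Real.exp (-(a * ((n + 1 : ℕ) : ℝ))))) atTop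
      (𝓝 0) := by
    rw [← ENNReal.ofReal_zero]
    apply ENNReal.tendsto_ofReal
    rw [← mul_zero C]
    apply Tendsto.const_mul
    apply Real.tendsto_exp_neg_atTop_nhds_zero.comp
    apply Tendsto.const_mul_atTop ha
    exact tendsto_natCast_atTop_atTop.comp (tendsto_add_atTop_nat 1)
  exact le_antisymm (ge_of_tendsto' h3 h2) bot_le

theorem radP_sum (q : unitInterval) (hq : (q : ℝ) < 1 / 2) :
    ∀ᵐ ω ∂(lw q), {x : ℤ | x ≠ 0 ∧ ω ∈ radE x ⌊Real.sqrt |(x : ℝ)|⌋₊}.Finite := by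
  obtain ⟨a, C, ha, hC, h⟩ := radP_decay q hq
  let s : ℤ → Set Conf := fun x => {ω | x ≠ 0 ∧ ω ∈ radE x ⌊Real.sqrt |(x : ℝ)|⌋₊}
  have hsum : Summable (fun x : ℤ => (24 * (C * Real.exp a) / a ^ 4) * (1 / (x : ℝ) ^ 2)) :=
    (Real.summable_one_div_int_pow.2 (by norm_num)).mul_left _
  have hle : ∀ x : ℤ, lw q (s x) ≤
      ENNReal.ofReal ((24 * (C * Real.exp a) / a ^ 4) * (1 / (x : ℝ) ^ 2)) := by
    intro x
    by_cases hx : x = 0
    · have h1 : s x = ∅ := by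
        ext ω
        simp only [s, hx, ne_eq, not_true, false_and, Set.mem_empty_iff_false, iff_false]
        exact fun h => h
      rw [h1, measure_empty]
      exact bot_le
    · have hx1 : (1 : ℝ) ≤ |(x : ℝ)| := by
        have h1 : (1 : ℤ) ≤ |x| := Int.one_le_abs hx
        have h2 : ((1 : ℤ) : ℝ) ≤ ((|x| : ℤ) : ℝ) := by exact_mod_cast h1
        rw [Int.cast_abs, Int.cast_one] at h2
        exact h2
      obtain ⟨y, hy⟩ : ∃ y : ℝ, y = Real.sqrt |(x : ℝ)| := ⟨_, rfl⟩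
      have hy1 : 1 ≤ y := by
        rw [hy, Real.one_le_sqrt]
        exact hx1
      have hy2 : y ^ 2 = |(x : ℝ)| := by
        rw [hy]
        exact Real.sq_sqrt (abs_nonneg _)
      have hy4 : y ^ 4 = (x : ℝ) ^ 2 := by
        rw [← sq_abs (x : ℝ), ← hy2]
        ring
      have hfl : 1 ≤ ⌊y⌋₊ := (Nat.one_le_floor_iff y).2 hy1
      have hfl2 : y - 1 ≤ (⌊y⌋₊ : ℝ) := (Nat.sub_one_lt_floor y).le
      have h1 : s x ⊆ radE x ⌊y⌋₊ := by
        rintro ω ⟨-, hω⟩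
        rw [← hy] at hω
        exact hω
      refine (measure_mono h1).trans ((radP_le q x _).trans ?_)
      apply ENNReal.ofReal_le_ofReal
      refine (h _ hfl).trans ?_
      have h2 : Real.exp (-(a * (⌊y⌋₊ : ℝ))) ≤ Real.exp a * Real.exp (-(a * y)) := by
        rw [← Real.exp_add]
        apply Real.exp_le_exp.2
        nlinarith
      have h3 : (a * y) ^ 4 / 24 ≤ Real.exp (a * y) := by
        have h4 := Real.pow_div_factorial_le_exp (a * y) (by positivity) 4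
        have h5 : ((Nat.factorial 4 : ℕ) : ℝ) = 24 := by norm_num [Nat.factorial]
        rw [h5] at h4
        exact h4
      have h4 : Real.exp (-(a * y)) ≤ 24 / (a * y) ^ 4 := by
        rw [Real.exp_neg, inv_le_comm₀ (Real.exp_pos _) (by positivity), inv_div]
        exact h3
      calc C * Real.exp (-(a * (⌊y⌋₊ : ℝ))) ≤ C * (Real.exp a * (24 / (a * y) ^ 4)) := by
            apply mul_le_mul_of_nonneg_left _ hC.le
            exact h2.trans (mul_le_mul_of_nonneg_left h4 (Real.exp_pos _).le)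
        _ = (24 * (C * Real.exp a) / a ^ 4) * (1 / (x : ℝ) ^ 2) := by
            rw [mul_pow, hy4]
            field_simp
  have htop : ∑' x : ℤ, lw q (s x) ≠ ⊤ := by
    refine ne_top_of_le_ne_top ?_ (ENNReal.tsum_le_tsum hle)
    exact hsum.tsum_ofReal_ne_top
  exact ae_finite_setOfPred_mem htop

theorem rad : S_rad := by
  intro q hq
  have h1 : ∀ᵐ ω ∂(lw q), ∀ x : ℤ, ∃ n : ℕ, ω ∉ radE x n :=
    ae_all_iff.2 fun x => radP_fin q hq x
  filter_upwards [h1, radP_sum q hq] with ω hω hfin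
  choose N hN using hω
  have hfin2 : ({x : ℤ | x ≠ 0 ∧ ω ∈ radE x ⌊Real.sqrt |(x : ℝ)|⌋₊} ∪ {0}).Finite :=
    hfin.union (Set.finite_singleton 0)
  obtain ⟨F, hF⟩ := hfin2.exists_finset
  refine ⟨∑ x ∈ F, (N x : ℝ), ?_⟩
  have hA0 : 0 ≤ ∑ x ∈ F, (N x : ℝ) := Finset.sum_nonneg fun x _ => Nat.cast_nonneg _
  intro x v hv
  have hs0 : 0 ≤ Real.sqrt |(x : ℝ)| := Real.sqrt_nonneg _
  have key : ∀ n : ℕ, ω ∉ radE x n → |(v.1 : ℝ) - x| ≤ n ∧ |(v.2 : ℝ)| ≤ n := by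
    intro n hn
    have h2 : ¬ ((n : ℤ) < |v.1 - x| ∨ (n : ℤ) < |v.2|) := fun h => hn ⟨v, hv, h⟩
    rw [not_or, not_lt, not_lt] at h2
    constructor
    · have h3 : ((|v.1 - x| : ℤ) : ℝ) ≤ ((n : ℤ) : ℝ) := by exact_mod_cast h2.1
      rw [Int.cast_abs, Int.cast_sub, Int.cast_natCast] at h3
      exact h3
    · have h3 : ((|v.2| : ℤ) : ℝ) ≤ ((n : ℤ) : ℝ) := by exact_mod_cast h2.2
      rw [Int.cast_abs, Int.cast_natCast] at h3
      exact h3
  by_cases hx : x ∈ F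
  · have h2 := key (N x) (hN x)
    have h3 : (N x : ℝ) ≤ ∑ x ∈ F, (N x : ℝ) :=
      Finset.single_le_sum (f := fun x => (N x : ℝ)) (fun y _ => Nat.cast_nonneg _) hx
    exact ⟨by linarith [h2.1], by linarith [h2.2]⟩
  · have h4 : x ∉ {x : ℤ | x ≠ 0 ∧ ω ∈ radE x ⌊Real.sqrt |(x : ℝ)|⌋₊} ∪ {0} :=
      fun h => hx ((hF x).2 h)
    rw [Set.mem_union, not_or] at h4
    have hx0 : x ≠ 0 := h4.2
    have h5 : ω ∉ radE x ⌊Real.sqrt |(x : ℝ)|⌋₊ := fun h => h4.1 ⟨hx0, h⟩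
    have h2 := key _ h5
    have h6 : ((⌊Real.sqrt |(x : ℝ)|⌋₊ : ℕ) : ℝ) ≤ Real.sqrt |(x : ℝ)| := Nat.floor_le hs0
    exact ⟨by linarith [h2.1], by linarith [h2.2]⟩

end H953S
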