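import Pool.Agent.H953.Spd.Two
import Pool.Graph.R_seed8.Y985.ME.Top

/-!
The two-arm probability with defects: the recursion.
-/

set_option autoImplicit false

namespace H953S

open H974 Finset H12S H342P H984P H984H Q291.EP Q291.NL Q291.AD

/-- the two-arm event depends only on the edges of the block -/
theorem recT_loc {u p : Vtx} {k : ℕ} (hk : 1 ≤ k) (G : Finset Edg) :
    Two u p k (↑G : Set Edg) ↔ Two u p k (↑(G ∩ blk u k) : Set Edg) :=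
  two_inter (m := (k:ℤ)) (by exact_mod_cast hk) G (Finset.Subset.refl _)

theorem recT_sub (u : Vtx) (k : ℕ) : blk u k ⊆ blk u (k + 2) := by
  unfold blk
  exact RE_subset (by push_cast; omega) (by push_cast; omega) (by push_cast; omega)
    (by push_cast; omega)

theorem recT_dl (u : Vtx) (k : ℕ) (e : Edg)
    (he : dl e ∈ RE (u.1 - k - 1) (u.1 + k) (u.2 - k - 1) (u.2 + k)) : e ∈ blk u (k + 2) := by
  obtain ⟨x, y, t⟩ := e
  unfold blk
  cases t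
  · rw [dl_f, mem_RE_true] at he
    rw [mem_RE_false]
    push_cast
    omega
  · rw [dl_t, mem_RE_false] at he
    rw [mem_RE_true]
    push_cast
    omega

/-- the step: the critical probability, plus the probability that the defects matter -/
theorem recT_step (h2 : S_two) {τ : ℝ} (h0 : 0 ≤ τ) (h1 : τ ≤ 1) {u p : Vtx} (hup : Inc u p)
    {k : ℕ} (hk : 1 ≤ k) :
    P2 τ (blk u k) (AA (fun G => Two u p k (↑G : Set Edg))) ≤
      Pr (fun _ => (1/2:ℝ)) (RE (u.1 - k) (u.1 + k) (u.2 - k) (u.2 + k))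
        (fun F => Two u p k (↑F : Set Edg)) +
      P2 τ (blk u (k + 2)) (ChT (RE (u.1 - k) (u.1 + k) (u.2 - k) (u.2 + k))
        (fun w => w.1 ≤ u.1 - k ∨ u.1 + k ≤ w.1 ∨ w.2 ≤ u.2 - k ∨ u.2 + k ≤ w.2)
        (RE (u.1 - k - 1) (u.1 + k) (u.2 - k - 1) (u.2 + k))
        (fun w => w.1 ≤ u.1 - k - 1 ∨ u.1 + k ≤ w.1 ∨ w.2 ≤ u.2 - k - 1 ∨ u.2 + k ≤ w.2) u p) := by
  rw [← P2_local (recT_sub u k) (AA_loc (fun G => recT_loc hk G) (blk u (k + 2)))]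
  have e1 : Pr (fun _ => (1/2:ℝ)) (RE (u.1 - k) (u.1 + k) (u.2 - k) (u.2 + k))
      (fun F => Two u p k (↑F : Set Edg)) =
      P2 τ (blk u (k + 2)) (fun F _ => Two u p k (↑F : Set Edg)) := by
    rw [P2_open]
    exact (pr_two (m := (k:ℤ)) (by exact_mod_cast hk) (recT_sub u k)).symm
  rw [e1]
  refine (P2_mono h0 h1 (fun F D _ _ h => ?_)).trans (P2_or h0 h1 _ _ _)
  obtain ⟨G, hG, hA⟩ := h
  by_cases h3 : Two u p k (↑F : Set Edg)
  · exact Or.inl h3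
  · refine Or.inr ⟨G, hG, fun h4 => h3 ?_⟩
    exact (h2 u p k _ hup hk).2 (h4.1 ((h2 u p k _ hup hk).1 hA))

theorem recT_num {k : ℕ} (hk : 1 ≤ k) :
    (k:ℝ) ^ (-(1/4) : ℝ) ≤ 2 * ((k:ℝ) + 1) ^ (-(1/4) : ℝ) := by
  have hk0 : (0:ℝ) < k := by exact_mod_cast (by omega : 0 < k)
  have hk1 : (1:ℝ) ≤ k := by exact_mod_cast hk
  have h1 : ((k:ℝ) + 1) / 2 ≤ k := by linarith
  have h2 : (k:ℝ) ^ (-(1/4) : ℝ) ≤ (((k:ℝ) + 1) / 2) ^ (-(1/4) : ℝ) :=
    Real.rpow_le_rpow_of_nonpos (by positivity) h1 (by norm_num)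
  have h3 : (((k:ℝ) + 1) / 2) ^ (-(1/4) : ℝ) = ((k:ℝ) + 1) ^ (-(1/4) : ℝ) * (2:ℝ) ^ (1/4 : ℝ) := by
    rw [Real.div_rpow (by positivity) (by norm_num), Real.rpow_neg (by norm_num : (0:ℝ) ≤ 2),
      div_inv_eq_mul]
  have h4 : (2:ℝ) ^ (1/4 : ℝ) ≤ 2 := by
    calc (2:ℝ) ^ (1/4 : ℝ) ≤ (2:ℝ) ^ (1 : ℝ) :=
          Real.rpow_le_rpow_of_exponent_le (by norm_num) (by norm_num)
      _ = 2 := Real.rpow_one 2
  have h5 : 0 < ((k:ℝ) + 1) ^ (-(1/4) : ℝ) := by positivity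
  rw [h3] at h2
  nlinarith

theorem recT_small {k : ℕ} (hk : k < 256) : (1:ℝ) ≤ 4 * ((k:ℝ) + 1) ^ (-(1/4) : ℝ) := by
  have h1 : (256:ℝ) ^ (-(1/4) : ℝ) ≤ ((k:ℝ) + 1) ^ (-(1/4) : ℝ) := by
    apply Real.rpow_le_rpow_of_nonpos (by positivity) _ (by norm_num)
    have : k + 1 ≤ 256 := by omega
    exact_mod_cast this
  have h2 : (256:ℝ) ^ (-(1/4) : ℝ) = 1 / 4 := by
    rw [Real.rpow_neg (by norm_num), show (256:ℝ) = (4:ℝ) ^ (4:ℝ) by norm_num,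
      ← Real.rpow_mul (by norm_num)]
    norm_num
  linarith

/-- **The recursion.** -/
theorem recT (h1 : S_chg) (h2 : S_two) : S_rec := by
  obtain ⟨-, ⟨C, hC, hU⟩, ⟨C2, hC2, hA⟩⟩ := Pool.Agent.Y985.ME.inputs
  obtain ⟨_, _, C3, ε, -, -, hC3, hε, -, -, hS⟩ := Q291.NL.inp
  obtain ⟨K4, c4, hK4, hc4, hfour⟩ := Q291.AD.fourD
  obtain ⟨M, hM, hchg⟩ := h1 K4 C2 C3 ε 4 hK4 hC2 hC3 hε hA hS
  obtain ⟨K, hK⟩ : ∃ K : ℝ, K = 4 * C + 4 := ⟨_, rfl⟩
  have hK1 : 1 ≤ K := by rw [hK]; linarith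
  have hM0 : 0 < M := by linarith
  refine ⟨K, min (min ε c4) (1 / (4 * M)), hK1, lt_min (lt_min hε hc4) (by positivity), ?_⟩
  intro τ hτ0 hτ1 n hn hη k
  have hn0 : (0:ℝ) < n := by exact_mod_cast hn
  have hp : 0 ≤ (n:ℝ) ^ (-(3/4) : ℝ) := by positivity
  have hη4 : τ ≤ c4 * (n:ℝ) ^ (-(3/4) : ℝ) :=
    hη.trans (mul_le_mul_of_nonneg_right ((min_le_left _ _).trans (min_le_right _ _)) hp)
  induction k using Nat.strong_induction_on with
  | _ k ih =>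
    intro hkn u p hup
    by_cases hk : 256 ≤ k
    · have hk1 : 1 ≤ k := by omega
      have hk0 : (0:ℝ) < k := by exact_mod_cast (by omega : 0 < k)
      have hnk : (n:ℝ) ^ (-(3/4) : ℝ) ≤ (k:ℝ) ^ (-(3/4) : ℝ) :=
        Real.rpow_le_rpow_of_nonpos hk0 (by exact_mod_cast hkn) (by norm_num)
      have hη1 : τ ≤ ε * (k:ℝ) ^ (-(3/4) : ℝ) :=
        hη.trans (mul_le_mul ((min_le_left _ _).trans (min_le_left _ _)) hnk (by positivity) hε.le)
      have hη2 : τ ≤ 1 / (4 * M) * (k:ℝ) ^ (-(3/4) : ℝ) :=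
        hη.trans (mul_le_mul (min_le_right _ _) hnk (by positivity) (by positivity))
      have hHy : Hy K4 ε K τ k := ⟨hτ0, hτ1, hK1,
        fun j hj => hfour τ hτ0 hτ1 n hn hη4 j (by omega),
        fun j hj => ih j hj (by omega), hη1⟩
      have hr1 : Rg 4 k u (u.1 - k) (u.1 + k) (u.2 - k) (u.2 + k)
          (fun w => w.1 ≤ u.1 - k ∨ u.1 + k ≤ w.1 ∨ w.2 ≤ u.2 - k ∨ u.2 + k ≤ w.2) :=
        ⟨le_refl _, le_refl _, le_refl _, le_refl _, by push_cast; linarith, by push_cast; linarith,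
          fun w hw => hw⟩
      have hr2 : Rg 4 k p (u.1 - k - 1) (u.1 + k) (u.2 - k - 1) (u.2 + k)
          (fun w => w.1 ≤ u.1 - k - 1 ∨ u.1 + k ≤ w.1 ∨ w.2 ≤ u.2 - k - 1 ∨ u.2 + k ≤ w.2) := by
        obtain ⟨ha, hb⟩ := hup
        refine ⟨?_, ?_, ?_, ?_, ?_, ?_, fun w hw => hw⟩
        · rcases ha with h | h <;> rw [h] <;> omega
        · rcases ha with h | h <;> rw [h] <;> omega
        · rcases hb with h | h <;> rw [h] <;> omega
        · rcases hb with h | h <;> rw [h] <;> omega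
        · push_cast; omega
        · push_cast; omega
      have hch := hchg K τ k u p (u.1 - k) (u.1 + k) (u.2 - k) (u.2 + k) (u.1 - k - 1) (u.1 + k)
        (u.2 - k - 1) (u.2 + k) _ _ (blk u (k + 2)) hHy hup hr1 hr2 (recT_sub u k) (recT_dl u k) hk
      have hst := recT_step h2 hτ0 hτ1 hup hk1
      have hcr := hU k u p (by exact_mod_cast (by omega : 0 < k)) hup
      have e1 : (k:ℝ) ^ (-(3/4) : ℝ) * (k:ℝ) ^ (1/2 : ℝ) = (k:ℝ) ^ (-(1/4) : ℝ) := by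
        rw [← Real.rpow_add hk0]; norm_num
      have h3 : τ * (M * K * (k:ℝ) ^ (1/2 : ℝ)) ≤ K / 4 * (k:ℝ) ^ (-(1/4) : ℝ) := by
        calc τ * (M * K * (k:ℝ) ^ (1/2 : ℝ))
            ≤ (1 / (4 * M) * (k:ℝ) ^ (-(3/4) : ℝ)) * (M * K * (k:ℝ) ^ (1/2 : ℝ)) :=
              mul_le_mul_of_nonneg_right hη2 (by positivity)
          _ = K / 4 * ((k:ℝ) ^ (-(3/4) : ℝ) * (k:ℝ) ^ (1/2 : ℝ)) := by
              field_simp
          _ = _ := by rw [e1]
      have h4 := recT_num hk1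
      have h5 : 0 < (k:ℝ) ^ (-(1/4) : ℝ) := by positivity
      have hcr' : Pr (fun _ => (1/2:ℝ)) (RE (u.1 - k) (u.1 + k) (u.2 - k) (u.2 + k))
          (fun F => Two u p k (↑F : Set Edg)) ≤ C * (k:ℝ) ^ (-(1/4) : ℝ) := by
        exact_mod_cast hcr
      calc P2 τ (blk u k) (AA (fun G => Two u p k (↑G : Set Edg)))
          ≤ C * (k:ℝ) ^ (-(1/4) : ℝ) + K / 4 * (k:ℝ) ^ (-(1/4) : ℝ) :=
            hst.trans (add_le_add hcr' (hch.trans h3))
        _ ≤ K / 2 * (k:ℝ) ^ (-(1/4) : ℝ) := by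
            rw [← add_mul]
            apply mul_le_mul_of_nonneg_right _ h5.le
            rw [hK]; linarith
        _ ≤ K / 2 * (2 * ((k:ℝ) + 1) ^ (-(1/4) : ℝ)) :=
            mul_le_mul_of_nonneg_left h4 (by linarith)
        _ = K * ((k:ℝ) + 1) ^ (-(1/4) : ℝ) := by ring
    · refine (P2_le_one hτ0 hτ1 _ _).trans ?_
      refine (recT_small (by omega : k < 256)).trans ?_
      apply mul_le_mul_of_nonneg_right _ (by positivity)
      rw [hK]; linarith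

end H953S
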