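import Pool.Agent.H953.Spd.Defs

/-! B5: the two sides of an edge of the axis under no open path. -/

set_option autoImplicit false

namespace H953S

open H974 H984H

theorem Sides_ret_sub (ω : Conf) (b : ℤ) : Ret_O ω ⊆ opn ω \ {ax b} := by
  rintro e ⟨h1, h2, h3⟩
  refine ⟨Or.inr ⟨h1, h2, h3⟩, ?_⟩
  rintro rfl
  exact h2 ⟨rfl, rfl⟩

theorem Sides_axis (G : Set Edg) (x : ℤ) (n : ℕ) (h : ∀ j : ℕ, j < n → ax (x + j) ∈ G) :
    Reach G (x, 0) (x + n, 0) := by
  induction n with
  | zero => simpa using Reach.refl G (x, 0)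
  | succ n ih =>
    refine (ih fun j hj => h j (Nat.lt_succ_of_lt hj)).tail ⟨ax (x + n), h n (Nat.lt_succ_self n), ?_⟩
    left
    refine ⟨rfl, ?_⟩
    unfold ax
    rw [tgt_true]
    push_cast
    rw [add_assoc]

/-- the edges of the path off the axis, or on the axis -/
theorem Sides_opn_cases {ω : Conf} {e : Edg} (h : e ∈ opn ω) :
    e ∈ Ret_O ω ∨ ∃ a : ℤ, a < 0 ∧ e = ax a := by
  obtain ⟨x, y, d⟩ := e
  rcases h with ⟨h1, h2, h3⟩ | h
  · right
    refine ⟨x, h3, ?_⟩
    simp only at h1 h2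
    subst h1 h2
    rfl
  · exact Or.inl h

theorem sides : S_sides := by
  intro ω b hb hna v
  refine ⟨⟨fun h => ?_, ?_⟩, ⟨fun h => ?_, ?_⟩⟩
  · -- the left side
    induction h with
    | refl => exact ⟨b, le_refl b, Reach.refl _ _⟩
    | @tail v w _ hvw ih =>
      obtain ⟨x, hx, hv⟩ := ih
      obtain ⟨e, ⟨he, hne⟩, hs⟩ := hvw
      rcases Sides_opn_cases he with he' | ⟨a, ha, rfl⟩
      · exact ⟨x, hx, hv.tail ⟨e, he', hs⟩⟩
      · have hab : a ≠ b := fun h => hne (by rw [h]; rfl)
        rcases hs with ⟨h1, h2⟩ | ⟨h1, h2⟩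
        · subst h1 h2
          have h3 : a ≤ b := by
            by_contra h3
            exact hna x a hx (not_le.1 h3) hv
          exact ⟨a + 1, by omega, Reach.refl _ _⟩
        · subst h1 h2
          have h3 : a + 1 ≤ b := by
            by_contra h3
            exact hna x (a + 1) hx (not_le.1 h3) hv
          exact ⟨a, by omega, Reach.refl _ _⟩
  · rintro ⟨x, hx, hv⟩
    have h1 := Sides_axis (opn ω \ {ax b}) x (b - x).toNat (fun j hj => by
      have h2 : (j : ℤ) < b - x := by omega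
      refine ⟨Or.inl ⟨rfl, rfl, ?_⟩, fun h3 => ?_⟩
      · show x + (j : ℤ) < 0
        omega
      · have h4 : x + (j : ℤ) = b := congrArg (fun e : Edg => e.1) h3
        omega)
    have h2 : x + ((b - x).toNat : ℤ) = b := by omega
    rw [h2] at h1
    exact h1.symm.trans (Reach.mono (Sides_ret_sub ω b) hv)
  · -- the right side
    induction h with
    | refl => exact ⟨b + 1, by omega, by omega, Reach.refl _ _⟩
    | @tail v w _ hvw ih =>
      obtain ⟨x, hx, hx0, hv⟩ := ih
      obtain ⟨e, ⟨he, hne⟩, hs⟩ := hvw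
      rcases Sides_opn_cases he with he' | ⟨a, ha, rfl⟩
      · exact ⟨x, hx, hx0, hv.tail ⟨e, he', hs⟩⟩
      · have hab : a ≠ b := fun h => hne (by rw [h]; rfl)
        rcases hs with ⟨h1, h2⟩ | ⟨h1, h2⟩
        · subst h1 h2
          have h3 : b < a := by
            by_contra h3
            exact hna a x (not_lt.1 h3) hx (Reach.symm hv)
          exact ⟨a + 1, by omega, by omega, Reach.refl _ _⟩
        · subst h1 h2
          have h3 : b < a + 1 := by
            by_contra h3
            exact hna (a + 1) x (not_lt.1 h3) hx (Reach.symm hv)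
          exact ⟨a, by omega, by omega, Reach.refl _ _⟩
  · rintro ⟨x, hx, hx0, hv⟩
    have h1 := Sides_axis (opn ω \ {ax b}) (b + 1) (x - (b + 1)).toNat (fun j hj => by
      have h2 : (j : ℤ) < x - (b + 1) := by omega
      refine ⟨Or.inl ⟨rfl, rfl, ?_⟩, fun h3 => ?_⟩
      · show b + 1 + (j : ℤ) < 0
        omega
      · have h4 : b + 1 + (j : ℤ) = b := congrArg (fun e : Edg => e.1) h3
        omega)
    have h2 : b + 1 + ((x - (b + 1)).toNat : ℤ) = x := by omega
    rw [h2] at h1
    exact h1.trans (Reach.mono (Sides_ret_sub ω b) hv)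

end H953S
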