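import Pool.Agent.H953.Spd.Defs

/-!
# Visits far to the left do not depend on the starting point
-/

set_option autoImplicit false

namespace H953S

open H974 Finset H342P H984P H984H MeasureTheory ProbabilityTheory Filter Topology

/-- the clusters of the points of the axis are finite -/
theorem rad_finite {ω : Conf} {A : ℝ} (h : Rad ω A) (x : ℤ) : {v : Vtx | BC ω x v}.Finite := by
  obtain ⟨B, hB⟩ := exists_nat_ge (A + Real.sqrt |(x : ℝ)|)
  refine ((Set.finite_Icc (x - B) (x + B)).prod (Set.finite_Icc (-(B : ℤ)) B)).subset ?_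
  rintro ⟨v1, v2⟩ hv
  obtain ⟨e1, e2⟩ := h x (v1, v2) hv
  have e1' := abs_le.1 (e1.trans hB)
  have e2' := abs_le.1 (e2.trans hB)
  simp only at e1' e2'
  refine ⟨⟨?_, ?_⟩, ⟨?_, ?_⟩⟩
  · have : ((x - B : ℤ) : ℝ) ≤ (v1 : ℝ) := by push_cast; linarith [e1'.1]
    exact_mod_cast this
  · have : (v1 : ℝ) ≤ ((x + B : ℤ) : ℝ) := by push_cast; linarith [e1'.2]
    exact_mod_cast this
  · have : ((-(B : ℤ) : ℤ) : ℝ) ≤ (v2 : ℝ) := by push_cast; linarith [e2'.1]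
    exact_mod_cast this
  · have : (v2 : ℝ) ≤ ((B : ℤ) : ℝ) := by push_cast; linarith [e2'.2]
    exact_mod_cast this

theorem sqrt_bd {b x : ℤ} (hb : b < 0) (hx : b < x) :
    (b : ℝ) - Real.sqrt |(b : ℝ)| - 1 ≤ (x : ℝ) - Real.sqrt |(x : ℝ)| := by
  have hb' : (b : ℝ) < 0 := by exact_mod_cast hb
  have hx' : (b : ℝ) < x := by exact_mod_cast hx
  have hs := Real.sqrt_nonneg |(b : ℝ)|
  rcases le_or_gt 0 x with h0 | h0
  · have h0' : (0 : ℝ) ≤ x := by exact_mod_cast h0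
    have h1 : Real.sqrt |(x : ℝ)| ≤ (x : ℝ) + 1 := by
      rw [abs_of_nonneg h0', Real.sqrt_le_left (by linarith)]
      nlinarith
    linarith
  · have h0' : (x : ℝ) < 0 := by exact_mod_cast h0
    have h1 : Real.sqrt |(x : ℝ)| ≤ Real.sqrt |(b : ℝ)| := by
      apply Real.sqrt_le_sqrt
      rw [abs_of_neg h0', abs_of_neg hb']
      linarith
    linarith

theorem rad_left {ω : Conf} {A : ℝ} (h : Rad ω A) {b : ℤ} (hb : b < 0) :
    ∃ J : ℕ, ∀ x : ℤ, b < x → ∀ v : Vtx, BC ω x v → -(J : ℤ) < v.1 := by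
  obtain ⟨J, hJ⟩ := exists_nat_gt (A + Real.sqrt |(b : ℝ)| + 1 - b)
  refine ⟨J, fun x hx v hv => ?_⟩
  have e1 := (abs_le.1 (h x v hv).1).1
  have e2 := sqrt_bd hb hx
  have e3 : (((-(J : ℤ)) : ℤ) : ℝ) < (v.1 : ℝ) := by
    push_cast
    linarith
  exact_mod_cast e3

theorem pathN_zero (ω : Conf) (k : ℕ) : pathN 0 ω k = path ω k := by
  unfold pathN
  rw [sh_zero]
  simp [shS]

theorem visN_zero (ω : Conf) (σ : St) : VisN 0 ω σ ↔ Vis ω σ := by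
  unfold VisN Vis
  simp only [pathN_zero]

theorem visN_imp (h1 : S_sumN) (h2 : S_merge) {ω : Conf} {A : ℝ} (hR : Rad ω A) {b : ℤ}
    (hNA : NA ω b) {J : ℕ} (hJ : ∀ x : ℤ, b < x → ∀ v : Vtx, BC ω x v → -(J : ℤ) < v.1)
    {σ : St} (hσ : σ.1.1 ≤ -(J : ℤ)) {n m : ℤ} (hn : b < n) (hm : b < m) (h : VisN n ω σ) :
    VisN m ω σ := by
  obtain ⟨T, hT1, hT2, hT3⟩ := h1 ω b n hn hNA fun x _ _ => rad_finite hR x
  obtain ⟨T', hT1', hT2', hT3'⟩ := h1 ω b m hm hNA fun x _ _ => rad_finite hR x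
  obtain ⟨k, hk⟩ := h
  have hkT : T ≤ k := by
    by_contra hlt
    obtain ⟨x, hx1, hx2, hx3⟩ := hT2 k (not_le.1 hlt)
    have := hJ x hx1 _ hx3
    rw [hk] at this
    omega
  obtain ⟨i, rfl⟩ := Nat.exists_eq_add_of_le hkT
  refine ⟨T' + i, ?_⟩
  rw [← h2 ω b n m hn hm hNA (fun x _ _ => rad_finite hR x) T T' hT1 hT1' i]
  exact hk

theorem stab (h1 : S_sumN) (h2 : S_merge) : S_stab := by
  rintro ω A hR ⟨b, hb, hNA⟩
  obtain ⟨J, hJ⟩ := rad_left hR hb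
  refine ⟨J, fun σ hσ n => ?_⟩
  rw [← visN_zero]
  exact ⟨visN_imp h1 h2 hR hNA hJ hσ (by omega) hb,
    visN_imp h1 h2 hR hNA hJ hσ hb (by omega)⟩

end H953S
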