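import Pool.Agent.H953.Spd.Defs

/-!
The visits of a state stabilise.
-/

set_option autoImplicit false

namespace H953S

open H974 Finset H342P H984P H984H MeasureTheory ProbabilityTheory Filter Topology

namespace Stab2

/-- The clusters of the points of the axis are finite. -/
theorem fin_of_rad {ω : Conf} {A : ℝ} (h : Rad ω A) (x : ℤ) : {v : Vtx | BC ω x v}.Finite := by
  have h1 : {v : Vtx | BC ω x v} ⊆
      (Set.Icc (x - ⌈A + Real.sqrt |(x : ℝ)|⌉) (x + ⌈A + Real.sqrt |(x : ℝ)|⌉)) ×ˢ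
        (Set.Icc (-⌈A + Real.sqrt |(x : ℝ)|⌉) ⌈A + Real.sqrt |(x : ℝ)|⌉) := by
    intro v hv
    obtain ⟨h2, h3⟩ := h x v hv
    have h4 : A + Real.sqrt |(x : ℝ)| ≤ ⌈A + Real.sqrt |(x : ℝ)|⌉ := Int.le_ceil _
    have h5 := abs_le.1 (h2.trans h4)
    have h6 := abs_le.1 (h3.trans h4)
    refine ⟨⟨?_, ?_⟩, ⟨?_, ?_⟩⟩
    · have h7 : ((x - ⌈A + Real.sqrt |(x : ℝ)|⌉ : ℤ) : ℝ) ≤ ((v.1 : ℤ) : ℝ) := by
        push_cast
        linarith [h5.1]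
      exact_mod_cast h7
    · have h7 : ((v.1 : ℤ) : ℝ) ≤ ((x + ⌈A + Real.sqrt |(x : ℝ)|⌉ : ℤ) : ℝ) := by
        push_cast
        linarith [h5.2]
      exact_mod_cast h7
    · have h7 : ((-⌈A + Real.sqrt |(x : ℝ)|⌉ : ℤ) : ℝ) ≤ ((v.2 : ℤ) : ℝ) := by
        push_cast
        linarith [h6.1]
      exact_mod_cast h7
    · have h7 : ((v.2 : ℤ) : ℝ) ≤ ((⌈A + Real.sqrt |(x : ℝ)|⌉ : ℤ) : ℝ) := h6.2
      exact_mod_cast h7
  exact ((Set.finite_Icc _ _).prod (Set.finite_Icc _ _)).subset h1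

/-- The clusters of the points far to the right do not reach a given column. -/
theorem far {ω : Conf} {A : ℝ} (h : Rad ω A) (s : ℤ) :
    ∃ R : ℝ, ∀ x : ℤ, R ≤ (x : ℝ) → ∀ v : Vtx, BC ω x v → s < v.1 := by
  refine ⟨max 4 (2 * (|A| + |(s : ℝ)|) + 1), fun x hx v hv => ?_⟩
  have h4 : (4 : ℝ) ≤ x := (le_max_left _ _).trans hx
  have h5 : 2 * (|A| + |(s : ℝ)|) + 1 ≤ (x : ℝ) := (le_max_right _ _).trans hx
  have hx0 : (0 : ℝ) ≤ x := by linarith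
  have h6 := (abs_le.1 (h x v hv).1).1
  rw [abs_of_nonneg hx0] at h6
  have h7 : Real.sqrt (x : ℝ) ≤ (x : ℝ) / 2 := by
    rw [Real.sqrt_le_left (by linarith)]
    nlinarith
  have h8 := le_abs_self A
  have h9 := le_abs_self (s : ℝ)
  have h10 : (s : ℝ) < (v.1 : ℝ) := by linarith
  exact_mod_cast h10

theorem one_way (h1 : S_sumN) (h2 : S_merge) {ω : Conf} {A : ℝ} (hR : Rad ω A) (b : ℤ)
    (hb : NA ω b) (σ : St) (hs : ∀ x : ℤ, b < x → ∀ v : Vtx, BC ω x v → σ.1.1 < v.1)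
    (n m : ℤ) (hn : b < n) (hm : b < m) (hv : VisN n ω σ) : VisN m ω σ := by
  obtain ⟨T, hT, hT1, _⟩ := h1 ω b n hn hb (fun x _ _ => fin_of_rad hR x)
  obtain ⟨T', hT', _, _⟩ := h1 ω b m hm hb (fun x _ _ => fin_of_rad hR x)
  obtain ⟨k, hk⟩ := hv
  rcases Nat.lt_or_ge k T with hlt | hge
  · obtain ⟨x, hx, _, hbc⟩ := hT1 k hlt
    rw [hk] at hbc
    exact absurd (hs x hx _ hbc) (lt_irrefl _)
  · obtain ⟨i, rfl⟩ := Nat.exists_eq_add_of_le hge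
    have h3 := h2 ω b n m hn hm hb (fun x _ _ => fin_of_rad hR x) T T' hT hT' i
    exact ⟨T' + i, by rw [← h3, hk]⟩

end Stab2

theorem stab2 (h1 : S_sumN) (h2 : S_merge) : S_stab2 := by
  intro ω A hR hNA σ
  obtain ⟨R, hR1⟩ := Stab2.far hR σ.1.1
  obtain ⟨b, hb, hbN⟩ := hNA R
  have hs : ∀ x : ℤ, b < x → ∀ v : Vtx, BC ω x v → σ.1.1 < v.1 := by
    intro x hx
    refine hR1 x ?_
    have h3 : (b : ℝ) < (x : ℝ) := by exact_mod_cast hx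
    linarith
  refine ⟨(b + 1).toNat, fun n m hn hm => ?_⟩
  have hn' : b < (n : ℤ) := by omega
  have hm' : b < (m : ℤ) := by omega
  exact ⟨Stab2.one_way h1 h2 hR b hbN σ hs n m hn' hm',
    Stab2.one_way h1 h2 hR b hbN σ hs m n hm' hn'⟩

end H953S
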