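import Pool.Agent.H953.Spd.Defs

/-!
Summary: the passage time of an edge of the axis under no open path
(helper249, for helper953).
-/

set_option autoImplicit false

namespace H953S

open H974 Finset H342P H984P H984H MeasureTheory ProbabilityTheory Filter Topology

theorem sum (h1 : S_vis) (h2 : S_order) (h3 : S_na) (h4 : S_sides) : S_sum := by
  intro ω b hb hna hfin
  have hv : Vis ω ((b, 0), .ne) := h3 ω b hb hna hfin
  have hd : DReach (opn ω)ᶜ (0, 0) (face ((b, 0), .ne)) := ((h1 ω _).1 hv).2.1
  have hf : face ((b, 0), Q4.ne) = (b, 0) := by simp [face]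
  rw [hf] at hd
  obtain ⟨T, hT, hlt, hge⟩ := h2 ω b hb hd
  refine ⟨T, hT, fun k hk => ?_, fun k hk => ?_⟩
  · exact ((h4 ω b hb hna (path ω k).1).2).1 (hlt k hk)
  · exact ((h4 ω b hb hna (path ω k).1).1).1 (hge k hk)

end H953S
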