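import Pool.Agent.H953.Spd.Defs

/-! `S_sumN` from `S_sum`, by translation. -/

set_option autoImplicit false

namespace H953S

open H974 Finset H342P H984P H984H MeasureTheory ProbabilityTheory Filter Topology

theorem shV_inj_aux (n : ℤ) : Function.Injective (shV n) := by
  intro u v h
  have h' : ((u.1 + n, u.2) : ℤ × ℤ) = (v.1 + n, v.2) := h
  rw [Prod.mk.injEq] at h'
  exact Prod.ext (by omega) h'.2

theorem pathN_fst_aux (n : ℤ) (ω : Conf) (k : ℕ) :
    (pathN n ω k).1 = shV n (path (sh n ω) k).1 := rfl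

theorem sumN (h : S_sum) : S_sumN := by
  intro ω b n hbn hNA hfin
  have hNA' : NA (sh n ω) (b - n) := by
    rw [na_sh, sub_add_cancel]
    exact hNA
  have hfin' : ∀ x : ℤ, b - n < x → x ≤ 0 → {v | BC (sh n ω) x v}.Finite := by
    intro x hx1 hx2
    have h1 : {v | BC (sh n ω) x v} = shV n ⁻¹' {v | BC ω (x + n) v} := by
      ext v
      exact bc_sh
    rw [h1]
    exact (hfin (x + n) (by omega) (by omega)).preimage ((shV_inj_aux n).injOn)
  obtain ⟨T, hT, hlt, hge⟩ := h (sh n ω) (b - n) (by omega) hNA' hfin'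
  refine ⟨T, ?_, ?_, ?_⟩
  · unfold pathN
    rw [hT]
    simp only [shS, sub_add_cancel]
  · intro k hk
    obtain ⟨x, hx1, hx2, hx3⟩ := hlt k hk
    refine ⟨x + n, by omega, by omega, ?_⟩
    rw [pathN_fst_aux]
    exact bc_sh.1 hx3
  · intro k hk
    obtain ⟨x, hx1, hx3⟩ := hge k hk
    refine ⟨x + n, by omega, ?_⟩
    rw [pathN_fst_aux]
    exact bc_sh.1 hx3

end H953S
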