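import Pool.Agent.H953.Spd.Two

/-!
B3: the sum over the pivotal edges.
-/

set_option autoImplicit false

namespace H953S

open H974 Finset H12S H342P H984P H984H Q291.EP Q291.NL Q291.AD

/-- an edge outside of `P` is not pivotal -/
theorem pO_mem {P : Finset Edg} {I : Vtx → Prop} {T : Finset Edg} {J : Vtx → Prop} {u p : Vtx}
    {f : Edg} {G : Set Edg} (h : pO P I T J u p f G) : f ∈ P := by
  by_contra hf
  obtain ⟨⟨w, hw, h1⟩, h2, -⟩ := h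
  apply h2
  refine ⟨w, hw, ?_⟩
  have e : (insert f G ∩ ↑P : Set Edg) = (G \ {f}) ∩ ↑P := by
    ext g
    simp only [Set.mem_inter_iff, Set.mem_insert_iff, Finset.mem_coe, Set.mem_sdiff,
      Set.mem_singleton_iff]
    constructor
    · rintro ⟨rfl | h3, h4⟩
      · exact absurd h4 hf
      · exact ⟨⟨h3, fun h5 => hf (h5 ▸ h4)⟩, h4⟩
    · rintro ⟨⟨h3, _⟩, h4⟩
      exact ⟨Or.inr h3, h4⟩
  rw [← e]
  exact h1

theorem PO_mem {P : Finset Edg} {I : Vtx → Prop} {T : Finset Edg} {J : Vtx → Prop} {u p : Vtx}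
    {f : Edg} {F D : Finset Edg} (h : PO P I T J u p f F D) : f ∈ P := by
  obtain ⟨_, G, T', _, _, h1⟩ := h
  exact pO_mem h1

/-- distance of the first endpoint of an edge from the complement of the rectangle -/
def tt (a b c d : ℤ) (f : Edg) : ℕ :=
  min (min (f.1 - a).toNat (b - f.1).toNat) (min (f.2.1 - c).toNat (d - f.2.1).toNat)

theorem mem_co' {a b c d : ℤ} {f : Edg} (h : f ∈ RE a b c d) :
    a ≤ f.1 ∧ f.1 ≤ b ∧ c ≤ f.2.1 ∧ f.2.1 ≤ d := by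
  obtain ⟨x, y, _ | _⟩ := f
  · rw [mem_RE_false] at h
    simp only
    omega
  · rw [mem_RE_true] at h
    simp only
    omega

/-- the number of edges of the rectangle at a given distance from the complement -/
theorem card_tt {a b c d : ℤ} {n : ℕ} (hw : b - a ≤ n) (hh : d - c ≤ n) (t : ℕ) :
    (((RE a b c d).filter (fun f => tt a b c d f = t)).card : ℝ) ≤ 8 * ((n:ℝ) + 1) := by
  classical
  obtain ⟨P, hP⟩ : ∃ P : Finset (ℤ × ℤ), P =
      ({a + (t:ℤ), b - (t:ℤ)} : Finset ℤ) ×ˢ Finset.Icc c d ∪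
      Finset.Icc a b ×ˢ ({c + (t:ℤ), d - (t:ℤ)} : Finset ℤ) := ⟨_, rfl⟩
  have h1 : (RE a b c d).filter (fun f => tt a b c d f = t) ⊆
      (P ×ˢ (Finset.univ : Finset Bool)).image (fun x => ((x.1.1, x.1.2, x.2) : Edg)) := by
    intro f hf
    rw [Finset.mem_filter] at hf
    have h2 := mem_co' hf.1
    have h3 := hf.2
    unfold tt at h3
    rw [Finset.mem_image]
    refine ⟨((f.1, f.2.1), f.2.2), ?_, rfl⟩
    rw [Finset.mem_product, hP]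
    refine ⟨?_, Finset.mem_univ _⟩
    simp only [Finset.mem_union, Finset.mem_product, Finset.mem_insert, Finset.mem_singleton,
      Finset.mem_Icc]
    omega
  have h2 : P.card ≤ 4 * (n + 1) := by
    rw [hP]
    refine (Finset.card_union_le _ _).trans ?_
    rw [Finset.card_product, Finset.card_product, Int.card_Icc, Int.card_Icc]
    have c1 : ({a + (t:ℤ), b - (t:ℤ)} : Finset ℤ).card ≤ 2 := Finset.card_le_two
    have c2 : ({c + (t:ℤ), d - (t:ℤ)} : Finset ℤ).card ≤ 2 := Finset.card_le_two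
    have c3 : (d + 1 - c).toNat ≤ n + 1 := by omega
    have c4 : (b + 1 - a).toNat ≤ n + 1 := by omega
    have c5 := Nat.mul_le_mul c1 c3
    have c6 := Nat.mul_le_mul c4 c2
    omega
  have h3 : ((RE a b c d).filter (fun f => tt a b c d f = t)).card ≤ 8 * (n + 1) := by
    refine (Finset.card_le_card h1).trans (Finset.card_image_le.trans ?_)
    rw [Finset.card_product, Finset.card_univ, Fintype.card_bool]
    omega
  exact_mod_cast h3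

theorem D1_eq (u : Vtx) (f : Edg) : D1 u f = ds (u.1, u.2, true) f := rfl

/-- the sum over the edges far from the boundary -/
theorem sum_far (u : Vtx) (X : Finset Edg) {k : ℕ} (hk : 1 ≤ k) (hX : ∀ f ∈ X, D1 u f ≤ k) :
    ∑ f ∈ X, ((D1 u f : ℝ) + 1) ^ (-(5/4) : ℝ) ≤ 43 * (k:ℝ) ^ (3/4 : ℝ) := by
  have hk0 : (0:ℝ) < k := by exact_mod_cast hk
  have hk1 : (1:ℝ) ≤ k := by exact_mod_cast hk
  have hmap : ∀ f ∈ X, D1 u f ∈ range (k + 1) := fun f hf => by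
    rw [Finset.mem_range]
    have := hX f hf
    omega
  rw [← Finset.sum_fiberwise_of_maps_to hmap]
  have h1 : ∀ s ∈ range (k + 1), ∑ f ∈ X.filter (fun f => D1 u f = s),
      ((D1 u f : ℝ) + 1) ^ (-(5/4) : ℝ) ≤ 16 * ((s:ℝ) + 1) ^ (-(1/4) : ℝ) := by
    intro s _
    have hs0 : (0:ℝ) < (s:ℝ) + 1 := by positivity
    have h2 : ∑ f ∈ X.filter (fun f => D1 u f = s), ((D1 u f : ℝ) + 1) ^ (-(5/4) : ℝ) =
        ∑ f ∈ X.filter (fun f => D1 u f = s), ((s : ℝ) + 1) ^ (-(5/4) : ℝ) :=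
      Finset.sum_congr rfl fun f hf => by rw [(Finset.mem_filter.mp hf).2]
    rw [h2, Finset.sum_const, nsmul_eq_mul]
    have h3 := card_ds (u.1, u.2, true) X s
    have e1 : ((s:ℝ) + 1) ^ (-(1/4) : ℝ) = ((s:ℝ) + 1) * ((s:ℝ) + 1) ^ (-(5/4) : ℝ) := by
      have : ((s:ℝ) + 1) * ((s:ℝ) + 1) ^ (-(5/4) : ℝ) =
          ((s:ℝ) + 1) ^ (1:ℝ) * ((s:ℝ) + 1) ^ (-(5/4) : ℝ) := by rw [Real.rpow_one]
      rw [this, ← Real.rpow_add hs0]; norm_num
    rw [e1, ← mul_assoc]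
    exact mul_le_mul_of_nonneg_right h3 (by positivity)
  refine (Finset.sum_le_sum h1).trans ?_
  rw [← Finset.mul_sum]
  have h3 := pow_sum (b := 1/4) (by norm_num) (by norm_num) (k + 1)
  have h2k : ((k + 1 : ℕ) : ℝ) ≤ 2 * k := by push_cast; linarith
  have h6 : ((k + 1 : ℕ) : ℝ) ^ (1 - 1/4 : ℝ) ≤ 2 * (k:ℝ) ^ (3/4 : ℝ) := by
    calc ((k + 1 : ℕ) : ℝ) ^ (1 - 1/4 : ℝ) ≤ (2 * (k:ℝ)) ^ (1 - 1/4 : ℝ) :=
          Real.rpow_le_rpow (by positivity) h2k (by norm_num)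
      _ = (2:ℝ) ^ (3/4 : ℝ) * (k:ℝ) ^ (3/4 : ℝ) := by
          rw [Real.mul_rpow (by norm_num) hk0.le]; norm_num
      _ ≤ 2 * (k:ℝ) ^ (3/4 : ℝ) := by
          apply mul_le_mul_of_nonneg_right _ (by positivity)
          calc (2:ℝ) ^ (3/4 : ℝ) ≤ (2:ℝ) ^ (1:ℝ) :=
                Real.rpow_le_rpow_of_exponent_le (by norm_num) (by norm_num)
            _ = 2 := Real.rpow_one _
  have h7 : 0 ≤ (k:ℝ) ^ (3/4 : ℝ) := by positivity
  have h8 : ∑ s ∈ range (k + 1), ((s:ℝ) + 1) ^ (-(1/4) : ℝ) ≤ 8/3 * (k:ℝ) ^ (3/4 : ℝ) := by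
    refine h3.trans ?_
    rw [div_le_iff₀ (by norm_num)]
    linarith
  linarith

/-- the sum over all edges of a rectangle -/
theorem sum_near {a b c d : ℤ} {n : ℕ} (hn : 1 ≤ n) (hw : b - a ≤ n) (hh : d - c ≤ n)
    (X : Finset Edg) (hX : X ⊆ RE a b c d) :
    ∑ f ∈ X, ((tt a b c d f : ℝ) + 1) ^ (-(23/24) : ℝ) ≤ 768 * ((n:ℝ) * (n:ℝ) ^ (1/24 : ℝ)) := by
  have hn0 : (0:ℝ) < n := by exact_mod_cast hn
  have hn1 : (1:ℝ) ≤ n := by exact_mod_cast hn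
  have h0 : ∑ f ∈ X, ((tt a b c d f : ℝ) + 1) ^ (-(23/24) : ℝ) ≤
      ∑ f ∈ RE a b c d, ((tt a b c d f : ℝ) + 1) ^ (-(23/24) : ℝ) :=
    Finset.sum_le_sum_of_subset_of_nonneg hX fun f _ _ => by positivity
  refine h0.trans ?_
  have hmap : ∀ f ∈ RE a b c d, tt a b c d f ∈ range (n + 1) := fun f hf => by
    have := mem_co' hf
    rw [Finset.mem_range]
    unfold tt
    omega
  rw [← Finset.sum_fiberwise_of_maps_to hmap]
  have h1 : ∀ s ∈ range (n + 1), ∑ f ∈ (RE a b c d).filter (fun f => tt a b c d f = s),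
      ((tt a b c d f : ℝ) + 1) ^ (-(23/24) : ℝ) ≤
        8 * ((n:ℝ) + 1) * ((s:ℝ) + 1) ^ (-(23/24) : ℝ) := by
    intro s _
    have h2 : ∑ f ∈ (RE a b c d).filter (fun f => tt a b c d f = s),
        ((tt a b c d f : ℝ) + 1) ^ (-(23/24) : ℝ) =
        ∑ f ∈ (RE a b c d).filter (fun f => tt a b c d f = s), ((s : ℝ) + 1) ^ (-(23/24) : ℝ) :=
      Finset.sum_congr rfl fun f hf => by rw [(Finset.mem_filter.mp hf).2]
    rw [h2, Finset.sum_const, nsmul_eq_mul]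
    exact mul_le_mul_of_nonneg_right (card_tt hw hh s) (by positivity)
  refine (Finset.sum_le_sum h1).trans ?_
  rw [← Finset.mul_sum]
  have h3 := pow_sum (b := 23/24) (by norm_num) (by norm_num) (n + 1)
  have h2n : ((n + 1 : ℕ) : ℝ) ≤ 2 * n := by push_cast; linarith
  have h6 : ((n + 1 : ℕ) : ℝ) ^ (1 - 23/24 : ℝ) ≤ 2 * (n:ℝ) ^ (1/24 : ℝ) := by
    calc ((n + 1 : ℕ) : ℝ) ^ (1 - 23/24 : ℝ) ≤ (2 * (n:ℝ)) ^ (1 - 23/24 : ℝ) :=
          Real.rpow_le_rpow (by positivity) h2n (by norm_num)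
      _ = (2:ℝ) ^ (1/24 : ℝ) * (n:ℝ) ^ (1/24 : ℝ) := by
          rw [Real.mul_rpow (by norm_num) hn0.le]; norm_num
      _ ≤ 2 * (n:ℝ) ^ (1/24 : ℝ) := by
          apply mul_le_mul_of_nonneg_right _ (by positivity)
          calc (2:ℝ) ^ (1/24 : ℝ) ≤ (2:ℝ) ^ (1:ℝ) :=
                Real.rpow_le_rpow_of_exponent_le (by norm_num) (by norm_num)
            _ = 2 := Real.rpow_one _
  have h7 : 0 ≤ (n:ℝ) ^ (1/24 : ℝ) := by positivity
  have h8 : ∑ s ∈ range (n + 1), ((s:ℝ) + 1) ^ (-(23/24) : ℝ) ≤ 48 * (n:ℝ) ^ (1/24 : ℝ) := by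
    refine h3.trans ?_
    rw [div_le_iff₀ (by norm_num)]
    linarith
  have h9 : 8 * ((n:ℝ) + 1) ≤ 16 * n := by linarith
  calc 8 * ((n:ℝ) + 1) * ∑ s ∈ range (n + 1), ((s:ℝ) + 1) ^ (-(23/24) : ℝ)
      ≤ 16 * n * (48 * (n:ℝ) ^ (1/24 : ℝ)) := by
        apply mul_le_mul h9 h8 (Finset.sum_nonneg fun s _ => by positivity) (by positivity)
    _ = 768 * ((n:ℝ) * (n:ℝ) ^ (1/24 : ℝ)) := by ring

theorem sumO (h1 : S_bulk) (h2 : S_bdry) : S_sumO := by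
  intro K4 C2 C3 ε Λ hK4 hC2 hC3 hε hAn hSta
  obtain ⟨M1, hM1, hb1⟩ := h1 K4 C2 hK4 hC2 hAn
  obtain ⟨M2, hM2, hb2⟩ := h2 K4 C3 ε Λ hK4 hC3 hε hSta
  refine ⟨43 * M1 + 768 * M2 * ((Λ:ℝ) + 1) ^ 2, ?_, ?_⟩
  · have : 0 ≤ 768 * M2 * ((Λ:ℝ) + 1) ^ 2 := by positivity
    linarith
  intro K τ k u p a b c d a' b' c' d' I J S hHy hInc hR hR' hS hS' hk
  classical
  have hτ0 := hHy.t0
  have hτ1 := hHy.t1
  have hK1 := hHy.K1
  have hk0 : (0:ℝ) < k := by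
    have : 0 < k := by omega
    exact_mod_cast this
  have hk1 : (1:ℝ) ≤ k := by
    have : 1 ≤ k := by omega
    exact_mod_cast this
  -- only the edges of the rectangle
  have g1 : P2 τ S (fun F D => ∃ f ∈ S, PO (RE a b c d) I (RE a' b' c' d') J u p f F D) ≤
      ∑ f ∈ RE a b c d, P2 τ S (PO (RE a b c d) I (RE a' b' c' d') J u p f) := by
    refine le_trans (P2_mono hτ0 hτ1 (B := fun F D => ∃ f ∈ RE a b c d,
      PO (RE a b c d) I (RE a' b' c' d') J u p f F D) ?_) (P2_ex hτ0 hτ1 S _ _)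
    rintro F D _ _ ⟨f, _, hf⟩
    exact ⟨f, PO_mem hf, hf⟩
  refine g1.trans ?_
  obtain ⟨X, hX⟩ : ∃ X, X = (RE a b c d).filter (fun f => 2 * D1 u f + 16 ≤ k) := ⟨_, rfl⟩
  obtain ⟨Y, hY⟩ : ∃ Y, Y = (RE a b c d).filter (fun f => ¬ 2 * D1 u f + 16 ≤ k) := ⟨_, rfl⟩
  rw [← Finset.sum_filter_add_sum_filter_not (RE a b c d) (fun f => 2 * D1 u f + 16 ≤ k),
    ← hX, ← hY]
  -- far
  have f1 : ∑ f ∈ X, P2 τ S (PO (RE a b c d) I (RE a' b' c' d') J u p f) ≤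
      τ * (43 * M1 * K * (k:ℝ) ^ (1/2 : ℝ)) := by
    have e1 : ∀ f ∈ X, P2 τ S (PO (RE a b c d) I (RE a' b' c' d') J u p f) ≤
        τ * (M1 * K * (k:ℝ) ^ (-(1/4) : ℝ)) * ((D1 u f : ℝ) + 1) ^ (-(5/4) : ℝ) := by
      intro f hf
      rw [hX, Finset.mem_filter] at hf
      refine (hb1 ε K τ Λ k u p a b c d a' b' c' d' I J f S hHy hInc hR hR' hS hS' hf.1
        hf.2).trans (le_of_eq ?_)
      ring
    refine (Finset.sum_le_sum e1).trans ?_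
    rw [← Finset.mul_sum]
    have e2 := sum_far u X (k := k) (by omega) (fun f hf => by
      rw [hX, Finset.mem_filter] at hf
      omega)
    have e3 : 0 ≤ τ * (M1 * K * (k:ℝ) ^ (-(1/4) : ℝ)) := by positivity
    refine (mul_le_mul_of_nonneg_left e2 e3).trans (le_of_eq ?_)
    have e4 : (k:ℝ) ^ (-(1/4) : ℝ) * (k:ℝ) ^ (3/4 : ℝ) = (k:ℝ) ^ (1/2 : ℝ) := by
      rw [← Real.rpow_add hk0]; norm_num
    rw [← e4]
    ring
  -- near
  have f2 : ∑ f ∈ Y, P2 τ S (PO (RE a b c d) I (RE a' b' c' d') J u p f) ≤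
      τ * (768 * M2 * ((Λ:ℝ) + 1) ^ 2 * K * (k:ℝ) ^ (1/2 : ℝ)) := by
    have e1 : ∀ f ∈ Y, P2 τ S (PO (RE a b c d) I (RE a' b' c' d') J u p f) ≤
        τ * (M2 * K * (k:ℝ) ^ (-(13/24) : ℝ)) * ((tt a b c d f : ℝ) + 1) ^ (-(23/24) : ℝ) := by
      intro f hf
      rw [hY, Finset.mem_filter] at hf
      have hco := mem_co' hf.1
      refine (hb2 K τ k u p a b c d a' b' c' d' I J f S (tt a b c d f) hHy hInc hR hR' hS hS' hf.1
        hk (by omega) (by unfold tt; omega) (by unfold tt; omega) (by unfold tt; omega)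
        (by unfold tt; omega) (by unfold tt; omega)).trans (le_of_eq ?_)
      ring
    refine (Finset.sum_le_sum e1).trans ?_
    rw [← Finset.mul_sum]
    have hw := hR.w
    have hh := hR.h
    have e2 := sum_near (a := a) (b := b) (c := c) (d := d) (n := (Λ + 1) * k)
      (Nat.mul_pos (by omega) (by omega)) (by push_cast; linarith)
      (by push_cast; linarith) Y (by rw [hY]; exact Finset.filter_subset _ _)
    have e3 : 0 ≤ τ * (M2 * K * (k:ℝ) ^ (-(13/24) : ℝ)) := by positivity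
    refine (mul_le_mul_of_nonneg_left e2 e3).trans ?_
    have hL : (1:ℝ) ≤ (Λ:ℝ) + 1 := by
      have : (0:ℝ) ≤ Λ := Nat.cast_nonneg _
      linarith
    have e5 : (((Λ + 1) * k : ℕ) : ℝ) ^ (1/24 : ℝ) ≤ ((Λ:ℝ) + 1) * (k:ℝ) ^ (1/24 : ℝ) := by
      push_cast
      rw [Real.mul_rpow (by positivity) hk0.le]
      apply mul_le_mul_of_nonneg_right _ (by positivity)
      calc ((Λ:ℝ) + 1) ^ (1/24 : ℝ) ≤ ((Λ:ℝ) + 1) ^ (1:ℝ) :=
            Real.rpow_le_rpow_of_exponent_le hL (by norm_num)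
        _ = (Λ:ℝ) + 1 := Real.rpow_one _
    have e6 : (k:ℝ) ^ (-(13/24) : ℝ) * ((k:ℝ) * (k:ℝ) ^ (1/24 : ℝ)) = (k:ℝ) ^ (1/2 : ℝ) := by
      have : (k:ℝ) * (k:ℝ) ^ (1/24 : ℝ) = (k:ℝ) ^ (1:ℝ) * (k:ℝ) ^ (1/24 : ℝ) := by
        rw [Real.rpow_one]
      rw [this, ← Real.rpow_add hk0, ← Real.rpow_add hk0]; norm_num
    calc τ * (M2 * K * (k:ℝ) ^ (-(13/24) : ℝ)) *
          (768 * ((((Λ + 1) * k : ℕ) : ℝ) * (((Λ + 1) * k : ℕ) : ℝ) ^ (1/24 : ℝ)))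
        ≤ τ * (M2 * K * (k:ℝ) ^ (-(13/24) : ℝ)) *
          (768 * ((((Λ:ℝ) + 1) * k) * (((Λ:ℝ) + 1) * (k:ℝ) ^ (1/24 : ℝ)))) := by
          apply mul_le_mul_of_nonneg_left _ e3
          apply mul_le_mul_of_nonneg_left _ (by norm_num)
          rw [show (((Λ + 1) * k : ℕ) : ℝ) = ((Λ:ℝ) + 1) * k by push_cast; ring] at e5 ⊢
          exact mul_le_mul_of_nonneg_left e5 (by positivity)
      _ = τ * (768 * M2 * ((Λ:ℝ) + 1) ^ 2 * K *
          ((k:ℝ) ^ (-(13/24) : ℝ) * ((k:ℝ) * (k:ℝ) ^ (1/24 : ℝ)))) := by ring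
      _ = _ := by rw [e6]
  refine (add_le_add f1 f2).trans (le_of_eq ?_)
  ring

end H953S
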