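import Pool.Agent.H953.Spd.Defs

/-!
Time and place of the path (`S_time`), by helper264.
-/

set_option autoImplicit false

namespace H953S

open H974 Finset H342P H984P H984H MeasureTheory ProbabilityTheory Filter Topology

namespace TimeL

variable {ω : Conf} {A : ℝ}

lemma A_nonneg (h : Rad ω A) : 0 ≤ A := by
  have h1 := (h 0 (0, 0) Relation.ReflTransGen.refl).1
  simpa using h1

lemma fin_cl (h : Rad ω A) (x : ℤ) : {v | BC ω x v}.Finite := by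
  obtain ⟨N, hN⟩ : ∃ N : ℤ, A + Real.sqrt |(x : ℝ)| ≤ N := ⟨_, Int.le_ceil _⟩
  refine ((Set.finite_Icc (x - N) (x + N)).prod (Set.finite_Icc (-N) N)).subset ?_
  intro v hv
  obtain ⟨h1, h2⟩ := h x v hv
  have h3 := abs_le.1 (h1.trans hN)
  have h4 := abs_le.1 (h2.trans hN)
  refine ⟨⟨?_, ?_⟩, ?_, ?_⟩
  · have : ((x - N : ℤ) : ℝ) ≤ ((v.1 : ℤ) : ℝ) := by push_cast; linarith [h3.1]
    exact_mod_cast this
  · have : ((v.1 : ℤ) : ℝ) ≤ ((x + N : ℤ) : ℝ) := by push_cast; linarith [h3.2]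
    exact_mod_cast this
  · have : ((-N : ℤ) : ℝ) ≤ ((v.2 : ℤ) : ℝ) := by push_cast; linarith [h4.1]
    exact_mod_cast this
  · have : ((v.2 : ℤ) : ℝ) ≤ ((N : ℤ) : ℝ) := by linarith [h4.2]
    exact_mod_cast this

lemma mono_sqrt {β ξ : ℝ} (h1 : 1 ≤ β) (h : β ≤ ξ) :
    β - Real.sqrt β ≤ ξ - Real.sqrt ξ := by
  have hβ : 0 ≤ β := by linarith
  have hξ : 0 ≤ ξ := by linarith
  have e1 := Real.sq_sqrt hβ
  have e2 := Real.sq_sqrt hξ
  have s1 : 1 ≤ Real.sqrt β := by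
    rw [Real.le_sqrt' one_pos]
    linarith
  have s2 : Real.sqrt β ≤ Real.sqrt ξ := Real.sqrt_le_sqrt h
  nlinarith

lemma pass (h : S_sum) (hR : Rad ω A) {b : ℤ} (hb : b < 0) (hN : NA ω b) :
    ∃ T : ℕ, (∀ k < T, -((path ω k).1.1 : ℝ) ≤ -(b : ℝ) + Real.sqrt (-(b : ℝ)) + A ∧
      |((path ω k).1.2 : ℝ)| ≤ A + Real.sqrt (-(b : ℝ))) ∧
      ∀ k, T ≤ k → -(b : ℝ) - Real.sqrt (-(b : ℝ)) - A ≤ -((path ω k).1.1 : ℝ) := by
  obtain ⟨T, -, h1, h2⟩ := h ω b hb hN (fun x _ _ => fin_cl hR x)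
  refine ⟨T, fun k hk => ?_, fun k hk => ?_⟩
  · obtain ⟨x, hx1, hx2, hx3⟩ := h1 k hk
    obtain ⟨r1, r2⟩ := hR x _ hx3
    have hx1' : (b : ℝ) < x := by exact_mod_cast hx1
    have hx2' : (x : ℝ) ≤ 0 := by exact_mod_cast hx2
    have e1 : |(x : ℝ)| ≤ -(b : ℝ) := by
      rw [abs_of_nonpos hx2']; linarith
    have e2 := Real.sqrt_le_sqrt e1
    have e3 := (abs_le.1 r1).1
    exact ⟨by linarith, by linarith⟩
  · obtain ⟨x, hx1, hx3⟩ := h2 k hk
    obtain ⟨r1, -⟩ := hR x _ hx3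
    have hx1' : (x : ℝ) ≤ b := by exact_mod_cast hx1
    have hb' : (b : ℝ) ≤ -1 := by exact_mod_cast (by omega : b ≤ -1)
    have e1 : |(x : ℝ)| = -(x : ℝ) := abs_of_nonpos (by linarith)
    rw [e1] at r1
    have e2 := mono_sqrt (β := -(b : ℝ)) (ξ := -(x : ℝ)) (by linarith) (by linarith)
    have e3 := (abs_le.1 r1).2
    linarith

lemma exists_far (hD : Dns ω) (R : ℝ) : ∃ b : ℤ, b < 0 ∧ NA ω b ∧ R ≤ -(b : ℝ) := by
  obtain ⟨M, hM⟩ := hD 1 one_pos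
  obtain ⟨b, hb0, -, hb2, hb3⟩ := hM (max M ⌈R⌉₊) (le_max_left _ _)
  refine ⟨b, hb0, hb3, ?_⟩
  have h1 : R ≤ ((max M ⌈R⌉₊ : ℕ) : ℝ) :=
    (Nat.le_ceil R).trans (by exact_mod_cast le_max_right _ _)
  linarith

/-- the path goes to the left -/
lemma left (h : S_sum) (hR : Rad ω A) (hD : Dns ω) (R : ℝ) :
    ∃ T : ℕ, ∀ k, T ≤ k → R ≤ -((path ω k).1.1 : ℝ) := by
  obtain ⟨b, hb0, hN, hb⟩ := exists_far hD (2 * (|R| + A + 1))
  obtain ⟨T, -, hT⟩ := pass h hR hb0 hN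
  refine ⟨T, fun k hk => ?_⟩
  have h1 := hT k hk
  have hA := A_nonneg hR
  have hR' := le_abs_self R
  have hR0 := abs_nonneg R
  have hβ : 0 ≤ -(b : ℝ) := by linarith
  have e1 := Real.sq_sqrt hβ
  have e2 : Real.sqrt (-(b : ℝ)) ≤ -(b : ℝ) / 2 + 1 / 2 := by
    nlinarith [sq_nonneg (Real.sqrt (-(b : ℝ)) - 1)]
  linarith

lemma fin_vis (h : S_sum) (hR : Rad ω A) (hD : Dns ω) (m : ℝ) :
    {σ : St | Vis ω σ ∧ -m ≤ (σ.1.1 : ℝ)}.Finite := by
  obtain ⟨T, hT⟩ := left h hR hD (m + 1)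
  refine ((Set.finite_lt_nat T).image (path ω)).subset ?_
  rintro σ ⟨⟨k, rfl⟩, hσ⟩
  refine ⟨k, ?_, rfl⟩
  by_contra hk
  have := hT k (not_lt.1 hk)
  linarith

/-- a good edge of the axis in a given interval -/
lemma choose_b {ε : ℝ} {M : ℕ}
    (hM : ∀ m : ℕ, M ≤ m → ∃ b : ℤ, b < 0 ∧ -((1 + ε) * m) ≤ (b : ℝ) ∧ (b : ℝ) ≤ -(m : ℝ) ∧ NA ω b)
    (hε : 0 < ε) {u v : ℝ} (hu : (M : ℝ) ≤ u) (huv : (1 + ε) * (u + 1) ≤ v) :
    ∃ b : ℤ, b < 0 ∧ u ≤ -(b : ℝ) ∧ -(b : ℝ) ≤ v ∧ NA ω b := by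
  have hu0 : 0 ≤ u := (Nat.cast_nonneg M).trans hu
  have h1 := Nat.le_ceil u
  have h2 := (Nat.ceil_lt_add_one hu0).le
  have h3 : M ≤ ⌈u⌉₊ := by exact_mod_cast hu.trans h1
  obtain ⟨b, hb0, hb1, hb2, hb3⟩ := hM _ h3
  refine ⟨b, hb0, by linarith, ?_, hb3⟩
  nlinarith

lemma large {ε : ℝ} (hε : 0 < ε) (_hε1 : ε < 1) (A R M : ℝ) (hA : 0 ≤ A) (hM : 0 ≤ M) :
    ∃ R0 : ℝ, ∀ m : ℝ, R0 ≤ m → R ≤ m ∧ 1 ≤ m ∧ 3 * M ≤ m ∧ 9 + 3 * ε ≤ ε * m ∧
      Real.sqrt (2 * m) + A < ε / 3 * m := by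
  refine ⟨|R| + 1 + 3 * M + (9 + 3 * ε) / ε + 6 / ε * (3 / ε + A + 1), fun m hm => ?_⟩
  have h1 : 0 ≤ |R| := abs_nonneg R
  have h1' := le_abs_self R
  have h2 : 0 < (9 + 3 * ε) / ε := by positivity
  have h3 : 0 < 6 / ε * (3 / ε + A + 1) := by positivity
  refine ⟨by linarith, by linarith, by linarith, ?_, ?_⟩
  · have h4 : (9 + 3 * ε) / ε ≤ m := by linarith
    rw [div_le_iff₀ hε] at h4
    linarith
  · have hm0 : 0 ≤ 2 * m := by linarith
    have e1 := Real.sq_sqrt hm0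
    have h5 : 6 / ε * (3 / ε + A + 1) ≤ m := by linarith
    have h6 : 3 / ε + A + 1 ≤ ε / 6 * m := by
      have h7 := mul_le_mul_of_nonneg_left h5 (by positivity : 0 ≤ ε / 6)
      have h8 : ε / 6 * (6 / ε * (3 / ε + A + 1)) = 3 / ε + A + 1 := by
        field_simp
      linarith
    have h9 : Real.sqrt (2 * m) ≤ ε / 6 * m + 3 / ε := by
      have h10 : 0 ≤ ε / 12 * (Real.sqrt (2 * m) - 6 / ε) ^ 2 := by positivity
      have h11 : ε / 12 * (Real.sqrt (2 * m) - 6 / ε) ^ 2 =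
          ε / 12 * (Real.sqrt (2 * m)) ^ 2 - Real.sqrt (2 * m) + 3 / ε := by
        field_simp
        ring
      rw [h11, e1] at h10
      linarith
    linarith

end TimeL

open TimeL in
theorem time (h : S_sum) : S_time := by
  intro ω A hR hD
  refine ⟨fin_vis h hR hD, fun ε hε hε1 R => ?_⟩
  have hA := A_nonneg hR
  obtain ⟨M, hM⟩ := hD (ε / 6) (by positivity)
  obtain ⟨R0, hR0⟩ := large hε hε1 A R M hA (Nat.cast_nonneg M)
  obtain ⟨K, hK⟩ := left h hR hD R0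
  refine ⟨K, fun k hk => ?_⟩
  obtain ⟨m, hm⟩ : ∃ m : ℝ, m = -((path ω k).1.1 : ℝ) := ⟨_, rfl⟩
  rw [← hm]
  obtain ⟨g1, g2, g3, g4, g5⟩ := hR0 m (by rw [hm]; exact hK k hk)
  have hm0 : 0 ≤ m := by linarith
  refine ⟨?_, g1, ?_, ?_⟩
  · have : ((path ω k).1.1 : ℝ) < 0 := by linarith
    exact_mod_cast this
  · -- lower bound
    obtain ⟨b, hb0, hb1, hb2, hN⟩ := choose_b hM (by positivity)
      (u := (1 - 2 * ε / 3) * m) (v := (1 - ε / 3) * m) (by nlinarith) (by nlinarith)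
    obtain ⟨T, hT1, hT2⟩ := pass h hR hb0 hN
    have hs : Real.sqrt (-(b : ℝ)) ≤ Real.sqrt (2 * m) := Real.sqrt_le_sqrt (by nlinarith)
    have hTk : T ≤ k := by
      by_contra hcon
      have h1 := (hT1 k (not_le.1 hcon)).1
      rw [← hm] at h1
      linarith
    have hsub : {σ : St | Vis ω σ ∧ -((1 - ε) * m) ≤ (σ.1.1 : ℝ)} ⊆
        ((Finset.range T).image (path ω) : Finset St) := by
      rintro σ ⟨⟨i, rfl⟩, hσ⟩
      rw [Finset.coe_image]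
      refine ⟨i, ?_, rfl⟩
      rw [Finset.mem_coe, Finset.mem_range]
      by_contra hcon
      have h1 := hT2 i (not_lt.1 hcon)
      linarith
    have h1 : cnt ω ((1 - ε) * m) ≤ T := by
      unfold cnt
      refine (Set.ncard_le_ncard hsub (Finset.finite_toSet _)).trans ?_
      rw [Set.ncard_coe_finset]
      exact Finset.card_image_le.trans (by rw [Finset.card_range])
    exact_mod_cast h1.trans hTk
  · obtain ⟨b, hb0, hb1, hb2, hN⟩ := choose_b hM (by positivity)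
      (u := (1 + ε / 3) * m) (v := (1 + 2 * ε / 3) * m) (by nlinarith) (by nlinarith)
    obtain ⟨T, hT1, hT2⟩ := pass h hR hb0 hN
    have hs : Real.sqrt (-(b : ℝ)) ≤ Real.sqrt (2 * m) := Real.sqrt_le_sqrt (by nlinarith)
    have hTk : k < T := by
      by_contra hcon
      have h1 := hT2 k (not_lt.1 hcon)
      rw [← hm] at h1
      linarith
    constructor
    · have hsub : (((Finset.range (k + 1)).image (path ω) : Finset St) : Set St) ⊆
          {σ : St | Vis ω σ ∧ -((1 + ε) * m) ≤ (σ.1.1 : ℝ)} := by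
        rw [Finset.coe_image]
        rintro _ ⟨i, hi, rfl⟩
        rw [Finset.mem_coe, Finset.mem_range] at hi
        refine ⟨⟨i, rfl⟩, ?_⟩
        have h1 := (hT1 i (by omega)).1
        linarith
      have h1 : k + 1 ≤ cnt ω ((1 + ε) * m) := by
        unfold cnt
        refine le_trans (le_of_eq ?_) (Set.ncard_le_ncard hsub (fin_vis h hR hD _))
        rw [Set.ncard_coe_finset, Finset.card_image_of_injective, Finset.card_range]
        intro i j hij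
        by_contra hne
        exact path_inj ω hne hij
      exact_mod_cast (Nat.le_succ k).trans h1
    · have h1 := (hT1 k hTk).2
      have h2 : 0 ≤ ε * m := by positivity
      linarith

end H953S
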