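import Pool.Agent.H953.Spd.Two

/-!
A pivotal edge for the two-arm event is pivotal for one of the arms (`S_tog`).
-/

set_option autoImplicit false

namespace H953S

open H974 Finset H12S H342P H984P H984H Q291.EP Q291.NL Q291.AD

theorem tog_OA {P : Finset Edg} {I : Vtx → Prop} {u : Vtx} {G G' : Set Edg} (h : G ⊆ G')
    (hO : OA P I u G) : OA P I u G' := by
  obtain ⟨w, hw, hr⟩ := hO
  exact ⟨w, hw, Reach.mono (Set.inter_subset_inter_left _ h) hr⟩

theorem tog_CA {T : Finset Edg} {J : Vtx → Prop} {p : Vtx} {G G' : Set Edg} (h : G ⊆ G')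
    (hC : CA T J p G') : CA T J p G := by
  obtain ⟨g, hg, hr⟩ := hC
  exact ⟨g, hg, DReach.mono (Set.sdiff_subset_sdiff_right h) hr⟩

theorem tog : S_tog := by
  intro P I T J u p f G h
  have hsub : G \ {f} ⊆ insert f G := fun e he => Set.mem_insert_of_mem _ he.1
  by_cases h1 : TA P I T J u p (insert f G)
  · left
    refine ⟨h1.1, fun h2 => h ?_, h1.2⟩
    exact ⟨fun _ => ⟨h2, tog_CA hsub h1.2⟩, fun _ => h1⟩
  · by_cases h2 : TA P I T J u p (G \ {f})
    · right
      refine ⟨h2.2, fun h3 => h1 ⟨tog_OA hsub h2.1, h3⟩, h2.1⟩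
    · exact absurd ⟨fun h3 => absurd h3 h1, fun h3 => absurd h3 h2⟩ h

end H953S
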