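import Pool.Agent.H953.Spd.Two

/-!
The two-arm event of a box as a case of the general event.
-/

set_option autoImplicit false

namespace H953S

open H974 Finset H12S H342P H984P H984H Q291.EP Q291.NL Q291.AD

namespace TwoIff

/-- The edges next to a face of the box are crossed by dual edges of the larger box. -/
theorem mem_dE {u : Vtx} {k : ℤ} {e : Edg} {g : Vtx}
    (hg : inF (u.1 - k) (u.1 + k) (u.2 - k) (u.2 + k) g) (h : dsrc e = g ∨ dtgt e = g) :
    e ∈ dE (RE (u.1 - k - 1) (u.1 + k) (u.2 - k - 1) (u.2 + k)) := by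
  change dl e ∈ RE (u.1 - k - 1) (u.1 + k) (u.2 - k - 1) (u.2 + k)
  unfold inF at hg
  obtain ⟨x, y, t⟩ := e
  cases t
  · rw [dl_f, mem_RE_true]
    rcases h with h | h
    · rw [dsrc_false] at h
      rw [← h] at hg
      simp only at hg
      omega
    · rw [dtgt_mk] at h
      rw [← h] at hg
      simp only at hg
      omega
  · rw [dl_t, mem_RE_false]
    rcases h with h | h
    · rw [dsrc_true] at h
      rw [← h] at hg
      simp only at hg
      omega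
    · rw [dtgt_mk] at h
      rw [← h] at hg
      simp only at hg
      omega

/-- First exit of the dual path. -/
theorem dual_exit {u p g : Vtx} {k : ℤ} {G : Set Edg} (h : DReach Gᶜ p g) :
    (∃ g', ¬ inF (u.1 - k) (u.1 + k) (u.2 - k) (u.2 + k) g' ∧
      DReach (dE (RE (u.1 - k - 1) (u.1 + k) (u.2 - k - 1) (u.2 + k)) \ G) p g') ∨
    (inF (u.1 - k) (u.1 + k) (u.2 - k) (u.2 + k) g ∧
      DReach (dE (RE (u.1 - k - 1) (u.1 + k) (u.2 - k - 1) (u.2 + k)) \ G) p g) := by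
  induction h with
  | refl =>
    by_cases hp : inF (u.1 - k) (u.1 + k) (u.2 - k) (u.2 + k) p
    · exact Or.inr ⟨hp, DReach.refl _ _⟩
    · exact Or.inl ⟨p, hp, DReach.refl _ _⟩
  | @tail g g' _ hs ih =>
    rcases ih with ih | ⟨ih1, ih2⟩
    · exact Or.inl ih
    · obtain ⟨e, he, h⟩ := hs
      have hm : e ∈ dE (RE (u.1 - k - 1) (u.1 + k) (u.2 - k - 1) (u.2 + k)) := by
        refine mem_dE ih1 ?_
        rcases h with ⟨h1, -⟩ | ⟨-, h1⟩
        · exact Or.inl h1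
        · exact Or.inr h1
      have hr : DReach (dE (RE (u.1 - k - 1) (u.1 + k) (u.2 - k - 1) (u.2 + k)) \ G) p g' :=
        ih2.trans (DAdj.reach ⟨e, ⟨hm, he⟩, h⟩)
      by_cases hp : inF (u.1 - k) (u.1 + k) (u.2 - k) (u.2 + k) g'
      · exact Or.inr ⟨hp, hr⟩
      · exact Or.inl ⟨g', hp, hr⟩

end TwoIff

theorem twoIff : S_two := by
  intro u p k G _ hk
  have hk0 : (0 : ℤ) < (k : ℤ) := by exact_mod_cast hk
  have hJ : ∀ g : Vtx, ¬ inF (u.1 - k) (u.1 + k) (u.2 - k) (u.2 + k) g ↔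
      (g.1 ≤ u.1 - k - 1 ∨ u.1 + k ≤ g.1 ∨ g.2 ≤ u.2 - k - 1 ∨ u.2 + k ≤ g.2) := by
    intro g
    unfold inF
    omega
  constructor
  · rintro ⟨h1, g, h2, h3⟩
    refine ⟨?_, ?_⟩
    · obtain ⟨w, hw, hr⟩ := arm_local hk0 h1
      exact ⟨w, hw, hr⟩
    · rcases TwoIff.dual_exit (u := u) (k := (k : ℤ)) h3 with ⟨g', h4, h5⟩ | ⟨h4, -⟩
      · exact ⟨g', (hJ g').1 h4, h5⟩
      · exact absurd h4 h2
  · rintro ⟨⟨w, hw, hr⟩, ⟨g, hg, hd⟩⟩
    refine ⟨⟨w, hw, hr.mono Set.inter_subset_left⟩, g, (hJ g).2 hg, hd.mono ?_⟩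
    intro e he
    exact he.2

end H953S
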