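import Pool.Agent.H953.Spd.Two
import Pool.Graph.R_seed8.Y985.ME.Top

/-!
Near-critical separated two-arm probability, lower bound.
-/

set_option autoImplicit false

namespace H953S

open H974 Finset H12S H342P H984P H984H Q291.EP Q291.NL Q291.AD

/-- `F \ D` is percolation with parameter `(1 - τ) / 2`. -/
theorem P2_sdiff_low (τ : ℝ) (S : Finset Edg) (B : Finset Edg → Prop) :
    P2 τ S (fun F D => B (F \ D)) = Pr (fun _ => (1 - τ) / 2) S B := by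
  have h1 := P2_union τ S (fun G => B (S \ G))
  have h2 := P2_compl τ S (fun F D => B (S \ (F ∪ D)))
  have h3 : P2 τ S (fun F D => B (F \ D)) = P2 τ S (fun F D => B (S \ ((S \ F) ∪ D))) := by
    apply P2_congr
    intro F D hF hD
    have e : S \ ((S \ F) ∪ D) = F \ D := by
      ext x
      simp only [Finset.mem_sdiff, Finset.mem_union]
      constructor
      · rintro ⟨h4, h5⟩
        push Not at h5
        exact ⟨h5.1 h4, h5.2⟩
      · rintro ⟨h4, h5⟩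
        refine ⟨hF h4, ?_⟩
        push Not
        exact ⟨fun _ => h4, h5⟩
    rw [e]
  have h4 := Ex_compl (fun _ : Edg => (1 + τ) / 2) S (fun F => ind (B F))
  have h5 : (fun _ : Edg => (1:ℝ) - (1 + τ) / 2) = fun _ => (1 - τ) / 2 := by
    funext _; ring
  rw [h5] at h4
  rw [h3]
  refine h2.trans (h1.trans ?_)
  exact h4.symm

theorem ra_iff (a : ℕ) (G : Set Edg) : RA (0, 0) a G ↔
    TA (RE (-(12 * a : ℤ)) (12 * a) (-(12 * a : ℤ)) (3 * a)) (fun w => w.2 = -(12 * a : ℤ))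
      (RE (-(12 * a : ℤ)) (12 * a) (-(3 * a : ℤ)) (12 * a)) (fun w => w.2 = (12 * a : ℤ))
      (0, 0) (0, 0) G := by
  unfold RA TA OA CA PR DR
  simp only [zero_sub, zero_add]

theorem twolowq (h1 : S_chg) (h2 : S_rec) : S_twolow := by
  obtain ⟨⟨c0, hc0, hL⟩, -, -⟩ := Pool.Agent.Y985.ME.inputs
  obtain ⟨C2, hC2, hA⟩ : ∃ C : ℝ, 0 < C ∧ AnnUp C := by
    obtain ⟨C, hC, h⟩ := H985T.st_A
    exact ⟨C, hC, fun r R hr hR c1 c2 S => h r R hr hR c1 c2 S⟩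
  obtain ⟨_, _, C3, ε, _, _, hC3, hε, _, _, hS⟩ := Q291.NL.inp
  obtain ⟨K4, c4, hK4, hc4, hfour⟩ := fourD
  obtain ⟨K, c2, hK, hc2, hrec⟩ := h2
  obtain ⟨M, hM, hchg⟩ := h1 K4 C2 C3 ε 8 hK4 hC2 hC3 hε hA hS
  have hMK : 0 < M * K := by positivity
  -- the constants
  obtain ⟨b1, hb1⟩ : ∃ b1 : ℝ, b1 = min (min c4 c2) (min ε (c0 / (2 * (M * K)))) := ⟨_, rfl⟩
  have hb1pos : 0 < b1 := by
    rw [hb1]; exact lt_min (lt_min hc4 hc2) (lt_min hε (by positivity))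
  have h3 : (0:ℝ) < (3:ℝ) ^ (-(3/4) : ℝ) := by positivity
  refine ⟨c0 / 2, b1 * (3:ℝ) ^ (-(3/4) : ℝ) / 2, 86, by positivity, by positivity, by norm_num, ?_⟩
  intro q hq0 hq1 a ha hq
  have ha0 : (0:ℝ) < a := by
    have : 0 < a := by omega
    exact_mod_cast this
  obtain ⟨τ, hτ⟩ : ∃ τ : ℝ, τ = 1 - 2 * q := ⟨_, rfl⟩
  have hτ0 : 0 ≤ τ := by rw [hτ]; linarith
  have hτ1 : τ ≤ 1 := by rw [hτ]; linarith
  have hτq : (1 - τ) / 2 = q := by rw [hτ]; ring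
  obtain ⟨k, hk⟩ : ∃ k : ℕ, k = 3 * a := ⟨_, rfl⟩
  have hkR : (k:ℝ) = 3 * a := by rw [hk]; push_cast; ring
  have hk0 : (0:ℝ) < k := by rw [hkR]; positivity
  have hτk : τ ≤ b1 * (k:ℝ) ^ (-(3/4) : ℝ) := by
    rw [hkR, Real.mul_rpow (by norm_num) ha0.le]
    have : τ = 2 * (1/2 - q) := by rw [hτ]; ring
    rw [this]
    calc 2 * (1/2 - q) ≤ 2 * (b1 * (3:ℝ) ^ (-(3/4) : ℝ) / 2 * (a:ℝ) ^ (-(3/4) : ℝ)) :=
          mul_le_mul_of_nonneg_left hq (by norm_num)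
      _ = b1 * ((3:ℝ) ^ (-(3/4) : ℝ) * (a:ℝ) ^ (-(3/4) : ℝ)) := by ring
  have hp : 0 ≤ (k:ℝ) ^ (-(3/4) : ℝ) := by positivity
  have e1 : τ ≤ c4 * (k:ℝ) ^ (-(3/4) : ℝ) := hτk.trans (mul_le_mul_of_nonneg_right
    (by rw [hb1]; exact (min_le_left _ _).trans (min_le_left _ _)) hp)
  have e2 : τ ≤ c2 * (k:ℝ) ^ (-(3/4) : ℝ) := hτk.trans (mul_le_mul_of_nonneg_right
    (by rw [hb1]; exact (min_le_left _ _).trans (min_le_right _ _)) hp)
  have e3 : τ ≤ ε * (k:ℝ) ^ (-(3/4) : ℝ) := hτk.trans (mul_le_mul_of_nonneg_right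
    (by rw [hb1]; exact (min_le_right _ _).trans (min_le_left _ _)) hp)
  have e4 : τ ≤ c0 / (2 * (M * K)) * (k:ℝ) ^ (-(3/4) : ℝ) :=
    hτk.trans (mul_le_mul_of_nonneg_right
      (by rw [hb1]; exact (min_le_right _ _).trans (min_le_right _ _)) hp)
  have hHy : Hy K4 ε K τ k := by
    refine ⟨hτ0, hτ1, hK, ?_, ?_, e3⟩
    · intro j hj
      exact hfour τ hτ0 hτ1 k (by omega) e1 j (by omega)
    · intro j hj
      exact hrec τ hτ0 hτ1 k (by omega) e2 j (by omega)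
  set S : Finset Edg := RE (-(13 * a : ℕ)) (14 * a : ℕ) (-(13 * a : ℕ)) (14 * a : ℕ) with hSdef
  have hC := hchg K τ k (0, 0) (0, 0) (-(12 * a : ℤ)) (12 * a) (-(12 * a : ℤ)) (3 * a)
    (-(12 * a : ℤ)) (12 * a) (-(3 * a : ℤ)) (12 * a) (fun w => w.2 = -(12 * a : ℤ))
    (fun w => w.2 = (12 * a : ℤ)) S hHy ⟨Or.inl rfl, Or.inl rfl⟩
    (by
      subst hk
      refine ⟨?_, ?_, ?_, ?_, ?_, ?_, ?_⟩
      · push_cast; show _ ≤ (0:ℤ) - _; omega
      · push_cast; show (0:ℤ) + _ ≤ _; omega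
      · push_cast; show _ ≤ (0:ℤ) - _; omega
      · push_cast; show (0:ℤ) + _ ≤ _; omega
      · push_cast; omega
      · push_cast; omega
      · intro w hw
        right; right; left
        exact le_of_eq hw)
    (by
      subst hk
      refine ⟨?_, ?_, ?_, ?_, ?_, ?_, ?_⟩
      · push_cast; show _ ≤ (0:ℤ) - _; omega
      · push_cast; show (0:ℤ) + _ ≤ _; omega
      · push_cast; show _ ≤ (0:ℤ) - _; omega
      · push_cast; show (0:ℤ) + _ ≤ _; omega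
      · push_cast; omega
      · push_cast; omega
      · intro w hw
        right; right; right
        exact le_of_eq hw.symm)
    (by
      rw [hSdef]
      push_cast
      exact RE_subset (by omega) (by omega) (by omega) (by omega))
    (by
      rw [hSdef]
      push_cast
      rintro ⟨x, y, _ | _⟩ he
      · rw [dl_f, mem_RE_true] at he
        rw [mem_RE_false]
        omega
      · rw [dl_t, mem_RE_false] at he
        rw [mem_RE_true]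
        omega)
    (by omega)
  have hlow := hL a (by omega)
  rw [← hSdef] at hlow
  have hmain : Pr (fun _ => (1/2:ℝ)) S (fun F => RA (0, 0) a (↑F)) ≤
      P2 τ S (fun F D => RA (0, 0) a (↑(F \ D) : Set Edg)) +
        P2 τ S (ChT (RE (-(12 * a : ℤ)) (12 * a) (-(12 * a : ℤ)) (3 * a))
          (fun w => w.2 = -(12 * a : ℤ)) (RE (-(12 * a : ℤ)) (12 * a) (-(3 * a : ℤ)) (12 * a))
          (fun w => w.2 = (12 * a : ℤ)) (0, 0) (0, 0)) := by
    rw [← P2_open τ S (fun F => RA (0, 0) a (↑F : Set Edg))]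
    refine (P2_mono hτ0 hτ1 (fun F D _ _ h => ?_)).trans (P2_or hτ0 hτ1 _ _ _)
    by_cases h5 : RA (0, 0) a (↑(F \ D) : Set Edg)
    · exact Or.inl h5
    · right
      refine ⟨F \ D, ?_, ?_⟩
      · intro e he
        rw [Finset.mem_sdiff]
        exact ⟨fun h => h.1, fun h => ⟨h, he⟩⟩
      · rw [← ra_iff, ← ra_iff]
        intro h6
        exact h5 (h6.mpr h)
  rw [P2_sdiff_low τ S (fun G => RA (0, 0) a (↑G : Set Edg)), hτq] at hmain
  have hlast : τ * (M * K * (k:ℝ) ^ (1/2 : ℝ)) ≤ c0 / 2 * (a:ℝ) ^ (-(1/4) : ℝ) := by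
    have e5 : (k:ℝ) ^ (-(3/4) : ℝ) * (k:ℝ) ^ (1/2 : ℝ) = (k:ℝ) ^ (-(1/4) : ℝ) := by
      rw [← Real.rpow_add hk0]; norm_num
    have e6 : (k:ℝ) ^ (-(1/4) : ℝ) ≤ (a:ℝ) ^ (-(1/4) : ℝ) := by
      apply Real.rpow_le_rpow_of_nonpos ha0 _ (by norm_num)
      rw [hkR]; linarith
    calc τ * (M * K * (k:ℝ) ^ (1/2 : ℝ))
        ≤ (c0 / (2 * (M * K)) * (k:ℝ) ^ (-(3/4) : ℝ)) * (M * K * (k:ℝ) ^ (1/2 : ℝ)) :=
          mul_le_mul_of_nonneg_right e4 (by positivity)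
      _ = c0 / 2 * ((k:ℝ) ^ (-(3/4) : ℝ) * (k:ℝ) ^ (1/2 : ℝ)) := by
          field_simp
      _ = c0 / 2 * (k:ℝ) ^ (-(1/4) : ℝ) := by rw [e5]
      _ ≤ c0 / 2 * (a:ℝ) ^ (-(1/4) : ℝ) := mul_le_mul_of_nonneg_left e6 (by positivity)
  have hfin : c0 * (a:ℝ) ^ (-(1/4) : ℝ) = c0 / 2 * (a:ℝ) ^ (-(1/4) : ℝ) +
      c0 / 2 * (a:ℝ) ^ (-(1/4) : ℝ) := by ring
  linarith

end H953S
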