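import Pool.Agent.H953.Spd.Two

/-!
C3: the two-arm probability near the critical point, upper bound (`S_twoup` from `S_rec`).
-/

set_option autoImplicit false

namespace H953S

open H974 Finset H12S H342P H984P H984H Q291.EP Q291.NL Q291.AD

/-- `F \ D` is percolation with parameter `(1 - τ) / 2`. -/
theorem P2_sdiff {E : Type*} [DecidableEq E] (τ : ℝ) (S : Finset E) (B : Finset E → Prop) :
    P2 τ S (fun F D => B (F \ D)) = Pr (fun _ => (1 - τ) / 2) S B := by
  rw [← P2_compl τ S (fun F D => B (F \ D))]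
  have h1 : P2 τ S (fun F D => B ((S \ F) \ D)) = P2 τ S (fun F D => B (S \ (F ∪ D))) := by
    refine P2_congr fun F D _ _ => ?_
    rw [_root_.sdiff_sdiff_left]
    rfl
  rw [h1, P2_union τ S (fun G => B (S \ G))]
  unfold Pr
  rw [← Ex_compl (fun _ : E => (1 + τ) / 2) S (fun F => ind (B F))]
  have e : (fun _ : E => (1:ℝ) - (1 + τ) / 2) = fun _ => (1 - τ) / 2 := by
    funext
    ring
  rw [e]

theorem adm_sdiff {E : Type*} [DecidableEq E] (F D : Finset E) : Adm F D (F \ D) := by
  intro e he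
  rw [Finset.mem_sdiff]
  tauto

theorem twoupq (h : S_rec) : S_twoup := by
  obtain ⟨K, ε, hK, hε, h⟩ := h
  refine ⟨K, ε / 2, by linarith, by linarith, ?_⟩
  intro q hq0 hq1 n hn hq u p hup
  have h0 : 0 ≤ 1 - 2 * q := by linarith
  have h1 : 1 - 2 * q ≤ 1 := by linarith
  have h2 := h (1 - 2 * q) h0 h1 n hn (by linarith) n le_rfl u p hup
  have h3 : Pr (fun _ => q) (blk u n) (fun F => Two u p n (↑F : Set Edg)) =
      P2 (1 - 2 * q) (blk u n) (fun F D => Two u p n (↑(F \ D) : Set Edg)) := by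
    rw [P2_sdiff (1 - 2 * q) (blk u n) (fun F => Two u p n (↑F : Set Edg))]
    congr 1
    funext
    ring
  have h4 : P2 (1 - 2 * q) (blk u n) (fun F D => Two u p n (↑(F \ D) : Set Edg)) ≤
      P2 (1 - 2 * q) (blk u n) (AA (fun G => Two u p n (↑G : Set Edg))) :=
    P2_mono h0 h1 fun F D _ _ hT => ⟨F \ D, adm_sdiff F D, hT⟩
  rw [h3]
  refine h4.trans (h2.trans ?_)
  refine mul_le_mul_of_nonneg_left ?_ (by linarith)
  have hn' : (1:ℝ) ≤ n := by exact_mod_cast hn
  exact Real.rpow_le_rpow_of_nonpos (by linarith) (by linarith) (by norm_num)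

end H953S
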