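import Pool.Agent.H953.Spd.Defs
import Pool.Graph.R_seed8.H984R4.HN.Couple
import Pool.Graph.R_seed8.H984R3.Per.Pot

/-!
B1: the states visited by the exploration path.
-/

set_option autoImplicit false

namespace H953S

open H974 Finset H342P H984P H984H MeasureTheory

theorem Vis_dstep (G : Set Edg) (σ : St) : DReach Gᶜ (face σ) (face (step G σ)) := by
  have h := nxt_step G σ
  by_cases h1 : ae (step G σ) ∈ G
  · rw [nxt_open h1] at h
    have h2 := p2_face_mv (step G σ)
    rw [h] at h2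
    rw [h2]
    exact DReach.refl _ _
  · rw [nxt_closed h1] at h
    have h2 := p2_dends (step G σ)
    rw [h] at h2
    refine DAdj.reach ⟨ae (step G σ), h1, ?_⟩
    exact h2.symm

theorem Vis_face (ω : Conf) (k : ℕ) : DReach (opn ω)ᶜ (0, 0) (face (path ω k)) := by
  induction k with
  | zero => exact DReach.refl _ _
  | succ k ih =>
    rw [path_succ]
    exact ih.trans (Vis_dstep _ _)

theorem Vis_mem_opn (ω : Conf) (x y : ℤ) (b : Bool) : ((x, y, b) : Edg) ∈ opn ω ↔
    ((y = 0 ∧ b = true ∧ x < 0) ∨ (0 ≤ y ∧ ¬ (y = 0 ∧ b = true) ∧ ω (x, y, b) = true)) := Iff.rfl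

theorem Vis_und_nxt (ω : Conf) {σ : St} (h : Und σ) : Und (nxt (opn ω) σ) := by
  obtain ⟨⟨x, y⟩, q⟩ := σ
  obtain ⟨h1, h2, h3⟩ := h
  simp only at h1 h2 h3
  subst h1
  rcases h3 with rfl | rfl
  · have h4 : ae ((x, 0), .sw) ∈ opn ω := by
      rw [ae_sw, Vis_mem_opn]
      left
      exact ⟨rfl, rfl, by omega⟩
    rw [nxt_open h4, mv_sw]
    exact ⟨rfl, by simp only; omega, Or.inr rfl⟩
  · have h4 : ae ((x, 0), .se) ∉ opn ω := by
      rw [ae_se, Vis_mem_opn]
      intro h
      rcases h with h | h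
      · exact absurd h.2.1 (by simp)
      · have := h.1
        omega
    rw [nxt_closed h4, rt_se]
    exact ⟨rfl, h2, Or.inl rfl⟩

theorem Vis_und_step (ω : Conf) {σ : St} (h : Und σ) :
    Und (step (opn ω) σ) ∨ step (opn ω) σ = path ω 0 := by
  obtain ⟨⟨x, y⟩, q⟩ := σ
  obtain ⟨h1, h2, h3⟩ := h
  simp only at h1 h2 h3
  subst h1
  rcases h3 with rfl | rfl
  · have h4 : ((x, 0 - 1, false) : Edg) ∉ opn ω := by
      rw [Vis_mem_opn]
      intro h
      rcases h with h | h
      · exact absurd h.2.1 (by simp)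
      · have := h.1
        omega
    left
    simp only [step]
    rw [if_neg h4]
    exact ⟨rfl, h2, Or.inr rfl⟩
  · rcases lt_or_eq_of_le h2 with h5 | h5
    · have h4 : ((x, 0, true) : Edg) ∈ opn ω := by
        rw [Vis_mem_opn]
        left
        exact ⟨rfl, rfl, h5⟩
      left
      simp only [step]
      rw [if_pos h4]
      exact ⟨rfl, by simp only; omega, Or.inl rfl⟩
    · subst h5
      have h4 : ((0, 0, true) : Edg) ∉ opn ω := by
        rw [Vis_mem_opn]
        simp
      right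
      simp only [step]
      rw [if_neg h4]
      rfl

theorem Vis_not_und (ω : Conf) (k : ℕ) : ¬ Und (path ω k) := by
  induction k with
  | zero =>
    rintro ⟨-, -, h | h⟩
    · exact absurd h (by simp [path])
    · exact absurd h (by simp [path])
  | succ k ih =>
    intro h
    rw [path_succ] at h
    have h1 := Vis_und_nxt ω h
    rw [nxt_step] at h1
    exact ih h1

theorem Vis_inv (ω : Conf) (σ : St) :
    σ ∈ {σ : St | Vis ω σ ∨ Und σ} ↔ nxt (opn ω) σ ∈ {σ : St | Vis ω σ ∨ Und σ} := by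
  show (Vis ω σ ∨ Und σ) ↔ (Vis ω (nxt (opn ω) σ) ∨ Und (nxt (opn ω) σ))
  constructor
  · rintro (⟨k, rfl⟩ | h)
    · cases k with
      | zero =>
        right
        have h4 : ae (path ω 0) ∉ opn ω := by
          show ((0, 0, true) : Edg) ∉ opn ω
          rw [Vis_mem_opn]
          simp
        rw [nxt_closed h4]
        exact ⟨rfl, le_refl _, Or.inr rfl⟩
      | succ k =>
        left
        refine ⟨k, ?_⟩
        rw [path_succ, nxt_step]
    · exact Or.inr (Vis_und_nxt ω h)
  · rintro (⟨k, hk⟩ | h)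
    · left
      refine ⟨k + 1, ?_⟩
      rw [path_succ, hk, step_nxt]
    · rcases Vis_und_step ω h with h1 | h1
      · rw [step_nxt] at h1
        exact Or.inr h1
      · rw [step_nxt] at h1
        exact Or.inl ⟨0, h1.symm⟩

theorem Vis_const_reach {G : Set Edg} {f : Vtx → ZMod 2}
    (hf : ∀ e ∈ G, f (src e) = f (tgt e)) {u v : Vtx} (h : Reach G u v) : f u = f v := by
  induction h with
  | refl => rfl
  | @tail b c _ hs ih =>
    rw [ih]
    obtain ⟨e, he, hc⟩ := hs
    rcases hc with ⟨rfl, rfl⟩ | ⟨rfl, rfl⟩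
    · exact hf e he
    · exact (hf e he).symm

theorem Vis_const_dreach {G : Set Edg} {f : Vtx → ZMod 2}
    (hf : ∀ e ∈ G, f (dsrc e) = f (dtgt e)) {u v : Vtx} (h : DReach G u v) : f u = f v := by
  induction h with
  | refl => rfl
  | @tail b c _ hs ih =>
    rw [ih]
    obtain ⟨e, he, hc⟩ := hs
    rcases hc with ⟨rfl, rfl⟩ | ⟨rfl, rfl⟩
    · exact hf e he
    · exact (hf e he).symm

/-- **B1**: the states visited by the exploration path. -/
theorem vis : S_vis := by
  intro ω σ
  constructor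
  · rintro ⟨k, rfl⟩
    exact ⟨path_clu ω k, Vis_face ω k, Vis_not_und ω k⟩
  · rintro ⟨h1, h2, h3⟩
    obtain ⟨hv, hf, hA, hvo, hfc⟩ := pot_of_inv (opn ω) {σ : St | Vis ω σ ∨ Und σ} (Vis_inv ω)
    have e1 : hv (0, 0) = hv σ.1 := Vis_const_reach hvo h1
    have e2 : hf (0, 0) = hf (face σ) := Vis_const_dreach (fun e he => hfc e he) h2
    have e3 := hA (path ω 0)
    have e4 := hA σ
    have e5 : path ω 0 ∈ {σ : St | Vis ω σ ∨ Und σ} := Or.inl ⟨0, rfl⟩
    have e6 : hv (path ω 0).1 = hv (0, 0) := rfl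
    have e7 : hf (face (path ω 0)) = hf (0, 0) := rfl
    rw [e6, e7, e1, e2, e4] at e3
    by_contra hn
    have e8 : σ ∉ {σ : St | Vis ω σ ∨ Und σ} := by
      rintro (h | h)
      · exact hn h
      · exact h3 h
    rw [b2_of e5, b2_not_of e8] at e3
    exact absurd e3 (by decide)

end H953S
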