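import Pool.Agent.H953.Spd.Asm2
import Pool.Agent.H953.Spd.Vis
import Pool.Agent.H953.Spd.Sides
import Pool.Agent.H953.Spd.Na
import Pool.Agent.H953.Spd.Order
import Pool.Agent.H953.Spd.Sum
import Pool.Agent.H953.Spd.SumN
import Pool.Agent.H953.Spd.Merge
import Pool.Agent.H953.Spd.Stab
import Pool.Agent.H953.Spd.Stab2
import Pool.Agent.H953.Spd.Time
import Pool.Agent.H953.Spd.Det
import Pool.Agent.H953.Spd.Erg
import Pool.Agent.H953.Spd.RadP
import Pool.Agent.H953.Spd.NaPos
import Pool.Agent.H953.Spd.Dns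
import Pool.Agent.H953.Spd.Tog
import Pool.Agent.H953.Spd.GA
import Pool.Agent.H953.Spd.GB
import Pool.Agent.H953.Spd.Bulk
import Pool.Agent.H953.Spd.Bdry
import Pool.Agent.H953.Spd.SumO
import Pool.Agent.H953.Spd.DualT
import Pool.Agent.H953.Spd.Chg
import Pool.Agent.H953.Spd.TwoIff
import Pool.Agent.H953.Spd.RecT
import Pool.Agent.H953.Spd.TwoUpq
import Pool.Agent.H953.Spd.TwoLowq
import Pool.Agent.H953.Spd.PI
import Pool.Agent.H953.Spd.DLaw
import Pool.Agent.H953.Spd.VT
import Pool.Agent.H953.Spd.Ann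
import Pool.Agent.H953.Spd.MixE
import Pool.Agent.H953.Spd.RaTr
import Pool.Agent.H953.Spd.PD
import Pool.Agent.H953.Spd.Low
import Pool.Agent.H953.Spd.Up
import Pool.Agent.H953.Spd.Glue

/-!
The speed of the exploration path: the proof is complete.
-/

set_option autoImplicit false

namespace H953S

theorem s_sumN : S_sumN := sumN (sum vis (order vis) (na sides) sides)

theorem s_sumO : S_sumO := sumO (bulk ga.1 ga.2.1 gb) (bdry ga.1 ga.2.1 ga.2.2)

theorem s_chg : S_chg := chg tog s_sumO dualT

theorem s_rec : S_rec := recT s_chg twoIff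

theorem s_twoup : S_twoup := twoupq s_rec

theorem s_twolow : S_twolow := twolowq s_chg s_rec

theorem s_up : S_up := up (vt vis) s_twoup ann

theorem s_low : S_low := low vis glueT mixE ratr pI dlaw pD s_twolow

theorem goal : S_goal :=
  asm (det (stab s_sumN (merge s_sumN)) (time (sum vis (order vis) (na sides) sides))) erg rad
    napos (dns erg napos) s_sumN (stab2 s_sumN (merge s_sumN)) s_up s_low

end H953S
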