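import Pool.Agent.H953.Spd.Fin
import Pool.Graph.R_seed8.H984R4.HN.Two
import Pool.Graph.R_pool_sql_team_seeded_3997aac3.Q291.AD.Rec

/-!
The two-arm event with defects: definitions and statements.

Library used: `P2`, `Adm`, `AA`, `mix`, `Loc2`, `pivot` (`Q291/AD/Basic.lean`), `A4D`, `QF`, `cr_def`,
`fourD` (`Q291/AD/Four.lean`, `Rec.lean`), `A4e`, `ebx`, `loc_a4` (`R_seed8/H12R2/Sep/*`), `Cr`, `Sta`
(`Q291/EP/*`), `Two`, `Far`, `FarF`, `Inc` (`H342P`), `two_An`, `two_inter`, `two_pr`, `AnnUp` (`H984H`).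
-/

set_option autoImplicit false

namespace H953S

open H974 Finset H12S H342P H984P H984H Q291.EP Q291.NL Q291.AD

/-- The open arm from `u` to the target `I` in the set `P` of edges. -/
def OA (P : Finset Edg) (I : Vtx → Prop) (u : Vtx) (G : Set Edg) : Prop :=
  ∃ w, I w ∧ Reach (G ∩ ↑P) u w

/-- The closed dual arm from the face `p` to the target `J`; `T` is a set of dual edges. -/
def CA (T : Finset Edg) (J : Vtx → Prop) (p : Vtx) (G : Set Edg) : Prop :=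
  ∃ g, J g ∧ DReach (dE T \ G) p g

/-- Both arms. -/
def TA (P : Finset Edg) (I : Vtx → Prop) (T : Finset Edg) (J : Vtx → Prop) (u p : Vtx)
    (G : Set Edg) : Prop := OA P I u G ∧ CA T J p G

/-- `f` is pivotal for the open arm, and there is the dual arm. -/
def pO (P : Finset Edg) (I : Vtx → Prop) (T : Finset Edg) (J : Vtx → Prop) (u p : Vtx) (f : Edg)
    (G : Set Edg) : Prop :=
  OA P I u (insert f G) ∧ ¬ OA P I u (G \ {f}) ∧ CA T J p (insert f G)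

/-- `f` is pivotal for the dual arm, and there is the open arm. -/
def pC (P : Finset Edg) (I : Vtx → Prop) (T : Finset Edg) (J : Vtx → Prop) (u p : Vtx) (f : Edg)
    (G : Set Edg) : Prop :=
  CA T J p (G \ {f}) ∧ ¬ CA T J p (insert f G) ∧ OA P I u (G \ {f})

/-- A rectangle which contains the box of radius `k` around `u`, with sides at most `Λ k`, and a
target outside of its interior. -/
structure Rg (Λ k : ℕ) (u : Vtx) (a b c d : ℤ) (I : Vtx → Prop) : Prop where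
  l1 : a ≤ u.1 - k
  u1 : u.1 + k ≤ b
  l2 : c ≤ u.2 - k
  u2 : u.2 + k ≤ d
  w : b - a ≤ Λ * k
  h : d - c ≤ Λ * k
  tg : ∀ w, I w → w.1 ≤ a ∨ b ≤ w.1 ∨ w.2 ≤ c ∨ d ≤ w.2

/-- Distance of the first endpoint of `f` from `u`. -/
def D1 (u : Vtx) (f : Edg) : ℕ := max (f.1 - u.1).natAbs (f.2.1 - u.2).natAbs

/-- Some defect `f` is pivotal (for the open arm) for a configuration which is admissible near `u`
and unperturbed farther away than `f`. -/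
def PO (P : Finset Edg) (I : Vtx → Prop) (T : Finset Edg) (J : Vtx → Prop) (u p : Vtx) (f : Edg)
    (F D : Finset Edg) : Prop :=
  f ∈ D ∧ ∃ G T' : Finset Edg, Adm F D G ∧ (∀ g ∈ T', D1 u g ≤ D1 u f + 4) ∧
    pO P I T J u p f ↑(mix T' G F)

/-- The same for the dual arm. -/
def PC (P : Finset Edg) (I : Vtx → Prop) (T : Finset Edg) (J : Vtx → Prop) (u p : Vtx) (f : Edg)
    (F D : Finset Edg) : Prop :=
  f ∈ D ∧ ∃ G T' : Finset Edg, Adm F D G ∧ (∀ g ∈ T', D1 u g ≤ D1 u f) ∧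
    pC P I T J u p f ↑(mix T' G F)

/-- The bound for the two-arm probability with defects at scale `k`. -/
def Q2 (K τ : ℝ) (k : ℕ) : Prop := ∀ u p : Vtx, Inc u p →
  P2 τ (blk u k) (AA (fun G => Two u p k (↑G : Set Edg))) ≤ K * ((k:ℝ) + 1) ^ (-(1/4) : ℝ)

/-- The defects can change whether the two arms exist. -/
def ChT (P : Finset Edg) (I : Vtx → Prop) (T : Finset Edg) (J : Vtx → Prop) (u p : Vtx)
    (F D : Finset Edg) : Prop :=
  ∃ G, Adm F D G ∧ ¬ (TA P I T J u p (↑G : Set Edg) ↔ TA P I T J u p (↑F : Set Edg))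

/-! ### Geometry -/

/-- G0: the two ways of being pivotal (insert/remove: `OA` is increasing, `CA` is decreasing). -/
def S_tog : Prop := ∀ (P : Finset Edg) (I : Vtx → Prop) (T : Finset Edg) (J : Vtx → Prop)
  (u p : Vtx) (f : Edg) (G : Set Edg),
  ¬ (TA P I T J u p (insert f G) ↔ TA P I T J u p (G \ {f})) →
    pO P I T J u p f G ∨ pC P I T J u p f G

/-- G1: four arms around `f` (`loc_a4` applied to `Pv {u} {w | I w} f (G ∩ P)`, then `A4e_local` and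
monotonicity as at the end of `pv_f` in `Q291/NL/Piv.lean`). -/
def S_g1 : Prop := ∀ (Λ k : ℕ) (u p : Vtx) (a b c d : ℤ) (I : Vtx → Prop) (T : Finset Edg)
  (J : Vtx → Prop) (f : Edg) (G : Set Edg) (s : ℕ), Rg Λ k u a b c d I → 1 ≤ s →
  a ≤ f.1 - s → f.1 + s ≤ b → c ≤ f.2.1 - s → f.2.1 + s ≤ d → s ≤ D1 u f →
  pO (RE a b c d) I T J u p f G → A4e s f G

/-- G2: two arms around `u`. -/
def S_g2 : Prop := ∀ (Λ k : ℕ) (u p : Vtx) (a b c d a' b' c' d' : ℤ) (I J : Vtx → Prop)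
  (f : Edg) (G : Set Edg) (s : ℕ), Inc u p → Rg Λ k u a b c d I → Rg Λ k p a' b' c' d' J →
  s < k → f ∉ blk u s →
  pO (RE a b c d) I (RE a' b' c' d') J u p f G → Two u p s G

/-- G3: two arms in the annulus; they are arms of the unperturbed configuration. -/
def S_g3 : Prop := ∀ (Λ k : ℕ) (u p : Vtx) (a b c d a' b' c' d' : ℤ) (I J : Vtx → Prop)
  (f : Edg) (F G S : Finset Edg) (r : ℕ), Inc u p → Rg Λ k u a b c d I →
  Rg Λ k p a' b' c' d' J → RE a b c d ⊆ S → (∀ e, dl e ∈ RE a' b' c' d' → e ∈ S) →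
  (∀ e, e ∉ blk u r → (e ∈ G ↔ e ∈ F)) → f ∈ blk u r → r + 2 ≤ k →
  pO (RE a b c d) I (RE a' b' c' d') J u p f (↑G : Set Edg) →
    two_An (S \ blk u r) u (r + 1) (k - 1) F

/-- G4: an open path from a neighbourhood of `f` to `u` (compare `pv_cr` in
`Q291/NL/Piv.lean`). -/
def S_g4 : Prop := ∀ (P : Finset Edg) (I : Vtx → Prop) (T : Finset Edg) (J : Vtx → Prop)
  (u p z : Vtx) (f : Edg) (G : Set Edg) (r R : ℕ), sd (src f) z + 1 ≤ r → (R:ℤ) ≤ sd u z →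
  pO P I T J u p f G → Cr z r R (G ∩ ↑P)

/-! ### The bounds for one edge -/

/-- The hypotheses of the bounds. -/
structure Hy (K4 ε K τ : ℝ) (k : ℕ) : Prop where
  t0 : 0 ≤ τ
  t1 : τ ≤ 1
  K1 : 1 ≤ K
  q4 : ∀ j < k, QF K4 τ j
  q2 : ∀ j < k, Q2 K τ j
  eta : τ ≤ ε * (k:ℝ) ^ (-(3/4) : ℝ)

/-- B1: far from the boundary (compare `bulkD` in `Q291/AD/Four.lean`). With `s = D1 u f`: for
`s ≥ 64` put `s1 = s / 16`; the event `PO` implies, for disjoint sets of edges: `AA (Two u p s1)` in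
`blk u s1` (G2), `A4D s1 f` in `(ebx f s1).erase f` (G1), `f ∈ D`, and `two_An` outside of
`blk u (2 s + 6)` for `F` (G3, with `r = 2 s + 6`: `T'`, `f` and `ebx f s1` are in `blk u (2 s + 6)`),
with the probabilities `≤ K (s1 + 1)^(-1/4)` (`Q2`, `P2_local`), `≤ K4 (s1 + 1)^(-5/4)` (`QF.big`),
`τ` (`P2_mem`), `≤ C2 ((2 s + 7)/(k - 1))^(1/4)` (`P2_open`, `two_pr`); combine with `P2_two`.
For `s < 64` only the last two are used. -/
def S_bulk : Prop := ∀ K4 C2 : ℝ, 1 ≤ K4 → 0 < C2 → AnnUp C2 → ∃ M : ℝ, 1 ≤ M ∧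
  ∀ (ε K τ : ℝ) (Λ k : ℕ) (u p : Vtx) (a b c d a' b' c' d' : ℤ) (I J : Vtx → Prop) (f : Edg)
    (S : Finset Edg), Hy K4 ε K τ k → Inc u p → Rg Λ k u a b c d I → Rg Λ k p a' b' c' d' J →
    RE a b c d ⊆ S → (∀ e, dl e ∈ RE a' b' c' d' → e ∈ S) → f ∈ RE a b c d →
    2 * D1 u f + 16 ≤ k →
    P2 τ S (PO (RE a b c d) I (RE a' b' c' d') J u p f) ≤
      τ * (M * K * ((D1 u f : ℝ) + 1) ^ (-(5/4) : ℝ) * (k:ℝ) ^ (-(1/4) : ℝ))

/-- B2: near the boundary of the rectangle (compare `bdryD`, `geo` in `Q291/AD/Four.lean`). `t` is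
the distance of the first endpoint of `f` from the complement of the rectangle, `z` is the nearest
point of the boundary, `k1 = k / 16`, `t1 = min t k1`. The event `PO` implies, for disjoint sets of
edges: `AA (Two u p k1)` in `blk u k1` (G2), `A4D t1 f` in `(ebx f t1).erase f` if `1 ≤ t1` (G1),
`f ∈ D`, and, if `2 t + 2 ≤ k / 4`, `Cr z (2 t + 2) (k / 4) (F ∪ D)` inside the rectangle and hence in
a half-plane whose boundary contains `z` (G4, `cr_def`, `P2_local` to the edges of the rectangle).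
If `2 t + 2 > k / 4` then the claim follows from `t ≤ Λ k`. -/
def S_bdry : Prop := ∀ (K4 C3 ε : ℝ) (Λ : ℕ), 1 ≤ K4 → 1 ≤ C3 → 0 < ε → (∀ x y : Bool, Sta C3 ε x y) →
  ∃ M : ℝ, 1 ≤ M ∧
  ∀ (K τ : ℝ) (k : ℕ) (u p : Vtx) (a b c d a' b' c' d' : ℤ) (I J : Vtx → Prop) (f : Edg)
    (S : Finset Edg) (t : ℕ), Hy K4 ε K τ k → Inc u p → Rg Λ k u a b c d I →
    Rg Λ k p a' b' c' d' J →
    RE a b c d ⊆ S → (∀ e, dl e ∈ RE a' b' c' d' → e ∈ S) → f ∈ RE a b c d → 256 ≤ k →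
    k < 2 * D1 u f + 16 → a + t ≤ f.1 → f.1 + t ≤ b → c + t ≤ f.2.1 → f.2.1 + t ≤ d →
    (a + t = f.1 ∨ f.1 + t = b ∨ c + t = f.2.1 ∨ f.2.1 + t = d) →
    P2 τ S (PO (RE a b c d) I (RE a' b' c' d') J u p f) ≤
      τ * (M * K * (k:ℝ) ^ (-(13/24) : ℝ) * ((t:ℝ) + 1) ^ (-(23/24) : ℝ))

/-- B3: the sum over `f`: `Σ_s (s + 1) (s + 1)^(-5/4) k^(-1/4) ≲ k^(1/2)` (at most `16 (s + 1)` edges
with `D1 u f = s`) and `Σ_t Λ k · k^(-13/24) (t + 1)^(-23/24) ≲ k^(1/2)` (at most `8 (Λ k + 1)` edges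
of the rectangle with a given `t ≤ Λ k`; `Σ_{t ≤ n} (t + 1)^(-23/24) ≤ 24 (n + 1)^(1/24)`). If
`f ∉ RE a b c d` then `pO` is impossible. -/
def S_sumO : Prop := ∀ (K4 C2 C3 ε : ℝ) (Λ : ℕ), 1 ≤ K4 → 0 < C2 → 1 ≤ C3 → 0 < ε → AnnUp C2 →
  (∀ x y : Bool, Sta C3 ε x y) → ∃ M : ℝ, 1 ≤ M ∧
  ∀ (K τ : ℝ) (k : ℕ) (u p : Vtx) (a b c d a' b' c' d' : ℤ) (I J : Vtx → Prop)
    (S : Finset Edg), Hy K4 ε K τ k → Inc u p → Rg Λ k u a b c d I →
    Rg Λ k p a' b' c' d' J →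
    RE a b c d ⊆ S → (∀ e, dl e ∈ RE a' b' c' d' → e ∈ S) → 256 ≤ k →
    P2 τ S (fun F D => ∃ f ∈ S, PO (RE a b c d) I (RE a' b' c' d') J u p f F D) ≤
      τ * (M * K * (k:ℝ) ^ (1/2 : ℝ))

/-- B4: duality. The dual configuration of `G` (a subset of `S`) is `(S \ G).map dl`; the face `p`
becomes the vertex `p`, and the vertex `u` becomes the face `u - (1, 1)`; `P` becomes
`P.map (dl ∘ dl)`, which is the translate of `P` by `(-1, -1)`. Use `P2_compl`, `P2_map`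
(`Q291/AD/Basic.lean`). -/
def S_dual : Prop := ∀ (τ : ℝ) (u p : Vtx) (a b c d a' b' c' d' : ℤ) (I J : Vtx → Prop)
  (S : Finset Edg), 0 ≤ τ → τ ≤ 1 → Inc u p →
    RE a b c d ⊆ S → (∀ e, dl e ∈ RE a' b' c' d' → e ∈ S) →
    P2 τ S (fun F D => ∃ f ∈ S, PC (RE a b c d) I (RE a' b' c' d') J u p f F D) ≤
      P2 τ (S.map dl.toEmbedding) (fun F D => ∃ f ∈ S.map dl.toEmbedding,
        PO (RE a' b' c' d') J (RE (a - 1) (b - 1) (c - 1) (d - 1))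
          (fun w => I (w.1 + 1, w.2 + 1)) p (u.1 - 1, u.2 - 1) f F D)

/-- B5: from the pivot lemma `pivot` (`Q291/AD/Basic.lean`, with the order `D1 u`), S_tog, S_sumO and
S_dual (S_sumO is applied twice; for the dual lattice to `S.map dl`, `Inc p (u - (1, 1))`; `dl e ∈
RE (a-1) (b-1) (c-1) (d-1)` for `e = dl g` means `g ∈ RE a b c d`). -/
def S_chg : Prop := ∀ (K4 C2 C3 ε : ℝ) (Λ : ℕ), 1 ≤ K4 → 0 < C2 → 1 ≤ C3 → 0 < ε → AnnUp C2 →
  (∀ x y : Bool, Sta C3 ε x y) → ∃ M : ℝ, 1 ≤ M ∧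
  ∀ (K τ : ℝ) (k : ℕ) (u p : Vtx) (a b c d a' b' c' d' : ℤ) (I J : Vtx → Prop)
    (S : Finset Edg), Hy K4 ε K τ k → Inc u p → Rg Λ k u a b c d I →
    Rg Λ k p a' b' c' d' J →
    RE a b c d ⊆ S → (∀ e, dl e ∈ RE a' b' c' d' → e ∈ S) → 256 ≤ k →
    P2 τ S (ChT (RE a b c d) I (RE a' b' c' d') J u p) ≤ τ * (M * K * (k:ℝ) ^ (1/2 : ℝ))

/-! ### The recursion and the conclusions -/

/-- C1: `Two` as a case of `TA`: the rectangles `RE (u ± k)` and `RE (u - k - 1, u + k)` (faces), the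
targets being the complements of their interiors. -/
def S_two : Prop := ∀ (u p : Vtx) (k : ℕ) (G : Set Edg), Inc u p → 1 ≤ k →
  (Two u p k G ↔ TA (RE (u.1 - k) (u.1 + k) (u.2 - k) (u.2 + k))
    (fun w => w.1 ≤ u.1 - k ∨ u.1 + k ≤ w.1 ∨ w.2 ≤ u.2 - k ∨ u.2 + k ≤ w.2)
    (RE (u.1 - k - 1) (u.1 + k) (u.2 - k - 1) (u.2 + k))
    (fun w => w.1 ≤ u.1 - k - 1 ∨ u.1 + k ≤ w.1 ∨ w.2 ≤ u.2 - k - 1 ∨ u.2 + k ≤ w.2) u p G)

/-- C2: the recursion (compare `fourD` in `Q291/AD/Rec.lean`): the critical bound `TwoUp C (1/4)`,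
`S_chg` with `Λ = 4`, `fourD`, `NL.inp` (`Sta`). -/
def S_rec : Prop := ∃ K ε : ℝ, 1 ≤ K ∧ 0 < ε ∧ ∀ τ : ℝ, 0 ≤ τ → τ ≤ 1 → ∀ n : ℕ, 1 ≤ n →
  τ ≤ ε * (n:ℝ) ^ (-(3/4) : ℝ) → ∀ k ≤ n, Q2 K τ k

/-- C3: the two-arm probability near the critical point, upper bound: `F \ D` is percolation with
parameter `(1 - τ) / 2` (`P2_compl`, `P2_union`, `Ex_compl`) and `F \ D` is admissible. -/
def S_twoup : Prop := ∃ C β : ℝ, 0 < C ∧ 0 < β ∧ ∀ q : ℝ, 0 ≤ q → q ≤ 1/2 → ∀ n : ℕ, 1 ≤ n →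
  1/2 - q ≤ β * (n:ℝ) ^ (-(3/4) : ℝ) → ∀ u p : Vtx, Inc u p →
    Pr (fun _ => q) (blk u n) (fun F => Two u p n (↑F : Set Edg)) ≤
      C * (n:ℝ) ^ (-(1/4) : ℝ)

/-- C4: the separated two-arm probability near the critical point, lower bound: the critical bound
`LowA`, minus `S_chg` (with `k = 3 a`, `Λ = 8`, rectangles `PR`, `DR`), `S_rec`, `fourD`. -/
def S_twolow : Prop := ∃ (c β : ℝ) (a0 : ℕ), 0 < c ∧ 0 < β ∧ 1 ≤ a0 ∧ ∀ q : ℝ, 0 ≤ q → q ≤ 1/2 →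
  ∀ a : ℕ, a0 ≤ a → 1/2 - q ≤ β * (a:ℝ) ^ (-(3/4) : ℝ) →
    c * (a:ℝ) ^ (-(1/4) : ℝ) ≤
      Pr (fun _ => q) (RE (-(13 * a : ℕ)) (14 * a : ℕ) (-(13 * a : ℕ)) (14 * a : ℕ))
        (fun F => RA (0, 0) a (↑F : Set Edg))

end H953S
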